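import Pool.Agent.Lib.MP_058a58_ag.MT.Stm

set_option autoImplicit false

/-!
# Abstract unfolding

`G` countable acting measurably on `X` and preserving `μ`, `w ≥ 0` measurable with
`∑ g, w (g • x) = 1` for all `x`: `∫ w x * ∑ g, E (g • x) = ∫ E`.
-/

open MeasureTheory Filter Topology
open scoped ENNReal

namespace Pool.Agent.Lib.MP_058a58_ag.MT

section AU

variable {G X : Type*} [Group G] [Countable G] [MeasurableSpace X] [MulAction G X]
  [MeasurableConstSMul G X] {μ : Measure X} [SMulInvariantMeasure G X μ] {w : X → ℝ}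

/-- The weight is at most `1`. -/
theorem AU_le (hn : ∀ x, 0 ≤ w x) (hs : ∀ x, HasSum (fun g : G => w (g • x)) 1) (x : X) :
    w x ≤ 1 := by
  have h := le_hasSum (hs x) (1 : G) (fun g _ => hn _)
  rwa [one_smul] at h

/-- The weight with inverses. -/
theorem AU_inv (hs : ∀ x, HasSum (fun g : G => w (g • x)) 1) (x : X) :
    HasSum (fun g : G => w (g⁻¹ • x)) 1 :=
  (Equiv.inv G).hasSum_iff.2 (hs x)

/-- Each term of the unfolded sum is integrable. -/
theorem AU_int (hw : Measurable w) (hn : ∀ x, 0 ≤ w x)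
    (hs : ∀ x, HasSum (fun g : G => w (g • x)) 1) {E : X → ℂ} (hE : Integrable E μ) (g : G) :
    Integrable (fun x => (w x : ℂ) * E (g • x)) μ := by
  have h1 : Integrable (fun x => E (g • x)) μ :=
    (measurePreserving_smul g μ).integrable_comp_of_integrable hE
  refine h1.bdd_mul (c := 1) ?_ ?_
  · exact (Complex.measurable_ofReal.comp hw).aestronglyMeasurable
  · refine Eventually.of_forall fun x => ?_
    rw [Complex.norm_real, Real.norm_of_nonneg (hn x)]
    exact AU_le hn hs x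

/-- The norms of the terms of the unfolded sum. -/
theorem AU_norm (hw : Measurable w) (hn : ∀ x, 0 ≤ w x)
    (hs : ∀ x, HasSum (fun g : G => w (g • x)) 1) {E : X → ℂ} (hE : Integrable E μ) :
    HasSum (fun g : G => ∫ x, ‖(w x : ℂ) * E (g • x)‖ ∂μ) (∫ x, ‖E x‖ ∂μ) := by
  have e : ∀ g : G, ∫ x, ‖(w x : ℂ) * E (g • x)‖ ∂μ = ∫ x, w (g⁻¹ • x) * ‖E x‖ ∂μ := by
    intro g
    rw [← integral_smul_eq_self (fun x => w (g⁻¹ • x) * ‖E x‖) (g := g)]
    refine integral_congr_ae (Eventually.of_forall fun x => ?_)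
    simp only [inv_smul_smul, norm_mul, Complex.norm_real, Real.norm_of_nonneg (hn x)]
  simp_rw [e]
  have hm : ∀ g : G, Measurable fun x => w (g⁻¹ • x) := fun g =>
    hw.comp (measurable_const_smul g⁻¹)
  have ht : ∀ x, HasSum (fun g : G => w (g⁻¹ • x) * ‖E x‖) ‖E x‖ := by
    intro x
    simpa using (AU_inv hs x).mul_right ‖E x‖
  refine hasSum_integral_of_dominated_convergence (fun g x => w (g⁻¹ • x) * ‖E x‖)
    (fun g => (hm g).aestronglyMeasurable.mul hE.1.norm) (fun g => ?_) ?_ ?_ ?_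
  · refine Eventually.of_forall fun x => ?_
    rw [Real.norm_of_nonneg (mul_nonneg (hn _) (norm_nonneg _))]
  · exact Eventually.of_forall fun x => (ht x).summable
  · have : (fun x => ∑' g : G, w (g⁻¹ • x) * ‖E x‖) = fun x => ‖E x‖ :=
      funext fun x => (ht x).tsum_eq
    rw [this]
    exact hE.norm
  · exact Eventually.of_forall ht

/-- The unfolded sum, as a series of integrals. -/
theorem AU_sum (hw : Measurable w) (hn : ∀ x, 0 ≤ w x)
    (hs : ∀ x, HasSum (fun g : G => w (g • x)) 1) {E : X → ℂ} (hE : Integrable E μ) :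
    HasSum (fun g : G => ∫ x, (w x : ℂ) * E (g • x) ∂μ) (∫ x, E x ∂μ) := by
  have e : ∀ g : G, ∫ x, (w x : ℂ) * E (g • x) ∂μ = ∫ x, (w (g⁻¹ • x) : ℂ) * E x ∂μ := by
    intro g
    rw [← integral_smul_eq_self (fun x => (w (g⁻¹ • x) : ℂ) * E x) (g := g)]
    refine integral_congr_ae (Eventually.of_forall fun x => ?_)
    simp only [inv_smul_smul]
  simp_rw [e]
  have hm : ∀ g : G, Measurable fun x => (w (g⁻¹ • x) : ℂ) := fun g =>
    Complex.measurable_ofReal.comp (hw.comp (measurable_const_smul g⁻¹))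
  have ht : ∀ x, HasSum (fun g : G => w (g⁻¹ • x) * ‖E x‖) ‖E x‖ := by
    intro x
    simpa using (AU_inv hs x).mul_right ‖E x‖
  have hc : ∀ x, HasSum (fun g : G => (w (g⁻¹ • x) : ℂ) * E x) (E x) := by
    intro x
    have h := (Complex.hasSum_ofReal.2 (AU_inv hs x)).mul_right (E x)
    simpa using h
  refine hasSum_integral_of_dominated_convergence (fun g x => w (g⁻¹ • x) * ‖E x‖)
    (fun g => (hm g).aestronglyMeasurable.mul hE.1) (fun g => ?_) ?_ ?_ ?_
  · refine Eventually.of_forall fun x => ?_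
    rw [norm_mul, Complex.norm_real, Real.norm_of_nonneg (hn _)]
  · exact Eventually.of_forall fun x => (ht x).summable
  · have : (fun x => ∑' g : G, w (g⁻¹ • x) * ‖E x‖) = fun x => ‖E x‖ :=
      funext fun x => (ht x).tsum_eq
    rw [this]
    exact hE.norm
  · exact Eventually.of_forall hc

/-- Almost everywhere absolute convergence of the unfolded sum. -/
theorem AU_ae (hw : Measurable w) (hn : ∀ x, 0 ≤ w x)
    (hs : ∀ x, HasSum (fun g : G => w (g • x)) 1) {E : X → ℂ} (hE : Integrable E μ) :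
    (∑' g : G, ∫⁻ x, ‖(w x : ℂ) * E (g • x)‖ₑ ∂μ ≠ ∞) ∧
    ∀ᵐ x ∂μ, Summable fun g : G => ‖(w x : ℂ) * E (g • x)‖ := by
  have hi := fun g : G => AU_int (μ := μ) hw hn hs hE g
  have h1 : ∑' g : G, ∫⁻ x, ‖(w x : ℂ) * E (g • x)‖ₑ ∂μ ≠ ∞ := by
    have e : ∀ g : G, ∫⁻ x, ‖(w x : ℂ) * E (g • x)‖ₑ ∂μ =
        ENNReal.ofReal (∫ x, ‖(w x : ℂ) * E (g • x)‖ ∂μ) := fun g =>
      (ofReal_integral_norm_eq_lintegral_enorm (hi g)).symm
    simp_rw [e]
    rw [← ENNReal.ofReal_tsum_of_nonneg (fun g => integral_nonneg fun x => norm_nonneg _)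
      (AU_norm hw hn hs hE).summable]
    exact ENNReal.ofReal_ne_top
  refine ⟨h1, ?_⟩
  rw [← lintegral_tsum fun g => (hi g).1.enorm] at h1
  filter_upwards [ae_lt_top' (AEMeasurable.tsum fun g => (hi g).1.enorm) h1] with x hx
  have h2 := ENNReal.tsum_coe_ne_top_iff_summable (f := fun g : G => ‖(w x : ℂ) * E (g • x)‖₊)
  have h3 := h2.1 (ne_of_lt hx)
  exact NNReal.summable_coe.2 h3

/-- Abstract unfolding. -/
theorem piece_AU (hw : Measurable w) (hn : ∀ x, 0 ≤ w x)
    (hs : ∀ x, HasSum (fun g : G => w (g • x)) 1) {E : X → ℂ} (hE : Integrable E μ) :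
    Integrable (fun x => (w x : ℂ) * ∑' g : G, E (g • x)) μ ∧
    ∫ x, (w x : ℂ) * ∑' g : G, E (g • x) ∂μ = ∫ x, E x ∂μ ∧
    ∀ᵐ x ∂μ, w x ≠ 0 → Summable fun g : G => E (g • x) := by
  have hi := fun g : G => AU_int (μ := μ) hw hn hs hE g
  obtain ⟨h1, h2⟩ := AU_ae (μ := μ) hw hn hs hE
  have e : (fun x => (w x : ℂ) * ∑' g : G, E (g • x)) =
      fun x => ∑' g : G, (w x : ℂ) * E (g • x) := funext fun x => tsum_mul_left.symm
  refine ⟨?_, ?_, ?_⟩
  · rw [e]
    have hm : AEStronglyMeasurable (fun x => ∑' g : G, (w x : ℂ) * E (g • x)) μ := by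
      refine aestronglyMeasurable_of_tendsto_ae (atTop : Filter (Finset G))
        (f := fun s x => ∑ g ∈ s, (w x : ℂ) * E (g • x)) (fun s => ?_) ?_
      · exact Finset.aestronglyMeasurable_fun_sum s fun g _ => (hi g).1
      · filter_upwards [h2] with x hx
        exact (Summable.of_norm hx).hasSum
    refine ⟨hm, ?_⟩
    rw [hasFiniteIntegral_iff_enorm]
    refine lt_of_le_of_lt ?_ (lt_top_iff_ne_top.2 h1)
    rw [← lintegral_tsum fun g => (hi g).1.enorm]
    refine lintegral_mono_ae ?_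
    filter_upwards [h2] with x hx
    exact enorm_tsum_le_tsum_enorm
  · rw [e]
    exact (hasSum_integral_of_summable_integral_norm hi (AU_norm hw hn hs hE).summable).unique
      (AU_sum hw hn hs hE)
  · filter_upwards [h2] with x hx h0
    have h3 : Summable fun g : G => (w x : ℂ) * E (g • x) := Summable.of_norm hx
    exact (summable_mul_left_iff (by exact_mod_cast h0)).1 h3

end AU

theorem p_AU : S_AU := by
  intro G X _ _ _ _ μ hμ w hw hn hs E hE
  haveI : MeasurableConstSMul G X := ⟨fun g => (hμ g).measurable⟩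
  haveI : SMulInvariantMeasure G X μ :=
    ⟨fun g s hs => (hμ g).measure_preimage hs.nullMeasurableSet⟩
  obtain ⟨h1, h2, -⟩ := piece_AU (μ := μ) hw hn hs hE
  exact ⟨h1, h2.symm⟩

end Pool.Agent.Lib.MP_058a58_ag.MT
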