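import Pool.Agent.Lib.MP_058a58_ag.MT.P.Lat1

/-!
# Lattice sums of `phi` over cosets, on the translates of the fundamental domain
-/

open MeasureTheory Set UpperHalfPlane
open scoped MatrixGroups Modular

namespace Pool.Agent.Lib.MP_058a58_ag.MT

theorem phi_eq_pf (l : ℕ) (s u e : ℝ) : phi l s ((u : ℂ) + e * Complex.I) = pf l s u e := by
  unfold phi pf Rf
  rw [norm_sq_eq]

theorem phi_rot (l : ℕ) (s : ℝ) (a v : ℂ) (ha : ‖a‖ = 1) : phi l s (a * v) = a ^ l * phi l s v := by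
  unfold phi
  rw [norm_mul, ha, one_mul, mul_pow, mul_assoc]

theorem pf_cont2 (l : ℕ) (s : ℝ) (hs : s ≤ 2) : Continuous fun p : ℝ × ℝ => pf l s p.1 p.2 := by
  have hl : (0 : ℝ) ≤ l := Nat.cast_nonneg l
  have hq : Continuous fun p : ℝ × ℝ => nq p.1 p.2 := by unfold nq; fun_prop
  have h1 : Continuous fun p : ℝ × ℝ => Rf l s (nq p.1 p.2) := by
    unfold Rf
    refine Continuous.div (hq.rpow_const fun x => Or.inr (by linarith)) (by fun_prop) fun x => ?_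
    have := nq_nonneg x.1 x.2
    positivity
  unfold pf
  fun_prop

theorem dbl_zero (l : ℕ) (hl : l ≠ 0) (s : ℝ) (hs1 : 1 < s) (hs : s ≤ 2) :
    ∫ e, ∫ u, pf l s u e = 0 := by
  have hint : Integrable (fun p : ℝ × ℝ => pf l s p.1 p.2) (volume.prod volume) := by
    refine Integrable.mono' ((sg_integrable hs1).mul_prod (sg_integrable hs1))
      (pf_cont2 l s hs).aestronglyMeasurable (Filter.Eventually.of_forall fun p => ?_)
    have := pf_b0 l s (by linarith) hs p.1 p.2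
    rwa [one_mul] at this
  have h1 : ∫ e, ∫ u, pf l s u e = ∫ p : ℝ × ℝ, pf l s p.1 p.2 := (integral_prod_symm _ hint).symm
  have h2 : ∫ p : ℝ × ℝ, pf l s p.1 p.2 = ∫ v : ℂ, phi l s v := by
    rw [← Complex.volume_preserving_equiv_real_prod.integral_comp
      Complex.measurableEquivRealProd.measurableEmbedding]
    refine integral_congr_ae (Filter.Eventually.of_forall fun v => ?_)
    show pf l s v.re v.im = phi l s v
    rw [← phi_eq_pf, Complex.re_add_im]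
  have hl' : (l : ℂ) ≠ 0 := by exact_mod_cast hl
  set t : ℝ := Real.pi / l with ht
  set a : Circle := Circle.exp t with ha
  have hal : (a : ℂ) ^ l = -1 := by
    rw [ha, Circle.coe_exp, ← Complex.exp_nat_mul]
    have : (l : ℂ) * ((t : ℂ) * Complex.I) = Real.pi * Complex.I := by
      rw [ht]; push_cast; field_simp
    rw [this, Complex.exp_pi_mul_I]
  have h3 : ∫ v : ℂ, phi l s (rotation a v) = ∫ v : ℂ, phi l s v :=
    (rotation a).measurePreserving.integral_comp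
      (rotation a).toHomeomorph.measurableEmbedding _
  have h4 : ∫ v : ℂ, phi l s (rotation a v) = - ∫ v : ℂ, phi l s v := by
    have : ∀ v : ℂ, phi l s (rotation a v) = - phi l s v := by
      intro v
      rw [rotation_apply, phi_rot _ _ _ _ (Circle.norm_coe a), hal]; ring
    simp only [this]
    rw [integral_neg]
  rw [h1, h2]
  have h5 := h3.symm.trans h4
  have h6 : (2 : ℂ) * ∫ v : ℂ, phi l s v = 0 := by linear_combination h5
  simpa using h6

/-- The action of `SL(2, Z)` on row vectors. -/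
def act (δ : SL(2, ℤ)) : ℤ × ℤ ≃ ℤ × ℤ where
  toFun w := (w.1 * δ 0 0 + w.2 * δ 1 0, w.1 * δ 0 1 + w.2 * δ 1 1)
  invFun v := (v.1 * δ 1 1 - v.2 * δ 1 0, v.2 * δ 0 0 - v.1 * δ 0 1)
  left_inv w := by
    have h := Matrix.det_fin_two (δ : Matrix (Fin 2) (Fin 2) ℤ)
    rw [δ.det_coe] at h
    ext
    · simp only []; linear_combination (-w.1) * h
    · simp only []; linear_combination (-w.2) * h
  right_inv v := by
    have h := Matrix.det_fin_two (δ : Matrix (Fin 2) (Fin 2) ℤ)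
    rw [δ.det_coe] at h
    ext
    · simp only []; linear_combination (-v.1) * h
    · simp only []; linear_combination (-v.2) * h

/-- The same modulo `M`. -/
def actZ (M : ℕ) (δ : SL(2, ℤ)) : ZMod M × ZMod M ≃ ZMod M × ZMod M where
  toFun w := (w.1 * (δ 0 0 : ℤ) + w.2 * (δ 1 0 : ℤ), w.1 * (δ 0 1 : ℤ) + w.2 * (δ 1 1 : ℤ))
  invFun v := (v.1 * (δ 1 1 : ℤ) - v.2 * (δ 1 0 : ℤ), v.2 * (δ 0 0 : ℤ) - v.1 * (δ 0 1 : ℤ))
  left_inv w := by
    have h := Matrix.det_fin_two (δ : Matrix (Fin 2) (Fin 2) ℤ)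
    rw [δ.det_coe] at h
    have h' : (1 : ZMod M) = (δ 0 0 : ℤ) * (δ 1 1 : ℤ) - (δ 0 1 : ℤ) * (δ 1 0 : ℤ) := by exact_mod_cast congrArg (Int.cast : ℤ → ZMod M) h
    ext
    · simp only []; linear_combination (-w.1) * h'
    · simp only []; linear_combination (-w.2) * h'
  right_inv v := by
    have h := Matrix.det_fin_two (δ : Matrix (Fin 2) (Fin 2) ℤ)
    rw [δ.det_coe] at h
    have h' : (1 : ZMod M) = (δ 0 0 : ℤ) * (δ 1 1 : ℤ) - (δ 0 1 : ℤ) * (δ 1 0 : ℤ) := by exact_mod_cast congrArg (Int.cast : ℤ → ZMod M) h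
    ext
    · simp only []; linear_combination (-v.1) * h'
    · simp only []; linear_combination (-v.2) * h'

/-- Division with remainder. -/
def e0 (M : ℕ) [NeZero M] : ZMod M × ℤ ≃ ℤ where
  toFun x := (x.1.val : ℤ) + M * x.2
  invFun a := ((a : ZMod M), a / M)
  left_inv x := by
    have hM : (M : ℤ) ≠ 0 := by exact_mod_cast NeZero.ne M
    ext
    · simp
    · simp only []
      rw [Int.add_mul_ediv_left _ _ hM, Int.ediv_eq_zero_of_lt (by positivity)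
        (by exact_mod_cast x.1.val_lt), zero_add]
  right_inv a := by
    simp only [ZMod.val_intCast]
    exact Int.emod_add_mul_ediv a M

/-- The lattice splits into cosets. -/
def e1 (M : ℕ) [NeZero M] : (ZMod M × ZMod M) × (ℤ × ℤ) ≃ ℤ × ℤ :=
  (Equiv.prodProdProdComm (ZMod M) (ZMod M) ℤ ℤ).trans (Equiv.prodCongr (e0 M) (e0 M))

theorem e1_apply (M : ℕ) [NeZero M] (ρ : ZMod M × ZMod M) (m : ℤ × ℤ) :
    e1 M (ρ, m) = ((ρ.1.val : ℤ) + M * m.1, (ρ.2.val : ℤ) + M * m.2) := rfl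

theorem vz_act (δ : SL(2, ℤ)) (z : ℍ) (w : ℤ × ℤ) :
    vz z (act δ w).1 (act δ w).2 = (jf δ z / (‖jf δ z‖ : ℂ)) * vz (δ • z) w.1 w.2 := by
  have hj : jf δ z ≠ 0 := by
    have := UpperHalfPlane.denom_ne_zero (δ : GL (Fin 2) ℝ) z
    simpa [jf, ModularGroup.denom_apply] using this
  have him : (δ • z).im = z.im / Complex.normSq (jf δ z) := by
    rw [ModularGroup.im_smul_eq_div_normSq, ModularGroup.denom_apply]; rfl
  have hcoe : ((δ • z : ℍ) : ℂ) = ((δ 0 0 : ℂ) * z + (δ 0 1 : ℂ)) / jf δ z := by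
    rw [UpperHalfPlane.specialLinearGroup_apply]; rfl
  have hn : (0 : ℝ) < ‖jf δ z‖ := norm_pos_iff.2 hj
  have hsq : Real.sqrt (δ • z).im = Real.sqrt z.im / ‖jf δ z‖ := by
    rw [him, Complex.normSq_eq_norm_sq, Real.sqrt_div z.im_pos.le, Real.sqrt_sq hn.le]
  have hy : (Real.sqrt z.im : ℂ) ≠ 0 := by
    have : (0 : ℝ) < Real.sqrt z.im := Real.sqrt_pos.2 z.im_pos
    exact_mod_cast this.ne'
  have hn' : (‖jf δ z‖ : ℂ) ≠ 0 := by exact_mod_cast hn.ne'
  unfold vz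
  rw [hsq, hcoe]
  simp only [act, Equiv.coe_fn_mk]
  push_cast
  field_simp
  unfold jf
  ring

open Classical in
/-- The sum over the pairs with `M ∣ c` and `d` prime to `M`. -/
theorem cond_iff (M : ℕ) [NeZero M] (v : ℤ × ℤ) : ((M : ℤ) ∣ v.1 ∧ IsCoprime v.2 (M : ℤ)) ↔
    (((v.1 : ZMod M) = 0) ∧ IsUnit (v.2 : ZMod M)) := by
  rw [ZMod.intCast_zmod_eq_zero_iff_dvd, ZMod.coe_int_isUnit_iff_isCoprime, isCoprime_comm]

theorem cond_act (M : ℕ) [NeZero M] (δ : SL(2, ℤ)) (ρ : ZMod M × ZMod M) (m : ℤ × ℤ) :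
    ((((act δ (e1 M (ρ, m))).1 : ZMod M), ((act δ (e1 M (ρ, m))).2 : ZMod M))) = actZ M δ ρ := by
  ext
  · simp [act, actZ, e1_apply]
  · simp [act, actZ, e1_apply]

/-- The number of classes. -/
noncomputable def KK (M : ℕ) : ℝ := by
  classical
  exact ∑' ρ : ZMod M × ZMod M, if ρ.1 = 0 ∧ IsUnit ρ.2 then (1 : ℝ) else 0

/-- The main term. -/
noncomputable def kap (M l : ℕ) (s : ℝ) : ℂ :=
  if l = 0 then (KK M : ℂ) * (∫ e, ∫ u, pf l s u e) / (M : ℂ) ^ 2 else 0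

theorem sqrt_im_ge (z : ℍ) (hz : z ∈ 𝒟) : 1 / 2 ≤ Real.sqrt z.im := by
  have h := ModularGroup.three_le_four_mul_im_sq_of_mem_fd hz
  have h1 : (1 / 4 : ℝ) ≤ z.im := by nlinarith [z.im_pos]
  rw [show (1 / 2 : ℝ) = Real.sqrt (1 / 4) by
    rw [show (1 / 4 : ℝ) = (1 / 2) ^ 2 by norm_num, Real.sqrt_sq (by norm_num)]]
  exact Real.sqrt_le_sqrt h1

/-- One coset, on the fundamental domain. -/
theorem coset (M l : ℕ) [NeZero M] (s : ℝ) (hs1 : 1 < s) (hs : s ≤ 2) (z : ℍ) (hz : z ∈ 𝒟)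
    (ρ : ZMod M × ZMod M) :
    Summable (fun m : ℤ × ℤ => phi l s (vz z (e1 M (ρ, m)).1 (e1 M (ρ, m)).2)) ∧
    ‖(M : ℂ) ^ 2 * (∑' m : ℤ × ℤ, phi l s (vz z (e1 M (ρ, m)).1 (e1 M (ρ, m)).2)) -
      ∫ e, ∫ u, pf l s u e‖ ≤ 8 * RR ^ 2 * (4 * l + 14) * M ^ 2 * Real.sqrt z.im := by
  have hM : (1 : ℝ) ≤ M := by exact_mod_cast Nat.one_le_iff_ne_zero.2 (NeZero.ne M)
  obtain ⟨a1, a2⟩ := (pf_twoVar l s hs1.le hs).lattice hs1 (Real.sqrt z.im) M (sqrt_im_ge z hz) hM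
    z.re ρ.1.val ρ.2.val
  have hq0 : (0 : ℝ) < Real.sqrt z.im := Real.sqrt_pos.2 z.im_pos
  have hq1 : (Real.sqrt z.im) * (Real.sqrt z.im) = z.im := Real.mul_self_sqrt z.im_pos.le
  have key : ∀ m : ℤ × ℤ, phi l s (vz z (e1 M (ρ, m)).1 (e1 M (ρ, m)).2) =
      pf l s (lx M ρ.1.val ρ.2.val z.re (Real.sqrt z.im) m) ((ρ.1.val + M * m.1) * Real.sqrt z.im) := by
    intro m
    rw [← phi_eq_pf, e1_apply]
    congr 1
    unfold vz lx
    have hq' : (Real.sqrt z.im : ℂ) ≠ 0 := by exact_mod_cast hq0.ne'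
    have hz' : (z : ℂ) = z.re + z.im * Complex.I := (Complex.re_add_im (z : ℂ)).symm
    have hi : (z.im : ℂ) = (Real.sqrt z.im : ℂ) * (Real.sqrt z.im : ℂ) := by exact_mod_cast hq1.symm
    rw [hz', hi]
    push_cast
    field_simp
    ring
  simp only [← key] at a1 a2
  exact ⟨a1, a2⟩

open Classical in
/-- **Lattice sums of `phi`** on the translates of the fundamental domain. -/
theorem piece_LAT (M l : ℕ) (hM : 0 < M) (s : ℝ) (hs1 : 1 < s) (hs : s ≤ 2) (z : ℍ) (δ : SL(2, ℤ))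
    (hδ : δ • z ∈ 𝒟) :
    Summable (fun v : ℤ × ℤ => if (M : ℤ) ∣ v.1 ∧ IsCoprime v.2 (M : ℤ) then
      phi l s (vz z v.1 v.2) else 0) ∧
    ‖Zs M l s z - kap M l s‖ ≤ 8 * RR ^ 2 * (4 * l + 14) * M ^ 2 * Real.sqrt (δ • z).im := by
  have : NeZero M := ⟨hM.ne'⟩
  set w0 : ℍ := δ • z with hw0
  have hM1 : (1 : ℝ) ≤ M := by exact_mod_cast hM
  have hj : jf δ z ≠ 0 := by
    have := UpperHalfPlane.denom_ne_zero (δ : GL (Fin 2) ℝ) z
    simpa [jf, ModularGroup.denom_apply] using this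
  set a : ℂ := jf δ z / (‖jf δ z‖ : ℂ) with ha
  have hna : ‖a‖ = 1 := by
    rw [ha, norm_div, Complex.norm_real, norm_norm, div_self (norm_ne_zero_iff.2 hj)]
  set H : ℤ × ℤ → ℂ := fun v => if (M : ℤ) ∣ v.1 ∧ IsCoprime v.2 (M : ℤ) then
      phi l s (vz z v.1 v.2) else 0 with hH
  -- transported to the fundamental domain
  set P : (ZMod M × ZMod M) × (ℤ × ℤ) → ℂ := fun x =>
    (if (actZ M δ x.1).1 = 0 ∧ IsUnit (actZ M δ x.1).2 then a ^ l else 0) *
      phi l s (vz w0 (e1 M x).1 (e1 M x).2) with hP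
  have hHP : ∀ x, H (act δ (e1 M x)) = P x := by
    intro x
    obtain ⟨ρ, m⟩ := x
    have h1 := cond_iff M (act δ (e1 M (ρ, m)))
    have h2 := cond_act M δ ρ m
    have h3 : (((act δ (e1 M (ρ, m))).1 : ZMod M)) = (actZ M δ ρ).1 := congrArg Prod.fst h2
    have h4 : (((act δ (e1 M (ρ, m))).2 : ZMod M)) = (actZ M δ ρ).2 := congrArg Prod.snd h2
    rw [h3, h4] at h1
    simp only [hH, hP]
    rw [if_congr h1 rfl rfl, vz_act, ← ha, phi_rot _ _ _ _ hna, ← hw0]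
    split_ifs
    · rfl
    · rw [zero_mul]
  have hcos := fun ρ => coset M l s hs1 hs w0 hδ ρ
  -- summability
  have hPs : Summable P := by
    have hB : Summable fun x : (ZMod M × ZMod M) × (ℤ × ℤ) => ‖phi l s (vz w0 (e1 M x).1 (e1 M x).2)‖ := by
      rw [summable_prod_of_nonneg (fun x => norm_nonneg _)]
      exact ⟨fun ρ => (hcos ρ).1.norm, (hasSum_fintype _).summable⟩
    refine Summable.of_norm_bounded hB fun x => ?_
    simp only [hP, norm_mul]
    have : ‖(if (actZ M δ x.1).1 = 0 ∧ IsUnit (actZ M δ x.1).2 then a ^ l else 0)‖ ≤ 1 := by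
      split_ifs
      · rw [norm_pow, hna, one_pow]
      · simp
    exact mul_le_of_le_one_left (norm_nonneg _) this
  have hHs : Summable H := by
    have : Summable (H ∘ ((e1 M).trans (act δ))) := by
      refine hPs.congr fun x => ?_
      exact (hHP x).symm
    exact ((e1 M).trans (act δ)).summable_iff.1 this
  refine ⟨hHs, ?_⟩
  have hZ : Zs M l s z = ∑ ρ : ZMod M × ZMod M,
      (if (actZ M δ ρ).1 = 0 ∧ IsUnit (actZ M δ ρ).2 then a ^ l else 0) *
        ∑' m : ℤ × ℤ, phi l s (vz w0 (e1 M (ρ, m)).1 (e1 M (ρ, m)).2) := by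
    have h1 : Zs M l s z = ∑' v, H v := rfl
    rw [h1, ← ((e1 M).trans (act δ)).tsum_eq H]
    have h2 : ∀ x, H (((e1 M).trans (act δ)) x) = P x := hHP
    simp only [h2]
    rw [hPs.tsum_prod, tsum_fintype]
    refine Finset.sum_congr rfl fun ρ _ => ?_
    have h3 : ∀ m : ℤ × ℤ, P (ρ, m) = (if (actZ M δ ρ).1 = 0 ∧ IsUnit (actZ M δ ρ).2 then a ^ l else 0) *
        phi l s (vz w0 (e1 M (ρ, m)).1 (e1 M (ρ, m)).2) := fun m => rfl
    simp only [h3]
    rw [tsum_mul_left]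
  set J : ℂ := ∫ e, ∫ u, pf l s u e with hJ
  -- the main term
  have hmain : kap M l s = ∑ ρ : ZMod M × ZMod M,
      (if (actZ M δ ρ).1 = 0 ∧ IsUnit (actZ M δ ρ).2 then a ^ l else 0) * (J / (M : ℂ) ^ 2) := by
    rw [← Finset.sum_mul]
    have hcount : ∑ ρ : ZMod M × ZMod M,
        (if (actZ M δ ρ).1 = 0 ∧ IsUnit (actZ M δ ρ).2 then a ^ l else 0) =
        ∑ ρ : ZMod M × ZMod M, (if ρ.1 = 0 ∧ IsUnit ρ.2 then a ^ l else 0) :=
      (actZ M δ).sum_comp (fun ρ => if ρ.1 = 0 ∧ IsUnit ρ.2 then a ^ l else 0)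
    rw [hcount]
    unfold kap
    by_cases hl : l = 0
    · subst hl
      rw [if_pos rfl, ← hJ]
      have hk : (KK M : ℂ) = ∑ ρ : ZMod M × ZMod M, (if ρ.1 = 0 ∧ IsUnit ρ.2 then (1 : ℂ) else 0) := by
        unfold KK
        rw [tsum_fintype, Complex.ofReal_sum]
        refine Finset.sum_congr rfl fun ρ _ => ?_
        split_ifs <;> simp
      rw [hk]
      simp only [pow_zero]
      rw [mul_div_assoc]
    · rw [if_neg hl, hJ, dbl_zero l hl s hs1 hs]; simp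
  rw [hZ, hmain, ← Finset.sum_sub_distrib]
  simp only [← mul_sub]
  have hM2 : ((M : ℂ) ^ 2) ≠ 0 := pow_ne_zero _ (by exact_mod_cast hM.ne')
  have hterm : ∀ ρ : ZMod M × ZMod M,
      ‖(if (actZ M δ ρ).1 = 0 ∧ IsUnit (actZ M δ ρ).2 then a ^ l else 0) *
        ((∑' m : ℤ × ℤ, phi l s (vz w0 (e1 M (ρ, m)).1 (e1 M (ρ, m)).2)) - J / (M : ℂ) ^ 2)‖ ≤
      8 * RR ^ 2 * (4 * l + 14) * Real.sqrt w0.im := by
    intro ρ
    have h1 : ‖(if (actZ M δ ρ).1 = 0 ∧ IsUnit (actZ M δ ρ).2 then a ^ l else 0)‖ ≤ 1 := by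
      split_ifs
      · rw [norm_pow, hna, one_pow]
      · simp
    rw [norm_mul]
    refine (mul_le_of_le_one_left (norm_nonneg _) h1).trans ?_
    have h2 := (hcos ρ).2
    set T := ∑' m : ℤ × ℤ, phi l s (vz w0 (e1 M (ρ, m)).1 (e1 M (ρ, m)).2) with hT
    have h3 : T - J / (M : ℂ) ^ 2 = ((M : ℂ) ^ 2 * T - J) / (M : ℂ) ^ 2 := by
      rw [sub_div, mul_div_cancel_left₀ _ hM2]
    rw [h3, norm_div, norm_pow, Complex.norm_natCast, div_le_iff₀ (by positivity)]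
    refine h2.trans (le_of_eq (by ring))
  refine (norm_sum_le _ _).trans ((Finset.sum_le_sum fun ρ _ => hterm ρ).trans (le_of_eq ?_))
  rw [Finset.sum_const, Finset.card_univ, Fintype.card_prod, ZMod.card, nsmul_eq_mul]
  push_cast
  ring

end Pool.Agent.Lib.MP_058a58_ag.MT
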