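import Pool.Agent.Lib.MP_058a58_ag.MT.Stm3

set_option autoImplicit false

/-!
# Cusp forms of Mathlib satisfy the structure `IsForm` (helper25)
-/

open UpperHalfPlane MeasureTheory Filter Topology
open scoped MatrixGroups Modular

namespace Pool.Agent.Lib.MP_058a58_ag.MT

/-- A cusp form for `Γ₀(N)` whose Fourier coefficients are the real numbers `a n` has the
properties `IsForm`. -/
theorem piece_MF {N k : ℕ} [NeZero N]
    (f : CuspForm ((CongruenceSubgroup.Gamma0 N : Subgroup SL(2, ℤ)) :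
      Subgroup (GL (Fin 2) ℝ)) (k : ℤ)) (a : ℕ → ℝ)
    (ha : ∀ n : ℕ, (UpperHalfPlane.qExpansion 1 f).coeff n = (a n : ℂ)) :
    IsForm N k (fun z => f z) a := by
  have hT : ModularGroup.T ∈ CongruenceSubgroup.Gamma0 N := by
    rw [CongruenceSubgroup.Gamma0_mem, ModularGroup.coe_T]
    simp
  have hper : (1 : ℝ) ∈ ((CongruenceSubgroup.Gamma0 N : Subgroup SL(2, ℤ)) :
      Subgroup (GL (Fin 2) ℝ)).strictPeriods := by
    rw [Subgroup.strictPeriods_eq_zmultiples_one_of_T_mem hT]
    exact AddSubgroup.mem_zmultiples 1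
  have hf0 : (UpperHalfPlane.qExpansion 1 f).coeff 0 = 0 :=
    CuspFormClass.qExpansion_coeff_zero (f := f) one_pos hper
  refine ⟨⟨?_, ?_, ?_, ?_⟩, ?_⟩
  · exact (CuspForm.holo' f).continuous
  · obtain ⟨C, hC⟩ := CuspFormClass.exists_bound f
    refine ⟨C, fun z => ?_⟩
    have h1 := hC z
    have h2 : (0 : ℝ) < z.im ^ ((k : ℝ) / 2) := Real.rpow_pos_of_pos z.im_pos _
    rw [le_div_iff₀ (by simpa using h2)] at h1
    simpa using h1
  · have h1 := (ha 0).symm.trans hf0
    exact_mod_cast h1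
  · intro z
    have h1 := ModularForm.hasSum_qExpansion (f := f) one_pos hper z
    have h2 : (fun n : ℕ => (a n : ℂ) * Complex.exp (2 * Real.pi * Complex.I * n * z)) =
        fun n : ℕ => (UpperHalfPlane.qExpansion 1 f).coeff n *
          Function.Periodic.qParam 1 (z : ℂ) ^ n := by
      funext n
      rw [ha n, Function.Periodic.qParam, ← Complex.exp_nat_mul]
      congr 2
      push_cast
      ring
    rw [h2]
    exact h1
  · intro γ hγ z
    have h1 := SlashInvariantForm.slash_action_eqn_SL'' (f := f) hγ z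
    unfold jf
    rw [h1, zpow_natCast]
    rfl

theorem p_MF : S_MF := by
  intro N k f a hN h
  have : NeZero N := ⟨by omega⟩
  have h1 := piece_MF (N := N) (k := k) f a h.coeff
  exact ⟨h1, ⟨h1.zero, h.one, h.mul, h.good, h.bad⟩⟩

end Pool.Agent.Lib.MP_058a58_ag.MT
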