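import Pool.Agent.Lib.MP_058a58_ag.MT.Stm2

set_option autoImplicit false

/-!
# Twists by modular forms: from the integrals to the Dirichlet series
-/

open UpperHalfPlane MeasureTheory Filter Topology
open scoped MatrixGroups Modular ComplexConjugate

namespace Pool.Agent.Lib.MP_058a58_ag.MT

theorem CMP_amgm (a b : ℕ → ℝ) (ha : a 0 = 0) (p q r : ℝ) (hr : r = (p + q) / 2) (n : ℕ) :
    |a n * b n| * (n : ℝ) ^ (-r) ≤ a n ^ 2 * (n : ℝ) ^ (-p) + b n ^ 2 * (n : ℝ) ^ (-q) := by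
  rcases Nat.eq_zero_or_pos n with rfl | hn
  · rw [ha, zero_mul, abs_zero, zero_mul]
    have h1 : 0 ≤ ((0 : ℕ) : ℝ) ^ (-q) := Real.rpow_nonneg (Nat.cast_nonneg _) _
    have h2 : 0 ≤ ((0 : ℕ) : ℝ) ^ (-p) := Real.rpow_nonneg (Nat.cast_nonneg _) _
    positivity
  · have hn' : (0 : ℝ) < n := by exact_mod_cast hn
    have e1 : (n : ℝ) ^ (-r) = (n : ℝ) ^ (-p / 2) * (n : ℝ) ^ (-q / 2) := by
      rw [← Real.rpow_add hn', hr]
      congr 1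
      ring
    have e2 : (n : ℝ) ^ (-p) = (n : ℝ) ^ (-p / 2) * (n : ℝ) ^ (-p / 2) := by
      rw [← Real.rpow_add hn']
      congr 1
      ring
    have e3 : (n : ℝ) ^ (-q) = (n : ℝ) ^ (-q / 2) * (n : ℝ) ^ (-q / 2) := by
      rw [← Real.rpow_add hn']
      congr 1
      ring
    rw [e1, e2, e3]
    have hu : 0 < (n : ℝ) ^ (-p / 2) := Real.rpow_pos_of_pos hn' _
    have hv : 0 < (n : ℝ) ^ (-q / 2) := Real.rpow_pos_of_pos hn' _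
    generalize (n : ℝ) ^ (-p / 2) = u at hu ⊢
    generalize (n : ℝ) ^ (-q / 2) = v at hv ⊢
    rw [abs_mul]
    have h1 := sq_nonneg (|a n| * u - |b n| * v)
    have h2 : (|a n| * u) ^ 2 = a n ^ 2 * (u * u) := by
      rw [mul_pow, sq_abs]
      ring
    have h3 : (|b n| * v) ^ 2 = b n ^ 2 * (v * v) := by
      rw [mul_pow, sq_abs]
      ring
    have h4 : 0 ≤ |a n| * |b n| * (u * v) := by positivity
    have h5 : (|a n| * u - |b n| * v) ^ 2 = (|a n| * u) ^ 2 + (|b n| * v) ^ 2 -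
        2 * (|a n| * |b n| * (u * v)) := by ring
    linarith

theorem CMP_summ (hMS : R_MS) {k k' : ℕ} {f g : ℍ → ℂ} {a b : ℕ → ℝ} (hk : 2 ≤ k) (hk' : 2 ≤ k')
    (hf : IsQ k f a) (hg : IsQ k' g b) {s : ℝ} (h1 : 1 < s) (h2 : s ≤ 2) :
    Summable (fun n : ℕ => |a n * b n| * (n : ℝ) ^ (-(s + ((k : ℝ) + k') / 2 - 1))) := by
  obtain ⟨C, -, hC⟩ := hMS k f a hk hf
  obtain ⟨C', -, hC'⟩ := hMS k' g b hk' hg
  refine Summable.of_nonneg_of_le (fun n => ?_) (fun n => CMP_amgm a b hf.zero (s + k - 1)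
    (s + k' - 1) _ (by ring) n) ((hC s h1 h2).1.add (hC' s h1 h2).1)
  have := Real.rpow_nonneg (Nat.cast_nonneg n : (0 : ℝ) ≤ n) (-(s + ((k : ℝ) + k') / 2 - 1))
  positivity

theorem CMP_pair (hHT : R_HT) (hFC : R_FC) {M l k k' : ℕ} {f g : ℍ → ℂ} {a b : ℕ → ℝ}
    (hM : 1 ≤ M) (hf : IsQ k f a) (hg : IsQ k' g b) {s : ℝ} (h1 : 1 < s) (h2 : s ≤ 2) :
    Summable (fun n : ℕ => a n * b n * IG (((k : ℝ) + k') / 2) (ht M l s) n) ∧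
    IntegrableOn (fun z : ℍ => Fl k k' f g z * (ht M l s z.im : ℂ)) strip ∧
    ∫ z in strip, Fl k k' f g z * (ht M l s z.im : ℂ) =
      ((∑' n : ℕ, a n * b n * IG (((k : ℝ) + k') / 2) (ht M l s) n : ℝ) : ℂ) := by
  obtain ⟨hm, hnn, hi, -⟩ := hHT M l s hM h1 h2
  obtain ⟨f1, f2, f3⟩ := hFC k k' f g a b hf hg (ht M l s) hm (fun y hy => (hnn y hy).1) hi
  refine ⟨?_, f2, f3⟩
  have h3 := f1.abs
  refine Summable.of_norm ?_
  refine h3.congr (fun n => ?_)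
  rw [Real.norm_eq_abs, abs_mul |a n * b n|, abs_abs, ← abs_mul]

theorem p_CMP : S_CMP := by
  intro hHT hFC hG1 hMS M l k k' f₁ g₁ f₂ g₂ a₁ b₁ a₂ b₂ hM hk hk' hf₁ hg₁ hf₂ hg₂ ⟨C₁, hC₁⟩
  have hkr : (2 : ℝ) ≤ k := by exact_mod_cast hk
  have hkr' : (2 : ℝ) ≤ k' := by exact_mod_cast hk'
  obtain ⟨CG, c₀, hc₀, hG⟩ := hG1 M l (((k : ℝ) + k') / 2) hM (by linarith)
  have s1 : Summable (fun n : ℕ => |a₁ n * b₁ n| * (n : ℝ) ^ (-((2 : ℝ) + ((k : ℝ) + k') / 2 - 1))) :=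
    CMP_summ hMS hk hk' hf₁ hg₁ (by norm_num) le_rfl
  have s2 : Summable (fun n : ℕ => |a₂ n * b₂ n| * (n : ℝ) ^ (-((2 : ℝ) + ((k : ℝ) + k') / 2 - 1))) :=
    CMP_summ hMS hk hk' hf₂ hg₂ (by norm_num) le_rfl
  have s3 := (s1.add s2).mul_left CG
  refine ⟨(C₁ + ∑' n : ℕ, CG * (|a₁ n * b₁ n| * (n : ℝ) ^ (-((2 : ℝ) + ((k : ℝ) + k') / 2 - 1)) +
    |a₂ n * b₂ n| * (n : ℝ) ^ (-((2 : ℝ) + ((k : ℝ) + k') / 2 - 1)))) / c₀, fun s h1 h2 => ?_⟩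
  obtain ⟨c, hc, hcn⟩ := hG s h1 h2
  have hCG : 0 ≤ CG := by
    have h3 := (abs_nonneg _).trans (hcn 1 le_rfl)
    simpa using h3
  obtain ⟨p1, p2, p3⟩ := CMP_pair (l := l) hHT hFC hM hf₁ hg₁ h1 h2
  obtain ⟨q1, q2, q3⟩ := CMP_pair (l := l) hHT hFC hM hf₂ hg₂ h1 h2
  have t1 := CMP_summ hMS hk hk' hf₁ hg₁ h1 h2
  have t2 := CMP_summ hMS hk hk' hf₂ hg₂ h1 h2
  -- the Dirichlet series converges
  have t3 : Summable (fun n : ℕ => (a₁ n * b₁ n - a₂ n * b₂ n) *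
      (n : ℝ) ^ (-(s + ((k : ℝ) + k') / 2 - 1))) := by
    refine Summable.of_norm_bounded (t1.add t2) (fun n => ?_)
    rw [Real.norm_eq_abs, abs_mul, ← add_mul,
      abs_of_nonneg (Real.rpow_nonneg (Nat.cast_nonneg n : (0 : ℝ) ≤ n) _)]
    exact mul_le_mul_of_nonneg_right (abs_sub _ _)
      (Real.rpow_nonneg (Nat.cast_nonneg n : (0 : ℝ) ≤ n) _)
  refine ⟨t3, ?_⟩
  -- the integral
  have hint : |∑' n : ℕ, (a₁ n * b₁ n - a₂ n * b₂ n) *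
      IG (((k : ℝ) + k') / 2) (ht M l s) n| ≤ C₁ := by
    have h3 := hC₁ s h1 h2
    have h4 : (∫ z in strip, (Fl k k' f₁ g₁ z - Fl k k' f₂ g₂ z) * (ht M l s z.im : ℂ)) =
        ((∑' n : ℕ, (a₁ n * b₁ n - a₂ n * b₂ n) * IG (((k : ℝ) + k') / 2) (ht M l s) n : ℝ) : ℂ) := by
      have h5 : ∀ z : ℍ, (Fl k k' f₁ g₁ z - Fl k k' f₂ g₂ z) * (ht M l s z.im : ℂ) =
          Fl k k' f₁ g₁ z * (ht M l s z.im : ℂ) - Fl k k' f₂ g₂ z * (ht M l s z.im : ℂ) :=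
        fun z => sub_mul _ _ _
      simp_rw [h5]
      rw [integral_sub p2 q2, p3, q3, ← Complex.ofReal_sub, ← p1.tsum_sub q1]
      congr 1
      exact tsum_congr (fun n => (sub_mul _ _ _).symm)
    rw [h4, Complex.norm_real, Real.norm_eq_abs] at h3
    exact h3
  -- the error
  have hle : ∀ n : ℕ, ‖(a₁ n * b₁ n - a₂ n * b₂ n) * (IG (((k : ℝ) + k') / 2) (ht M l s) n -
      c * (n : ℝ) ^ (-(s + ((k : ℝ) + k') / 2 - 1)))‖ ≤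
      CG * (|a₁ n * b₁ n| * (n : ℝ) ^ (-((2 : ℝ) + ((k : ℝ) + k') / 2 - 1)) +
        |a₂ n * b₂ n| * (n : ℝ) ^ (-((2 : ℝ) + ((k : ℝ) + k') / 2 - 1))) := by
    intro n
    have hp0 := Real.rpow_nonneg (Nat.cast_nonneg n : (0 : ℝ) ≤ n)
      (-((2 : ℝ) + ((k : ℝ) + k') / 2 - 1))
    rcases Nat.eq_zero_or_pos n with rfl | hn
    · rw [hf₁.zero, hf₂.zero]
      simp
    · have hn1 : (1 : ℝ) ≤ n := by exact_mod_cast hn
      have h6 := hcn n hn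
      rw [norm_mul, Real.norm_eq_abs, Real.norm_eq_abs, ← add_mul]
      have h7 : (n : ℝ) ^ (-(s + ((k : ℝ) + k') / 2)) ≤
          (n : ℝ) ^ (-((2 : ℝ) + ((k : ℝ) + k') / 2 - 1)) :=
        Real.rpow_le_rpow_of_exponent_le hn1 (by linarith)
      calc |a₁ n * b₁ n - a₂ n * b₂ n| * |IG (((k : ℝ) + k') / 2) (ht M l s) n -
            c * (n : ℝ) ^ (-(s + ((k : ℝ) + k') / 2 - 1))|
          ≤ (|a₁ n * b₁ n| + |a₂ n * b₂ n|) *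
            (CG * (n : ℝ) ^ (-((2 : ℝ) + ((k : ℝ) + k') / 2 - 1))) :=
            mul_le_mul (abs_sub _ _) (h6.trans (mul_le_mul_of_nonneg_left h7 hCG))
              (abs_nonneg _) (by positivity)
        _ = CG * ((|a₁ n * b₁ n| + |a₂ n * b₂ n|) *
            (n : ℝ) ^ (-((2 : ℝ) + ((k : ℝ) + k') / 2 - 1))) := by ring
  have hes : Summable (fun n : ℕ => (a₁ n * b₁ n - a₂ n * b₂ n) *
      (IG (((k : ℝ) + k') / 2) (ht M l s) n -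
      c * (n : ℝ) ^ (-(s + ((k : ℝ) + k') / 2 - 1)))) := Summable.of_norm_bounded s3 hle
  have herr := tsum_of_norm_bounded s3.hasSum hle
  rw [Real.norm_eq_abs] at herr
  have hsum : ∑' n : ℕ, (a₁ n * b₁ n - a₂ n * b₂ n) * IG (((k : ℝ) + k') / 2) (ht M l s) n =
      c * (∑' n : ℕ, (a₁ n * b₁ n - a₂ n * b₂ n) * (n : ℝ) ^ (-(s + ((k : ℝ) + k') / 2 - 1))) +
      ∑' n : ℕ, (a₁ n * b₁ n - a₂ n * b₂ n) * (IG (((k : ℝ) + k') / 2) (ht M l s) n -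
      c * (n : ℝ) ^ (-(s + ((k : ℝ) + k') / 2 - 1))) := by
    rw [← tsum_mul_left, ← (t3.mul_left c).tsum_add hes]
    exact tsum_congr (fun n => by ring)
  have hc0 : 0 < c := lt_of_lt_of_le hc₀ hc
  rw [le_div_iff₀ hc₀]
  have h8 : |∑' n : ℕ, (a₁ n * b₁ n - a₂ n * b₂ n) * (n : ℝ) ^ (-(s + ((k : ℝ) + k') / 2 - 1))| * c =
      |∑' n : ℕ, (a₁ n * b₁ n - a₂ n * b₂ n) * IG (((k : ℝ) + k') / 2) (ht M l s) n -
      ∑' n : ℕ, (a₁ n * b₁ n - a₂ n * b₂ n) * (IG (((k : ℝ) + k') / 2) (ht M l s) n -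
      c * (n : ℝ) ^ (-(s + ((k : ℝ) + k') / 2 - 1)))| := by
    rw [hsum, add_sub_cancel_right, abs_mul, abs_of_pos hc0, mul_comm]
  calc |∑' n : ℕ, (a₁ n * b₁ n - a₂ n * b₂ n) * (n : ℝ) ^ (-(s + ((k : ℝ) + k') / 2 - 1))| * c₀
      ≤ |∑' n : ℕ, (a₁ n * b₁ n - a₂ n * b₂ n) * (n : ℝ) ^ (-(s + ((k : ℝ) + k') / 2 - 1))| * c :=
        mul_le_mul_of_nonneg_left hc (abs_nonneg _)
    _ ≤ _ := by
        rw [h8]
        exact (abs_sub _ _).trans (add_le_add hint herr)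

end Pool.Agent.Lib.MP_058a58_ag.MT
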