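import Pool.Agent.Lib.MP_058a58_ag.MT.Stm

set_option autoImplicit false

/-!
# Twists by modular forms, piece CO: counting
-/

open UpperHalfPlane MeasureTheory Filter Topology
open scoped MatrixGroups Modular

namespace Pool.Agent.Lib.MP_058a58_ag.MT

private lemma CO_jf_ne (γ : SL(2, ℤ)) (z : ℍ) : jf γ z ≠ 0 := by
  have h := denom_ne_zero (γ : GL (Fin 2) ℝ) z
  have e : denom (γ : GL (Fin 2) ℝ) z = jf γ z := by
    rw [ModularGroup.denom_apply]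
    rfl
  rwa [e] at h

private lemma CO_im (γ : SL(2, ℤ)) (z : ℍ) : (γ • z).im = z.im / ‖jf γ z‖ ^ 2 := by
  have h := ModularGroup.im_smul_eq_div_normSq γ z
  have e : denom (γ : GL (Fin 2) ℝ) z = jf γ z := by
    rw [ModularGroup.denom_apply]
    rfl
  rw [e, Complex.normSq_eq_norm_sq] at h
  exact h

private lemma CO_vz (γ : SL(2, ℤ)) (z : ℍ) :
    vz z (γ 1 0) (γ 1 1) = jf γ z / (Real.sqrt z.im : ℂ) := rfl

private lemma CO_norm (γ : SL(2, ℤ)) (z : ℍ) :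
    ‖vz z (γ 1 0) (γ 1 1)‖ = ‖jf γ z‖ / Real.sqrt z.im := by
  rw [CO_vz, norm_div, Complex.norm_real, Real.norm_of_nonneg (Real.sqrt_nonneg _)]

private lemma CO_inv (γ : SL(2, ℤ)) (z : ℍ) :
    (‖vz z (γ 1 0) (γ 1 1)‖ ^ 2)⁻¹ = (γ • z).im := by
  rw [CO_norm, div_pow, Real.sq_sqrt z.im_pos.le, inv_div, CO_im]

private lemma CO_arg (γ : SL(2, ℤ)) (z : ℍ) :
    vz z (γ 1 0) (γ 1 1) / ‖vz z (γ 1 0) (γ 1 1)‖ = jf γ z / ‖jf γ z‖ := by
  have h1 : (Real.sqrt z.im : ℂ) ≠ 0 := by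
    exact_mod_cast (Real.sqrt_pos.2 z.im_pos).ne'
  have h2 : (‖jf γ z‖ : ℂ) ≠ 0 := by
    exact_mod_cast (norm_pos_iff.2 (CO_jf_ne γ z)).ne'
  rw [CO_norm, CO_vz, Complex.ofReal_div]
  field_simp

private lemma CO_ne (γ : SL(2, ℤ)) (z : ℍ) : vz z (γ 1 0) (γ 1 1) ≠ 0 := by
  rw [CO_vz]
  refine div_ne_zero (CO_jf_ne γ z) ?_
  exact_mod_cast (Real.sqrt_pos.2 z.im_pos).ne'

private lemma CO_smul (z : ℍ) (n : ℕ) (c d : ℤ) :
    (n : ℂ) * vz z c d = vz z (n * c) (n * d) := by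
  unfold vz
  push_cast
  ring

theorem p_CO : S_CO := by
  classical
  intro hPB hSM hCO1 hCO2 M l s hM hs1 hs2 F hF z
  obtain ⟨hphi0, -, -, -, -, -, hphin⟩ := hPB l s hs1 hs2
  have hterm : ∀ γ : CongruenceSubgroup.Gamma0 M,
      strip.indicator (fun z => F z * (ht M l s z.im : ℂ)) ((γ : SL(2, ℤ)) • z) =
      if (γ : SL(2, ℤ)) • z ∈ strip then
        (fun c d : ℤ => F z * ∑' n : ℕ, (if 1 ≤ n ∧ n.Coprime M then
          phi l s (vz z (n * c) (n * d)) else 0)) ((γ : SL(2, ℤ)) 1 0) ((γ : SL(2, ℤ)) 1 1)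
      else 0 := by
    intro γ
    rw [Set.indicator_apply]
    refine if_congr Iff.rfl ?_ rfl
    dsimp only
    rw [hF γ γ.2 z, mul_comm (_ ^ l) (F z), mul_assoc]
    congr 1
    rw [ht, Complex.ofReal_tsum, ← tsum_mul_left]
    refine tsum_congr fun n => ?_
    by_cases hn : 1 ≤ n ∧ n.Coprime M
    · rw [if_pos hn, if_pos hn, ← CO_smul, hphin _ n hn.1 (CO_ne _ z), CO_inv, CO_arg]
    · rw [if_neg hn, if_neg hn, Complex.ofReal_zero, mul_zero]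
  refine (tsum_congr hterm).trans ((hCO1 M z (fun c d : ℤ => F z * ∑' n : ℕ,
    (if 1 ≤ n ∧ n.Coprime M then phi l s (vz z (n * c) (n * d)) else 0)) hM).trans ?_)
  have h2 := hCO2 M (fun v => phi l s (vz z v.1 v.2)) hM (by
    dsimp only
    have : vz z 0 0 = 0 := by simp [vz]
    rw [this, hphi0]) (hSM l s hs1 hs2 z)
  rw [Zs, ← h2, ← tsum_mul_left]
  refine tsum_congr fun v => ?_
  split_ifs with h
  · rfl
  · rw [mul_zero]

end Pool.Agent.Lib.MP_058a58_ag.MT
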