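import Pool.Agent.Lib.MP_058a58_ag.MT.Stm

set_option autoImplicit false

open UpperHalfPlane MeasureTheory Filter Topology ModularGroup
open scoped MatrixGroups Modular

namespace Pool.Agent.Lib.MP_058a58_ag.MT

/-- the matrices that move `z` into the strip -/
private def CO1_A (M : ℕ) (z : ℍ) : Set (CongruenceSubgroup.Gamma0 M) :=
  {γ | (γ : SL(2, ℤ)) • z ∈ strip}

/-- the bottom rows -/
private def CO1_B (M : ℕ) : Set (ℤ × ℤ) := {v | (M : ℤ) ∣ v.1 ∧ IsCoprime v.1 v.2}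

/-- the bottom row -/
private def CO1_m (M : ℕ) (γ : CongruenceSubgroup.Gamma0 M) : ℤ × ℤ :=
  ((γ : SL(2, ℤ)) 1 0, (γ : SL(2, ℤ)) 1 1)

private lemma CO1_mem {M : ℕ} {g : SL(2, ℤ)} :
    g ∈ CongruenceSubgroup.Gamma0 M ↔ (M : ℤ) ∣ g 1 0 := by
  rw [CongruenceSubgroup.Gamma0_mem, ZMod.intCast_zmod_eq_zero_iff_dvd]

private lemma CO1_eq {g g' : SL(2, ℤ)} (h0 : g 1 0 = g' 1 0) (h1 : g 1 1 = g' 1 1) :
    ∃ n : ℤ, g = T ^ n * g' := by
  have d1 := Matrix.det_fin_two g.1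
  have d2 := Matrix.det_fin_two g'.1
  rw [g.2] at d1
  rw [g'.2] at d2
  change (1 : ℤ) = g 0 0 * g 1 1 - g 0 1 * g 1 0 at d1
  change (1 : ℤ) = g' 0 0 * g' 1 1 - g' 0 1 * g' 1 0 at d2
  rw [h0, h1] at d1
  have e0 : g 0 0 = g' 0 0 + (g 0 1 * g' 0 0 - g 0 0 * g' 0 1) * g' 1 0 := by
    linear_combination g 0 0 * d2 - g' 0 0 * d1
  have e1 : g 0 1 = g' 0 1 + (g 0 1 * g' 0 0 - g 0 0 * g' 0 1) * g' 1 1 := by
    linear_combination g 0 1 * d2 - g' 0 1 * d1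
  refine ⟨g 0 1 * g' 0 0 - g 0 0 * g' 0 1, ?_⟩
  set n := g 0 1 * g' 0 0 - g 0 0 * g' 0 1 with hn
  have hT : ((T ^ n * g' : SL(2, ℤ)) : Matrix (Fin 2) (Fin 2) ℤ) = !![1, n; 0, 1] * g'.1 := by
    rw [Matrix.SpecialLinearGroup.coe_mul, coe_T_zpow]
  apply Subtype.ext
  rw [hT]
  ext i j
  fin_cases i <;> fin_cases j
  · simp only [Matrix.mul_apply, Fin.sum_univ_two]
    show g 0 0 = 1 * g' 0 0 + n * g' 1 0
    rw [one_mul]
    exact e0
  · simp only [Matrix.mul_apply, Fin.sum_univ_two]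
    show g 0 1 = 1 * g' 0 1 + n * g' 1 1
    rw [one_mul]
    exact e1
  · simp only [Matrix.mul_apply, Fin.sum_univ_two]
    show g 1 0 = 0 * g' 0 0 + 1 * g' 1 0
    rw [zero_mul, one_mul, zero_add]
    exact h0
  · simp only [Matrix.mul_apply, Fin.sum_univ_two]
    show g 1 1 = 0 * g' 0 1 + 1 * g' 1 1
    rw [zero_mul, one_mul, zero_add]
    exact h1

private lemma CO1_inj (M : ℕ) (z : ℍ) : Set.InjOn (CO1_m M) (CO1_A M z) := by
  rintro γ hγ γ' hγ' h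
  simp only [CO1_m, Prod.mk.injEq] at h
  obtain ⟨n, hn⟩ := CO1_eq h.1 h.2
  have h1 : ((γ : SL(2, ℤ)) • z).re = ((γ' : SL(2, ℤ)) • z).re + n := by
    rw [hn, mul_smul, re_T_zpow_smul]
  have h2 : 0 ≤ ((γ : SL(2, ℤ)) • z).re ∧ ((γ : SL(2, ℤ)) • z).re < 1 := hγ
  have h3 : 0 ≤ ((γ' : SL(2, ℤ)) • z).re ∧ ((γ' : SL(2, ℤ)) • z).re < 1 := hγ'
  have h4 : n = 0 := by
    have h5 : (n : ℝ) < 1 := by linarith [h2.2, h3.1]
    have h6 : (-1 : ℝ) < n := by linarith [h2.1, h3.2]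
    have h5' : n < 1 := by exact_mod_cast h5
    have h6' : -1 < n := by exact_mod_cast h6
    omega
  rw [h4, zpow_zero, one_mul] at hn
  exact Subtype.ext hn

private lemma CO1_image (M : ℕ) (z : ℍ) : CO1_m M '' CO1_A M z = CO1_B M := by
  ext v
  constructor
  · rintro ⟨γ, _, rfl⟩
    exact ⟨CO1_mem.1 γ.2, Matrix.SpecialLinearGroup.isCoprime_row (γ : SL(2, ℤ)) 1⟩
  · rintro ⟨h1, h2⟩
    obtain ⟨g, -, hg⟩ := bottom_row_surj (R := ℤ) (show ![v.1, v.2] ∈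
      {cd : Fin 2 → ℤ | IsCoprime (cd 0) (cd 1)} from h2)
    have hg0 : g 1 0 = v.1 := congrFun hg 0
    have hg1 : g 1 1 = v.2 := congrFun hg 1
    set n : ℤ := -⌊(g • z).re⌋ with hn
    have hrow : (T ^ n * g) 1 = g 1 := T_pow_mul_apply_one n g
    have hr0 : (T ^ n * g) 1 0 = v.1 := by rw [hrow, hg0]
    have hr1 : (T ^ n * g) 1 1 = v.2 := by rw [hrow, hg1]
    refine ⟨⟨T ^ n * g, ?_⟩, ?_, ?_⟩
    · rw [CO1_mem, hr0]
      exact h1
    · show 0 ≤ ((T ^ n * g) • z).re ∧ ((T ^ n * g) • z).re < 1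
      rw [mul_smul, re_T_zpow_smul, hn]
      push_cast
      constructor
      · linarith [Int.floor_le (g • z).re]
      · linarith [Int.lt_floor_add_one (g • z).re]
    · exact Prod.ext hr0 hr1

theorem p_CO1 : S_CO1 := by
  classical
  intro M z G _
  have h1 : ∀ γ : CongruenceSubgroup.Gamma0 M, (if (γ : SL(2, ℤ)) • z ∈ strip then
      G ((γ : SL(2, ℤ)) 1 0) ((γ : SL(2, ℤ)) 1 1) else 0) =
      (CO1_A M z).indicator (fun γ => (fun v : ℤ × ℤ => G v.1 v.2) (CO1_m M γ)) γ := by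
    intro γ
    rw [Set.indicator_apply]
    rfl
  have h2 : ∀ v : ℤ × ℤ, (if (M : ℤ) ∣ v.1 ∧ IsCoprime v.1 v.2 then G v.1 v.2 else 0) =
      (CO1_B M).indicator (fun v : ℤ × ℤ => G v.1 v.2) v := by
    intro v
    rw [Set.indicator_apply]
    by_cases h : (M : ℤ) ∣ v.1 ∧ IsCoprime v.1 v.2
    · rw [if_pos h, if_pos (show v ∈ CO1_B M from h)]
    · rw [if_neg h, if_neg (show v ∉ CO1_B M from h)]
  rw [tsum_congr h1, tsum_congr h2, ← tsum_subtype (CO1_A M z),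
    ← tsum_image (fun v : ℤ × ℤ => G v.1 v.2) (CO1_inj M z), CO1_image]
  exact tsum_subtype (CO1_B M) (fun v : ℤ × ℤ => G v.1 v.2)

end Pool.Agent.Lib.MP_058a58_ag.MT
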