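import Pool.Agent.Lib.MP_058a58_ag.MT.Stm

set_option autoImplicit false

open UpperHalfPlane MeasureTheory Filter Topology
open scoped MatrixGroups Modular

namespace Pool.Agent.Lib.MP_058a58_ag.MT

/-- the triples -/
private def CO2_A (M : ℕ) : Set ((ℤ × ℤ) × ℕ) :=
  {x | ((M : ℤ) ∣ x.1.1 ∧ IsCoprime x.1.1 x.1.2) ∧ 1 ≤ x.2 ∧ x.2.Coprime M}

/-- the multiplication -/
private def CO2_m (x : (ℤ × ℤ) × ℕ) : ℤ × ℤ := (x.2 * x.1.1, x.2 * x.1.2)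

private lemma CO2_gcd {c d : ℤ} (n : ℕ) (h : IsCoprime c d) :
    Int.gcd (n * c) (n * d) = n := by
  rw [Int.gcd_mul_left, Int.isCoprime_iff_gcd_eq_one.1 h, mul_one, Int.natAbs_natCast]

private lemma CO2_inj (M : ℕ) : Set.InjOn CO2_m (CO2_A M) := by
  rintro ⟨⟨c, d⟩, n⟩ ⟨⟨_, h1⟩, hn, _⟩ ⟨⟨c', d'⟩, n'⟩ ⟨⟨_, h1'⟩, _, _⟩ h
  simp only [CO2_m, Prod.mk.injEq] at h h1 h1' hn
  have hnn : n = n' := by
    rw [← CO2_gcd n h1, ← CO2_gcd n' h1', h.1, h.2]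
  subst hnn
  have h0 : (n : ℤ) ≠ 0 := by exact_mod_cast (by omega : n ≠ 0)
  have e1 := mul_left_cancel₀ h0 h.1
  have e2 := mul_left_cancel₀ h0 h.2
  rw [e1, e2]

private lemma CO2_image {M : ℕ} {C D : ℤ} (h0 : (C, D) ≠ (0, 0)) :
    (C, D) ∈ CO2_m '' CO2_A M ↔ (M : ℤ) ∣ C ∧ IsCoprime D (M : ℤ) := by
  constructor
  · rintro ⟨⟨⟨c, d⟩, n⟩, ⟨⟨h1, h2⟩, hn, h3⟩, h⟩
    simp only [CO2_m, Prod.mk.injEq] at h h1 h2 hn h3
    obtain ⟨rfl, rfl⟩ := h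
    refine ⟨h1.mul_left _, ?_⟩
    refine IsCoprime.mul_left (Nat.isCoprime_iff_coprime.2 h3) ?_
    exact (h2.symm).of_isCoprime_of_dvd_right h1
  · rintro ⟨h1, h2⟩
    have hg : Int.gcd C D ≠ 0 := by
      rw [Ne, Int.gcd_eq_zero_iff]
      rintro ⟨rfl, rfl⟩
      exact h0 rfl
    set n := Int.gcd C D with hn
    have hn0 : (n : ℤ) ≠ 0 := by exact_mod_cast hg
    have hnC : (n : ℤ) ∣ C := Int.gcd_dvd_left _ _
    have hnD : (n : ℤ) ∣ D := Int.gcd_dvd_right _ _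
    have hcop : IsCoprime (n : ℤ) (M : ℤ) := h2.of_isCoprime_of_dvd_left hnD
    obtain ⟨c, hc⟩ := hnC
    obtain ⟨d, hd⟩ := hnD
    refine ⟨((c, d), n), ⟨⟨?_, ?_⟩, Nat.one_le_iff_ne_zero.2 hg, Nat.isCoprime_iff_coprime.1 hcop⟩, ?_⟩
    · rw [hc] at h1
      exact hcop.symm.dvd_of_dvd_mul_left h1
    · rw [Int.isCoprime_iff_gcd_eq_one]
      have h3 : Int.gcd (n * c) (n * d) = n := by rw [← hc, ← hd]
      rw [Int.gcd_mul_left, Int.natAbs_natCast] at h3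
      exact Nat.eq_of_mul_eq_mul_left (Nat.pos_of_ne_zero hg) (by rw [h3, mul_one])
    · simp only [CO2_m, Prod.mk.injEq]
      exact ⟨hc.symm, hd.symm⟩

theorem p_CO2 : S_CO2 := by
  classical
  intro M H hM h0 hs
  have hs' : Summable H := hs.of_norm
  set f : (ℤ × ℤ) × ℕ → ℂ := (CO2_A M).indicator (fun x => H (CO2_m x)) with hf
  have hfs : Summable f := by
    rw [hf, ← summable_subtype_iff_indicator]
    exact hs'.comp_injective (i := fun x : CO2_A M => CO2_m x.1)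
      fun x y h => Subtype.ext (CO2_inj M x.2 y.2 h)
  have h1 : ∀ v : ℤ × ℤ, (if (M : ℤ) ∣ v.1 ∧ IsCoprime v.1 v.2 then
      ∑' n : ℕ, (if 1 ≤ n ∧ n.Coprime M then H (n * v.1, n * v.2) else 0) else 0) =
      ∑' n : ℕ, f (v, n) := by
    intro v
    by_cases hv : (M : ℤ) ∣ v.1 ∧ IsCoprime v.1 v.2
    · rw [if_pos hv]
      refine tsum_congr fun n => ?_
      rw [hf, Set.indicator_apply]
      by_cases hn : 1 ≤ n ∧ n.Coprime M
      · rw [if_pos hn, if_pos (show (v, n) ∈ CO2_A M from ⟨hv, hn⟩)]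
        rfl
      · rw [if_neg hn, if_neg (fun h => hn h.2)]
    · rw [if_neg hv]
      have h2 : ∀ n : ℕ, f (v, n) = 0 := by
        intro n
        rw [hf, Set.indicator_apply, if_neg (fun h => hv h.1)]
      simp only [h2, tsum_zero]
  rw [tsum_congr h1, ← hfs.tsum_prod, hf, ← tsum_subtype (CO2_A M) (fun x => H (CO2_m x)),
    ← tsum_image H (CO2_inj M), tsum_subtype]
  refine tsum_congr fun v => ?_
  obtain ⟨C, D⟩ := v
  rw [Set.indicator_apply]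
  by_cases hv : (C, D) = ((0, 0) : ℤ × ℤ)
  · rw [hv, h0]
    simp
  · by_cases h3 : (M : ℤ) ∣ C ∧ IsCoprime D (M : ℤ)
    · rw [if_pos ((CO2_image hv).2 h3), if_pos h3]
    · rw [if_neg (fun h => h3 ((CO2_image hv).1 h)), if_neg h3]

end Pool.Agent.Lib.MP_058a58_ag.MT
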