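import Pool.Agent.Lib.MP_058a58_ag.MT.Stm2

set_option autoImplicit false

/-!
# Piece DBE: equal weights, different eigenvalues at one prime
-/

open UpperHalfPlane MeasureTheory Filter Topology
open scoped MatrixGroups Modular ComplexConjugate

namespace Pool.Agent.Lib.MP_058a58_ag.MT

theorem DBE_F (p : ℕ) (hp : 0 < p) (k : ℕ) (f g : ℍ → ℂ) (z : ℍ) :
    Fl k k (fun z => f (dil p hp z)) g z - Fl k k f (fun z => g (dil p hp z)) z =
      Fp p hp k f g z := by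
  have h1 : ((k : ℝ) + k) / 2 = (k : ℝ) := by ring
  have h2 : ((z.im ^ (((k : ℝ) + k) / 2) : ℝ) : ℂ) = (z.im : ℂ) ^ k := by
    rw [h1, Real.rpow_natCast]
    push_cast
    ring
  simp only [Fl, Fp]
  rw [h2]
  ring

theorem DBE_DD {k : ℕ} {a b : ℕ → ℝ} (ha : a 0 = 0) (s : ℝ) :
    DD k k a b s = ∑' n : ℕ, a n * b n * (n : ℝ) ^ (-(s + k - 1)) := by
  unfold DD
  apply tsum_congr
  intro n
  rcases Nat.eq_zero_or_pos n with rfl | hn
  · simp [lam, ha]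
  · have hn0 : (0 : ℝ) < n := by exact_mod_cast hn
    have h1 : (n : ℝ) ^ (-(s + k - 1)) =
        (n : ℝ) ^ (-s) / ((n : ℝ) ^ (((k : ℝ) - 1) / 2) * (n : ℝ) ^ (((k : ℝ) - 1) / 2)) := by
      rw [← Real.rpow_add hn0, ← Real.rpow_sub hn0]
      congr 1
      ring
    have h2 : (n : ℝ) ^ (((k : ℝ) - 1) / 2) ≠ 0 := (Real.rpow_pos_of_pos hn0 _).ne'
    simp only [lam]
    rw [h1]
    field_simp

theorem p_DBE : S_DBE := by
  intro hMAIN hPW hUP hHI hOR hCMP hMS hHR N N' k f g a b hP hex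
  obtain ⟨p, hpp, hpN, hab⟩ := hex
  have hp : 0 < p := hpp.pos
  obtain ⟨hcont, hbd, hinv⟩ := hHI hUP N N' k p hp f g a b hP.hf hP.hg
  have hM : 1 ≤ N * N' * p := Nat.one_le_iff_ne_zero.2 (by
    have h1 := hP.hN
    have h2 := hP.hN'
    positivity)
  obtain ⟨R, w, hw⟩ := hPW (N * N' * p) hM
  obtain ⟨C₁, hC₁⟩ := hMAIN (N * N' * p) 0 R w (Fp p hp k f g) hM hw hcont hbd (by
    intro γ hγ z
    rw [pow_zero, one_mul]
    exact hinv γ hγ z)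
  have hor := hOR N N' k p hp f g a b R w hpp hP.hN hP.hN' hpN hP.hf hP.hg hw
  have hstrip : ∃ C₁ : ℝ, ∀ s : ℝ, 1 < s → s ≤ 2 → ‖∫ z in strip,
      (Fl k k (fun z => f (dil p hp z)) g z - Fl k k f (fun z => g (dil p hp z)) z) *
        (ht (N * N' * p) 0 s z.im : ℂ)‖ ≤ C₁ := by
    refine ⟨C₁, fun s hs1 hs2 => ?_⟩
    obtain ⟨κ, _, h⟩ := hC₁ s hs1 hs2
    rw [hor, mul_zero, sub_zero] at h
    have h2 : (fun z : ℍ => (Fl k k (fun z => f (dil p hp z)) g z -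
        Fl k k f (fun z => g (dil p hp z)) z) * (ht (N * N' * p) 0 s z.im : ℂ)) =
        fun z : ℍ => Fp p hp k f g z * (ht (N * N' * p) 0 s z.im : ℂ) := by
      funext z
      rw [DBE_F]
    rw [h2]
    exact h
  obtain ⟨C, hC⟩ := hCMP (N * N' * p) 0 k k (fun z => f (dil p hp z)) g f
    (fun z => g (dil p hp z)) (upc p a) b a (upc p b) hM hP.hk hP.hk
    (hUP k p hp f a hP.hf.toIsQ) hP.hg.toIsQ hP.hf.toIsQ (hUP k p hp g b hP.hg.toIsQ) hstrip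
  obtain ⟨_, _, hMa⟩ := hMS k f a hP.hk hP.hf.toIsQ
  obtain ⟨_, _, hMb⟩ := hMS k g b hP.hk hP.hg.toIsQ
  have hp1 : (1 : ℝ) ≤ p := by exact_mod_cast hpp.one_lt.le
  have hd : 0 < |b p - a p| := abs_pos.mpr (sub_ne_zero.mpr hab.symm)
  refine ⟨((p : ℝ) ^ ((k : ℝ) + 1) + (p : ℝ) ^ (k - 1)) * C / |b p - a p|, fun s hs1 hs2 => ?_⟩
  obtain ⟨_, hC2⟩ := hC s hs1 hs2
  have hσ : s + ((k : ℝ) + k) / 2 - 1 = s + k - 1 := by ring
  rw [hσ] at hC2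
  have h1 := hHR N N' k p a b (s + k - 1) hP.ha hP.hb hpp hpN (hMa s hs1 hs2).1 (hMb s hs1 hs2).1
  rw [← DBE_DD hP.ha.zero s] at h1
  have h2 : |b p - a p| * |DD k k a b s| ≤
      ((p : ℝ) ^ ((k : ℝ) + 1) + (p : ℝ) ^ (k - 1)) * C := by
    rw [← abs_mul, h1, abs_mul]
    apply mul_le_mul _ hC2 (abs_nonneg _) (by positivity)
    have h3 : 0 ≤ (p : ℝ) ^ (s + k - 1) := by positivity
    have h4 : (0 : ℝ) ≤ (p : ℝ) ^ (k - 1) := by positivity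
    have h5 : (p : ℝ) ^ (s + k - 1) ≤ (p : ℝ) ^ ((k : ℝ) + 1) :=
      Real.rpow_le_rpow_of_exponent_le hp1 (by linarith)
    rw [abs_le]
    constructor <;> linarith
  rw [le_div_iff₀ hd, mul_comm]
  exact h2

end Pool.Agent.Lib.MP_058a58_ag.MT
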