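import Pool.Agent.Lib.MP_058a58_ag.MT.Stm2

set_option autoImplicit false

/-!
# Twists by modular forms: different weights
-/

open UpperHalfPlane MeasureTheory Filter Topology
open scoped MatrixGroups Modular ComplexConjugate

namespace Pool.Agent.Lib.MP_058a58_ag.MT

private theorem DBL_zero (k : ℕ) : IsQ k (fun _ => (0 : ℂ)) (fun _ => (0 : ℝ)) where
  cont := continuous_const
  bdd := ⟨0, fun z => by simp⟩
  zero := rfl
  sum := fun z => by
    simp only [Complex.ofReal_zero, zero_mul]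
    exact hasSum_zero

private theorem DBL_term (k k' : ℕ) (a b : ℕ → ℝ) (ha : a 0 = 0) (s : ℝ) (n : ℕ) :
    lam k a n * lam k' b n * (n : ℝ) ^ (-s) =
      (a n * b n - (fun _ : ℕ => (0 : ℝ)) n * (fun _ : ℕ => (0 : ℝ)) n) *
        (n : ℝ) ^ (-(s + ((k : ℝ) + k') / 2 - 1)) := by
  rcases Nat.eq_zero_or_pos n with h | h
  · subst h
    simp [lam, ha]
  · have hn : (0 : ℝ) < n := by exact_mod_cast h
    have e1 : lam k a n = a n * (n : ℝ) ^ (-(((k : ℝ) - 1) / 2)) := by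
      rw [lam, Real.rpow_neg hn.le, ← div_eq_mul_inv]
    have e2 : lam k' b n = b n * (n : ℝ) ^ (-(((k' : ℝ) - 1) / 2)) := by
      rw [lam, Real.rpow_neg hn.le, ← div_eq_mul_inv]
    rw [e1, e2]
    have e : -(s + ((k : ℝ) + k') / 2 - 1) =
        -(((k : ℝ) - 1) / 2) + (-(((k' : ℝ) - 1) / 2)) + (-s) := by ring
    rw [e, Real.rpow_add hn, Real.rpow_add hn]
    ring

theorem p_DBL : S_DBL := by
  intro hMAIN hPW hHL hCMP N N' k' l f g a b hP hl
  have hM : 1 ≤ N * N' := Nat.one_le_iff_ne_zero.2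
    (Nat.mul_ne_zero (Nat.one_le_iff_ne_zero.1 hP.hN) (Nat.one_le_iff_ne_zero.1 hP.hN'))
  obtain ⟨R, w, hw⟩ := hPW (N * N') hM
  obtain ⟨hc, hb, hmod⟩ := hHL N N' k' l f g a b hP.hf hP.hg
  obtain ⟨C, hC⟩ := hMAIN (N * N') l R w (Fl (k' + l) k' f g) hM hw hc hb hmod
  have hFl : ∀ z : ℍ, Fl (k' + l) k' (fun _ => (0 : ℂ)) (fun _ => (0 : ℂ)) z = 0 := by
    intro z
    simp [Fl]
  obtain ⟨C', hC'⟩ := hCMP (N * N') l (k' + l) k' f g (fun _ => 0) (fun _ => 0) a b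
    (fun _ => 0) (fun _ => 0) hM hP.hk hP.hk' hP.hf.toIsQ hP.hg.toIsQ (DBL_zero _) (DBL_zero _)
    ⟨C, fun s hs hs2 => by
      obtain ⟨κ, hκ, h⟩ := hC s hs hs2
      rw [hκ (by omega), zero_mul, sub_zero] at h
      have e : (fun z : ℍ => (Fl (k' + l) k' f g z -
          Fl (k' + l) k' (fun _ => (0 : ℂ)) (fun _ => (0 : ℂ)) z) *
          (ht (N * N') l s z.im : ℂ)) =
          fun z : ℍ => Fl (k' + l) k' f g z * (ht (N * N') l s z.im : ℂ) := by
        funext z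
        rw [hFl, sub_zero]
      rw [e]
      exact h⟩
  refine ⟨C', fun s hs hs2 => ?_⟩
  have h := (hC' s hs hs2).2
  have e : DD (k' + l) k' a b s = ∑' n : ℕ, (a n * b n - (fun _ : ℕ => (0 : ℝ)) n *
      (fun _ : ℕ => (0 : ℝ)) n) * (n : ℝ) ^ (-(s + (((k' + l : ℕ) : ℝ) + k') / 2 - 1)) := by
    unfold DD
    exact tsum_congr (fun n => DBL_term (k' + l) k' a b hP.hf.zero s n)
  rw [e]
  exact h

end Pool.Agent.Lib.MP_058a58_ag.MT
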