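import Mathlib
import Pool.Agent.Lib.MP_058a58_ag.MT.Stm2

set_option autoImplicit false

/-!
# Twists by modular forms: the diagonal, and absolute convergence
-/

open UpperHalfPlane MeasureTheory Filter Topology
open scoped MatrixGroups Modular

namespace Pool.Agent.Lib.MP_058a58_ag.MT

private theorem DG_key (k : ℕ) (a : ℕ → ℝ) (h0 : a 0 = 0) (s : ℝ) (n : ℕ) :
    lam k a n * lam k a n * (n : ℝ) ^ (-s) = a n ^ 2 * (n : ℝ) ^ (-(s + k - 1)) := by
  rcases Nat.eq_zero_or_pos n with hn | hn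
  · subst hn
    rw [lam, h0]
    simp
  · have hn' : (0 : ℝ) < (n : ℝ) := by exact_mod_cast hn
    have hp : 0 < (n : ℝ) ^ (((k : ℝ) - 1) / 2) := Real.rpow_pos_of_pos hn' _
    have h1 : (n : ℝ) ^ (-(s + k - 1)) =
        (n : ℝ) ^ (-s) / ((n : ℝ) ^ (((k : ℝ) - 1) / 2) * (n : ℝ) ^ (((k : ℝ) - 1) / 2)) := by
      rw [← Real.rpow_add hn', ← Real.rpow_sub hn']
      congr 1
      ring
    rw [h1, lam]
    field_simp

theorem p_DG : S_DG := by
  intro hMS N N' k k' f g a b hP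
  obtain ⟨C₁, hC₁, h₁⟩ := hMS k f a hP.hk hP.hf.toIsQ
  obtain ⟨C₂, hC₂, h₂⟩ := hMS k' g b hP.hk' hP.hg.toIsQ
  have ka := fun s n => DG_key k a hP.ha.zero s n
  have kb := fun s n => DG_key k' b hP.hb.zero s n
  refine ⟨⟨C₁, fun s hs hs2 => ?_⟩, fun s hs hs2 => ?_⟩
  · have h3 : DD k k a a s = ∑' n : ℕ, a n ^ 2 * (n : ℝ) ^ (-(s + k - 1)) :=
      tsum_congr fun n => ka s n
    rw [h3, abs_of_nonneg]
    · exact (h₁ s hs hs2).2
    · exact tsum_nonneg fun n => mul_nonneg (sq_nonneg _) (Real.rpow_nonneg (Nat.cast_nonneg n) _)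
  · refine Summable.of_nonneg_of_le (fun n => ?_) (fun n => ?_)
      ((h₁ s hs hs2).1.add (h₂ s hs hs2).1)
    · exact mul_nonneg (abs_nonneg _) (Real.rpow_nonneg (Nat.cast_nonneg n) _)
    · rw [← ka s n, ← kb s n, ← add_mul]
      refine mul_le_mul_of_nonneg_right ?_ (Real.rpow_nonneg (Nat.cast_nonneg n) _)
      rw [abs_le]
      constructor
      · nlinarith [sq_nonneg (lam k a n + lam k' b n), sq_nonneg (lam k a n),
          sq_nonneg (lam k' b n)]
      · nlinarith [sq_nonneg (lam k a n - lam k' b n), sq_nonneg (lam k a n),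
          sq_nonneg (lam k' b n)]

end Pool.Agent.Lib.MP_058a58_ag.MT
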