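import Pool.Agent.Lib.MP_058a58_ag.MT.Stm3

set_option autoImplicit false

/-!
# Twists by modular forms: Euler products
-/

open Filter Topology

namespace Pool.Agent.Lib.MP_058a58_ag.MT

theorem p_EPA : S_EPA := by
  intro u s h0 h1 hmul hsum hs hne
  set f : ℕ → ℝ := fun n => u n * (n : ℝ) ^ (-s) with hf
  have hnorm : ∀ n, ‖f n‖ = |u n| * (n : ℝ) ^ (-s) := by
    intro n
    rw [hf, Real.norm_eq_abs, abs_mul, abs_of_nonneg (Real.rpow_nonneg (Nat.cast_nonneg n) _)]
  have hsn : Summable (fun n => ‖f n‖) := by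
    refine hsum.congr fun n => ?_
    rw [hnorm]
  have hf0 : f 0 = 0 := by simp [hf, h0]
  have hf1 : f 1 = 1 := by simp [hf, h1]
  have hfm : ∀ {m n : ℕ}, m.Coprime n → f (m * n) = f m * f n := by
    intro m n hmn
    simp only [hf]
    rw [hmul m n hmn, Nat.cast_mul, Real.mul_rpow (Nat.cast_nonneg m) (Nat.cast_nonneg n)]
    ring
  have hpow : ∀ (p : ℕ) (r : ℕ), f (p ^ r) = u (p ^ r) * ((p : ℝ) ^ (-s)) ^ r := by
    intro p r
    simp only [hf]
    rw [Nat.cast_pow, Real.rpow_pow_comm (Nat.cast_nonneg p)]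
  have hDp : ∀ p : ℕ, (∑' r, f (p ^ r)) = Dp u s p := by
    intro p
    rw [Dp]
    exact tsum_congr fun r => hpow p r
  have hprod : HasProd (fun p : Nat.Primes => Dp u s p) (∑' n, f n) := by
    have h2 := EulerProduct.eulerProduct_hasProd hf1 hfm hsn hf0
    have e2 : (fun p : Nat.Primes => ∑' r, f ((p : ℕ) ^ r)) = fun p : Nat.Primes => Dp u s p :=
      funext fun p => hDp p
    rw [e2] at h2
    exact h2
  -- the local factors are close to one
  have hinj : Function.Injective (fun x : Nat.Primes × ℕ => ((x.1 : ℕ) ^ (x.2 + 1))) :=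
    Subtype.val_injective.comp Nat.Primes.prodNatEquiv.injective
  have hs1 : Summable (fun x : Nat.Primes × ℕ => ‖f ((x.1 : ℕ) ^ (x.2 + 1))‖) :=
    hsn.comp_injective hinj
  have hs2 : Summable (fun p : Nat.Primes => ∑' r, ‖f ((p : ℕ) ^ (r + 1))‖) := hs1.prod
  have hs3 : ∀ p : Nat.Primes, Summable (fun r => ‖f ((p : ℕ) ^ (r + 1))‖) := fun p =>
    hs1.prod_factor p
  have hD1 : ∀ p : Nat.Primes, Dp u s p - 1 = ∑' r, f ((p : ℕ) ^ (r + 1)) := by
    intro p
    have h3 : Summable (fun r => f ((p : ℕ) ^ r)) := by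
      rw [← summable_nat_add_iff 1]
      exact (hs3 p).of_norm
    rw [← hDp, h3.tsum_eq_zero_add, pow_zero, hf1]
    ring
  have hs4 : Summable (fun p : Nat.Primes => Dp u s p - 1) := by
    refine Summable.of_norm_bounded hs2 fun p => ?_
    rw [hD1]
    exact norm_tsum_le_tsum_norm (hs3 p)
  have hs5 : Summable (fun p : Nat.Primes => Real.log |Dp u s p|) := by
    refine (Real.summable_log_one_add_of_summable hs4).congr fun p => ?_
    rw [Real.log_abs]
    congr 1
    ring
  have habs : HasProd (fun p : Nat.Primes => |Dp u s p|) |∑' n, f n| := hprod.abs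
  have hexp : HasProd (fun p : Nat.Primes => |Dp u s p|)
      (Real.exp (∑' p : Nat.Primes, Real.log |Dp u s p|)) := by
    have h2 := hs5.hasSum.rexp
    have e2 : (Real.exp ∘ fun p : Nat.Primes => Real.log |Dp u s p|) =
        fun p : Nat.Primes => |Dp u s p| :=
      funext fun p => Real.exp_log (abs_pos.2 (hne p p.2))
    rw [e2] at h2
    exact h2
  have hval : |∑' n, f n| = Real.exp (∑' p : Nat.Primes, Real.log |Dp u s p|) :=
    habs.unique hexp
  refine ⟨?_, hs5, ?_⟩
  · intro h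
    have h2 : |∑' n, f n| = 0 := by rw [abs_eq_zero]; exact h
    rw [hval] at h2
    exact (Real.exp_pos _).ne' h2
  · change Real.log |∑' n, f n| = _
    rw [hval, Real.log_exp]

end Pool.Agent.Lib.MP_058a58_ag.MT
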