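import Pool.Agent.Lib.MP_058a58_ag.MT.Stm5

set_option autoImplicit false

/-!
# Twists by modular forms: piece EPF, from the Dirichlet series to the sum over the primes
-/

open Polynomial Filter Topology UpperHalfPlane
open scoped MatrixGroups
open TatePole (RR)

namespace Pool.Agent.Lib.MP_058a58_ag.MT

/-- the logarithm of a bad local factor -/
private lemma EPF_log' {D : ℝ} (h : 1 / 4 ≤ |D|) : D ≠ 0 ∧ -3 ≤ Real.log |D| := by
  have hD0 : 0 < |D| := by linarith
  refine ⟨abs_pos.1 hD0, ?_⟩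
  have hlog := Real.one_sub_inv_le_log_of_pos hD0
  have c1 : |D|⁻¹ ≤ 4 := by
    rw [inv_le_iff_one_le_mul₀' hD0]
    linarith
  linarith

/-- finitely many primes divide a positive integer -/
private lemma EPF_fin {M : ℕ} (hM : 0 < M) : {p : Nat.Primes | (p : ℕ) ∣ M}.Finite := by
  have h1 : ((fun p : Nat.Primes => (p : ℕ)) ⁻¹' (M.divisors : Set ℕ)).Finite :=
    Set.Finite.preimage (Subtype.val_injective.injOn) (Finset.finite_toSet _)
  refine h1.subset fun p hp => ?_
  exact Finset.mem_coe.2 (Nat.mem_divisors.2 ⟨hp, hM.ne'⟩)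

/-- [EPF] -/
theorem p_EPF : S_EPF := by
  intro hE1 hE2 hE3 hEPA N N' k k' a b hN hN' hk hk' ha hb hA hB hsum hsa hsb
  classical
  obtain ⟨⟨a0, a1, am⟩, ap⟩ := hE3 N k a hk ha hA
  obtain ⟨⟨b0, b1, bm⟩, bp⟩ := hE3 N' k' b hk' hb hB
  have hM : 0 < N * N' := Nat.mul_pos hN hN'
  obtain ⟨u, hu⟩ : ∃ u : ℕ → ℝ, u = fun n => lam k a n * lam k' b n := ⟨_, rfl⟩
  -- the constant
  have hinj : Function.Injective (fun p : Nat.Primes => (p : ℕ)) := Nat.Primes.coe_nat_injective
  have hs1 : Summable fun p : Nat.Primes => lam k a p ^ 2 * (p : ℝ) ^ (-2 : ℝ) :=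
    (hsa 2 (by norm_num) le_rfl).comp_injective hinj
  have hs1' : Summable fun p : Nat.Primes => lam k' b p ^ 2 * (p : ℝ) ^ (-2 : ℝ) :=
    (hsb 2 (by norm_num) le_rfl).comp_injective hinj
  have hs2 : Summable fun p : Nat.Primes =>
      (8 * (lam k a p ^ 2 + lam k' b p ^ 2) + 20) * (p : ℝ) ^ (-2 : ℝ) := by
    have h1 : Summable fun p : Nat.Primes => (20 : ℝ) * (p : ℝ) ^ (-2 : ℝ) :=
      (Nat.Primes.summable_rpow.mpr (by norm_num)).mul_left _
    refine (((hs1.add hs1').mul_left 8).add h1).congr fun p => ?_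
    ring
  have hs3 : Summable fun p : Nat.Primes => if (p : ℕ) ∣ N * N' then (3 : ℝ) else 0 := by
    refine summable_of_hasFiniteSupport ?_
    refine (EPF_fin hM).subset fun p hp => ?_
    rw [Function.mem_support] at hp
    by_contra hc
    exact hp (if_neg hc)
  refine ⟨∑' p : Nat.Primes, ((8 * (lam k a p ^ 2 + lam k' b p ^ 2) + 20) * (p : ℝ) ^ (-2 : ℝ) +
    if (p : ℕ) ∣ N * N' then (3 : ℝ) else 0), fun s hs hs' => ?_⟩
  -- the local factors
  have key : ∀ p : ℕ, p.Prime → Dp u s p ≠ 0 ∧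
      th N k a p * th N' k' b p * (p : ℝ) ^ (-s) ≤ Real.log |Dp u s p| +
        ((8 * (lam k a p ^ 2 + lam k' b p ^ 2) + 20) * (p : ℝ) ^ (-2 : ℝ) +
          if p ∣ N * N' then (3 : ℝ) else 0) := by
    intro p hp
    have hp2 : (2 : ℝ) ≤ p := by exact_mod_cast hp.two_le
    have hp0 : (0 : ℝ) < p := by linarith
    obtain ⟨x, hx⟩ : ∃ x : ℝ, x = (p : ℝ) ^ (-s) := ⟨_, rfl⟩
    have hx0 : 0 < x := by rw [hx]; positivity
    have hxp : x ≤ (p : ℝ) ^ (-1 : ℝ) := by
      rw [hx]
      exact Real.rpow_le_rpow_of_exponent_le (by linarith) (by linarith)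
    have hxp' : x ≤ (p : ℝ)⁻¹ := by rwa [Real.rpow_neg_one] at hxp
    have hx2 : x ≤ 1 / 2 := by
      refine hxp'.trans ?_
      rw [inv_le_comm₀ hp0 (by norm_num)]
      linarith
    have hxx : x ^ 2 ≤ (p : ℝ) ^ (-2 : ℝ) := by
      calc x ^ 2 ≤ ((p : ℝ) ^ (-1 : ℝ)) ^ 2 := pow_le_pow_left₀ hx0.le hxp 2
        _ = (p : ℝ) ^ (-2 : ℝ) := by
          rw [← Real.rpow_natCast, ← Real.rpow_mul hp0.le]
          norm_num
    have hBx : Real.sqrt p ^ 2 * x < 1 := by
      rw [Real.sq_sqrt hp0.le]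
      calc (p : ℝ) * x = (p : ℝ) ^ (1 + -s) := by
            rw [hx, Real.rpow_add hp0, Real.rpow_one]
        _ < 1 := Real.rpow_lt_one_of_one_lt_of_neg (by linarith) (by linarith)
    have hBx' : Real.sqrt p * x ≤ 3 / 4 := by
      have h1 : Real.sqrt p * x ≤ Real.sqrt p * (p : ℝ)⁻¹ :=
        mul_le_mul_of_nonneg_left hxp' (Real.sqrt_nonneg _)
      refine h1.trans ?_
      have hs0 : 0 < Real.sqrt p := Real.sqrt_pos.mpr hp0
      have h2 : Real.sqrt p * (p : ℝ)⁻¹ = (Real.sqrt p)⁻¹ := by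
        have h3 : (p : ℝ) = Real.sqrt p * Real.sqrt p := (Real.mul_self_sqrt hp0.le).symm
        have h4 : Real.sqrt p * (Real.sqrt p * Real.sqrt p)⁻¹ = (Real.sqrt p)⁻¹ := by
          field_simp
        rw [← h3] at h4
        exact h4
      rw [h2, inv_le_comm₀ hs0 (by norm_num)]
      refine Real.le_sqrt_of_sq_le ?_
      norm_num
      linarith
    have hDp : Dp u s p = ∑' r : ℕ, lam k a (p ^ r) * lam k' b (p ^ r) * x ^ r := by
      unfold Dp
      rw [hu, hx]
    obtain ⟨apg, apb⟩ := ap p hp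
    obtain ⟨bpg, bpb⟩ := bp p hp
    -- the bad primes
    have hbad : p ∣ N * N' → 1 / 4 ≤ |Dp u s p| → Dp u s p ≠ 0 ∧
        th N k a p * th N' k' b p * (p : ℝ) ^ (-s) ≤ Real.log |Dp u s p| +
        ((8 * (lam k a p ^ 2 + lam k' b p ^ 2) + 20) * (p : ℝ) ^ (-2 : ℝ) +
          if p ∣ N * N' then (3 : ℝ) else 0) := by
      intro hd h4
      obtain ⟨e1, e2⟩ := EPF_log' h4
      refine ⟨e1, ?_⟩
      have hth : th N k a p * th N' k' b p = 0 := by
        unfold th
        rcases (hp.dvd_mul).1 hd with h | h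
        · rw [if_pos h, zero_mul]
        · rw [if_pos h, mul_zero]
      rw [hth, zero_mul, if_pos hd]
      have : 0 ≤ (8 * (lam k a p ^ 2 + lam k' b p ^ 2) + 20) * (p : ℝ) ^ (-2 : ℝ) := by positivity
      linarith
    by_cases hN1 : p ∣ N
    · obtain ⟨c1, c2⟩ := apb hN1
      by_cases hN2 : p ∣ N'
      · obtain ⟨d1, d2⟩ := bpb hN2
        apply hbad (Dvd.dvd.mul_right hN1 _)
        rw [hDp]
        have hlt : |lam k a p * lam k' b p * x| < 1 := by
          rw [abs_mul, abs_mul, abs_of_pos hx0]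
          calc |lam k a p| * |lam k' b p| * x
              ≤ Real.sqrt p * Real.sqrt p * x := by gcongr
            _ = Real.sqrt p ^ 2 * x := by ring
            _ < 1 := hBx
        have := (hE2.2 (lam k a p) (lam k' b p) x hlt).2
        simp only [c2, d2]
        exact this
      · obtain ⟨⟨γ, d1⟩, d2⟩ := bpg hN2
        apply hbad (Dvd.dvd.mul_right hN1 _)
        rw [hDp]
        have := (hE2.1 (lam k a p) (lam k' b p) x _ γ d1 c1 hx0 hBx).2
        simp only [c2, d2]
        exact this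
    · obtain ⟨⟨α, c1⟩, c2⟩ := apg hN1
      by_cases hN2 : p ∣ N'
      · obtain ⟨d1, d2⟩ := bpb hN2
        apply hbad (Dvd.dvd.mul_left hN2 _)
        rw [hDp]
        have := (hE2.1 (lam k' b p) (lam k a p) x _ α c1 d1 hx0 hBx).2
        simp only [c2, d2]
        simpa only [mul_comm (U (lam k a p) _) _] using this
      · obtain ⟨⟨γ, d1⟩, d2⟩ := bpg hN2
        obtain ⟨-, f1, f2⟩ := hE1 (lam k a p) (lam k' b p) x _ α γ c1 d1 hx0 hx2 hBx hBx'
        have hDp' : Dp u s p = ∑' r : ℕ, U (lam k a p) r * U (lam k' b p) r * x ^ r := by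
          rw [hDp]
          simp only [c2, d2]
        rw [← hDp'] at f1 f2
        refine ⟨f1.ne', ?_⟩
        have hnd : ¬ p ∣ N * N' := by
          intro h
          rcases (hp.dvd_mul).1 h with h | h
          · exact hN1 h
          · exact hN2 h
        have ht1 : th N k a p = lam k a p := if_neg hN1
        have ht2 : th N' k' b p = lam k' b p := if_neg hN2
        rw [ht1, ht2, if_neg hnd, abs_of_pos f1, ← hx]
        have h5 : (8 * (lam k a p ^ 2 + lam k' b p ^ 2) + 20) * x ^ 2 ≤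
            (8 * (lam k a p ^ 2 + lam k' b p ^ 2) + 20) * (p : ℝ) ^ (-2 : ℝ) :=
          mul_le_mul_of_nonneg_left hxx (by positivity)
        linarith
  have hu0 : u 0 = 0 := by rw [hu]; show lam k a 0 * lam k' b 0 = 0; rw [a0, zero_mul]
  have hu1 : u 1 = 1 := by rw [hu]; show lam k a 1 * lam k' b 1 = 1; rw [a1, b1, mul_one]
  have hum : ∀ m n : ℕ, m.Coprime n → u (m * n) = u m * u n := by
    intro m n hmn
    rw [hu]
    show lam k a (m * n) * lam k' b (m * n) = lam k a m * lam k' b m * (lam k a n * lam k' b n)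
    rw [am m n hmn, bm m n hmn]
    ring
  have hus : Summable (fun n : ℕ => |u n| * (n : ℝ) ^ (-s)) := by
    rw [hu]
    exact hsum s hs hs'
  obtain ⟨q1, q2, q3⟩ := hEPA u s hu0 hu1 hum hus (by linarith) (fun p hp => (key p hp).1)
  have hDD : DD k k' a b s = ∑' n : ℕ, u n * (n : ℝ) ^ (-s) := by
    unfold DD
    rw [hu]
  rw [hDD]
  refine ⟨q1, ?_⟩
  rw [q3, ← q2.tsum_add (hs2.add hs3)]
  unfold RR
  have hth : Summable fun p : Nat.Primes => th N k a p * th N' k' b p * (p : ℝ) ^ (-s) := by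
    have h1 : Summable fun p : Nat.Primes => |lam k a p * lam k' b p| * ((p : ℕ) : ℝ) ^ (-s) :=
      (hsum s hs hs').comp_injective hinj
    refine Summable.of_norm_bounded h1 fun p => ?_
    rw [norm_mul, Real.norm_eq_abs, Real.norm_eq_abs,
      abs_of_nonneg (Real.rpow_nonneg (Nat.cast_nonneg _) _)]
    refine mul_le_mul_of_nonneg_right ?_ (Real.rpow_nonneg (Nat.cast_nonneg _) _)
    unfold th
    split_ifs
    · rw [zero_mul, abs_zero]; positivity
    · rw [zero_mul, abs_zero]; positivity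
    · rw [mul_zero, abs_zero]; positivity
    · exact le_rfl
  exact Summable.tsum_le_tsum (fun p => (key p p.2).2) hth (q2.add (hs2.add hs3))

end Pool.Agent.Lib.MP_058a58_ag.MT
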