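import Pool.Agent.Lib.MP_058a58_ag.MT.Stm5

set_option autoImplicit false

namespace Pool.Agent.Lib.MP_058a58_ag.MT

theorem F1_diff {x B : ℝ} {α : ℂ} (h : Sat x B α) (r : ℕ) :
    ((U x (r + 1) : ℝ) : ℂ) = α * ((U x r : ℝ) : ℂ) + (α⁻¹) ^ (r + 1) := by
  have h0 : α ≠ 0 := by
    intro h0
    have := h.one_le
    rw [h0, norm_zero] at this
    norm_num at this
  induction r with
  | zero =>
    have e0 : U x 0 = 1 := rfl
    have e1 : U x (0 + 1) = x := rfl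
    rw [e0, e1, ← h.add]
    simp
  | succ r ih =>
    have h2 : U x (r + 1 + 1) = x * U x (r + 1) - U x r := rfl
    rw [h2, Complex.ofReal_sub, Complex.ofReal_mul, ← h.add]
    have h3 : ((U x r : ℝ) : ℂ) = α⁻¹ * (((U x (r + 1) : ℝ) : ℂ) - (α⁻¹) ^ (r + 1)) := by
      rw [ih]
      field_simp
      ring
    rw [h3, pow_succ (α⁻¹) (r + 1)]
    ring

theorem F1_bd {x B : ℝ} {α : ℂ} (h : Sat x B α) (r : ℕ) : |U x r| ≤ (r + 1) * ‖α‖ ^ r := by
  have ha := h.one_le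
  have hpos : 0 < ‖α‖ := by linarith
  induction r with
  | zero =>
    have e0 : U x 0 = 1 := rfl
    rw [e0]
    simp
  | succ r ih =>
    have h1 : ‖((U x (r + 1) : ℝ) : ℂ)‖ = |U x (r + 1)| := by
      rw [Complex.norm_real, Real.norm_eq_abs]
    have h1' : ‖((U x r : ℝ) : ℂ)‖ = |U x r| := by
      rw [Complex.norm_real, Real.norm_eq_abs]
    rw [← h1, F1_diff h r]
    have hinv : ‖(α⁻¹) ^ (r + 1)‖ ≤ 1 := by
      rw [norm_pow, norm_inv]
      exact pow_le_one₀ (by positivity) (inv_le_one_of_one_le₀ ha)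
    have hp : 1 ≤ ‖α‖ ^ (r + 1) := one_le_pow₀ ha
    calc ‖α * ((U x r : ℝ) : ℂ) + (α⁻¹) ^ (r + 1)‖
        ≤ ‖α * ((U x r : ℝ) : ℂ)‖ + ‖(α⁻¹) ^ (r + 1)‖ := norm_add_le _ _
      _ ≤ ‖α‖ * ((r + 1) * ‖α‖ ^ r) + 1 := by
          rw [norm_mul, h1']
          exact add_le_add (mul_le_mul_of_nonneg_left ih hpos.le) hinv
      _ ≤ ‖α‖ * ((r + 1) * ‖α‖ ^ r) + ‖α‖ ^ (r + 1) := by linarith
      _ = _ := by
          push_cast
          ring

theorem F1_sumb (v : ℝ) (h0 : 0 ≤ v) (h1 : v < 1) :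
    Summable (fun r : ℕ => ((r : ℝ) + 1) ^ 2 * v ^ r) := by
  have hv : ‖v‖ < 1 := by rwa [Real.norm_of_nonneg h0]
  have s2 := summable_pow_mul_geometric_of_norm_lt_one 2 hv
  have s1 := summable_pow_mul_geometric_of_norm_lt_one 1 hv
  have s0 := summable_geometric_of_norm_lt_one hv
  refine ((s2.add (s1.mul_left 2)).add s0).congr fun r => ?_
  ring

theorem F1_nn {x y u B : ℝ} {α γ : ℂ} (hx : Sat x B α) (hy : Sat y B γ) (h0 : 0 < u) :
    ‖α‖ * ‖γ‖ * u ≤ B ^ 2 * u := by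
  have hB : 0 ≤ B := le_trans (norm_nonneg _) hx.le
  rw [sq]
  exact mul_le_mul_of_nonneg_right (mul_le_mul hx.le hy.le (norm_nonneg _) hB) h0.le

theorem F1_summ {x y u B : ℝ} {α γ : ℂ} (hx : Sat x B α) (hy : Sat y B γ) (h0 : 0 < u)
    (h1 : B ^ 2 * u < 1) : Summable (fun r : ℕ => |U x r * U y r * u ^ r|) := by
  have hv := F1_nn hx hy h0
  refine Summable.of_nonneg_of_le (fun r => abs_nonneg _) (fun r => ?_)
    (F1_sumb (‖α‖ * ‖γ‖ * u) (by positivity) (by linarith))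
  rw [abs_mul, abs_mul, abs_of_nonneg (pow_nonneg h0.le r)]
  have b1 := F1_bd hx r
  have b2 := F1_bd hy r
  calc |U x r| * |U y r| * u ^ r ≤ ((r + 1) * ‖α‖ ^ r) * ((r + 1) * ‖γ‖ ^ r) * u ^ r := by
        refine mul_le_mul_of_nonneg_right (mul_le_mul b1 b2 (abs_nonneg _) (by positivity))
          (by positivity)
    _ = _ := by
        rw [mul_pow, mul_pow]
        ring

theorem F1_rec (x y : ℝ) (r : ℕ) : U x (r + 4) * U y (r + 4) =
    x * y * (U x (r + 3) * U y (r + 3)) - (x ^ 2 + y ^ 2 - 2) * (U x (r + 2) * U y (r + 2)) +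
      x * y * (U x (r + 1) * U y (r + 1)) - U x r * U y r := by
  have h2 : ∀ z, U z (r + 2) = z * U z (r + 1) - U z r := fun z => rfl
  have h3 : ∀ z, U z (r + 3) = z * U z (r + 2) - U z (r + 1) := fun z => rfl
  have h4 : ∀ z, U z (r + 4) = z * U z (r + 3) - U z (r + 2) := fun z => rfl
  rw [h4, h4, h3, h3, h2, h2]
  ring

/-- the denominator -/
noncomputable def F1_Q (x y u : ℝ) : ℝ :=
  1 - x * y * u + (x ^ 2 + y ^ 2 - 2) * u ^ 2 - x * y * u ^ 3 + u ^ 4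

theorem F1_gen (x y u : ℝ) (hs' : Summable (fun r : ℕ => |U x r * U y r * u ^ r|)) :
    (∑' r : ℕ, U x r * U y r * u ^ r) * F1_Q x y u = 1 - u ^ 2 := by
  have hs : Summable (fun r : ℕ => U x r * U y r * u ^ r) := hs'.of_abs
  have hk : ∀ k : ℕ, Summable (fun r : ℕ => U x (r + k) * U y (r + k) * u ^ (r + k)) :=
    fun k => (summable_nat_add_iff k).2 hs
  obtain ⟨D, hD⟩ : ∃ D, D = ∑' r : ℕ, U x r * U y r * u ^ r := ⟨_, rfl⟩
  have hsum : ∀ k : ℕ, ∑' r : ℕ, U x (r + k) * U y (r + k) * u ^ (r + k) =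
      D - ∑ i ∈ Finset.range k, U x i * U y i * u ^ i := by
    intro k
    rw [hD, ← hs.sum_add_tsum_nat_add k]
    ring
  have key : ∑' r : ℕ, U x (r + 4) * U y (r + 4) * u ^ (r + 4) =
      x * y * u * (∑' r : ℕ, U x (r + 3) * U y (r + 3) * u ^ (r + 3)) -
      (x ^ 2 + y ^ 2 - 2) * u ^ 2 * (∑' r : ℕ, U x (r + 2) * U y (r + 2) * u ^ (r + 2)) +
      x * y * u ^ 3 * (∑' r : ℕ, U x (r + 1) * U y (r + 1) * u ^ (r + 1)) -
      u ^ 4 * ∑' r : ℕ, U x r * U y r * u ^ r := by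
    rw [← tsum_mul_left, ← tsum_mul_left, ← tsum_mul_left, ← tsum_mul_left,
      ← ((hk 3).mul_left _).tsum_sub ((hk 2).mul_left _),
      ← (((hk 3).mul_left _).sub ((hk 2).mul_left _)).tsum_add ((hk 1).mul_left _),
      ← ((((hk 3).mul_left _).sub ((hk 2).mul_left _)).add ((hk 1).mul_left _)).tsum_sub
        (hs.mul_left _)]
    refine tsum_congr fun r => ?_
    rw [F1_rec]
    ring
  rw [hsum, hsum, hsum, hsum, ← hD] at key
  rw [← hD, F1_Q]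
  simp only [Finset.sum_range_succ, Finset.sum_range_zero] at key
  have u0 : ∀ z, U z 0 = 1 := fun z => rfl
  have u1 : ∀ z, U z 1 = z := fun z => rfl
  have u2 : ∀ z, U z 2 = z * z - 1 := fun z => rfl
  have u3 : ∀ z, U z 3 = z * (z * z - 1) - z := fun z => rfl
  rw [u0, u0, u1, u1, u2, u2, u3, u3] at key
  linear_combination key

theorem F1_fac {x y B : ℝ} {α γ : ℂ} (hx : Sat x B α) (hy : Sat y B γ) (t : ℝ) :
    ((F1_Q x y t : ℝ) : ℂ) = (1 - α * γ * t) * (1 - α⁻¹ * γ⁻¹ * t) *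
      ((1 - α * γ⁻¹ * t) * (1 - α⁻¹ * γ * t)) := by
  have ha : α ≠ 0 := by
    intro h0
    have := hx.one_le
    rw [h0, norm_zero] at this
    norm_num at this
  have hg : γ ≠ 0 := by
    intro h0
    have := hy.one_le
    rw [h0, norm_zero] at this
    norm_num at this
  rw [F1_Q]
  push_cast
  rw [← hx.add, ← hy.add]
  field_simp
  ring

theorem F1_ne {x y B : ℝ} {α γ : ℂ} (hx : Sat x B α) (hy : Sat y B γ) (t : ℝ) (h0 : 0 ≤ t)
    (h1 : B ^ 2 * t < 1) : F1_Q x y t ≠ 0 := by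
  intro hQ
  have hf := F1_fac hx hy t
  rw [hQ, Complex.ofReal_zero] at hf
  have hB : 0 ≤ B := le_trans (norm_nonneg _) hx.le
  have hB1 : 1 ≤ B := le_trans hx.one_le hx.le
  have hai : ‖α⁻¹‖ ≤ B := by
    rw [norm_inv]
    exact (inv_le_one_of_one_le₀ hx.one_le).trans hB1
  have hgi : ‖γ⁻¹‖ ≤ B := by
    rw [norm_inv]
    exact (inv_le_one_of_one_le₀ hy.one_le).trans hB1
  have key : ∀ z w : ℂ, ‖z‖ ≤ B → ‖w‖ ≤ B → 1 - z * w * t ≠ 0 := by
    intro z w hz hw h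
    have h2 : z * w * t = 1 := (sub_eq_zero.1 h).symm
    have h3 : ‖z * w * t‖ = 1 := by rw [h2, norm_one]
    rw [norm_mul, norm_mul, Complex.norm_real, Real.norm_of_nonneg h0] at h3
    have h4 : ‖z‖ * ‖w‖ * t ≤ B ^ 2 * t := by
      rw [sq]
      exact mul_le_mul_of_nonneg_right (mul_le_mul hz hw (norm_nonneg _) hB) h0
    linarith
  have := mul_ne_zero (mul_ne_zero (key α γ hx.le hy.le) (key α⁻¹ γ⁻¹ hai hgi))
    (mul_ne_zero (key α γ⁻¹ hx.le hgi) (key α⁻¹ γ hai hy.le))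
  exact this hf.symm

theorem F1_pos {x y B u : ℝ} {α γ : ℂ} (hx : Sat x B α) (hy : Sat y B γ) (h0 : 0 < u)
    (h1 : B ^ 2 * u < 1) : 0 < F1_Q x y u := by
  by_contra hneg
  push Not at hneg
  have hcont : ContinuousOn (fun t => F1_Q x y t) (Set.Icc 0 u) := by
    unfold F1_Q
    fun_prop
  have hz : (0 : ℝ) ∈ Set.Icc (F1_Q x y u) (F1_Q x y 0) := by
    refine ⟨hneg, ?_⟩
    simp [F1_Q]
  obtain ⟨t, ht, hQ⟩ := intermediate_value_Icc' h0.le hcont hz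
  have hB2 : 0 ≤ B ^ 2 := sq_nonneg B
  exact F1_ne hx hy t ht.1 (lt_of_le_of_lt (mul_le_mul_of_nonneg_left ht.2 hB2) h1) hQ

theorem p_F1 : S_F1 := by
  intro x y u B α γ hx hy h0 h2 h1 _
  have hs := F1_summ hx hy h0 h1
  have hQ := F1_pos hx hy h0 h1
  have hg := F1_gen x y u hs
  have hD : (∑' r : ℕ, U x r * U y r * u ^ r) = (1 - u ^ 2) / F1_Q x y u := by
    rw [eq_div_iff hQ.ne', hg]
  have hu2 : u ^ 2 ≤ 1 / 4 := by nlinarith
  have hn : 0 < 1 - u ^ 2 := by linarith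
  refine ⟨hs, ?_, ?_⟩
  · rw [hD]
    exact div_pos hn hQ
  · rw [hD, Real.log_div hn.ne' hQ.ne']
    have l1 : Real.log (F1_Q x y u) ≤
        (1 - x * y * u + (x ^ 2 + y ^ 2 - 2) * u ^ 2 - x * y * u ^ 3 + u ^ 4) - 1 :=
      Real.log_le_sub_one_of_pos hQ
    have l2 : -(2 * u ^ 2) ≤ Real.log (1 - u ^ 2) := by
      have h3 := Real.one_sub_inv_le_log_of_pos hn
      have h4 : (1 - u ^ 2)⁻¹ ≤ 1 + 2 * u ^ 2 := by
        rw [inv_le_iff_one_le_mul₀ hn]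
        nlinarith [sq_nonneg u]
      linarith
    have h5 : x * y ≤ (x ^ 2 + y ^ 2) / 2 := by nlinarith [sq_nonneg (x - y)]
    have h6 : -((x ^ 2 + y ^ 2) / 2) ≤ x * y := by nlinarith [sq_nonneg (x + y)]
    have h7 : -(x * y * u ^ 3) ≤ (x ^ 2 + y ^ 2) / 2 * u ^ 2 := by
      have h8 : 0 ≤ u ^ 3 := by positivity
      have h9 : u ^ 3 ≤ u ^ 2 := by nlinarith [sq_nonneg u]
      have h10 : 0 ≤ (x ^ 2 + y ^ 2) / 2 := by positivity
      nlinarith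
    have h11 : u ^ 4 ≤ u ^ 2 := by nlinarith [sq_nonneg u]
    have h12 : 0 ≤ (x ^ 2 + y ^ 2) * u ^ 2 := by positivity
    have h13 : 0 ≤ u ^ 2 := by positivity
    nlinarith

end Pool.Agent.Lib.MP_058a58_ag.MT
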