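import Pool.Agent.Lib.MP_058a58_ag.MT.Stm5

set_option autoImplicit false

namespace Pool.Agent.Lib.MP_058a58_ag.MT

theorem F2_nz {x B : ℝ} {α : ℂ} (h : Sat x B α) : α ≠ 0 := by
  intro h0
  have := h.one_le
  rw [h0, norm_zero] at this
  norm_num at this

theorem F2_diff {x B : ℝ} {α : ℂ} (h : Sat x B α) (r : ℕ) :
    ((U x (r + 1) : ℝ) : ℂ) = α * ((U x r : ℝ) : ℂ) + (α⁻¹) ^ (r + 1) := by
  have h0 : α ≠ 0 := F2_nz h
  induction r with
  | zero =>
    have e0 : U x 0 = 1 := rfl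
    have e1 : U x (0 + 1) = x := rfl
    rw [e0, e1, ← h.add]
    simp
  | succ r ih =>
    have h2 : U x (r + 1 + 1) = x * U x (r + 1) - U x r := rfl
    rw [h2, Complex.ofReal_sub, Complex.ofReal_mul, ← h.add]
    have h3 : ((U x r : ℝ) : ℂ) = α⁻¹ * (((U x (r + 1) : ℝ) : ℂ) - (α⁻¹) ^ (r + 1)) := by
      rw [ih]
      field_simp
      ring
    rw [h3, pow_succ (α⁻¹) (r + 1)]
    ring

theorem F2_bd {x B : ℝ} {α : ℂ} (h : Sat x B α) (r : ℕ) : |U x r| ≤ (r + 1) * ‖α‖ ^ r := by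
  have ha := h.one_le
  have hpos : 0 < ‖α‖ := by linarith
  induction r with
  | zero =>
    have e0 : U x 0 = 1 := rfl
    rw [e0]
    simp
  | succ r ih =>
    have h1 : ‖((U x (r + 1) : ℝ) : ℂ)‖ = |U x (r + 1)| := by
      rw [Complex.norm_real, Real.norm_eq_abs]
    have h1' : ‖((U x r : ℝ) : ℂ)‖ = |U x r| := by
      rw [Complex.norm_real, Real.norm_eq_abs]
    rw [← h1, F2_diff h r]
    have hinv : ‖(α⁻¹) ^ (r + 1)‖ ≤ 1 := by
      rw [norm_pow, norm_inv]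
      exact pow_le_one₀ (by positivity) (inv_le_one_of_one_le₀ ha)
    have hp : 1 ≤ ‖α‖ ^ (r + 1) := one_le_pow₀ ha
    calc ‖α * ((U x r : ℝ) : ℂ) + (α⁻¹) ^ (r + 1)‖
        ≤ ‖α * ((U x r : ℝ) : ℂ)‖ + ‖(α⁻¹) ^ (r + 1)‖ := norm_add_le _ _
      _ ≤ ‖α‖ * ((r + 1) * ‖α‖ ^ r) + 1 := by
          rw [norm_mul, h1']
          exact add_le_add (mul_le_mul_of_nonneg_left ih hpos.le) hinv
      _ ≤ ‖α‖ * ((r + 1) * ‖α‖ ^ r) + ‖α‖ ^ (r + 1) := by linarith
      _ = _ := by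
          push_cast
          ring

theorem F2_gen (y v : ℝ) (hs' : Summable (fun r : ℕ => |U y r * v ^ r|)) :
    (∑' r : ℕ, U y r * v ^ r) * (1 - y * v + v ^ 2) = 1 := by
  have hs : Summable (fun r : ℕ => U y r * v ^ r) := hs'.of_abs
  have hk : ∀ k : ℕ, Summable (fun r : ℕ => U y (r + k) * v ^ (r + k)) :=
    fun k => (summable_nat_add_iff k).2 hs
  obtain ⟨D, hD⟩ : ∃ D, D = ∑' r : ℕ, U y r * v ^ r := ⟨_, rfl⟩
  have hsum : ∀ k : ℕ, ∑' r : ℕ, U y (r + k) * v ^ (r + k) =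
      D - ∑ i ∈ Finset.range k, U y i * v ^ i := by
    intro k
    rw [hD, ← hs.sum_add_tsum_nat_add k]
    ring
  have key : ∑' r : ℕ, U y (r + 2) * v ^ (r + 2) =
      y * v * (∑' r : ℕ, U y (r + 1) * v ^ (r + 1)) - v ^ 2 * ∑' r : ℕ, U y r * v ^ r := by
    rw [← tsum_mul_left, ← tsum_mul_left, ← ((hk 1).mul_left _).tsum_sub (hs.mul_left _)]
    refine tsum_congr fun r => ?_
    have h2 : U y (r + 2) = y * U y (r + 1) - U y r := rfl
    rw [h2]
    ring
  rw [hsum, hsum, ← hD] at key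
  rw [← hD]
  simp only [Finset.sum_range_succ, Finset.sum_range_zero] at key
  have u0 : U y 0 = 1 := rfl
  have u1 : U y 1 = y := rfl
  rw [u0, u1] at key
  linear_combination key

theorem p_F2 : S_F2 := by
  refine ⟨?_, ?_⟩
  · intro t y u B γ hy ht h0 hB
    have e' : ∀ r : ℕ, t ^ r * U y r * u ^ r = U y r * (t * u) ^ r := fun r => by
      rw [mul_pow]
      ring
    simp only [e']
    have hBn : 0 ≤ B := le_trans (norm_nonneg _) hy.le
    have hv : ‖γ‖ * |t * u| < 1 := by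
      rw [abs_mul, abs_of_pos h0, ← mul_assoc]
      refine lt_of_le_of_lt (mul_le_mul_of_nonneg_right ?_ h0.le) hB
      rw [sq]
      exact mul_le_mul hy.le ht (abs_nonneg _) hBn
    obtain ⟨v, hvd⟩ : ∃ v, v = t * u := ⟨_, rfl⟩
    rw [← hvd] at hv ⊢
    have hs : Summable (fun r : ℕ => |U y r * v ^ r|) := by
      have hw : ‖‖γ‖ * |v|‖ < 1 := by rwa [Real.norm_of_nonneg (by positivity)]
      have s1 := summable_pow_mul_geometric_of_norm_lt_one 1 hw
      have s0 := summable_geometric_of_norm_lt_one hw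
      refine Summable.of_nonneg_of_le (fun r => abs_nonneg _) (fun r => ?_) (s1.add s0)
      rw [abs_mul, abs_pow]
      calc |U y r| * |v| ^ r ≤ (((r : ℝ) + 1) * ‖γ‖ ^ r) * |v| ^ r :=
            mul_le_mul_of_nonneg_right (F2_bd hy r) (by positivity)
        _ = _ := by
            rw [mul_pow]
            ring
    refine ⟨hs, ?_⟩
    have hg := F2_gen y v hs
    have hfac : ((1 - y * v + v ^ 2 : ℝ) : ℂ) = (1 - γ * v) * (1 - γ⁻¹ * v) := by
      have hγ := F2_nz hy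
      push_cast
      rw [← hy.add]
      field_simp
      ring
    have hle : |1 - y * v + v ^ 2| ≤ 4 := by
      rw [← Real.norm_eq_abs, ← Complex.norm_real, hfac, norm_mul]
      have a1 : ‖1 - γ * (v : ℂ)‖ ≤ 2 := by
        calc ‖1 - γ * (v : ℂ)‖ ≤ ‖(1 : ℂ)‖ + ‖γ * (v : ℂ)‖ := norm_sub_le _ _
          _ ≤ 2 := by
              rw [norm_one, norm_mul, Complex.norm_real, Real.norm_eq_abs]
              linarith
      have a2 : ‖1 - γ⁻¹ * (v : ℂ)‖ ≤ 2 := by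
        have b1 : ‖γ‖⁻¹ ≤ ‖γ‖ := (inv_le_one_of_one_le₀ hy.one_le).trans hy.one_le
        have b2 := mul_le_mul_of_nonneg_right b1 (abs_nonneg v)
        calc ‖1 - γ⁻¹ * (v : ℂ)‖ ≤ ‖(1 : ℂ)‖ + ‖γ⁻¹ * (v : ℂ)‖ := norm_sub_le _ _
          _ ≤ 2 := by
              rw [norm_one, norm_mul, norm_inv, Complex.norm_real, Real.norm_eq_abs]
              linarith
      calc _ ≤ 2 * 2 := mul_le_mul a1 a2 (norm_nonneg _) (by norm_num)
        _ = 4 := by norm_num
    have hm : |∑' r : ℕ, U y r * v ^ r| * |1 - y * v + v ^ 2| = 1 := by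
      rw [← abs_mul, hg, abs_one]
    nlinarith [abs_nonneg (∑' r : ℕ, U y r * v ^ r)]
  · intro t t' u h
    have e' : ∀ r : ℕ, t ^ r * t' ^ r * u ^ r = (t * t' * u) ^ r := fun r => by
      rw [mul_pow, mul_pow]
    simp only [e']
    obtain ⟨v, hv⟩ : ∃ v, v = t * t' * u := ⟨_, rfl⟩
    rw [← hv] at h ⊢
    have hn : ‖v‖ < 1 := h
    refine ⟨?_, ?_⟩
    · simp only [abs_pow]
      exact summable_geometric_of_norm_lt_one (by rwa [Real.norm_eq_abs, abs_abs])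
    · rw [tsum_geometric_of_norm_lt_one hn, abs_inv]
      have h1 := abs_lt.1 h
      have h2 : |1 - v| ≤ 2 := by
        rw [abs_le]
        constructor <;> linarith
      have h3 : 0 < |1 - v| := abs_pos.2 (by linarith)
      rw [div_le_iff₀ (by norm_num : (0 : ℝ) < 4)]
      rw [inv_mul_eq_div, le_div_iff₀ h3]
      linarith

end Pool.Agent.Lib.MP_058a58_ag.MT
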