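import Pool.Agent.Lib.MP_058a58_ag.MT.Stm2

set_option autoImplicit false

/-!
# Integrals over the strip in terms of the coefficients
-/

open UpperHalfPlane MeasureTheory Filter Topology
open scoped MatrixGroups Modular ComplexConjugate

namespace Pool.Agent.Lib.MP_058a58_ag.MT

/-- `x + i y` -/
private noncomputable def fpt (y : ℝ) (hy : 0 < y) (x : ℝ) : ℍ := ⟨(x : ℂ) + y * Complex.I, by
  simpa using hy⟩

private theorem fpt_im (y : ℝ) (hy : 0 < y) (x : ℝ) : (fpt y hy x).im = y := by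
  simp [fpt, UpperHalfPlane.im]

private theorem fpt_coe (y : ℝ) (hy : 0 < y) (x : ℝ) :
    ((fpt y hy x : ℍ) : ℂ) = (x : ℂ) + y * Complex.I := rfl

private theorem ofC (y : ℝ) (hy : 0 < y) (x : ℝ) :
    ofComplex ((x : ℂ) + y * Complex.I) = fpt y hy x := by
  rw [ofComplex_apply_of_im_pos (by simpa using hy)]
  rfl

/-- the extension by zero of the integrand -/
private noncomputable def GG (k k' : ℕ) (f g : ℍ → ℂ) (u : ℝ → ℝ) : ℂ → ℂ :=
  Function.extend (fun z : ℍ => (z : ℂ)) (fun z : ℍ => Fl k k' f g z * (u z.im : ℂ)) 0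

private theorem GG_coe (k k' : ℕ) (f g : ℍ → ℂ) (u : ℝ → ℝ) (z : ℍ) :
    GG k k' f g u z = Fl k k' f g z * (u z.im : ℂ) :=
  UpperHalfPlane.coe_injective.extend_apply _ _ z

private theorem GG_pt (k k' : ℕ) (f g : ℍ → ℂ) (u : ℝ → ℝ) {y : ℝ} (hy : 0 < y) (x : ℝ) :
    GG k k' f g u ((x : ℂ) + y * Complex.I) =
      f (ofComplex (x + y * Complex.I)) * conj (g (ofComplex (x + y * Complex.I))) *
        ((y ^ (((k : ℝ) + k') / 2) * u y : ℝ) : ℂ) := by
  rw [← fpt_coe y hy x, GG_coe, Fl, fpt_im, fpt_coe, ofC y hy x]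
  push_cast
  ring

private theorem Fl_meas {k k' : ℕ} {f g : ℍ → ℂ} (hf : Continuous f) (hg : Continuous g) :
    Measurable (Fl k k' f g) := by
  have h1 : Measurable f := hf.measurable
  have h2 : Measurable g := hg.measurable
  have h3 : Measurable fun z : ℍ => z.im := UpperHalfPlane.continuous_im.measurable
  unfold Fl
  refine (h1.mul (Complex.continuous_conj.measurable.comp h2)).mul ?_
  exact Complex.continuous_ofReal.measurable.comp (h3.pow_const _)

private theorem GG_meas {k k' : ℕ} {f g : ℍ → ℂ} (hf : Continuous f) (hg : Continuous g)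
    {u : ℝ → ℝ} (hu : Measurable u) : Measurable (GG k k' f g u) := by
  refine UpperHalfPlane.measurableEmbedding_coe.measurable_extend ?_ measurable_const
  refine (Fl_meas hf hg).mul ?_
  exact Complex.continuous_ofReal.measurable.comp
    (hu.comp UpperHalfPlane.continuous_im.measurable)

/-- **FC** -/
theorem p_FC : S_FC := by
  intro hSI hPV k k' f g a b hf hg u hu hu0 huI
  obtain ⟨hP, C, hC0, hC⟩ := hPV k k' f g a b hf hg
  set K : ℝ := ((k : ℝ) + k') / 2 with hK
  have hGm : Measurable (GG k k' f g u) := GG_meas hf.cont hg.cont hu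
  obtain ⟨Cf, hCf⟩ := hf.bdd
  obtain ⟨Cg, hCg⟩ := hg.bdd
  have hFl : ∀ z, ‖Fl k k' f g z‖ ≤ Cf * Cg := by
    intro z
    have h1 := hCf z
    have h2 := hCg z
    have hz := z.im_pos
    have h3 : ‖Fl k k' f g z‖ = (‖f z‖ * z.im ^ ((k : ℝ) / 2)) * (‖g z‖ * z.im ^ ((k' : ℝ) / 2)) := by
      have h4 : 0 ≤ z.im ^ (((k : ℝ) + k') / 2) := (Real.rpow_pos_of_pos hz _).le
      rw [Fl, norm_mul, norm_mul, RCLike.norm_conj, Complex.norm_real, Real.norm_eq_abs,
        abs_of_nonneg h4, show ((k : ℝ) + k') / 2 = (k : ℝ) / 2 + (k' : ℝ) / 2 by ring,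
        Real.rpow_add hz]
      ring
    rw [h3]
    have h5 : 0 ≤ ‖f z‖ * z.im ^ ((k : ℝ) / 2) := by
      have := (Real.rpow_pos_of_pos hz ((k : ℝ) / 2)).le
      positivity
    have h6 : 0 ≤ ‖g z‖ * z.im ^ ((k' : ℝ) / 2) := by
      have := (Real.rpow_pos_of_pos hz ((k' : ℝ) / 2)).le
      positivity
    exact mul_le_mul h1 h2 h6 (h5.trans h1)
  -- integrability on the product
  have hprod : Integrable (fun q : ℝ × ℝ => ((1 / q.2 ^ 2 : ℝ) : ℂ) *
      GG k k' f g u (q.1 + q.2 * Complex.I))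
      ((volume.restrict (Set.Ico (0 : ℝ) 1)).prod (volume.restrict (Set.Ioi (0 : ℝ)))) := by
    have h1 : Integrable (fun q : ℝ × ℝ => Cf * Cg * (u q.2 / q.2 ^ 2))
        ((volume.restrict (Set.Ico (0 : ℝ) 1)).prod (volume.restrict (Set.Ioi (0 : ℝ)))) := by
      have h2 : Integrable (fun y : ℝ => Cf * Cg * (u y / y ^ 2))
          (volume.restrict (Set.Ioi (0 : ℝ))) := huI.const_mul _
      exact h2.comp_snd (volume.restrict (Set.Ico (0 : ℝ) 1))
    have hmeas : Measurable (fun q : ℝ × ℝ => ((1 / q.2 ^ 2 : ℝ) : ℂ) *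
        GG k k' f g u (q.1 + q.2 * Complex.I)) := by
      have h2 : Measurable fun q : ℝ × ℝ => (q.1 : ℂ) + q.2 * Complex.I := by
        have : Continuous fun q : ℝ × ℝ => (q.1 : ℂ) + q.2 * Complex.I := by fun_prop
        exact this.measurable
      have h3 : Measurable fun q : ℝ × ℝ => ((1 / q.2 ^ 2 : ℝ) : ℂ) := by
        exact Complex.continuous_ofReal.measurable.comp (by fun_prop)
      exact h3.mul (hGm.comp h2)
    refine Integrable.mono' h1 hmeas.aestronglyMeasurable ?_
    have h4 : ∀ᵐ q : ℝ × ℝ ∂((volume.restrict (Set.Ico (0 : ℝ) 1)).prod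
        (volume.restrict (Set.Ioi (0 : ℝ)))), q.2 ∈ Set.Ioi (0 : ℝ) := by
      have h5 : ∀ᵐ y ∂(volume.restrict (Set.Ioi (0 : ℝ))), y ∈ Set.Ioi (0 : ℝ) :=
        ae_restrict_mem measurableSet_Ioi
      exact Measure.quasiMeasurePreserving_snd.ae h5
    filter_upwards [h4] with q hq
    have hq' : 0 < q.2 := hq
    rw [← fpt_coe q.2 hq' q.1, GG_coe, norm_mul, norm_mul, fpt_im, Complex.norm_real,
      Complex.norm_real, Real.norm_eq_abs, Real.norm_eq_abs, abs_of_nonneg (hu0 _ hq'),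
      abs_of_pos (by positivity : 0 < 1 / q.2 ^ 2)]
    have h6 := hFl (fpt q.2 hq' q.1)
    have h7 := hu0 _ hq'
    calc 1 / q.2 ^ 2 * (‖Fl k k' f g (fpt q.2 hq' q.1)‖ * u q.2)
        = ‖Fl k k' f g (fpt q.2 hq' q.1)‖ * (u q.2 / q.2 ^ 2) := by ring
      _ ≤ Cf * Cg * (u q.2 / q.2 ^ 2) := mul_le_mul_of_nonneg_right h6 (by positivity)
  obtain ⟨e1, e2⟩ := hSI (GG k k' f g u) hGm
  have hint := e1.2 hprod
  have hval := e2 hint
  have hfun : (fun z : ℍ => GG k k' f g u z) = fun z : ℍ => Fl k k' f g z * (u z.im : ℂ) := by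
    funext z
    exact GG_coe k k' f g u z
  rw [hfun] at hint
  simp only [hfun] at hval
  -- the terms
  set F : ℕ → ℝ → ℝ := fun n y => a n * b n * (Real.exp (-4 * Real.pi * n * y) * y ^ (K - 2) * u y)
    with hF
  have hyK : ∀ y : ℝ, 0 < y → y ^ (K - 2) = y ^ K / y ^ 2 := by
    intro y hy
    rw [Real.rpow_sub hy]
    norm_num
  have hKm : ∀ y : ℝ, 0 < y → y ^ K * y ^ (-K) = 1 := by
    intro y hy
    rw [← Real.rpow_add hy]
    simp
  have hsumn : ∀ y : ℝ, 0 < y → Summable (fun n => ‖F n y‖) ∧ ∑' n, ‖F n y‖ ≤ C * (u y / y ^ 2) := by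
    intro y hy
    have h0 := hu0 y hy
    have hyp : 0 < y ^ (K - 2) := Real.rpow_pos_of_pos hy _
    have h1 : (fun n => ‖F n y‖) = fun n : ℕ => |a n * b n| * Real.exp (-4 * Real.pi * n * y) *
        (y ^ (K - 2) * u y) := by
      funext n
      rw [hF]
      simp only
      rw [norm_mul, Real.norm_eq_abs, Real.norm_eq_abs, abs_of_nonneg (by positivity :
        0 ≤ Real.exp (-4 * Real.pi * n * y) * y ^ (K - 2) * u y)]
      ring
    rw [h1]
    refine ⟨(hP y hy).1.mul_right _, ?_⟩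
    rw [tsum_mul_right]
    have h2 := hC y hy
    calc _ ≤ C * y ^ (-K) * (y ^ (K - 2) * u y) :=
          mul_le_mul_of_nonneg_right h2 (by positivity)
      _ = C * (u y / y ^ 2) * (y ^ K * y ^ (-K)) := by
          rw [hyK y hy]
          ring
      _ = C * (u y / y ^ 2) := by rw [hKm y hy, mul_one]
  have hFm : ∀ n, Measurable (F n) := by
    intro n
    rw [hF]
    refine Measurable.const_mul ?_ _
    refine Measurable.mul (Measurable.mul ?_ ?_) hu
    · fun_prop
    · exact measurable_id.pow_const _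
  have hFle : ∀ (s : Finset ℕ) (y : ℝ), 0 < y → ∑ n ∈ s, ‖F n y‖ ≤ C * (u y / y ^ 2) := by
    intro s y hy
    exact ((hsumn y hy).1.sum_le_tsum s fun _ _ => norm_nonneg _).trans (hsumn y hy).2
  have hCu : IntegrableOn (fun y : ℝ => C * (u y / y ^ 2)) (Set.Ioi 0) := huI.const_mul _
  have hFint : ∀ n, Integrable (F n) (volume.restrict (Set.Ioi (0 : ℝ))) := by
    intro n
    refine Integrable.mono' hCu (hFm n).aestronglyMeasurable ?_
    filter_upwards [ae_restrict_mem measurableSet_Ioi] with y hy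
    have := hFle {n} y hy
    simpa using this
  have hIG : ∀ n, ∫ y in Set.Ioi (0 : ℝ), F n y = a n * b n * IG K u n := by
    intro n
    rw [hF]
    simp only
    rw [integral_const_mul]
    rfl
  have hIGn : ∀ n, ∫ y in Set.Ioi (0 : ℝ), ‖F n y‖ = |a n * b n| * IG K u n := by
    intro n
    unfold IG
    rw [← integral_const_mul]
    refine setIntegral_congr_fun measurableSet_Ioi fun y hy => ?_
    have hy' : 0 < y := hy
    have h0 := hu0 y hy'
    have hyp : 0 < y ^ (K - 2) := Real.rpow_pos_of_pos hy' _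
    rw [hF]
    simp only
    rw [norm_mul, Real.norm_eq_abs, Real.norm_eq_abs, abs_of_nonneg (by positivity :
        0 ≤ Real.exp (-4 * Real.pi * n * y) * y ^ (K - 2) * u y)]
  have hsumI : Summable fun n => ∫ y in Set.Ioi (0 : ℝ), ‖F n y‖ := by
    refine summable_of_sum_range_le (c := ∫ y in Set.Ioi (0 : ℝ), C * (u y / y ^ 2))
      (fun n => integral_nonneg fun _ => norm_nonneg _) fun N => ?_
    rw [← integral_finsetSum _ fun n _ => (hFint n).norm]
    refine setIntegral_mono_on (integrable_finsetSum _ fun n _ => (hFint n).norm) hCu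
      measurableSet_Ioi fun y hy => ?_
    exact hFle _ y hy
  have hS := hasSum_integral_of_summable_integral_norm hFint hsumI
  refine ⟨?_, hint, ?_⟩
  · simpa only [hIGn] using hsumI
  · rw [hval]
    have h1 : ∀ y ∈ Set.Ioi (0 : ℝ), ((1 / y ^ 2 : ℝ) : ℂ) *
        ∫ x in Set.Ico (0 : ℝ) 1, GG k k' f g u (x + y * Complex.I) =
        ((∑' n, F n y : ℝ) : ℂ) := by
      intro y hy
      have hy' : 0 < y := hy
      have h2 : ∫ x in Set.Ico (0 : ℝ) 1, GG k k' f g u (x + y * Complex.I) =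
          (∫ x in Set.Ico (0 : ℝ) 1, f (ofComplex (x + y * Complex.I)) *
            conj (g (ofComplex (x + y * Complex.I)))) * ((y ^ K * u y : ℝ) : ℂ) := by
        rw [← integral_mul_const]
        congr 1
        funext x
        exact GG_pt k k' f g u hy' x
      rw [h2, (hP y hy').2, ← Complex.ofReal_mul, ← Complex.ofReal_mul]
      congr 1
      have h3 : (fun n => F n y) = fun n : ℕ => a n * b n * Real.exp (-4 * Real.pi * n * y) *
          (y ^ (K - 2) * u y) := by
        funext n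
        rw [hF]
        ring
      rw [h3, tsum_mul_right, hyK y hy']
      ring
    rw [setIntegral_congr_fun measurableSet_Ioi h1, integral_complex_ofReal]
    congr 1
    rw [← hS.tsum_eq]
    simp only [hIG]

end Pool.Agent.Lib.MP_058a58_ag.MT
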