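import Pool.Agent.Lib.MP_058a58_ag.MT.P.MS

set_option autoImplicit false

/-!
# Hecke's bound
-/

namespace Pool.Agent.Lib.MP_058a58_ag.MT

/-- **HB** -/
theorem p_HB : S_HB := by
  intro _ k f a h
  obtain ⟨C, _, hC⟩ := hecke_bound h
  exact ⟨C, fun n _ => hC n⟩

end Pool.Agent.Lib.MP_058a58_ag.MT
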