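import Pool.Agent.Lib.MP_058a58_ag.MT.Stm2

set_option autoImplicit false

/-!
# Piece HI: invariance and boundedness of the functions to which MAIN is applied (helper2)
-/

open UpperHalfPlane MeasureTheory Filter Topology
open scoped MatrixGroups Modular ComplexConjugate

namespace Pool.Agent.Lib.MP_058a58_ag.MT

theorem HI_jf_denom (γ : SL(2, ℤ)) (z : ℍ) : jf γ z = denom γ z := by
  rw [ModularGroup.denom_apply]
  simp [jf]

theorem HI_jf_ne (γ : SL(2, ℤ)) (z : ℍ) : jf γ z ≠ 0 := by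
  rw [HI_jf_denom]
  exact denom_ne_zero _ z

theorem HI_im (γ : SL(2, ℤ)) (z : ℍ) : (γ • z).im = z.im / Complex.normSq (jf γ z) := by
  rw [ModularGroup.im_smul_eq_div_normSq, HI_jf_denom]

theorem HI_det (γ : SL(2, ℤ)) : γ 0 0 * γ 1 1 - γ 0 1 * γ 1 0 = 1 := by
  have h := γ.det_coe
  rwa [Matrix.det_fin_two] at h

theorem HI_mem {N : ℕ} {γ : SL(2, ℤ)} : γ ∈ CongruenceSubgroup.Gamma0 N ↔ (N : ℤ) ∣ γ 1 0 := by
  rw [CongruenceSubgroup.Gamma0_mem]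
  exact ZMod.intCast_zmod_eq_zero_iff_dvd _ _

theorem HI_coe (γ : SL(2, ℤ)) (z : ℍ) :
    ((γ • z : ℍ) : ℂ) = ((γ 0 0 : ℂ) * z + (γ 0 1 : ℂ)) / jf γ z := by
  rw [coe_specialLinearGroup_apply]
  simp [jf]

theorem HI_dil (N N' p : ℕ) (hp : 0 < p) (γ : SL(2, ℤ))
    (hγ : γ ∈ CongruenceSubgroup.Gamma0 (N * N' * p)) (z : ℍ) :
    ∃ γ' : SL(2, ℤ), γ' ∈ CongruenceSubgroup.Gamma0 N ∧ γ' ∈ CongruenceSubgroup.Gamma0 N' ∧
      dil p hp (γ • z) = γ' • dil p hp z ∧ jf γ' (dil p hp z) = jf γ z := by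
  rw [HI_mem] at hγ
  obtain ⟨t, ht⟩ := hγ
  have hdet := HI_det γ
  obtain ⟨γ', h00, h01, h10, h11⟩ : ∃ γ' : SL(2, ℤ), γ' 0 0 = γ 0 0 ∧ γ' 0 1 = p * γ 0 1 ∧
      γ' 1 0 = (N : ℤ) * N' * t ∧ γ' 1 1 = γ 1 1 := by
    refine ⟨⟨!![γ 0 0, (p : ℤ) * γ 0 1; (N : ℤ) * N' * t, γ 1 1], ?_⟩, rfl, rfl, rfl, rfl⟩
    rw [Matrix.det_fin_two_of]
    rw [ht] at hdet
    push_cast at hdet
    linear_combination hdet
  have hj : jf γ' (dil p hp z) = jf γ z := by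
    simp only [jf, dil, h10, h11, ht]
    push_cast
    ring
  refine ⟨γ', HI_mem.2 ⟨N' * t, by rw [h10]; ring⟩, HI_mem.2 ⟨N * t, by rw [h10]; ring⟩, ?_, hj⟩
  apply UpperHalfPlane.ext
  rw [HI_coe γ', hj]
  show (p : ℂ) * ((γ • z : ℍ) : ℂ) = _
  rw [HI_coe, h00, h01]
  simp only [dil]
  push_cast
  ring

theorem HI_mem_left {N N' p : ℕ} {γ : SL(2, ℤ)}
    (hγ : γ ∈ CongruenceSubgroup.Gamma0 (N * N' * p)) :
    γ ∈ CongruenceSubgroup.Gamma0 N ∧ γ ∈ CongruenceSubgroup.Gamma0 N' := by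
  rw [HI_mem] at hγ
  constructor
  · rw [HI_mem]
    exact dvd_trans ⟨N' * p, by push_cast; ring⟩ hγ
  · rw [HI_mem]
    exact dvd_trans ⟨N * p, by push_cast; ring⟩ hγ

theorem HI_half (k : ℕ) (y : ℝ) (hy : 0 < y) : y ^ ((k : ℝ) / 2) * y ^ ((k : ℝ) / 2) = y ^ k := by
  rw [← Real.rpow_add hy, add_halves, Real.rpow_natCast]

/-- The piece HI. -/
theorem p_HI : S_HI := by
  intro hUP N N' k p hp f g a b hf hg
  have hfp := hUP k p hp f a hf.toIsQ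
  have hgp := hUP k p hp g b hg.toIsQ
  refine ⟨?_, ?_, ?_⟩
  · unfold Fp
    have h1 : Continuous fun z : ℍ => ((z.im : ℝ) : ℂ) :=
      Complex.continuous_ofReal.comp UpperHalfPlane.continuous_im
    exact ((hfp.cont.mul (Complex.continuous_conj.comp hg.cont)).sub
      (hf.cont.mul (Complex.continuous_conj.comp hgp.cont))).mul (h1.pow k)
  · obtain ⟨C1, h1⟩ := hf.bdd
    obtain ⟨C2, h2⟩ := hg.bdd
    obtain ⟨C3, h3⟩ := hfp.bdd
    obtain ⟨C4, h4⟩ := hgp.bdd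
    refine ⟨C3 * C2 + C1 * C4, fun z => ?_⟩
    have hy := z.im_pos
    have hY : 0 < z.im ^ ((k : ℝ) / 2) := Real.rpow_pos_of_pos hy _
    have e1 : ‖((z.im : ℝ) : ℂ) ^ k‖ = z.im ^ ((k : ℝ) / 2) * z.im ^ ((k : ℝ) / 2) := by
      rw [HI_half k _ hy, norm_pow, Complex.norm_real, Real.norm_of_nonneg hy.le]
    unfold Fp
    rw [norm_mul, e1]
    have e2 : ‖f (dil p hp z) * conj (g z) - f z * conj (g (dil p hp z))‖ ≤
        ‖f (dil p hp z)‖ * ‖g z‖ + ‖f z‖ * ‖g (dil p hp z)‖ := by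
      refine (norm_sub_le _ _).trans ?_
      rw [norm_mul, norm_mul, RCLike.norm_conj, RCLike.norm_conj]
    have a1 := h1 z
    have a2 := h2 z
    have a3 := h3 z
    have a4 := h4 z
    have b1 : 0 ≤ ‖f z‖ * z.im ^ ((k : ℝ) / 2) := by positivity
    have b2 : 0 ≤ ‖g z‖ * z.im ^ ((k : ℝ) / 2) := by positivity
    have b3 : 0 ≤ ‖f (dil p hp z)‖ * z.im ^ ((k : ℝ) / 2) := by positivity
    have b4 : 0 ≤ ‖g (dil p hp z)‖ * z.im ^ ((k : ℝ) / 2) := by positivity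
    calc ‖f (dil p hp z) * conj (g z) - f z * conj (g (dil p hp z))‖ *
          (z.im ^ ((k : ℝ) / 2) * z.im ^ ((k : ℝ) / 2))
        ≤ (‖f (dil p hp z)‖ * ‖g z‖ + ‖f z‖ * ‖g (dil p hp z)‖) *
          (z.im ^ ((k : ℝ) / 2) * z.im ^ ((k : ℝ) / 2)) := by gcongr
      _ = (‖f (dil p hp z)‖ * z.im ^ ((k : ℝ) / 2)) * (‖g z‖ * z.im ^ ((k : ℝ) / 2)) +
          (‖f z‖ * z.im ^ ((k : ℝ) / 2)) * (‖g (dil p hp z)‖ * z.im ^ ((k : ℝ) / 2)) := by ring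
      _ ≤ C3 * C2 + C1 * C4 :=
          add_le_add (mul_le_mul a3 a2 b2 (b3.trans a3)) (mul_le_mul a1 a4 b4 (b1.trans a1))
  · intro γ hγ z
    obtain ⟨γ', hN, hN', hd, hj⟩ := HI_dil N N' p hp γ hγ z
    obtain ⟨hN1, hN1'⟩ := HI_mem_left hγ
    unfold Fp
    rw [hd, hf.mod γ' hN, hg.mod γ' hN', hf.mod γ hN1, hg.mod γ hN1', hj, HI_im]
    have hne := HI_jf_ne γ z
    have hns : (Complex.normSq (jf γ z) : ℂ) = jf γ z * conj (jf γ z) :=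
      (Complex.mul_conj (jf γ z)).symm
    have hne' : conj (jf γ z) ≠ 0 := by
      rwa [Ne, map_eq_zero]
    rw [Complex.ofReal_div, hns, map_mul, map_mul, map_pow, div_pow, mul_pow]
    field_simp

end Pool.Agent.Lib.MP_058a58_ag.MT
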