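import Pool.Agent.Lib.MP_058a58_ag.MT.Stm2

set_option autoImplicit false

/-!
# Piece HL: the product of two forms of different weights (helper2)
-/

open UpperHalfPlane MeasureTheory Filter Topology
open scoped MatrixGroups Modular ComplexConjugate

namespace Pool.Agent.Lib.MP_058a58_ag.MT

theorem HL_jf_denom (γ : SL(2, ℤ)) (z : ℍ) : jf γ z = denom γ z := by
  rw [ModularGroup.denom_apply]
  simp [jf]

theorem HL_jf_ne (γ : SL(2, ℤ)) (z : ℍ) : jf γ z ≠ 0 := by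
  rw [HL_jf_denom]
  exact denom_ne_zero _ z

theorem HL_im (γ : SL(2, ℤ)) (z : ℍ) : (γ • z).im = z.im / Complex.normSq (jf γ z) := by
  rw [ModularGroup.im_smul_eq_div_normSq, HL_jf_denom]

theorem HL_mem {N : ℕ} {γ : SL(2, ℤ)} : γ ∈ CongruenceSubgroup.Gamma0 N ↔ (N : ℤ) ∣ γ 1 0 := by
  rw [CongruenceSubgroup.Gamma0_mem]
  exact ZMod.intCast_zmod_eq_zero_iff_dvd _ _

theorem HL_mem_left {N N' : ℕ} {γ : SL(2, ℤ)}
    (hγ : γ ∈ CongruenceSubgroup.Gamma0 (N * N')) :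
    γ ∈ CongruenceSubgroup.Gamma0 N ∧ γ ∈ CongruenceSubgroup.Gamma0 N' := by
  rw [HL_mem] at hγ
  constructor
  · rw [HL_mem]
    exact dvd_trans ⟨N', by push_cast; ring⟩ hγ
  · rw [HL_mem]
    exact dvd_trans ⟨N, by push_cast; ring⟩ hγ

theorem HL_rpow (k' l : ℕ) (j : ℂ) (hj : j ≠ 0) (y : ℝ) (hy : 0 < y) :
    (y / Complex.normSq j) ^ ((((k' + l : ℕ) : ℝ) + k') / 2) =
      y ^ ((((k' + l : ℕ) : ℝ) + k') / 2) / ((‖j‖ ^ 2) ^ k' * ‖j‖ ^ l) := by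
  have hn : 0 < ‖j‖ := norm_pos_iff.2 hj
  rw [Real.div_rpow hy.le (Complex.normSq_nonneg j), Complex.normSq_eq_norm_sq]
  congr 1
  rw [← pow_mul, ← pow_add, ← Real.rpow_natCast ‖j‖ 2, ← Real.rpow_mul hn.le,
    ← Real.rpow_natCast ‖j‖ (2 * k' + l)]
  congr 1
  push_cast
  ring

/-- The piece HL. -/
theorem p_HL : S_HL := by
  intro N N' k' l f g a b hf hg
  refine ⟨?_, ?_, ?_⟩
  · unfold Fl
    have h1 : Continuous fun z : ℍ => (((z.im ^ ((((k' + l : ℕ) : ℝ) + k') / 2) : ℝ)) : ℂ) := by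
      refine Complex.continuous_ofReal.comp ?_
      exact UpperHalfPlane.continuous_im.rpow_const fun z => Or.inl z.im_ne_zero
    exact (hf.cont.mul (Complex.continuous_conj.comp hg.cont)).mul h1
  · obtain ⟨C1, h1⟩ := hf.bdd
    obtain ⟨C2, h2⟩ := hg.bdd
    refine ⟨C1 * C2, fun z => ?_⟩
    have hy := z.im_pos
    have e1 : ‖(((z.im ^ ((((k' + l : ℕ) : ℝ) + k') / 2) : ℝ)) : ℂ)‖ =
        z.im ^ (((k' + l : ℕ) : ℝ) / 2) * z.im ^ ((k' : ℝ) / 2) := by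
      rw [Complex.norm_real, Real.norm_of_nonneg (Real.rpow_nonneg hy.le _), ← Real.rpow_add hy]
      congr 1
      ring
    unfold Fl
    rw [norm_mul, norm_mul, RCLike.norm_conj, e1]
    have a1 := h1 z
    have a2 := h2 z
    have b1 : 0 ≤ ‖f z‖ * z.im ^ (((k' + l : ℕ) : ℝ) / 2) := by
      have := Real.rpow_nonneg hy.le (((k' + l : ℕ) : ℝ) / 2)
      positivity
    have b2 : 0 ≤ ‖g z‖ * z.im ^ ((k' : ℝ) / 2) := by
      have := Real.rpow_nonneg hy.le ((k' : ℝ) / 2)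
      positivity
    calc ‖f z‖ * ‖g z‖ * (z.im ^ (((k' + l : ℕ) : ℝ) / 2) * z.im ^ ((k' : ℝ) / 2))
        = (‖f z‖ * z.im ^ (((k' + l : ℕ) : ℝ) / 2)) * (‖g z‖ * z.im ^ ((k' : ℝ) / 2)) := by ring
      _ ≤ C1 * C2 := mul_le_mul a1 a2 b2 (b1.trans a1)
  · intro γ hγ z
    obtain ⟨hN, hN'⟩ := HL_mem_left hγ
    have hne := HL_jf_ne γ z
    have hn : ‖jf γ z‖ ≠ 0 := norm_ne_zero_iff.2 hne
    have hnC : ((‖jf γ z‖ : ℝ) : ℂ) ≠ 0 := by exact_mod_cast hn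
    unfold Fl
    rw [hf.mod γ hN, hg.mod γ hN', HL_im, HL_rpow k' l _ hne _ z.im_pos]
    have hns : ((‖jf γ z‖ : ℝ) : ℂ) ^ 2 = jf γ z * conj (jf γ z) := by
      rw [Complex.mul_conj, Complex.normSq_eq_norm_sq]
      push_cast
      rfl
    have hne' : conj (jf γ z) ≠ 0 := by
      rwa [Ne, map_eq_zero]
    rw [map_mul, map_pow, div_pow, pow_add]
    push_cast
    rw [hns, mul_pow]
    field_simp

end Pool.Agent.Lib.MP_058a58_ag.MT
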