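import Pool.Agent.Lib.MP_058a58_ag.MT.Stm2

set_option autoImplicit false

/-!
# Piece HR: the Hecke relation for the Dirichlet series
-/

open UpperHalfPlane MeasureTheory Filter Topology
open scoped MatrixGroups Modular ComplexConjugate

namespace Pool.Agent.Lib.MP_058a58_ag.MT

theorem HR_rel {N k p : ℕ} {a : ℕ → ℝ} (ha : HeckeSeq N k a) (hp : p.Prime) (hpN : ¬ p ∣ N)
    (n : ℕ) : a (p * n) = a p * a n - (p : ℝ) ^ (k - 1) * upc p a n := by
  rcases Nat.eq_zero_or_pos n with rfl | hn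
  · simp [upc, ha.zero]
  · obtain ⟨r, m, hm, rfl⟩ := Nat.exists_eq_pow_mul_and_not_dvd hn.ne' p hp.ne_one
    have hcop : ∀ j : ℕ, (p ^ j).Coprime m := fun j =>
      Nat.Coprime.pow_left j ((Nat.Prime.coprime_iff_not_dvd hp).2 hm)
    rcases r with _ | r
    · have h1 : p.Coprime m := by simpa using hcop 1
      simp only [upc, pow_zero, one_mul, if_neg hm, mul_zero, sub_zero]
      exact ha.mul p m h1
    · have h1 : p ∣ p ^ (r + 1) * m := Dvd.dvd.mul_right (dvd_pow_self p (by omega)) m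
      have h2 : p ^ (r + 1) * m / p = p ^ r * m := by
        rw [pow_succ', mul_assoc, Nat.mul_div_cancel_left _ hp.pos]
      have h3 : p * (p ^ (r + 1) * m) = p ^ (r + 2) * m := by ring
      rw [upc, if_pos h1, h2, h3, ha.mul _ _ (hcop _), ha.mul _ _ (hcop _), ha.mul _ _ (hcop _),
        ha.good p hp hpN r]
      ring

theorem HR_shift {p : ℕ} (hp : p.Prime) (u v : ℕ → ℝ) (σ : ℝ) :
    ∑' n : ℕ, upc p u n * v n * (n : ℝ) ^ (-σ) =
      (p : ℝ) ^ (-σ) * ∑' m : ℕ, u m * v (p * m) * (m : ℝ) ^ (-σ) := by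
  have hinj : Function.Injective (fun m : ℕ => p * m) := fun i j h =>
    Nat.eq_of_mul_eq_mul_left hp.pos h
  have h1 := hinj.tsum_eq (f := fun n : ℕ => upc p u n * v n * (n : ℝ) ^ (-σ)) (by
    intro n hn
    have h2 : p ∣ n := by
      by_contra h
      apply hn
      simp [upc, h]
    obtain ⟨m, rfl⟩ := h2
    exact ⟨m, rfl⟩)
  rw [← h1, ← tsum_mul_left]
  apply tsum_congr
  intro m
  have h3 : upc p u (p * m) = u m := by
    rw [upc, if_pos (dvd_mul_right p m), Nat.mul_div_cancel_left _ hp.pos]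
  rw [h3]
  push_cast
  rw [Real.mul_rpow (Nat.cast_nonneg p) (Nat.cast_nonneg m)]
  ring

theorem HR_sq {p : ℕ} (hp : p.Prime) {u : ℕ → ℝ} {σ : ℝ}
    (hu : Summable (fun n : ℕ => u n ^ 2 * (n : ℝ) ^ (-σ))) :
    Summable (fun n : ℕ => upc p u n ^ 2 * (n : ℝ) ^ (-σ)) := by
  have hinj : Function.Injective (fun m : ℕ => p * m) := fun i j h =>
    Nat.eq_of_mul_eq_mul_left hp.pos h
  rw [← hinj.summable_iff]
  · refine (hu.mul_left ((p : ℝ) ^ (-σ))).congr (fun m => ?_)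
    have h3 : upc p u (p * m) = u m := by
      rw [upc, if_pos (dvd_mul_right p m), Nat.mul_div_cancel_left _ hp.pos]
    simp only [Function.comp]
    rw [h3]
    push_cast
    rw [Real.mul_rpow (Nat.cast_nonneg p) (Nat.cast_nonneg m)]
    ring
  · intro n hn
    have h2 : ¬ p ∣ n := by
      rintro ⟨m, rfl⟩
      exact hn ⟨m, rfl⟩
    simp [upc, h2]

theorem HR_prod {u v : ℕ → ℝ} {σ : ℝ}
    (hu : Summable (fun n : ℕ => u n ^ 2 * (n : ℝ) ^ (-σ)))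
    (hv : Summable (fun n : ℕ => v n ^ 2 * (n : ℝ) ^ (-σ))) :
    Summable (fun n : ℕ => u n * v n * (n : ℝ) ^ (-σ)) := by
  refine Summable.of_norm_bounded ((hu.add hv)) (fun n => ?_)
  have h0 : 0 ≤ (n : ℝ) ^ (-σ) := Real.rpow_nonneg (Nat.cast_nonneg n) _
  rw [norm_mul, Real.norm_of_nonneg h0, Real.norm_eq_abs, ← add_mul]
  apply mul_le_mul_of_nonneg_right _ h0
  rw [abs_le]
  constructor
  · nlinarith [sq_nonneg (u n + v n), sq_nonneg (u n), sq_nonneg (v n)]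
  · nlinarith [sq_nonneg (u n - v n), sq_nonneg (u n), sq_nonneg (v n)]

theorem HR_one {N k p : ℕ} {u v : ℕ → ℝ} {σ : ℝ} (hv : HeckeSeq N k v) (hp : p.Prime)
    (hpN : ¬ p ∣ N) (hu2 : Summable (fun n : ℕ => u n ^ 2 * (n : ℝ) ^ (-σ)))
    (hv2 : Summable (fun n : ℕ => v n ^ 2 * (n : ℝ) ^ (-σ))) :
    (p : ℝ) ^ σ * ∑' n : ℕ, upc p u n * v n * (n : ℝ) ^ (-σ) =
      v p * ∑' n : ℕ, u n * v n * (n : ℝ) ^ (-σ) -
        (p : ℝ) ^ (k - 1) * ∑' n : ℕ, u n * upc p v n * (n : ℝ) ^ (-σ) := by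
  have hp0 : (0 : ℝ) < p := by exact_mod_cast hp.pos
  have h1 : (p : ℝ) ^ σ * (p : ℝ) ^ (-σ) = 1 := by
    rw [← Real.rpow_add hp0]
    simp
  rw [HR_shift hp, ← mul_assoc, h1, one_mul, ← tsum_mul_left, ← tsum_mul_left,
    ← ((HR_prod hu2 hv2).mul_left (v p)).tsum_sub
      ((HR_prod hu2 (HR_sq hp hv2)).mul_left ((p : ℝ) ^ (k - 1)))]
  apply tsum_congr
  intro n
  rw [HR_rel hv hp hpN]
  ring

theorem p_HR : S_HR := by
  intro N N' k p a b σ ha hb hp hpN ha2 hb2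
  have hN : ¬ p ∣ N := fun h => hpN (Dvd.dvd.mul_right h N')
  have hN' : ¬ p ∣ N' := fun h => hpN (Dvd.dvd.mul_left h N)
  have h1 := HR_one (u := a) (v := b) hb hp hN' ha2 hb2
  have h2 := HR_one (u := b) (v := a) ha hp hN hb2 ha2
  have e1 : ∑' n : ℕ, b n * a n * (n : ℝ) ^ (-σ) = ∑' n : ℕ, a n * b n * (n : ℝ) ^ (-σ) :=
    tsum_congr fun n => by ring
  have e2 : ∑' n : ℕ, upc p b n * a n * (n : ℝ) ^ (-σ) =
      ∑' n : ℕ, a n * upc p b n * (n : ℝ) ^ (-σ) := tsum_congr fun n => by ring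
  have e3 : ∑' n : ℕ, b n * upc p a n * (n : ℝ) ^ (-σ) =
      ∑' n : ℕ, upc p a n * b n * (n : ℝ) ^ (-σ) := tsum_congr fun n => by ring
  have e4 : ∑' n : ℕ, (upc p a n * b n - a n * upc p b n) * (n : ℝ) ^ (-σ) =
      ∑' n : ℕ, upc p a n * b n * (n : ℝ) ^ (-σ) -
        ∑' n : ℕ, a n * upc p b n * (n : ℝ) ^ (-σ) := by
    rw [← (HR_prod (HR_sq hp ha2) hb2).tsum_sub (HR_prod ha2 (HR_sq hp hb2))]
    exact tsum_congr fun n => by ring
  rw [e1, e2, e3] at h2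
  rw [e4]
  linear_combination h1 * (-1) + h2

end Pool.Agent.Lib.MP_058a58_ag.MT
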