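import Pool.Agent.Lib.MP_058a58_ag.MT.Stm

set_option autoImplicit false

/-!
# Twists by modular forms, piece HT: the function `ht`
-/

open UpperHalfPlane MeasureTheory Filter Topology
open scoped MatrixGroups Modular

namespace Pool.Agent.Lib.MP_058a58_ag.MT

private theorem HT_hh_nonneg (l : ℕ) (s t : ℝ) (ht : 0 ≤ t) : 0 ≤ hh l s t := by
  unfold hh
  positivity

private theorem HT_hh_le (l : ℕ) (s t : ℝ) (ht : 0 ≤ t) : hh l s t ≤ t ^ s := by
  unfold hh
  refine div_le_self (by positivity) ?_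
  exact one_le_pow₀ (by linarith)

private theorem HT_hh_le' (l : ℕ) (s t : ℝ) (hs : 1 < s) (hs2 : s ≤ 2) (ht : 0 < t) :
    hh l s t ≤ t ^ (3 / 4 : ℝ) := by
  rcases le_total t 1 with h1 | h1
  · refine (HT_hh_le l s t ht.le).trans ?_
    exact Real.rpow_le_rpow_of_exponent_ge ht h1 (by linarith)
  · have h2 : hh l s t ≤ 1 := by
      unfold hh
      rw [div_le_one (by positivity)]
      calc t ^ s ≤ t ^ (2 : ℝ) := Real.rpow_le_rpow_of_exponent_le h1 hs2
        _ = t ^ 2 := by norm_cast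
        _ ≤ (1 + t) ^ 2 := pow_le_pow_left₀ ht.le (by linarith) 2
        _ ≤ (1 + t) ^ (l + 4) := pow_le_pow_right₀ (by linarith) (by omega)
    exact h2.trans (Real.one_le_rpow h1 (by norm_num))

/-- the general term -/
private noncomputable def HT_a (M l : ℕ) (s : ℝ) (n : ℕ) (y : ℝ) : ℝ :=
  if 1 ≤ n ∧ n.Coprime M then hh l s (y / (n : ℝ) ^ 2) else 0

private theorem HT_meas (M l : ℕ) (s : ℝ) (n : ℕ) : Measurable (HT_a M l s n) := by
  unfold HT_a
  split_ifs
  · unfold hh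
    fun_prop
  · exact measurable_const

private theorem HT_bound (M l : ℕ) (s e : ℝ) (y : ℝ) (hy : 0 < y)
    (he : ∀ t : ℝ, 0 < t → hh l s t ≤ t ^ e) (n : ℕ) :
    0 ≤ HT_a M l s n y ∧ HT_a M l s n y ≤ y ^ e * (n : ℝ) ^ (-(2 * e)) := by
  unfold HT_a
  split_ifs with h
  · have hn : (0 : ℝ) < n := by
      have := h.1
      exact_mod_cast this
    have h1 : 0 < y / (n : ℝ) ^ 2 := by positivity
    refine ⟨HT_hh_nonneg l s _ h1.le, (he _ h1).trans (le_of_eq ?_)⟩
    rw [Real.div_rpow hy.le (by positivity), div_eq_mul_inv]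
    congr 1
    rw [← Real.rpow_natCast (n : ℝ) 2, ← Real.rpow_mul hn.le, ← Real.rpow_neg hn.le]
    norm_num
  · exact ⟨le_refl _, by positivity⟩

private theorem HT_summable (M l : ℕ) (s : ℝ) (hs : 1 < s) (y : ℝ) :
    Summable (fun n => HT_a M l s n y) := by
  have h1 : Summable (fun n : ℕ => 2 ^ (l + 4) * (|y| ^ s * (n : ℝ) ^ (-(2 * s)))) := by
    refine Summable.mul_left _ (Summable.mul_left _ ?_)
    exact Real.summable_nat_rpow.2 (by linarith)
  refine Summable.of_norm_bounded_eventually_nat h1 ?_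
  obtain ⟨N, hN⟩ := exists_nat_ge (2 * |y| + 1)
  filter_upwards [eventually_ge_atTop N] with n hn
  unfold HT_a
  split_ifs with h
  · have hn1 : (1 : ℝ) ≤ n := by exact_mod_cast h.1
    have hn2 : 2 * |y| + 1 ≤ n := hN.trans (by exact_mod_cast hn)
    have hn3 : 2 * |y| ≤ (n : ℝ) ^ 2 := by nlinarith [abs_nonneg y]
    have hn0 : (0 : ℝ) < (n : ℝ) ^ 2 := by positivity
    have h2 : |y / (n : ℝ) ^ 2| ≤ 1 / 2 := by
      rw [abs_div, abs_of_pos hn0, div_le_iff₀ hn0]
      linarith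
    have h3 : 1 / 2 ≤ 1 + y / (n : ℝ) ^ 2 := by
      have := neg_abs_le (y / (n : ℝ) ^ 2)
      linarith
    unfold hh
    rw [Real.norm_eq_abs, abs_div, abs_of_pos (a := (1 + y / (n : ℝ) ^ 2) ^ (l + 4))
      (pow_pos (by linarith) _)]
    rw [div_le_iff₀ (pow_pos (by linarith) _)]
    have h4 : |(y / (n : ℝ) ^ 2) ^ s| ≤ |y| ^ s * (n : ℝ) ^ (-(2 * s)) := by
      refine (Real.abs_rpow_le_abs_rpow _ _).trans (le_of_eq ?_)
      rw [abs_div, abs_of_pos hn0, Real.div_rpow (abs_nonneg y) hn0.le, div_eq_mul_inv]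
      congr 1
      rw [← Real.rpow_natCast (n : ℝ) 2, ← Real.rpow_mul (by linarith), ← Real.rpow_neg
        (by linarith)]
      norm_num
    have h5 : (1 : ℝ) ≤ 2 ^ (l + 4) * (1 + y / (n : ℝ) ^ 2) ^ (l + 4) := by
      rw [← mul_pow]
      exact one_le_pow₀ (by linarith)
    have h6 : 0 ≤ |y| ^ s * (n : ℝ) ^ (-(2 * s)) := by positivity
    calc |(y / (n : ℝ) ^ 2) ^ s| ≤ (|y| ^ s * (n : ℝ) ^ (-(2 * s))) * 1 := by
          rw [mul_one]; exact h4
      _ ≤ (|y| ^ s * (n : ℝ) ^ (-(2 * s))) *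
          (2 ^ (l + 4) * (1 + y / (n : ℝ) ^ 2) ^ (l + 4)) :=
          mul_le_mul_of_nonneg_left h5 h6
      _ = 2 ^ (l + 4) * (|y| ^ s * (n : ℝ) ^ (-(2 * s))) * (1 + y / (n : ℝ) ^ 2) ^ (l + 4) := by
          ring
  · rw [norm_zero]
    positivity

private theorem HT_measurable (M l : ℕ) (s : ℝ) (hs : 1 < s) : Measurable (ht M l s) := by
  refine measurable_of_tendsto_metrizable (f := fun N y => ∑ n ∈ Finset.range N, HT_a M l s n y)
    (fun N => Finset.measurable_sum _ fun n _ => HT_meas M l s n) ?_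
  rw [tendsto_pi_nhds]
  intro y
  exact (HT_summable M l s hs y).hasSum.tendsto_sum_nat

private theorem HT_le (M l : ℕ) (s e : ℝ) (hs : 1 < s) (he1 : 1 / 2 < e) (y : ℝ) (hy : 0 < y)
    (he : ∀ t : ℝ, 0 < t → hh l s t ≤ t ^ e) :
    ht M l s y ≤ (∑' n : ℕ, (n : ℝ) ^ (-(2 * e))) * y ^ e := by
  rw [mul_comm, ← tsum_mul_left]
  refine Summable.tsum_le_tsum (fun n => (HT_bound M l s e y hy he n).2) (HT_summable M l s hs y) ?_
  refine Summable.mul_left _ ?_
  exact Real.summable_nat_rpow.2 (by linarith)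

private theorem HT_nonneg (M l : ℕ) (s : ℝ) (y : ℝ) (hy : 0 < y) : 0 ≤ ht M l s y :=
  tsum_nonneg fun n => (HT_bound M l s s y hy (fun t ht => HT_hh_le l s t ht.le) n).1

private theorem HT_int (M l : ℕ) (s : ℝ) (hs : 1 < s) (hs2 : s ≤ 2) :
    IntegrableOn (fun y : ℝ => ht M l s y / y ^ 2) (Set.Ioi 0) := by
  have hm : Measurable (fun y : ℝ => ht M l s y / y ^ 2) :=
    (HT_measurable M l s hs).div (by fun_prop)
  rw [← Set.Ioc_union_Ioi_eq_Ioi (zero_le_one (α := ℝ))]
  refine IntegrableOn.union ?_ ?_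
  · have h1 : IntegrableOn (fun y : ℝ => (∑' n : ℕ, (n : ℝ) ^ (-(2 * s))) * y ^ (s - 2))
        (Set.Ioc 0 1) := by
      refine Integrable.const_mul ?_ _
      rw [← IntegrableOn, ← intervalIntegrable_iff_integrableOn_Ioc_of_le zero_le_one]
      exact intervalIntegral.intervalIntegrable_rpow' (by linarith)
    refine Integrable.mono' h1 hm.aestronglyMeasurable ?_
    rw [ae_restrict_iff' measurableSet_Ioc]
    refine Eventually.of_forall fun y hy => ?_
    have hy0 : 0 < y := hy.1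
    rw [Real.norm_of_nonneg (div_nonneg (HT_nonneg M l s y hy0) (by positivity)),
      div_le_iff₀ (by positivity)]
    refine (HT_le M l s s hs (by linarith) y hy0 fun t ht => HT_hh_le l s t ht.le).trans ?_
    rw [mul_assoc]
    refine le_of_eq ?_
    congr 1
    rw [← Real.rpow_natCast y 2, ← Real.rpow_add hy0]
    norm_num
  · have h1 : IntegrableOn (fun y : ℝ => (∑' n : ℕ, (n : ℝ) ^ (-(2 * (3 / 4 : ℝ)))) *
        y ^ (-(5 / 4) : ℝ)) (Set.Ioi 1) := by
      refine Integrable.const_mul ?_ _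
      exact integrableOn_Ioi_rpow_of_lt (by norm_num) zero_lt_one
    refine Integrable.mono' h1 hm.aestronglyMeasurable ?_
    rw [ae_restrict_iff' measurableSet_Ioi]
    refine Eventually.of_forall fun y hy => ?_
    have hy0 : 0 < y := lt_trans zero_lt_one hy
    rw [Real.norm_of_nonneg (div_nonneg (HT_nonneg M l s y hy0) (by positivity)),
      div_le_iff₀ (by positivity)]
    refine (HT_le M l s (3 / 4) hs (by norm_num) y hy0 fun t ht =>
      HT_hh_le' l s t hs hs2 ht).trans ?_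
    rw [mul_assoc]
    refine le_of_eq ?_
    congr 1
    rw [← Real.rpow_natCast y 2, ← Real.rpow_add hy0]
    norm_num

theorem p_HT : S_HT := by
  intro hSI M l s _ hs hs2
  refine ⟨HT_measurable M l s hs, fun y hy => ⟨HT_nonneg M l s y hy, HT_summable M l s hs y⟩,
    HT_int M l s hs hs2, ?_⟩
  have hG : Measurable (fun z : ℂ => ((ht M l s z.im : ℝ) : ℂ)) :=
    Complex.measurable_ofReal.comp ((HT_measurable M l s hs).comp Complex.measurable_im)
  have h1 := (hSI (fun z : ℂ => ((ht M l s z.im : ℝ) : ℂ)) hG).1.2 ?_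
  · have h2 := h1.re
    refine h2.congr (Eventually.of_forall fun z => ?_)
    simp
  · have h3 : Integrable (fun y : ℝ => ((1 / y ^ 2 : ℝ) : ℂ) * ((ht M l s y : ℝ) : ℂ))
        (volume.restrict (Set.Ioi (0 : ℝ))) := by
      have h4 := (HT_int M l s hs hs2).ofReal (𝕜 := ℂ)
      refine h4.congr (Eventually.of_forall fun y => ?_)
      simp only [RCLike.ofReal_alg]
      push_cast
      simp [div_eq_mul_inv, mul_comm]
    have h5 := h3.comp_snd (volume.restrict (Set.Ico (0 : ℝ) 1))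
    refine h5.congr (Eventually.of_forall fun q => ?_)
    simp

end Pool.Agent.Lib.MP_058a58_ag.MT
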