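import Pool.Agent.Lib.MP_058a58_ag.MT.Stm5

set_option autoImplicit false

/-!
# The logarithm of the twisted `L`-function (helper25)
-/

open Polynomial Filter Topology UpperHalfPlane
open scoped MatrixGroups
open TatePole (RR)

namespace Pool.Agent.Lib.MP_058a58_ag.MT

theorem LGF_log {v : ℂ} (hv : ‖v‖ ≤ 3 / 4) :
    1 - v ≠ 0 ∧ ‖Complex.log (1 - v) + v‖ ≤ 2 * ‖v‖ ^ 2 := by
  refine ⟨?_, ?_⟩
  · intro h
    have h1 : v = 1 := by linear_combination -h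
    rw [h1, norm_one] at hv
    norm_num at hv
  · have h1 := Complex.norm_log_one_add_sub_self_le (z := -v) (by rw [norm_neg]; linarith)
    rw [norm_neg] at h1
    have h2 : (1 - ‖v‖)⁻¹ ≤ 4 := by
      rw [inv_le_comm₀ (by linarith) (by norm_num)]
      linarith
    have h3 : 1 + -v = 1 - v := by ring
    have h4 : Complex.log (1 - v) - -v = Complex.log (1 - v) + v := by ring
    rw [h3, h4] at h1
    refine h1.trans ?_
    have h5 : ‖v‖ ^ 2 * (1 - ‖v‖)⁻¹ ≤ ‖v‖ ^ 2 * 4 :=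
      mul_le_mul_of_nonneg_left h2 (sq_nonneg _)
    linarith

theorem LGF_sat {x B : ℝ} {α : ℂ} (h : Sat x B α) : α ≠ 0 ∧ ‖α‖ ^ 2 ≤ x ^ 2 + 2 := by
  have h0 : α ≠ 0 := by
    intro h1
    have h2 := h.one_le
    rw [h1, norm_zero] at h2
    linarith
  refine ⟨h0, ?_⟩
  rcases h.alt with h1 | h1
  · rw [h1]
    nlinarith [sq_nonneg x]
  · obtain ⟨r, hr⟩ : ∃ r : ℝ, α = r := ⟨α.re, by
      apply Complex.ext
      · simp
      · simpa using h1⟩
    rw [hr] at h0 ⊢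
    have hr0 : r ≠ 0 := fun h2 => h0 (by rw [h2]; simp)
    have h2 := h.add
    rw [hr] at h2
    have h3 : r + r⁻¹ = x := by exact_mod_cast h2
    have h4 : r * r⁻¹ = 1 := mul_inv_cancel₀ hr0
    rw [Complex.norm_real, Real.norm_eq_abs, sq_abs, ← h3]
    nlinarith [sq_nonneg r⁻¹]

/-- minus the logarithm of the good factor -/
noncomputable def LGF_g {n : ℕ} (β : Fin n → ℂ) (α : ℂ) (X : ℝ) : ℂ :=
  -∑ j, (Complex.log (1 - β j * (α * X)) + Complex.log (1 - β j * (α⁻¹ * X)))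

theorem LGF_good {n : ℕ} (β : Fin n → ℂ) (hβ : ∀ j, ‖β j‖ ≤ 1) {α : ℂ} {θ B X : ℝ}
    (hα : Sat θ B α) (hX : 0 < X) (hBX : B * X ≤ 3 / 4) :
    Complex.exp (LGF_g β α X) =
      (∏ j, ((1 - β j * (α * X)) * (1 - β j * (α⁻¹ * X))))⁻¹ ∧
    ‖LGF_g β α X‖ ≤ 5 * n * (θ ^ 2 + 3) * X ∧
    |(LGF_g β α X).re - (∑ j, β j).re * θ * X| ≤ 4 * n * (θ ^ 2 + 2) * X ^ 2 := by
  obtain ⟨h0, h2⟩ := LGF_sat hα
  have hs0 : 0 ≤ ‖α‖ := norm_nonneg _
  have hsX : ‖α‖ * X ≤ 3 / 4 := (mul_le_mul_of_nonneg_right hα.le hX.le).trans hBX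
  have hv1 : ∀ j, ‖β j * (α * X)‖ ≤ ‖α‖ * X := by
    intro j
    rw [norm_mul, norm_mul, Complex.norm_real, Real.norm_of_nonneg hX.le]
    calc ‖β j‖ * (‖α‖ * X) ≤ 1 * (‖α‖ * X) :=
          mul_le_mul_of_nonneg_right (hβ j) (by positivity)
      _ = ‖α‖ * X := one_mul _
  have hv2 : ∀ j, ‖β j * (α⁻¹ * X)‖ ≤ ‖α‖ * X := by
    intro j
    have h3 : ‖α‖⁻¹ ≤ ‖α‖ := (inv_le_one_of_one_le₀ hα.one_le).trans hα.one_le
    rw [norm_mul, norm_mul, norm_inv, Complex.norm_real, Real.norm_of_nonneg hX.le]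
    calc ‖β j‖ * (‖α‖⁻¹ * X) ≤ 1 * (‖α‖ * X) :=
          mul_le_mul (hβ j) (mul_le_mul_of_nonneg_right h3 hX.le) (by positivity) zero_le_one
      _ = ‖α‖ * X := one_mul _
  have hl1 : ∀ j, 1 - β j * (α * X) ≠ 0 ∧
      ‖Complex.log (1 - β j * (α * X)) + β j * (α * X)‖ ≤ 2 * (‖α‖ * X) ^ 2 := by
    intro j
    obtain ⟨h3, h4⟩ := LGF_log ((hv1 j).trans hsX)
    refine ⟨h3, h4.trans ?_⟩
    have h5 := pow_le_pow_left₀ (norm_nonneg _) (hv1 j) 2
    linarith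
  have hl2 : ∀ j, 1 - β j * (α⁻¹ * X) ≠ 0 ∧
      ‖Complex.log (1 - β j * (α⁻¹ * X)) + β j * (α⁻¹ * X)‖ ≤ 2 * (‖α‖ * X) ^ 2 := by
    intro j
    obtain ⟨h3, h4⟩ := LGF_log ((hv2 j).trans hsX)
    refine ⟨h3, h4.trans ?_⟩
    have h5 := pow_le_pow_left₀ (norm_nonneg _) (hv2 j) 2
    linarith
  have hmain : ‖LGF_g β α X - (∑ j, β j) * (θ * X : ℝ)‖ ≤ 4 * n * (‖α‖ * X) ^ 2 := by
    have h3 : LGF_g β α X - (∑ j, β j) * (θ * X : ℝ) =
        -∑ j, ((Complex.log (1 - β j * (α * X)) + β j * (α * X)) +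
          (Complex.log (1 - β j * (α⁻¹ * X)) + β j * (α⁻¹ * X))) := by
      unfold LGF_g
      have h4 : ∑ j, ((Complex.log (1 - β j * (α * X)) + β j * (α * X)) +
          (Complex.log (1 - β j * (α⁻¹ * X)) + β j * (α⁻¹ * X))) =
          ∑ j, (Complex.log (1 - β j * (α * X)) + Complex.log (1 - β j * (α⁻¹ * X))) +
            (∑ j, β j) * ((α + α⁻¹) * X) := by
        rw [Finset.sum_mul, ← Finset.sum_add_distrib]
        refine Finset.sum_congr rfl fun j _ => ?_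
        ring
      rw [h4, hα.add]
      push_cast
      ring
    rw [h3, norm_neg]
    refine (norm_sum_le _ _).trans ?_
    have h5 : ∀ j ∈ (Finset.univ : Finset (Fin n)),
        ‖(Complex.log (1 - β j * (α * X)) + β j * (α * X)) +
          (Complex.log (1 - β j * (α⁻¹ * X)) + β j * (α⁻¹ * X))‖ ≤ 4 * (‖α‖ * X) ^ 2 := by
      intro j _
      refine (norm_add_le _ _).trans ?_
      have h6 := (hl1 j).2
      have h7 := (hl2 j).2
      linarith
    refine (Finset.sum_le_sum h5).trans ?_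
    rw [Finset.sum_const, Finset.card_univ, Fintype.card_fin, nsmul_eq_mul]
    linarith
  have hsum : ‖∑ j, β j‖ ≤ n := by
    refine (norm_sum_le _ _).trans ?_
    refine (Finset.sum_le_sum fun j _ => hβ j).trans ?_
    rw [Finset.sum_const, Finset.card_univ, Fintype.card_fin, nsmul_eq_mul, mul_one]
  have hn : (0 : ℝ) ≤ n := Nat.cast_nonneg n
  refine ⟨?_, ?_, ?_⟩
  · unfold LGF_g
    rw [Complex.exp_neg, Complex.exp_sum]
    congr 1
    refine Finset.prod_congr rfl fun j _ => ?_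
    rw [Complex.exp_add, Complex.exp_log (hl1 j).1, Complex.exp_log (hl2 j).1]
  · have hθ : |θ| ≤ θ ^ 2 + 1 := by nlinarith [sq_abs θ, abs_nonneg θ, sq_nonneg (|θ| - 1)]
    have h3 : ‖(∑ j, β j) * ((θ * X : ℝ) : ℂ)‖ ≤ n * ((θ ^ 2 + 1) * X) := by
      rw [norm_mul, Complex.norm_real, Real.norm_eq_abs, abs_mul, abs_of_pos hX]
      exact mul_le_mul hsum (mul_le_mul_of_nonneg_right hθ hX.le) (by positivity) hn
    have h4 : LGF_g β α X = (LGF_g β α X - (∑ j, β j) * (θ * X : ℝ)) +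
        (∑ j, β j) * (θ * X : ℝ) := by ring
    rw [h4]
    refine (norm_add_le _ _).trans ((add_le_add hmain h3).trans ?_)
    have h5 : (‖α‖ * X) ^ 2 ≤ (θ ^ 2 + 2) * X := by
      have h6 : X ≤ 1 := by nlinarith [hα.one_le]
      have h7 : (‖α‖ * X) ^ 2 = ‖α‖ ^ 2 * (X * X) := by ring
      rw [h7]
      exact mul_le_mul h2 (by nlinarith) (by positivity) (by positivity)
    have h8 : n * (‖α‖ * X) ^ 2 ≤ n * ((θ ^ 2 + 2) * X) := mul_le_mul_of_nonneg_left h5 hn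
    nlinarith [mul_nonneg hn (mul_nonneg (sq_nonneg θ) hX.le), mul_nonneg hn hX.le]
  · have h3 : (LGF_g β α X).re - (∑ j, β j).re * θ * X =
        (LGF_g β α X - (∑ j, β j) * (θ * X : ℝ)).re := by
      rw [Complex.sub_re, Complex.re_mul_ofReal]
      ring
    rw [h3]
    refine (Complex.abs_re_le_norm _).trans (hmain.trans ?_)
    have h5 : (‖α‖ * X) ^ 2 ≤ (θ ^ 2 + 2) * X ^ 2 := by
      rw [mul_pow]
      exact mul_le_mul_of_nonneg_right h2 (sq_nonneg _)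
    have h8 : n * (‖α‖ * X) ^ 2 ≤ n * ((θ ^ 2 + 2) * X ^ 2) := mul_le_mul_of_nonneg_left h5 hn
    linarith

theorem LGF_sqrt {p : ℕ} (hp : p.Prime) {x : ℝ} (hx : 1 < x) :
    Real.sqrt p * (p : ℝ) ^ (-x) ≤ 3 / 4 ∧ (0 : ℝ) < (p : ℝ) ^ (-x) ∧
      ((p : ℝ) ^ (-x)) ^ 2 ≤ (p : ℝ) ^ (-2 : ℝ) := by
  have h2 : (2 : ℝ) ≤ p := by exact_mod_cast hp.two_le
  have h0 : (0 : ℝ) < p := by linarith
  have h1 : (p : ℝ) ^ (-x) ≤ (p : ℝ)⁻¹ := by
    rw [← Real.rpow_neg_one]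
    exact Real.rpow_le_rpow_of_exponent_le (by linarith) (by linarith)
  have h3 : (0 : ℝ) < (p : ℝ) ^ (-x) := by positivity
  refine ⟨?_, h3, ?_⟩
  · have h4 : 4 / 3 ≤ Real.sqrt p := by
      apply Real.le_sqrt_of_sq_le
      norm_num
      linarith
    have h5 : Real.sqrt p * Real.sqrt p = p := Real.mul_self_sqrt h0.le
    have h6 : Real.sqrt p * (p : ℝ)⁻¹ = (Real.sqrt p)⁻¹ := by
      rw [← h5]
      have h7 : Real.sqrt p ≠ 0 := by linarith
      rw [Real.sqrt_mul_self (by linarith)]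
      field_simp
    calc Real.sqrt p * (p : ℝ) ^ (-x) ≤ Real.sqrt p * (p : ℝ)⁻¹ :=
          mul_le_mul_of_nonneg_left h1 (Real.sqrt_nonneg _)
      _ = (Real.sqrt p)⁻¹ := h6
      _ ≤ (4 / 3)⁻¹ := inv_anti₀ (by norm_num) h4
      _ = 3 / 4 := by norm_num
  · rw [← Real.rpow_natCast, ← Real.rpow_mul h0.le]
    refine Real.rpow_le_rpow_of_exponent_le (by linarith) ?_
    push_cast
    linarith

/-- the core: the logarithm of the product -/
theorem LGF_core {n : ℕ} (B : Finset ℕ) (β : ℕ → Fin n → ℂ) (α : ℕ → ℂ) (θ A : ℕ → ℝ)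
    (z : ℕ → ℝ → ℂ)
    (hβ : ∀ p : ℕ, p.Prime → p ∉ B → ∀ j, ‖β p j‖ ≤ 1)
    (hα : ∀ p : ℕ, p.Prime → p ∉ B → Sat (θ p) (Real.sqrt p) (α p))
    (hA : ∀ p : ℕ, p.Prime → p ∉ B → A p = (∑ j, β p j).re)
    (hA0 : ∀ p : ℕ, p.Prime → p ∈ B → A p * θ p = 0)
    (hθ : ∀ x : ℝ, 1 < x → x ≤ 2 → Summable fun p : Nat.Primes => θ p ^ 2 * (p : ℝ) ^ (-x))
    (hz : ∀ p : ℕ, p.Prime → p ∉ B → ∀ x : ℝ, 1 < x → x ≤ 2 → z p x =
      (∏ j, ((1 - β p j * (α p * ((p : ℝ) ^ (-x) : ℝ))) *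
        (1 - β p j * ((α p)⁻¹ * ((p : ℝ) ^ (-x) : ℝ)))))⁻¹)
    (hbad : ∀ p ∈ B, p.Prime → ∃ M : ℝ, 0 ≤ M ∧ ∀ᶠ x in 𝓝[>] (1 : ℝ), z p x ≠ 0 ∧
      |Real.log ‖z p x‖| ≤ M) :
    ∃ C : ℝ, ∀ᶠ x in 𝓝[>] (1 : ℝ),
      |Real.log ‖∏' p : Nat.Primes, z p x‖ - RR (fun p => A p * θ p) x| ≤ C := by
  classical
  choose! M hM using hbad
  have hprimes : ∀ x : ℝ, 1 < x → Summable fun p : Nat.Primes => (p : ℝ) ^ (-x) := fun x hx =>
    Nat.Primes.summable_rpow.mpr (by linarith)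
  have hfin : ∀ f : Nat.Primes → ℝ, Summable fun p : Nat.Primes => if (p : ℕ) ∈ B then f p else 0 := by
    intro f
    refine summable_of_hasFiniteSupport ?_
    refine Set.Finite.subset (Set.Finite.preimage (f := fun p : Nat.Primes => (p : ℕ))
      (Subtype.val_injective.injOn) B.finite_toSet) ?_
    intro p hp
    rw [Function.mem_support] at hp
    by_contra h
    apply hp
    exact if_neg h
  obtain ⟨T, hT⟩ : ∃ T : Nat.Primes → ℝ, T = (fun p : Nat.Primes =>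
      (if (p : ℕ) ∈ B then M (p : ℕ) else (0 : ℝ)) +
      4 * (n : ℝ) * (θ (p : ℕ) ^ 2 * ((p : ℕ) : ℝ) ^ (-2 : ℝ) +
        2 * ((p : ℕ) : ℝ) ^ (-2 : ℝ))) := ⟨_, rfl⟩
  have hTs : Summable T := by
    rw [hT]
    exact (hfin fun p => M p).add (((hθ 2 (by norm_num) le_rfl).add
      ((hprimes 2 (by norm_num)).mul_left 2)).mul_left (4 * (n : ℝ)))
  refine ⟨∑' p, T p, ?_⟩
  have hev : ∀ᶠ x in 𝓝[>] (1 : ℝ), ∀ p ∈ B, p.Prime → z p x ≠ 0 ∧ |Real.log ‖z p x‖| ≤ M p := by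
    rw [Filter.eventually_all_finset]
    intro p hp
    by_cases hpp : p.Prime
    · filter_upwards [(hM p hp hpp).2] with x hx _
      exact hx
    · exact Eventually.of_forall fun x h => absurd h hpp
  filter_upwards [hev, Ioc_mem_nhdsGT (show (1 : ℝ) < 2 by norm_num)] with x hx hx12
  obtain ⟨hx1, hx2⟩ := hx12
  obtain ⟨G, hG⟩ : ∃ G : Nat.Primes → ℂ, G = (fun p : Nat.Primes =>
      if (p : ℕ) ∈ B then Complex.log (z (p : ℕ) x)
      else LGF_g (β (p : ℕ)) (α (p : ℕ)) (((p : ℕ) : ℝ) ^ (-x))) := ⟨_, rfl⟩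
  have hgood : ∀ p : Nat.Primes, (p : ℕ) ∉ B →
      Complex.exp (LGF_g (β p) (α p) ((p : ℝ) ^ (-x))) = z p x ∧
      ‖LGF_g (β p) (α p) ((p : ℝ) ^ (-x))‖ ≤ 5 * n * (θ p ^ 2 + 3) * (p : ℝ) ^ (-x) ∧
      |(LGF_g (β p) (α p) ((p : ℝ) ^ (-x))).re - A p * θ p * (p : ℝ) ^ (-x)| ≤
        4 * n * (θ p ^ 2 * (p : ℝ) ^ (-2 : ℝ) + 2 * (p : ℝ) ^ (-2 : ℝ)) := by
    intro p hp
    obtain ⟨s1, s2, s3⟩ := LGF_sqrt p.2 hx1
    obtain ⟨t1, t2, t3⟩ := LGF_good (β p) (hβ p p.2 hp) (hα p p.2 hp) s2 s1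
    refine ⟨?_, t2, ?_⟩
    · rw [t1, hz p p.2 hp x hx1 hx2]
    · rw [hA p p.2 hp]
      refine t3.trans ?_
      have h4 : 4 * n * (θ p ^ 2 + 2) * ((p : ℝ) ^ (-x)) ^ 2 ≤
          4 * n * (θ p ^ 2 + 2) * (p : ℝ) ^ (-2 : ℝ) :=
        mul_le_mul_of_nonneg_left s3 (by positivity)
      refine h4.trans (le_of_eq ?_)
      ring
  have hGe : ∀ p, Complex.exp (G p) = z p x := by
    intro p
    rw [hG]
    by_cases hp : (p : ℕ) ∈ B
    · simp only [if_pos hp]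
      exact Complex.exp_log (hx p hp p.2).1
    · simp only [if_neg hp]
      exact (hgood p hp).1
  have hGs : Summable G := by
    refine Summable.of_norm_bounded (g := fun p : Nat.Primes =>
      (if (p : ℕ) ∈ B then ‖Complex.log (z p x)‖ else 0) +
        5 * n * (θ p ^ 2 * (p : ℝ) ^ (-x) + 3 * (p : ℝ) ^ (-x))) ?_ ?_
    · exact (hfin fun p => ‖Complex.log (z p x)‖).add (((hθ x hx1 hx2).add
        ((hprimes x hx1).mul_left 3)).mul_left (5 * (n : ℝ)))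
    · intro p
      have h5 : (0 : ℝ) ≤ 5 * n * (θ p ^ 2 * (p : ℝ) ^ (-x) + 3 * (p : ℝ) ^ (-x)) := by
        positivity
      rw [hG]
      by_cases hp : (p : ℕ) ∈ B
      · simp only [if_pos hp]
        linarith
      · simp only [if_neg hp]
        refine (hgood p hp).2.1.trans (le_of_eq ?_)
        ring
  have hprod : ∏' p : Nat.Primes, z p x = Complex.exp (∑' p, G p) := by
    have h5 := hGs.hasSum.cexp.tprod_eq
    rw [← h5]
    refine tprod_congr fun p => ?_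
    exact (hGe p).symm
  have hlog : Real.log ‖∏' p : Nat.Primes, z p x‖ = ∑' p, (G p).re := by
    rw [hprod, Complex.norm_exp, Real.log_exp, Complex.re_tsum hGs]
  have hGr : Summable fun p => (G p).re := (Complex.hasSum_re hGs.hasSum).summable
  have hdiff : ∀ p : Nat.Primes, |(G p).re - A p * θ p * (p : ℝ) ^ (-x)| ≤ T p := by
    intro p
    have h5 : (0 : ℝ) ≤ 4 * n * (θ p ^ 2 * (p : ℝ) ^ (-2 : ℝ) + 2 * (p : ℝ) ^ (-2 : ℝ)) := by
      positivity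
    rw [hT, hG]
    by_cases hp : (p : ℕ) ∈ B
    · simp only [if_pos hp]
      rw [hA0 p p.2 hp, zero_mul, sub_zero, Complex.log_re]
      have h6 := (hx p hp p.2).2
      linarith
    · simp only [if_neg hp]
      rw [zero_add]
      exact (hgood p hp).2.2
  have hRs : Summable fun p : Nat.Primes => A p * θ p * (p : ℝ) ^ (-x) := by
    have h5 : Summable fun p : Nat.Primes => (G p).re - A p * θ p * (p : ℝ) ^ (-x) :=
      Summable.of_norm_bounded hTs fun p => by rw [Real.norm_eq_abs]; exact hdiff p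
    have h6 := hGr.sub h5
    refine h6.congr fun p => ?_
    ring
  rw [hlog]
  unfold RR
  rw [← hGr.tsum_sub hRs, ← Real.norm_eq_abs]
  exact tsum_of_norm_bounded hTs.hasSum fun p => by rw [Real.norm_eq_abs]; exact hdiff p

theorem LGF_cpow {p : ℕ} (w : ℤ) :
    ((p : ℂ) ^ (-(w : ℂ) / 2)) = (((p : ℝ) ^ (-(w : ℝ) / 2) : ℝ) : ℂ) := by
  have h0 : (0 : ℝ) ≤ p := Nat.cast_nonneg p
  rw [Complex.ofReal_cpow h0]
  push_cast
  rfl

/-- the local factors of `W`, normalised -/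
theorem LGF_W {ℓ : ℕ} [Fact ℓ.Prime] {W : Type} [AddCommGroup W]
    [Module ℚ_[ℓ] W] [FiniteDimensional ℚ_[ℓ] W] {ρ : Representation ℚ_[ℓ] TatePole.GQ W}
    {ι : ℚ_[ℓ] →+* ℂ} {w : ℤ} {p : ℕ} {P : ℂ[X]} (hp : p.Prime)
    (h : TatePole.IsWeightFactor ρ ι w p P) :
    ∃ β : Fin (Module.finrank ℚ_[ℓ] W) → ℂ, (∀ j, ‖β j‖ ≤ 1) ∧
      (∀ x : ℂ, P.eval ((((p : ℝ) ^ (-(w : ℝ) / 2) : ℝ) : ℂ) * x) = ∏ j, (1 - β j * x)) ∧
      ∑ j, β j = -P.coeff 1 * (p : ℂ) ^ (-(w : ℂ) / 2) := by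
  obtain ⟨𝔓, h𝔓, hp𝔓⟩ := TatePole.exists_prime_over p hp
  obtain ⟨σ, hσ⟩ := TatePole.exists_arithFrob p hp 𝔓 h𝔓 hp𝔓
  have hP := h.eq_det 𝔓 h𝔓 hp𝔓 σ hσ
  obtain ⟨Q, hQ⟩ : ∃ Q : ℂ[X], Q = (ρ σ⁻¹).charpoly.map ι := ⟨_, rfl⟩
  have hmonic : Q.Monic := by
    rw [hQ]
    exact (LinearMap.charpoly_monic _).map ι
  have hdeg : Q.natDegree = Module.finrank ℚ_[ℓ] W := by
    rw [hQ, (LinearMap.charpoly_monic _).natDegree_map, LinearMap.charpoly_natDegree]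
  rw [← hQ] at hP
  have h0 : P.coeff 0 = 1 := by
    rw [hP, coeff_zero_reverse, hmonic.leadingCoeff]
  have hd : P.natDegree ≤ Module.finrank ℚ_[ℓ] W := by
    rw [hP, ← hdeg]
    exact reverse_natDegree_le Q
  have hp0 : (0 : ℝ) < p := by exact_mod_cast hp.pos
  obtain ⟨c, hc⟩ : ∃ c : ℝ, c = (p : ℝ) ^ (-(w : ℝ) / 2) := ⟨_, rfl⟩
  have hc0 : 0 < c := by
    rw [hc]
    positivity
  have hcc : (p : ℂ) ^ (-(w : ℂ) / 2) = (c : ℂ) := by rw [LGF_cpow, hc]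
  obtain ⟨β, h1, h2, h3⟩ := TatePole.AT.poly_factor (P.comp (C (c : ℂ) * X))
    (n := Module.finrank ℚ_[ℓ] W)
    (by rw [comp_C_mul_X_coeff, h0, pow_zero, mul_one])
    (by
      rw [natDegree_comp]
      have h4 : (C (c : ℂ) * X).natDegree ≤ 1 :=
        (natDegree_C_mul_le _ _).trans natDegree_X_le
      calc P.natDegree * (C (c : ℂ) * X).natDegree ≤ P.natDegree * 1 := Nat.mul_le_mul_left _ h4
        _ ≤ _ := by rw [mul_one]; exact hd)
    (by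
      intro z hz
      rw [eval_comp, eval_mul, eval_C, eval_X] at hz
      have h4 := h.pure _ hz
      rw [norm_mul, Complex.norm_real, Real.norm_of_nonneg hc0.le, ← hc] at h4
      exact mul_left_cancel₀ hc0.ne' (by rw [h4, mul_one]))
  refine ⟨β, h1, ?_, ?_⟩
  · intro x
    rw [← h2 x, eval_comp, eval_mul, eval_C, eval_X, hc]
  · rw [h3, comp_C_mul_X_coeff, pow_one, hcc]
    ring

/-- the local factors of the twist -/
theorem LGF_Q {k p n : ℕ} {w : ℤ} {P Q : ℂ[X]} {ap : ℝ} (hk : 1 ≤ k) (hp : p.Prime)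
    (h : TatePole.IsModTwist k p ap P Q) {β : Fin n → ℂ}
    (hβ : ∀ x : ℂ, P.eval ((((p : ℝ) ^ (-(w : ℝ) / 2) : ℝ) : ℂ) * x) = ∏ j, (1 - β j * x))
    {α : ℂ} (hα : α + α⁻¹ = ((ap / (p : ℝ) ^ (((k : ℝ) - 1) / 2) : ℝ) : ℂ)) (hα0 : α ≠ 0)
    (x : ℝ) :
    Q.eval ((p : ℂ) ^ (((0 : ℕ) : ℂ) - ((TatePole.edge w k + (x - 1) : ℝ) : ℂ))) =
      ∏ j, ((1 - β j * (α * ((p : ℝ) ^ (-x) : ℝ))) *
        (1 - β j * (α⁻¹ * ((p : ℝ) ^ (-x) : ℝ)))) := by
  obtain ⟨α', β', h1, h2, rfl⟩ := h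
  have hp0 : (0 : ℝ) < p := by exact_mod_cast hp.pos
  obtain ⟨r, hr⟩ : ∃ r : ℝ, r = (p : ℝ) ^ (((k : ℝ) - 1) / 2) := ⟨_, rfl⟩
  have hr0 : 0 < r := by rw [hr]; positivity
  have hr2 : (r : ℂ) * r = (p : ℂ) ^ (k - 1) := by
    have h3 : r * r = (p : ℝ) ^ (k - 1) := by
      rw [hr, ← Real.rpow_add hp0, ← Real.rpow_natCast]
      congr 1
      rw [Nat.cast_sub hk]
      push_cast
      ring
    exact_mod_cast h3
  have hrc : (r : ℂ) ≠ 0 := Complex.ofReal_ne_zero.2 hr0.ne'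
  rw [← hr] at hα
  have hap : (ap : ℂ) = r * α + r * α⁻¹ := by
    rw [← mul_add, hα]
    push_cast
    field_simp
  obtain ⟨y, hy⟩ : ∃ y : ℝ, y = (p : ℝ) ^ (-(TatePole.edge w k + (x - 1))) := ⟨_, rfl⟩
  have hyc : (p : ℂ) ^ (((0 : ℕ) : ℂ) - ((TatePole.edge w k + (x - 1) : ℝ) : ℂ)) = (y : ℂ) := by
    rw [hy, Complex.ofReal_cpow hp0.le]
    congr 1
    push_cast
    ring
  have hry : r * y = (p : ℝ) ^ (-(w : ℝ) / 2) * (p : ℝ) ^ (-x) := by
    rw [hr, hy, ← Real.rpow_add hp0, ← Real.rpow_add hp0]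
    congr 1
    unfold TatePole.edge
    ring
  have hryc : (r : ℂ) * y = (((p : ℝ) ^ (-(w : ℝ) / 2) : ℝ) : ℂ) * (((p : ℝ) ^ (-x) : ℝ) : ℂ) := by
    exact_mod_cast hry
  have key : ∀ a' : ℂ, P.eval ((r * a') * y) =
      ∏ j, (1 - β j * (a' * ((p : ℝ) ^ (-x) : ℝ))) := by
    intro a'
    rw [← hβ]
    congr 1
    linear_combination a' * hryc
  rw [hyc, eval_mul, eval_comp, eval_comp, eval_mul, eval_C, eval_X, eval_mul, eval_C, eval_X,
    Finset.prod_mul_distrib, ← key, ← key]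
  have h3 : (α' - r * α) * (α' - r * α⁻¹) = 0 := by
    have h4 : α * α⁻¹ = 1 := mul_inv_cancel₀ hα0
    have h5 : (α' - r * α) * (α' - r * α⁻¹) = α' ^ 2 - α' * (r * α + r * α⁻¹) +
        r * r * (α * α⁻¹) := by ring
    rw [h5, ← hap, ← h1, h4, hr2, ← h2]
    ring
  rcases mul_eq_zero.1 h3 with h4 | h4
  · have h5 : α' = r * α := by linear_combination h4
    have h6 : β' = r * α⁻¹ := by linear_combination h1 + hap - h5
    rw [h5, h6]
  · have h5 : α' = r * α⁻¹ := by linear_combination h4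
    have h6 : β' = r * α := by linear_combination h1 + hap - h5
    rw [h5, h6, mul_comm]

theorem p_LGF : S_LGF := by
  classical
  intro ℓ _ _ W _ _ _ ρ w S P hP
  have hW : ∀ p : ℕ, ∃ β : Fin (Module.finrank ℚ_[ℓ] W) → ℂ, p.Prime → p ∉ S →
      (∀ j, ‖β j‖ ≤ 1) ∧
      (∀ x : ℂ, (P p).eval ((((p : ℝ) ^ (-(w : ℝ) / 2) : ℝ) : ℂ) * x) = ∏ j, (1 - β j * x)) ∧
      ∑ j, β j = -(P p).coeff 1 * (p : ℂ) ^ (-(w : ℂ) / 2) := by
    intro p
    by_cases hp : p.Prime ∧ p ∉ S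
    · obtain ⟨β, hβ⟩ := LGF_W hp.1 (hP p hp.1 hp.2)
      exact ⟨β, fun _ _ => hβ⟩
    · exact ⟨fun _ => 0, fun h1 h2 => absurd ⟨h1, h2⟩ hp⟩
  choose β hβ using hW
  have hAw : ∀ p : ℕ, p.Prime → p ∉ S → Aw w S P p = (∑ j, β p j).re := by
    intro p hp hpS
    unfold Aw
    rw [if_neg hpS, (hβ p hp hpS).2.2]
  refine ⟨?_, ?_⟩
  · intro p hp
    by_cases hpS : p ∈ S
    · unfold Aw
      rw [if_pos hpS, abs_zero]
      exact Nat.cast_nonneg _
    · rw [hAw p hp hpS]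
      refine (Complex.abs_re_le_norm _).trans ((norm_sum_le _ _).trans ?_)
      refine (Finset.sum_le_sum fun j _ => (hβ p hp hpS).1 j).trans ?_
      rw [Finset.sum_const, Finset.card_univ, Fintype.card_fin, nsmul_eq_mul, mul_one]
  · intro N k a Q hN hk hSat hsum hQ
    have hNd : ∀ p : ℕ, p ∈ S ∪ N.divisors ↔ p ∈ S ∨ p ∣ N := by
      intro p
      rw [Finset.mem_union, Nat.mem_divisors]
      constructor
      · rintro (h | h)
        · exact Or.inl h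
        · exact Or.inr h.1
      · rintro (h | h)
        · exact Or.inl h
        · exact Or.inr ⟨h, by omega⟩
    have hα : ∀ p : ℕ, ∃ α : ℂ, p.Prime → ¬ p ∣ N → Sat (lam k a p) (Real.sqrt p) α := by
      intro p
      by_cases hp : p.Prime ∧ ¬ p ∣ N
      · obtain ⟨α, h⟩ := hSat p hp.1 hp.2
        exact ⟨α, fun _ _ => h⟩
      · exact ⟨0, fun h1 h2 => absurd ⟨h1, h2⟩ hp⟩
    choose α hα using hα
    have hth : ∀ p : ℕ, ¬ p ∣ N → th N k a p = lam k a p := by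
      intro p hp
      unfold th
      rw [if_neg hp]
    have hcore := LGF_core (S ∪ N.divisors) β α (th N k a) (Aw w S P)
      (fun p x => ((Q p).eval ((p : ℂ) ^ (((0 : ℕ) : ℂ) -
        ((TatePole.edge w k + (x - 1) : ℝ) : ℂ))))⁻¹)
      (fun p hp hpB j => (hβ p hp (fun h => hpB ((hNd p).2 (Or.inl h)))).1 j)
      (fun p hp hpB => by
        have h1 : ¬ p ∣ N := fun h => hpB ((hNd p).2 (Or.inr h))
        rw [hth p h1]
        exact hα p hp h1)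
      (fun p hp hpB => hAw p hp (fun h => hpB ((hNd p).2 (Or.inl h))))
      (fun p hp hpB => by
        rcases (hNd p).1 hpB with h | h
        · unfold Aw
          rw [if_pos h, zero_mul]
        · unfold th
          rw [if_pos h, mul_zero])
      (fun x hx1 hx2 => by
        have h1 : Summable fun p : Nat.Primes => lam k a p ^ 2 * (p : ℝ) ^ (-x) :=
          (hsum x hx1 hx2).comp_injective (i := fun p : Nat.Primes => (p : ℕ))
            Subtype.val_injective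
        refine Summable.of_nonneg_of_le (fun p => by positivity) (fun p => ?_) h1
        refine mul_le_mul_of_nonneg_right ?_ (by positivity)
        unfold th
        split_ifs
        · rw [zero_pow two_ne_zero]
          exact sq_nonneg _
        · exact le_rfl)
      (fun p hp hpB x _ _ => by
        have h1 : ¬ p ∣ N := fun h => hpB ((hNd p).2 (Or.inr h))
        have h2 : p ∉ S := fun h => hpB ((hNd p).2 (Or.inl h))
        have h3 := hα p hp h1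
        have h4 := LGF_Q (w := w) (by omega) hp (hQ.1 p hp h2 h1) (hβ p hp h2).2.1
          (α := α p) h3.add (LGF_sat h3).1 x
        exact congrArg (fun u => u⁻¹) h4)
      (fun p _ hp => by
        have h1 := hQ.2 p hp
        have hp0 : (p : ℂ) ≠ 0 := Nat.cast_ne_zero.2 hp.ne_zero
        obtain ⟨F, hF⟩ : ∃ F : ℝ → ℂ, F = fun x : ℝ => (Q p).eval ((p : ℂ) ^ (((0 : ℕ) : ℂ) -
            ((TatePole.edge w k + (x - 1) : ℝ) : ℂ))) := ⟨_, rfl⟩
        have hFc : Continuous F := by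
          rw [hF]
          refine (Q p).continuous.comp ?_
          refine Continuous.const_cpow ?_ (Or.inl hp0)
          fun_prop
        have hF1 : F 1 ≠ 0 := by
          rw [hF]
          have h2 : ((0 : ℕ) : ℂ) - ((TatePole.edge w k + (1 - 1) : ℝ) : ℂ) =
              -(TatePole.edge w k : ℂ) := by
            push_cast
            ring
          simp only
          rw [h2]
          exact h1
        have hlim : Tendsto (fun x => Real.log ‖(F x)⁻¹‖) (𝓝[>] (1 : ℝ))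
            (𝓝 (Real.log ‖(F 1)⁻¹‖)) := by
          have h2 : ContinuousAt (fun x => Real.log ‖(F x)⁻¹‖) 1 := by
            refine ContinuousAt.log ?_ (by simpa using hF1)
            exact (hFc.continuousAt.inv₀ hF1).norm
          exact h2.tendsto.mono_left nhdsWithin_le_nhds
        refine ⟨|Real.log ‖(F 1)⁻¹‖| + 1, by positivity, ?_⟩
        have e1 : ∀ᶠ x in 𝓝[>] (1 : ℝ), F x ≠ 0 :=
          (hFc.continuousAt.eventually_ne hF1).filter_mono nhdsWithin_le_nhds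
        have e2 : ∀ᶠ x in 𝓝[>] (1 : ℝ), |Real.log ‖(F x)⁻¹‖| < |Real.log ‖(F 1)⁻¹‖| + 1 :=
          hlim.abs.eventually (gt_mem_nhds (by linarith))
        filter_upwards [e1, e2] with x h3 h4
        rw [hF] at h3 h4
        exact ⟨inv_ne_zero h3, by rw [hF]; exact h4.le⟩)
    exact hcore

end Pool.Agent.Lib.MP_058a58_ag.MT
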