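import Pool.Agent.Lib.MP_058a58_ag.MT.Stm4

set_option autoImplicit false

/-!
# Twists by modular forms: the logarithm of the `L`-function of `W ⊗ W^∨`
-/

open Polynomial Filter Topology
open scoped TensorProduct

namespace Pool.Agent.Lib.MP_058a58_ag.MT

open TatePole TatePole.AT

/-- the trace of the inverse of a matrix whose eigenvalues have absolute value `r` -/
private lemma LGN_trace_inv {n : Type*} [Fintype n] [DecidableEq n] (M : Matrix n n ℂ) (r : ℝ)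
    (hr : 0 < r) (h1 : ∀ z ∈ M.charpoly.roots, ‖z‖ = r) :
    (M⁻¹).trace = (((r ^ 2)⁻¹ : ℝ) : ℂ) * (starRingEnd ℂ) M.trace := by
  have hdet : M.det ≠ 0 := by
    intro h0
    have h2 : (0 : ℂ) ∈ M.charpoly.roots := by
      rw [mem_roots (Matrix.charpoly_monic M).ne_zero, IsRoot.def, ← coeff_zero_eq_eval_zero]
      have h3 := Matrix.det_eq_sign_charpoly_coeff M
      rw [h0] at h3
      rcases mul_eq_zero.mp h3.symm with h | h
      · exact absurd h (pow_ne_zero _ (by norm_num))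
      · exact h
    have h3 := h1 0 h2
    rw [norm_zero] at h3
    exact hr.ne h3
  have hunit : IsUnit M := (Matrix.isUnit_iff_isUnit_det M).mpr hdet.isUnit
  set R := M.charpoly.roots with hR
  have hsplit : M.charpoly.Splits := IsAlgClosed.splits _
  have hcard : Multiset.card R = Fintype.card n := by
    rw [hR, ← hsplit.natDegree_eq_card_roots, Matrix.charpoly_natDegree_eq_dim]
  have hne : ∀ a ∈ R, a ≠ 0 := by
    intro a ha h0
    have h3 := h1 a ha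
    rw [h0, norm_zero] at h3
    exact hr.ne h3
  have hdetR : M.det = R.prod := Matrix.det_eq_prod_roots_charpoly M
  have h2 : (M⁻¹).charpoly = ((R.map (fun a => a⁻¹)).map (fun a => X - C a)).prod := by
    apply Polynomial.funext
    intro x
    have h3 := Matrix.charpoly_inv M hunit
    rw [← Matrix.reverse_charpoly] at h3
    rw [h3, eval_mul, eval_mul, eval_C, eval_pow, eval_neg, eval_one,
      reverse_eval_eq_prod _ (Matrix.charpoly_monic M), Ring.inverse_eq_inv', hdetR, ← hR,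
      eval_multiset_prod, Multiset.map_map, Multiset.map_map, ← hcard]
    have h4 : ((-1 : ℂ)) ^ Multiset.card R = (R.map (fun _ => (-1 : ℂ))).prod := by
      rw [Multiset.map_const', Multiset.prod_replicate]
    have h5 : (R.prod)⁻¹ = (R.map (fun a => a⁻¹)).prod := by
      rw [Multiset.prod_map_inv, Multiset.map_id']
    rw [h4, h5, ← Multiset.prod_map_mul, ← Multiset.prod_map_mul]
    refine congrArg Multiset.prod (Multiset.map_congr rfl fun a ha => ?_)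
    have h6 := hne a ha
    simp only [Function.comp_apply, eval_sub, eval_X, eval_C]
    field_simp
    ring
  have h3 : (M⁻¹).charpoly.roots = R.map (fun a => a⁻¹) := by
    rw [h2, roots_multiset_prod_X_sub_C]
  rw [Matrix.trace_eq_sum_roots_charpoly, h3, Matrix.trace_eq_sum_roots_charpoly M, ← hR,
    map_multiset_sum, ← Multiset.sum_map_mul_left]
  refine congrArg Multiset.sum (Multiset.map_congr rfl fun a ha => ?_)
  rw [Complex.inv_def, Complex.normSq_eq_norm_sq, h1 a ha, mul_comm]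

/-- the same for an operator defined over a subfield -/
private lemma LGN_trace_inv' {K T : Type*} [Field K] [AddCommGroup T] [Module K T]
    [FiniteDimensional K T] (ι : K →+* ℂ) (φ ψ : T →ₗ[K] T) (hφψ : φ * ψ = 1) (r : ℝ)
    (hr : 0 < r) (h1 : ∀ z ∈ (φ.charpoly.map ι).roots, ‖z‖ = r) :
    ι (LinearMap.trace K T ψ) =
      (((r ^ 2)⁻¹ : ℝ) : ℂ) * (starRingEnd ℂ) (ι (LinearMap.trace K T φ)) := by
  classical
  let b := Module.Free.chooseBasis K T
  set M := (LinearMap.toMatrix b b φ).map ι with hM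
  set M' := (LinearMap.toMatrix b b ψ).map ι with hM'
  have h2 : M * M' = 1 := by
    rw [hM, hM', ← Matrix.map_mul, ← LinearMap.toMatrix_mul, hφψ, LinearMap.toMatrix_one,
      Matrix.map_one ι (map_zero ι) (map_one ι)]
  have h3 : M⁻¹ = M' := Matrix.inv_eq_right_inv h2
  have h4 : M.charpoly = φ.charpoly.map ι := by
    rw [hM, Matrix.charpoly_map, LinearMap.charpoly_toMatrix]
  have h5 := LGN_trace_inv M r hr (by rw [h4]; exact h1)
  rw [h3] at h5
  have h6 : M.trace = ι (LinearMap.trace K T φ) := by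
    rw [LinearMap.trace_eq_matrix_trace K b, hM]
    exact (AddMonoidHom.map_trace ι.toAddMonoidHom _).symm
  have h7 : M'.trace = ι (LinearMap.trace K T ψ) := by
    rw [LinearMap.trace_eq_matrix_trace K b, hM']
    exact (AddMonoidHom.map_trace ι.toAddMonoidHom _).symm
  rw [← h7, h5, h6]

private lemma LGN_trace_ad {k : Type*} [Field k] {W : Type*} [AddCommGroup W] [Module k W]
    [FiniteDimensional k W] (ρ : Representation k GQ W) (g : GQ) :
    LinearMap.trace k _ (adRep ρ g) =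
      LinearMap.trace k _ (ρ g) * LinearMap.trace k _ (ρ g⁻¹) := by
  have h1 := congrFun (Representation.char_tensor ρ ρ.dual) g
  have h2 := Representation.char_dual ρ g
  have h3 : LinearMap.trace k _ (adRep ρ g) = ρ.character g * ρ.dual.character g := h1
  rw [h3, h2]
  rfl

section

variable {ℓ : ℕ} [Fact ℓ.Prime] {W : Type} [AddCommGroup W] [Module ℚ_[ℓ] W]
  [FiniteDimensional ℚ_[ℓ] W] {ι : ℚ_[ℓ] →+* ℂ}

/-- the eigenvalues of a Frobenius element on a representation of weight `w` -/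
private lemma LGN_weight {ρ : Representation ℚ_[ℓ] GQ W} {w : ℤ} {p : ℕ} {P : ℂ[X]}
    (h : IsWeightFactor ρ ι w p P) {𝔓 : Ideal ZBar} (h𝔓 : 𝔓.IsPrime) (hp𝔓 : (p : ZBar) ∈ 𝔓)
    {σ : GQ} (hσ : IsArithFrob p 𝔓 σ) :
    P.coeff 1 = -ι (LinearMap.trace ℚ_[ℓ] W (ρ σ⁻¹)) ∧
    (∀ z ∈ ((ρ σ⁻¹).charpoly.map ι).roots, ‖z‖ = ((p : ℝ) ^ (-(w : ℝ) / 2))⁻¹) ∧
    ‖ι (LinearMap.trace ℚ_[ℓ] W (ρ σ⁻¹))‖ ≤
      Module.finrank ℚ_[ℓ] W * ((p : ℝ) ^ (-(w : ℝ) / 2))⁻¹ := by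
  have hP := h.eq_det 𝔓 h𝔓 hp𝔓 σ hσ
  set Q : ℂ[X] := (ρ σ⁻¹).charpoly.map ι with hQdef
  have hmonic : Q.Monic := (LinearMap.charpoly_monic _).map ι
  have hdeg : Q.natDegree = Module.finrank ℚ_[ℓ] W := by
    rw [hQdef, (LinearMap.charpoly_monic _).natDegree_map, LinearMap.charpoly_natDegree]
  have hcard : Q.roots.card = Module.finrank ℚ_[ℓ] W := by
    rw [← hdeg]; exact (IsAlgClosed.splits Q).natDegree_eq_card_roots.symm
  obtain ⟨α, hα⟩ := exists_fin_enum _ _ hcard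
  have heval : ∀ x : ℂ, P.eval x = ∏ j, (1 - α j * x) := by
    intro x
    rw [hP, reverse_eval_eq_prod Q hmonic, ← hα, Multiset.map_map]
    rfl
  have hsum : ∑ j, α j = ι (LinearMap.trace ℚ_[ℓ] W (ρ σ⁻¹)) := by
    rw [← sum_roots_map_charpoly, ← hQdef, ← hα]
    rfl
  have hnorm : ∀ z ∈ Q.roots, ‖z‖ = ((p : ℝ) ^ (-(w : ℝ) / 2))⁻¹ := by
    intro z hz
    have hne : z ≠ 0 := by
      intro h0
      rw [h0, mem_roots hmonic.ne_zero, IsRoot.def, ← coeff_zero_eq_eval_zero, hQdef, coeff_map,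
        map_eq_zero] at hz
      have hdet : LinearMap.det (ρ σ⁻¹) = 0 := by
        rw [LinearMap.det_eq_sign_charpoly_coeff, hz, mul_zero]
      have hunit : ρ σ⁻¹ * ρ σ = 1 := by
        rw [← map_mul]; simp
      have h2 : LinearMap.det (ρ σ⁻¹) * LinearMap.det (ρ σ) = 1 := by
        rw [← map_mul, hunit, map_one]
      rw [hdet, zero_mul] at h2
      exact zero_ne_one h2
    have hz0 : P.eval z⁻¹ = 0 := by
      rw [hP, reverse_eval_eq_prod Q hmonic]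
      apply Multiset.prod_eq_zero
      rw [Multiset.mem_map]
      exact ⟨z, hz, by rw [mul_inv_cancel₀ hne, sub_self]⟩
    have h3 := h.pure _ hz0
    rw [norm_inv] at h3
    rw [← h3, inv_inv]
  refine ⟨?_, hnorm, ?_⟩
  · rw [coeff_one_of_eval_prod' heval, hsum]
  · rw [← hsum]
    refine (norm_sum_le _ _).trans ?_
    refine (Finset.sum_le_sum (g := fun _ => ((p : ℝ) ^ (-(w : ℝ) / 2))⁻¹) fun j _ => ?_).trans ?_
    · refine (hnorm _ ?_).le
      rw [← hα]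
      exact Multiset.mem_map_of_mem _ (Finset.mem_univ j)
    · rw [Finset.sum_const, Finset.card_univ, Fintype.card_fin, nsmul_eq_mul]

/-- the normalised trace -/
private noncomputable def LGN_T (w : ℤ) (P : ℕ → ℂ[X]) (p : ℕ) : ℂ :=
  -(P p).coeff 1 * (p : ℂ) ^ (-(w : ℂ) / 2)

private lemma LGN_norm_cpow (w : ℤ) {p : ℕ} (hp : p.Prime) :
    ‖(p : ℂ) ^ (-(w : ℂ) / 2)‖ = (p : ℝ) ^ (-(w : ℝ) / 2) := by
  rw [Complex.norm_natCast_cpow_of_pos hp.pos]
  congr 1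
  simp

private lemma LGN_T_le {ρ : Representation ℚ_[ℓ] GQ W} {w : ℤ} {p : ℕ} (hp : p.Prime)
    {P : ℕ → ℂ[X]} (h : IsWeightFactor ρ ι w p (P p)) :
    ‖LGN_T w P p‖ ≤ Module.finrank ℚ_[ℓ] W := by
  obtain ⟨𝔓, h𝔓, hp𝔓⟩ := exists_prime_over p hp
  obtain ⟨σ, hσ⟩ := exists_arithFrob p hp 𝔓 h𝔓 hp𝔓
  obtain ⟨h1, -, h2⟩ := LGN_weight h h𝔓 hp𝔓 hσ
  have hpos : 0 < (p : ℝ) ^ (-(w : ℝ) / 2) :=
    Real.rpow_pos_of_pos (by exact_mod_cast hp.pos) _
  rw [LGN_T, norm_mul, LGN_norm_cpow w hp, h1, neg_neg]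
  calc _ ≤ Module.finrank ℚ_[ℓ] W * ((p : ℝ) ^ (-(w : ℝ) / 2))⁻¹ * (p : ℝ) ^ (-(w : ℝ) / 2) :=
        mul_le_mul_of_nonneg_right h2 hpos.le
    _ = Module.finrank ℚ_[ℓ] W := by
        rw [mul_assoc, inv_mul_cancel₀ hpos.ne', mul_one]

/-- the linear coefficient of the local factor of `W ⊗ W^∨` -/
private lemma LGN_key {ρ : Representation ℚ_[ℓ] GQ W} {w : ℤ} {p : ℕ} (hp : p.Prime)
    {P : ℕ → ℂ[X]} (h : IsWeightFactor ρ ι w p (P p)) {N : ℂ[X]}
    (hN : IsPureLocalFactor (adRep ρ) ι p N) :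
    -N.coeff 1 = ((‖LGN_T w P p‖ ^ 2 : ℝ) : ℂ) := by
  obtain ⟨𝔓, h𝔓, hp𝔓⟩ := exists_prime_over p hp
  obtain ⟨σ, hσ⟩ := exists_arithFrob p hp 𝔓 h𝔓 hp𝔓
  obtain ⟨h1, h2, -⟩ := LGN_weight h h𝔓 hp𝔓 hσ
  obtain ⟨β, hβ, -, heval⟩ := hN.roots_of_frob h𝔓 hp𝔓 hσ
  have hpos : 0 < (p : ℝ) ^ (-(w : ℝ) / 2) :=
    Real.rpow_pos_of_pos (by exact_mod_cast hp.pos) _
  have h3 : ∑ j, β j = ι (LinearMap.trace ℚ_[ℓ] _ (adRep ρ σ⁻¹)) := by
    rw [← sum_roots_map_charpoly, ← hβ]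
    rfl
  have h4 := LGN_trace_inv' ι (ρ σ⁻¹) (ρ σ⁻¹⁻¹)
    (by rw [← map_mul, mul_inv_cancel, map_one]) _ (inv_pos.2 hpos) h2
  rw [coeff_one_of_eval_prod' heval, neg_neg, h3, LGN_trace_ad, map_mul, h4, LGN_T, h1, neg_neg,
    norm_mul, LGN_norm_cpow w hp, mul_pow, ← mul_assoc, mul_comm (ι _), mul_assoc,
    Complex.mul_conj, Complex.normSq_eq_norm_sq]
  push_cast
  rw [inv_pow, inv_inv]
  ring

end

private lemma LGN_mono {g h : ℕ → ℝ} (bg : BddPrimes g) (bh : BddPrimes h)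
    (hle : ∀ p : ℕ, p.Prime → g p ≤ h p) {x : ℝ} (hx : 1 < x) : RR g x ≤ RR h x := by
  obtain ⟨A, hA⟩ := bg
  obtain ⟨B, hB⟩ := bh
  unfold RR
  refine (summable_RR hA hx).tsum_le_tsum (fun p => ?_) (summable_RR hB hx)
  exact mul_le_mul_of_nonneg_right (hle p p.2) (Real.rpow_nonneg (Nat.cast_nonneg _) _)

theorem p_LGN : S_LGN := by
  classical
  intro ℓ _ _ W _ _ _ ρ w S P hgood S' N hN
  set n : ℝ := (Module.finrank ℚ_[ℓ] W : ℝ) with hn
  set m : ℕ := Module.finrank ℚ_[ℓ] (W ⊗[ℚ_[ℓ]] Module.Dual ℚ_[ℓ] W) with hm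
  set h : ℕ → ℝ := fun p => (-(N p).coeff 1).re with hh
  -- the roots
  have hex : ∀ p : ℕ, p.Prime → p ∉ S' → ∃ β : Fin m → ℂ, (∀ j, ‖β j‖ = 1) ∧
      ∀ x : ℂ, (N p).eval x = ∏ j, (1 - β j * x) := fun p hp hpS =>
    (hN.1 p hp hpS).exists_roots hp
  have h0 : ∀ p : ℕ, p.Prime → p ∉ S' → (N p).coeff 0 = 1 := by
    intro p hp hpS
    obtain ⟨β, -, hβ⟩ := hex p hp hpS
    rw [coeff_zero_eq_eval_zero, hβ]
    simp
  have hdeg : ∀ p : ℕ, p.Prime → p ∉ S' → (N p).natDegree ≤ m := by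
    intro p hp hpS
    obtain ⟨𝔓, h𝔓, hp𝔓⟩ := exists_prime_over p hp
    obtain ⟨σ, hσ⟩ := exists_arithFrob p hp 𝔓 h𝔓 hp𝔓
    rw [(hN.1 p hp hpS).eq_det 𝔓 h𝔓 hp𝔓 σ hσ]
    refine (reverse_natDegree_le _).trans ?_
    rw [(LinearMap.charpoly_monic _).natDegree_map, LinearMap.charpoly_natDegree]
  obtain ⟨C1, hC1⟩ := log_of_poly (Q := N) (S := S') (n := m) h0 hdeg
    (fun p hp hpS => (hN.1 p hp hpS).pure) (fun p hpS hp => hN.2 p hpS hp)
  -- bounds
  have hhb : BddPrimes h := by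
    refine ⟨m + ∑ p ∈ S', ‖(N p).coeff 1‖, fun p hp => (Complex.abs_re_le_norm _).trans ?_⟩
    rw [norm_neg]
    by_cases hpS : p ∈ S'
    · have h1 := Finset.single_le_sum (f := fun p => ‖(N p).coeff 1‖)
        (fun _ _ => norm_nonneg _) hpS
      have h2 : (0 : ℝ) ≤ m := Nat.cast_nonneg _
      linarith
    · obtain ⟨β, hβ1, hβ⟩ := hex p hp hpS
      have h2 : 0 ≤ ∑ p ∈ S', ‖(N p).coeff 1‖ := Finset.sum_nonneg fun _ _ => norm_nonneg _
      rw [coeff_one_of_eval_prod' hβ, norm_neg]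
      have h3 : ‖∑ j, β j‖ ≤ m := by
        refine (norm_sum_le _ _).trans ?_
        rw [Finset.sum_congr rfl fun j _ => hβ1 j, Finset.sum_const, Finset.card_univ,
          Fintype.card_fin, nsmul_eq_mul, mul_one]
      linarith
  have hn0 : 0 ≤ n := Nat.cast_nonneg _
  have hTn : ∀ p : ℕ, p.Prime → p ∉ S → ‖LGN_T w P p‖ ≤ n := fun p hp hpS =>
    LGN_T_le hp (hgood p hp hpS)
  have hAT : ∀ p : ℕ, p.Prime → p ∉ S → Aw w S P p ^ 2 ≤ ‖LGN_T w P p‖ ^ 2 := by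
    intro p hp hpS
    rw [Aw, if_neg hpS, ← sq_abs]
    exact pow_le_pow_left₀ (abs_nonneg _) (Complex.abs_re_le_norm _) 2
  have hAb : BddPrimes (fun p => Aw w S P p ^ 2) := by
    refine ⟨n ^ 2, fun p hp => ?_⟩
    rw [abs_of_nonneg (sq_nonneg _)]
    show Aw w S P p ^ 2 ≤ n ^ 2
    by_cases hpS : p ∈ S
    · rw [Aw, if_pos hpS]
      nlinarith
    · exact (hAT p hp hpS).trans (pow_le_pow_left₀ (norm_nonneg _) (hTn p hp hpS) 2)
  have hkey : ∀ p : ℕ, p.Prime → p ∉ S ∪ S' → h p = ‖LGN_T w P p‖ ^ 2 := by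
    intro p hp hpS
    rw [Finset.mem_union, not_or] at hpS
    simp only [hh]
    rw [LGN_key hp (hgood p hp hpS.1) (hN.1 p hp hpS.2), Complex.ofReal_re]
  set h' : ℕ → ℝ := fun p => if p ∈ S ∪ S' then 0 else h p with hh'
  set A' : ℕ → ℝ := fun p => if p ∈ S ∪ S' then 0 else Aw w S P p ^ 2 with hA'
  have hbh' : BddPrimes h' := by
    obtain ⟨K, hK⟩ := hhb
    refine ⟨K, fun p hp => ?_⟩
    simp only [hh']
    split_ifs with h1
    · rw [abs_zero]; exact (abs_nonneg _).trans (hK p hp)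
    · exact hK p hp
  have hbA' : BddPrimes A' := by
    obtain ⟨K, hK⟩ := hAb
    refine ⟨K, fun p hp => ?_⟩
    simp only [hA']
    split_ifs with h1
    · rw [abs_zero]; exact (abs_nonneg _).trans (hK p hp)
    · exact hK p hp
  obtain ⟨C2, hC2⟩ := RR_near (g := h) (h := h') (S ∪ S') (fun p _ hpS => by
    simp only [hh']; rw [if_neg hpS]) hhb hbh'
  obtain ⟨C3, hC3⟩ := RR_near (g := fun p => Aw w S P p ^ 2) (h := A') (S ∪ S')
    (fun p _ hpS => by simp only [hA']; rw [if_neg hpS]) hAb hbA'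
  obtain ⟨C4, hC4⟩ := hasMean_one
  have hle1 : ∀ p : ℕ, p.Prime → A' p ≤ h' p := by
    intro p hp
    simp only [hA', hh']
    split_ifs with h1
    · exact le_rfl
    · rw [hkey p hp h1]
      exact hAT p hp fun h2 => h1 (Finset.mem_union_left _ h2)
  have hle2 : ∀ p : ℕ, p.Prime → h' p ≤ n ^ 2 * 1 := by
    intro p hp
    simp only [hh']
    split_ifs with h1
    · nlinarith
    · rw [hkey p hp h1, mul_one]
      exact pow_le_pow_left₀ (norm_nonneg _)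
        (hTn p hp fun h2 => h1 (Finset.mem_union_left _ h2)) 2
  have hLZ : ∀ x : ℝ, LFun N 0 (x : ℝ) = ZZ N (fun _ => 1) x := by
    intro x
    have h1 := LFun_eq_ZZ N 0 x
    rwa [Nat.cast_zero, zero_add] at h1
  have hC1' : ∀ᶠ x : ℝ in 𝓝[>] (1 : ℝ), |Real.log ‖LFun N 0 (x : ℝ)‖ - RR h x| ≤ C1 := by
    filter_upwards [hC1] with x hx
    rw [hLZ]
    exact hx
  refine ⟨⟨C1 + C2 + C3, ?_⟩, ⟨C1 + C2 + n ^ 2 * C4, ?_⟩⟩
  · filter_upwards [hC1', self_mem_nhdsWithin] with x hx hx1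
    have h1 : (1 : ℝ) < x := hx1
    have h2 := abs_le.1 (hC2 x h1)
    have h3 := abs_le.1 (hC3 x h1)
    have h4 := abs_le.1 hx
    have h5 := LGN_mono hbA' hbh' hle1 h1
    linarith [h2.1, h3.2, h4.1]
  · filter_upwards [hC1', hC4, self_mem_nhdsWithin] with x hx hx4 hx1
    have h1 : (1 : ℝ) < x := hx1
    have h2 := abs_le.1 (hC2 x h1)
    have h4 := abs_le.1 hx
    have h5 := LGN_mono hbh' (h := fun _ => n ^ 2 * 1) ⟨|n ^ 2 * 1|, fun _ _ => le_rfl⟩ hle2 h1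
    have h6 : RR (fun _ => n ^ 2 * (1 : ℝ)) x = n ^ 2 * RR (fun _ => (1 : ℝ)) x :=
      RR_const_mul _ _ _
    have h7 := (abs_le.1 hx4).2
    rw [one_mul] at h7
    have h8 : n ^ 2 * RR (fun _ => (1 : ℝ)) x ≤ n ^ 2 * (Real.log (1 / (x - 1)) + C4) :=
      mul_le_mul_of_nonneg_left (by linarith) (sq_nonneg n)
    rw [h6] at h5
    linarith [h2.2, h4.2]

end Pool.Agent.Lib.MP_058a58_ag.MT
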