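import Pool.Agent.Lib.MP_058a58_ag.MT.P.OR

set_option autoImplicit false

/-!
# Twists by modular forms, piece MAIN: the unfolded integral
-/

open UpperHalfPlane MeasureTheory Filter Topology
open scoped MatrixGroups Modular

namespace Pool.Agent.Lib.MP_058a58_ag.MT

private lemma MAIN_strip : MeasurableSet strip := by
  have h1 : MeasurableSet {z : ℍ | 0 ≤ z.re} :=
    measurableSet_le measurable_const UpperHalfPlane.continuous_re.measurable
  have h2 : MeasurableSet {z : ℍ | z.re < 1} :=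
    measurableSet_lt UpperHalfPlane.continuous_re.measurable measurable_const
  exact h1.inter h2

private lemma MAIN_sqrt (z : ℍ) (h : z ∈ 𝒟) : (1 : ℝ) ≤ 2 * Real.sqrt z.im := by
  have h1 := ModularGroup.three_le_four_mul_im_sq_of_mem_fd h
  have h2 : (1 / 4 : ℝ) ≤ z.im := by
    by_contra h3
    push Not at h3
    nlinarith [z.im_pos]
  have h4 : (1 / 2 : ℝ) ≤ Real.sqrt z.im := by
    apply Real.le_sqrt_of_sq_le
    norm_num
    linarith
  linarith

theorem p_MAIN : S_MAIN := by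
  classical
  intro hLSP hAU hCO hHT hVOL M l R w F hM hw hFc hFb hF
  obtain ⟨CL, hCL0, hL⟩ := hLSP M l hM
  obtain ⟨CF, hCF⟩ := hFb
  have hCF0 : 0 ≤ CF := (norm_nonneg _).trans (hCF UpperHalfPlane.I)
  -- the bounding function
  obtain ⟨b, hb⟩ : ∃ b : ℍ → ℝ, b = fun z => ∑ δ ∈ R,
    Set.indicator (𝒟 : Set ℍ) (fun z : ℍ => Real.sqrt z.im) (δ • z) := ⟨_, rfl⟩
  have hD : MeasurableSet (𝒟 : Set ℍ) := ModularGroup.isClosed_fd.measurableSet
  have hbi : Integrable b := by
    rw [hb]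
    refine integrable_finsetSum _ fun δ _ => ?_
    exact (OR_mp δ).integrable_comp_of_integrable ((integrable_indicator_iff hD).2 hVOL.1)
  have hterm0 : ∀ (δ : SL(2, ℤ)) (z : ℍ),
      0 ≤ Set.indicator (𝒟 : Set ℍ) (fun z : ℍ => Real.sqrt z.im) (δ • z) := fun δ z =>
    Set.indicator_nonneg (fun z _ => Real.sqrt_nonneg _) _
  refine ⟨∫ z, CF * CL * b z, fun s hs1 hs2 => ?_⟩
  obtain ⟨κ, hκ, hκb⟩ := hL s hs1 hs2
  refine ⟨κ, hκ, ?_⟩
  -- integrability of the function on the strip
  have hE : Integrable (strip.indicator (fun z : ℍ => F z * (ht M l s z.im : ℂ))) := by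
    rw [integrable_indicator_iff MAIN_strip]
    have h1 : Integrable (fun z : ℍ => (ht M l s z.im : ℂ)) (volume.restrict strip) :=
      (hHT M l s hM hs1 hs2).2.2.2.ofReal
    exact h1.bdd_mul (c := CF) hFc.aestronglyMeasurable (Eventually.of_forall hCF)
  have hcount : Countable (CongruenceSubgroup.Gamma0 M) := OR_count _
  obtain ⟨h1, h2⟩ := hAU (CongruenceSubgroup.Gamma0 M) ℍ volume (fun γ => OR_mp γ) w hw.meas
    hw.nn hw.sum _ hE
  have h3 : ∀ z : ℍ, ∑' γ : CongruenceSubgroup.Gamma0 M,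
      strip.indicator (fun z => F z * (ht M l s z.im : ℂ)) (γ • z) = F z * Zs M l s z := fun z =>
    hCO M l s hM hs1 hs2 F hF z
  simp_rw [h3] at h1 h2
  rw [integral_indicator MAIN_strip] at h2
  have h4 : Integrable (fun z => (w z : ℂ) * F z) := OR_int hVOL M R w hw F hFc CF hCF
  rw [h2, ← integral_const_mul, ← integral_sub h1 (h4.const_mul κ)]
  refine norm_integral_le_of_norm_le (hbi.const_mul (CF * CL)) (Eventually.of_forall fun z => ?_)
  have e : (w z : ℂ) * (F z * Zs M l s z) - κ * ((w z : ℂ) * F z) =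
      (w z : ℂ) * F z * (Zs M l s z - κ) := by ring
  rw [e, norm_mul, norm_mul, Complex.norm_real, Real.norm_of_nonneg (hw.nn z)]
  have hb0 : 0 ≤ b z := by
    rw [hb]
    exact Finset.sum_nonneg fun δ _ => hterm0 δ z
  by_cases hz : w z = 0
  · rw [hz, zero_mul, zero_mul]
    exact mul_nonneg (mul_nonneg hCF0 hCL0) hb0
  · obtain ⟨δ, hδ, hδz⟩ := hw.supp z hz
    have h5 := hκb δ z hδz
    have h6 : Real.sqrt (δ • z).im ≤ b z := by
      have h7 : Set.indicator (𝒟 : Set ℍ) (fun z : ℍ => Real.sqrt z.im) (δ • z) ≤ b z := by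
        rw [hb]
        exact Finset.single_le_sum
          (f := fun δ => Set.indicator (𝒟 : Set ℍ) (fun z : ℍ => Real.sqrt z.im) (δ • z))
          (fun δ _ => hterm0 δ z) hδ
      rwa [Set.indicator_of_mem hδz] at h7
    calc w z * ‖F z‖ * ‖Zs M l s z - κ‖ ≤ 1 * CF * (CL * b z) := by
          refine mul_le_mul (mul_le_mul (hw.le z) (hCF z) (norm_nonneg _) zero_le_one)
            (h5.trans (mul_le_mul_of_nonneg_left h6 hCL0)) (norm_nonneg _) (by positivity)
      _ = CF * CL * b z := by ring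

end Pool.Agent.Lib.MP_058a58_ag.MT
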