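import Pool.Agent.Lib.MP_058a58_ag.MT.Stm2

set_option autoImplicit false

/-!
# Mean square of the coefficients
-/

open UpperHalfPlane MeasureTheory Filter Topology
open scoped MatrixGroups Modular

namespace Pool.Agent.Lib.MP_058a58_ag.MT

/-- `x + i y` -/
private noncomputable def pt (y : ℝ) (hy : 0 < y) (x : ℝ) : ℍ := ⟨(x : ℂ) + y * Complex.I, by
  simpa using hy⟩

private theorem pt_im (y : ℝ) (hy : 0 < y) (x : ℝ) : (pt y hy x).im = y := by
  simp [pt, UpperHalfPlane.im]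

private theorem pt_coe (y : ℝ) (hy : 0 < y) (x : ℝ) :
    ((pt y hy x : ℍ) : ℂ) = (x : ℂ) + y * Complex.I := rfl

private theorem pt_cont (y : ℝ) (hy : 0 < y) : Continuous (pt y hy) := by
  rw [UpperHalfPlane.isEmbedding_coe.continuous_iff]
  have : ((fun z : ℍ => (z : ℂ)) ∘ pt y hy) = fun x : ℝ => (x : ℂ) + y * Complex.I := rfl
  rw [this]
  fun_prop

/-- `exp (2 π i n x)` -/
private noncomputable def ee (n : ℕ) (x : ℝ) : ℂ := Complex.exp (2 * Real.pi * Complex.I * n * x)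

private theorem ee_cont (n : ℕ) : Continuous (ee n) := by
  unfold ee
  fun_prop

private theorem ee_norm (n : ℕ) (x : ℝ) : ‖ee n x‖ = 1 := by
  unfold ee
  rw [Complex.norm_exp]
  simp

private theorem ee_int (m n : ℕ) :
    ∫ x in (0:ℝ)..1, ee m x * (starRingEnd ℂ) (ee n x) = if m = n then 1 else 0 := by
  have h1 : ∀ x : ℝ, ee m x * (starRingEnd ℂ) (ee n x) =
      Complex.exp ((2 * Real.pi * Complex.I * ((m : ℂ) - n)) * x) := by
    intro x
    unfold ee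
    rw [← Complex.exp_conj, ← Complex.exp_add]
    congr 1
    simp only [map_mul, Complex.conj_ofReal, Complex.conj_I, map_natCast, map_ofNat]
    ring
  simp_rw [h1]
  split_ifs with h
  · subst h
    simp
  · have hne : (2 * Real.pi * Complex.I * ((m : ℂ) - n)) ≠ 0 := by
      have h2 : (m : ℂ) - n ≠ 0 := by
        rw [sub_ne_zero]
        exact_mod_cast h
      simp [Real.pi_ne_zero, h2]
    rw [integral_exp_mul_complex hne]
    have h3 : Complex.exp ((2 * Real.pi * Complex.I * ((m : ℂ) - n)) * (1 : ℝ)) = 1 := by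
      have := Complex.exp_int_mul_two_pi_mul_I ((m : ℤ) - n)
      rw [← this]
      congr 1
      push_cast
      ring
    rw [h3]
    simp

/-- the coefficient at height `y` -/
private noncomputable def cc (a : ℕ → ℝ) (y : ℝ) (n : ℕ) : ℝ :=
  a n * Real.exp (-(2 * Real.pi * n * y))

private theorem sumF {k : ℕ} {f : ℍ → ℂ} {a : ℕ → ℝ} (h : IsQ k f a) {y : ℝ} (hy : 0 < y)
    (x : ℝ) : HasSum (fun n => (cc a y n : ℂ) * ee n x) (f (pt y hy x)) := by
  have h1 := h.sum (pt y hy x)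
  have h2 : (fun n : ℕ => (a n : ℂ) * Complex.exp (2 * Real.pi * Complex.I * n * (pt y hy x : ℂ))) =
      fun n => (cc a y n : ℂ) * ee n x := by
    funext n
    unfold cc ee
    rw [pt_coe]
    push_cast
    rw [mul_assoc (a n : ℂ), ← Complex.exp_add]
    congr 2
    linear_combination (-(2 * (Real.pi : ℂ) * n * y)) * Complex.I_sq.symm
  rwa [h2] at h1

private theorem sumc {k : ℕ} {f : ℍ → ℂ} {a : ℕ → ℝ} (h : IsQ k f a) {y : ℝ} (hy : 0 < y) :
    Summable (fun n => |cc a y n|) := by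
  have h1 := (sumF h hy 0).summable.norm
  refine h1.congr fun n => ?_
  rw [norm_mul, ee_norm, mul_one, Complex.norm_real, Real.norm_eq_abs]

private theorem interch {k : ℕ} {f : ℍ → ℂ} {a : ℕ → ℝ} (h : IsQ k f a) {y : ℝ} (hy : 0 < y)
    {G : ℝ → ℂ} (hG : Continuous G) {B : ℝ} (hB : ∀ x, ‖G x‖ ≤ B) :
    HasSum (fun n => (cc a y n : ℂ) * ∫ x in (0:ℝ)..1, ee n x * G x)
      (∫ x in (0:ℝ)..1, f (pt y hy x) * G x) := by
  simp only [intervalIntegral.integral_of_le zero_le_one]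
  have hB0 : 0 ≤ B := (norm_nonneg _).trans (hB 0)
  have hint : ∀ n, Integrable (fun x => (cc a y n : ℂ) * ee n x * G x)
      (volume.restrict (Set.Ioc (0:ℝ) 1)) := fun n =>
    (Continuous.integrableOn_Icc (by
      have := ee_cont n
      fun_prop)).mono_set Set.Ioc_subset_Icc_self
  have hn : ∀ n x, ‖(cc a y n : ℂ) * ee n x * G x‖ ≤ |cc a y n| * B := fun n x => by
    rw [norm_mul, norm_mul, ee_norm, mul_one, Complex.norm_real, Real.norm_eq_abs]
    exact mul_le_mul_of_nonneg_left (hB x) (abs_nonneg _)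
  have hs : Summable fun n => ∫ x in Set.Ioc (0:ℝ) 1, ‖(cc a y n : ℂ) * ee n x * G x‖ := by
    refine Summable.of_nonneg_of_le (fun n => by positivity) (fun n => ?_)
      ((sumc h hy).mul_right B)
    have := setIntegral_mono_on (hint n).norm (integrableOn_const (C := |cc a y n| * B)
      (hs := by simp)) measurableSet_Ioc fun x _ => hn n x
    refine this.trans ?_
    simp
  have h1 := hasSum_integral_of_summable_integral_norm hint hs
  have h2 : (fun n => ∫ x in Set.Ioc (0:ℝ) 1, (cc a y n : ℂ) * ee n x * G x) =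
      fun n => (cc a y n : ℂ) * ∫ x in Set.Ioc (0:ℝ) 1, ee n x * G x := by
    funext n
    rw [← integral_const_mul]
    simp only [mul_assoc]
  have h3 : (fun x => ∑' n, (cc a y n : ℂ) * ee n x * G x) =
      fun x => f (pt y hy x) * G x := by
    funext x
    exact ((sumF h hy x).mul_right (G x)).tsum_eq
  rw [h2, h3] at h1
  exact h1

private theorem coeff {k : ℕ} {f : ℍ → ℂ} {a : ℕ → ℝ} (h : IsQ k f a) {y : ℝ} (hy : 0 < y)
    (n : ℕ) : ∫ x in (0:ℝ)..1, f (pt y hy x) * (starRingEnd ℂ) (ee n x) = cc a y n := by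
  have hc : Continuous fun x => (starRingEnd ℂ) (ee n x) :=
    Complex.continuous_conj.comp (ee_cont n)
  have h1 := interch h hy hc (B := 1) fun x => by rw [RCLike.norm_conj, ee_norm]
  refine h1.unique ?_
  have h2 : (fun m => (cc a y m : ℂ) * ∫ x in (0:ℝ)..1, ee m x * (starRingEnd ℂ) (ee n x)) =
      fun m => if m = n then (cc a y n : ℂ) else 0 := by
    funext m
    rw [ee_int]
    split_ifs with hm
    · rw [hm, mul_one]
    · rw [mul_zero]
  rw [h2]
  exact hasSum_ite_eq n _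

private theorem parseval {k : ℕ} {f : ℍ → ℂ} {a : ℕ → ℝ} (h : IsQ k f a) {y : ℝ} (hy : 0 < y) :
    HasSum (fun n => cc a y n ^ 2) (∫ x in (0:ℝ)..1, ‖f (pt y hy x)‖ ^ 2) := by
  obtain ⟨C, hC⟩ := h.bdd
  have hyk : 0 < y ^ ((k : ℝ) / 2) := Real.rpow_pos_of_pos hy _
  have hc : Continuous fun x => (starRingEnd ℂ) (f (pt y hy x)) :=
    Complex.continuous_conj.comp (h.cont.comp (pt_cont y hy))
  have h1 := interch h hy hc (B := C / y ^ ((k : ℝ) / 2)) fun x => by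
    rw [RCLike.norm_conj, le_div_iff₀ hyk]
    have := hC (pt y hy x)
    rwa [pt_im] at this
  have h2 : (fun n => (cc a y n : ℂ) * ∫ x in (0:ℝ)..1, ee n x * (starRingEnd ℂ) (f (pt y hy x))) =
      fun n => ((cc a y n ^ 2 : ℝ) : ℂ) := by
    funext n
    have h3 : ∫ x in (0:ℝ)..1, ee n x * (starRingEnd ℂ) (f (pt y hy x)) =
        (starRingEnd ℂ) (∫ x in (0:ℝ)..1, f (pt y hy x) * (starRingEnd ℂ) (ee n x)) := by
      simp only [intervalIntegral.integral_of_le zero_le_one]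
      rw [← integral_conj]
      congr 1
      funext x
      simp [mul_comm]
    rw [h3, coeff h hy, Complex.conj_ofReal]
    push_cast
    ring
  have h4 : ∫ x in (0:ℝ)..1, f (pt y hy x) * (starRingEnd ℂ) (f (pt y hy x)) =
      ((∫ x in (0:ℝ)..1, ‖f (pt y hy x)‖ ^ 2 : ℝ) : ℂ) := by
    rw [← intervalIntegral.integral_ofReal]
    congr 1
    funext x
    rw [Complex.mul_conj, Complex.normSq_eq_norm_sq]
  rw [h2, h4] at h1
  exact Complex.hasSum_ofReal.1 h1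

/-- **MS** mean square of the coefficients -/
theorem piece_MS {k : ℕ} {f : ℍ → ℂ} {a : ℕ → ℝ} (h : IsQ k f a) :
    ∃ C : ℝ, 0 < C ∧ ∀ X : ℕ, 1 ≤ X → ∑ n ∈ Finset.range (X + 1), a n ^ 2 ≤ C * (X : ℝ) ^ k := by
  obtain ⟨C, hC⟩ := h.bdd
  have hC0 : 0 ≤ C := by
    have := hC (pt 1 one_pos 0)
    refine le_trans ?_ this
    positivity
  refine ⟨Real.exp (4 * Real.pi) * (C ^ 2 + 1), by positivity, ?_⟩
  intro X hX
  have hX0 : (0:ℝ) < X := by exact_mod_cast hX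
  set y : ℝ := 1 / X with hy'
  have hy : 0 < y := by positivity
  have h1 := parseval h hy
  have h2 : ∫ x in (0:ℝ)..1, ‖f (pt y hy x)‖ ^ 2 ≤ C ^ 2 * (X : ℝ) ^ k := by
    have h3 : ∀ x, ‖f (pt y hy x)‖ ^ 2 ≤ C ^ 2 * (X : ℝ) ^ k := by
      intro x
      have h4 := hC (pt y hy x)
      rw [pt_im] at h4
      have hyk : 0 < y ^ ((k : ℝ) / 2) := Real.rpow_pos_of_pos hy _
      have h5 : (y ^ ((k : ℝ) / 2)) ^ 2 * (X : ℝ) ^ k = 1 := by
        rw [← Real.rpow_natCast (y ^ ((k : ℝ) / 2)) 2, ← Real.rpow_mul hy.le]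
        have : (k : ℝ) / 2 * ((2 : ℕ) : ℝ) = (k : ℕ) := by
          push_cast
          ring
        rw [this, Real.rpow_natCast, ← mul_pow, hy', one_div, inv_mul_cancel₀ hX0.ne', one_pow]
      have h6 : (‖f (pt y hy x)‖ * y ^ ((k : ℝ) / 2)) ^ 2 ≤ C ^ 2 :=
        pow_le_pow_left₀ (by positivity) h4 2
      calc ‖f (pt y hy x)‖ ^ 2 = ‖f (pt y hy x)‖ ^ 2 * ((y ^ ((k : ℝ) / 2)) ^ 2 * (X : ℝ) ^ k) := by
            rw [h5, mul_one]
        _ = (‖f (pt y hy x)‖ * y ^ ((k : ℝ) / 2)) ^ 2 * (X : ℝ) ^ k := by ring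
        _ ≤ C ^ 2 * (X : ℝ) ^ k := mul_le_mul_of_nonneg_right h6 (by positivity)
    have hcont : Continuous fun x => ‖f (pt y hy x)‖ ^ 2 :=
      (h.cont.comp (pt_cont y hy)).norm.pow 2
    have h4 := intervalIntegral.integral_mono_on zero_le_one
      (hcont.intervalIntegrable (μ := volume) 0 1)
      (continuous_const.intervalIntegrable (μ := volume) 0 1) fun x _ => h3 x
    simpa using h4
  have h3 : ∑ n ∈ Finset.range (X + 1), cc a y n ^ 2 ≤ C ^ 2 * (X : ℝ) ^ k :=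
    (sum_le_hasSum _ (fun n _ => sq_nonneg _) h1).trans h2
  have h4 : ∀ n ∈ Finset.range (X + 1), a n ^ 2 ≤ Real.exp (4 * Real.pi) * cc a y n ^ 2 := by
    intro n hn
    have hn' : (n : ℝ) ≤ X := by
      have := Finset.mem_range.1 hn
      exact_mod_cast Nat.lt_succ_iff.1 this
    unfold cc
    rw [mul_pow, ← Real.exp_nat_mul]
    have h5 : 1 ≤ Real.exp (4 * Real.pi) * Real.exp (((2 : ℕ) : ℝ) * -(2 * Real.pi * n * y)) := by
      rw [← Real.exp_add]
      apply Real.one_le_exp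
      have h6 : (n : ℝ) * y ≤ 1 := by
        rw [hy', mul_one_div, div_le_one hX0]
        exact hn'
      have := Real.pi_pos
      push_cast
      nlinarith
    nlinarith [sq_nonneg (a n)]
  calc ∑ n ∈ Finset.range (X + 1), a n ^ 2
      ≤ ∑ n ∈ Finset.range (X + 1), Real.exp (4 * Real.pi) * cc a y n ^ 2 := Finset.sum_le_sum h4
    _ = Real.exp (4 * Real.pi) * ∑ n ∈ Finset.range (X + 1), cc a y n ^ 2 := by
        rw [Finset.mul_sum]
    _ ≤ Real.exp (4 * Real.pi) * (C ^ 2 * (X : ℝ) ^ k) :=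
        mul_le_mul_of_nonneg_left h3 (by positivity)
    _ ≤ Real.exp (4 * Real.pi) * (C ^ 2 + 1) * (X : ℝ) ^ k := by
        have : 0 ≤ Real.exp (4 * Real.pi) * (X : ℝ) ^ k := by positivity
        nlinarith

/-- Hecke's bound -/
theorem hecke_bound {k : ℕ} {f : ℍ → ℂ} {a : ℕ → ℝ} (h : IsQ k f a) :
    ∃ C : ℝ, 0 < C ∧ ∀ n : ℕ, |a n| ≤ C * (n : ℝ) ^ ((k : ℝ) / 2) := by
  obtain ⟨C, hC0, hC⟩ := piece_MS h
  refine ⟨Real.sqrt C, Real.sqrt_pos.2 hC0, ?_⟩
  intro n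
  rcases Nat.eq_zero_or_pos n with hn | hn
  · subst hn
    rw [h.zero, abs_zero]
    positivity
  · have hn0 : (0:ℝ) < n := by exact_mod_cast hn
    have h1 : a n ^ 2 ≤ C * (n : ℝ) ^ k :=
      (Finset.single_le_sum (f := fun n => a n ^ 2) (fun m _ => sq_nonneg _)
        (Finset.mem_range.2 (Nat.lt_succ_self n))).trans (hC n hn)
    have h2 : Real.sqrt C * (n : ℝ) ^ ((k : ℝ) / 2) = Real.sqrt (C * (n : ℝ) ^ k) := by
      rw [Real.sqrt_mul hC0.le]
      congr 1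
      rw [Real.sqrt_eq_rpow, ← Real.rpow_natCast (n : ℝ) k, ← Real.rpow_mul hn0.le]
      congr 1
      ring
    rw [h2]
    exact Real.abs_le_sqrt h1

/-- the bound at the bad primes -/
theorem bad_bound {N k : ℕ} {f : ℍ → ℂ} {a : ℕ → ℝ} (h : IsQ k f a) (hs : HeckeSeq N k a)
    {p : ℕ} (hp : p.Prime) (hpN : p ∣ N) : |a p| ≤ (p : ℝ) ^ ((k : ℝ) / 2) := by
  obtain ⟨C, hC0, hC⟩ := hecke_bound h
  have hp0 : (0:ℝ) < p := by exact_mod_cast hp.pos
  have hpow : ∀ r : ℕ, a (p ^ r) = a p ^ r := by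
    intro r
    induction r with
    | zero => simpa using hs.one
    | succ r ih => rw [hs.bad p hp hpN r, ih, pow_succ, mul_comm]
  set b : ℝ := (p : ℝ) ^ ((k : ℝ) / 2) with hb
  have hb0 : 0 < b := Real.rpow_pos_of_pos hp0 _
  by_contra hcon
  push Not at hcon
  have h1 : ∀ r : ℕ, (|a p| / b) ^ r ≤ C := by
    intro r
    have h2 := hC (p ^ r)
    rw [hpow, abs_pow] at h2
    have h3 : (((p ^ r : ℕ) : ℝ)) ^ ((k : ℝ) / 2) = b ^ r := by
      rw [hb, Nat.cast_pow, ← Real.rpow_natCast ((p : ℝ) ^ ((k : ℝ) / 2)) r,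
        ← Real.rpow_natCast (p : ℝ) r, ← Real.rpow_mul hp0.le, ← Real.rpow_mul hp0.le, mul_comm]
    rw [h3] at h2
    rw [div_pow, div_le_iff₀ (by positivity)]
    exact h2
  have h2 : 1 < |a p| / b := by rwa [one_lt_div hb0]
  obtain ⟨r, hr⟩ := pow_unbounded_of_one_lt C h2
  exact absurd (h1 r) (not_le.2 hr)

private theorem MS_bern {x q : ℝ} (hx : 0 ≤ x) (hq : 0 ≤ q) : 1 - q * x ≤ (1 + x) ^ (-q) := by
  have h1 : 0 < 1 + x := by linarith
  have h2 : (1 + x) ^ (-q) = Real.exp (Real.log (1 + x) * -q) := Real.rpow_def_of_pos h1 _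
  have h3 : Real.log (1 + x) ≤ x := by
    have := Real.log_le_sub_one_of_pos h1
    linarith
  have h4 : Real.log (1 + x) * -q ≥ -(q * x) := by nlinarith
  have h5 := Real.add_one_le_exp (Real.log (1 + x) * -q)
  rw [h2]
  linarith

private theorem MS_diff {m : ℕ} (hm : 1 ≤ m) {q : ℝ} (hq : 0 ≤ q) :
    (m : ℝ) ^ (-q) - ((m + 1 : ℕ) : ℝ) ^ (-q) ≤ q * (m : ℝ) ^ (-q - 1) := by
  have hm0 : (0:ℝ) < m := by exact_mod_cast hm
  have h1 : ((m + 1 : ℕ) : ℝ) = m * (1 + 1 / m) := by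
    push_cast
    field_simp
  have h2 := MS_bern (x := 1 / (m : ℝ)) (by positivity) hq
  have h3 : 0 < (m : ℝ) ^ (-q) := Real.rpow_pos_of_pos hm0 _
  rw [h1, Real.mul_rpow hm0.le (by positivity)]
  have h4 : (m : ℝ) ^ (-q - 1) = (m : ℝ) ^ (-q) * (1 / m) := by
    rw [Real.rpow_sub_one hm0.ne']
    ring
  rw [h4]
  nlinarith

private theorem MS_tel {m : ℕ} (hm : 1 ≤ m) {t : ℝ} (ht : 0 < t) :
    t * ((m + 1 : ℕ) : ℝ) ^ (-(t + 1)) ≤ (m : ℝ) ^ (-t) - ((m + 1 : ℕ) : ℝ) ^ (-t) := by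
  have hm0 : (0:ℝ) < m := by exact_mod_cast hm
  set M : ℝ := ((m + 1 : ℕ) : ℝ) with hM
  have hM0 : 0 < M := by
    rw [hM]
    positivity
  have h1 : (m : ℝ) = M * (m / M) := by field_simp
  have h2 : 0 < (m : ℝ) / M := by positivity
  have h3 : 1 + t * (1 / M) ≤ ((m : ℝ) / M) ^ (-t) := by
    rw [Real.rpow_def_of_pos h2]
    have h4 : Real.log ((m : ℝ) / M) ≤ -(1 / M) := by
      have := Real.log_le_sub_one_of_pos h2
      have h5 : (m : ℝ) / M - 1 = -(1 / M) := by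
        rw [hM]
        push_cast
        field_simp
        ring
      linarith
    have h6 := Real.add_one_le_exp (Real.log ((m : ℝ) / M) * -t)
    nlinarith
  have h7 : 0 < M ^ (-t) := Real.rpow_pos_of_pos hM0 _
  have h8 : M ^ (-(t + 1)) = M ^ (-t) * (1 / M) := by
    rw [show -(t + 1) = -t - 1 by ring, Real.rpow_sub_one hM0.ne']
    ring
  have h9 : (m : ℝ) ^ (-t) = M ^ (-t) * ((m : ℝ) / M) ^ (-t) := by
    rw [← Real.mul_rpow hM0.le h2.le, ← h1]
  rw [h8, h9]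
  nlinarith

private theorem MS_zeta {s : ℝ} (hs : 1 < s) (X : ℕ) :
    ∑ m ∈ Finset.range X, ((m + 1 : ℕ) : ℝ) ^ (-s) ≤ s / (s - 1) := by
  have ht : 0 < s - 1 := by linarith
  have key : ∀ X : ℕ, (s - 1) * ∑ m ∈ Finset.range (X + 1), ((m + 1 : ℕ) : ℝ) ^ (-s) ≤
      s - ((X + 1 : ℕ) : ℝ) ^ (-(s - 1)) := by
    intro X
    induction X with
    | zero => simp
    | succ X ih =>
      rw [Finset.sum_range_succ, mul_add]
      have h1 := MS_tel (m := X + 1) (by omega) ht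
      have h2 : -((s - 1) + 1) = -s := by ring
      rw [h2] at h1
      linarith
  rcases X with _ | X
  · simp only [Finset.range_zero, Finset.sum_empty]
    have : 0 < s := by linarith
    positivity
  · have h1 := key X
    rw [le_div_iff₀ ht]
    have h2 : 0 < ((X + 1 : ℕ) : ℝ) ^ (-(s - 1)) := Real.rpow_pos_of_pos (by positivity) _
    linarith

/-- **MS** -/
theorem p_MS : S_MS := by
  intro _ k f a hk h
  obtain ⟨C, hC0, hC⟩ := piece_MS h
  refine ⟨C + 2 * C * (k + 1), by positivity, ?_⟩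
  intro s hs hs2
  set q : ℝ := s + k - 1 with hq
  have hk0 : (2:ℝ) ≤ k := by exact_mod_cast hk
  have hq0 : 0 ≤ q := by
    rw [hq]
    linarith
  have hqk : q ≤ k + 1 := by
    rw [hq]
    linarith
  set A : ℕ → ℝ := fun X => ∑ n ∈ Finset.range (X + 1), a n ^ 2 with hA
  have hA0 : ∀ X, 0 ≤ A X := fun X => Finset.sum_nonneg fun n _ => sq_nonneg _
  -- summation by parts
  have habel : ∀ X : ℕ, ∑ n ∈ Finset.range (X + 2), a n ^ 2 * (n : ℝ) ^ (-q) =
      A (X + 1) * ((X + 1 : ℕ) : ℝ) ^ (-q) + ∑ m ∈ Finset.range X, A (m + 1) *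
        (((m + 1 : ℕ) : ℝ) ^ (-q) - ((m + 1 + 1 : ℕ) : ℝ) ^ (-q)) := by
    intro X
    induction X with
    | zero =>
      simp only [hA, Finset.sum_range_succ, Finset.range_zero, Finset.sum_empty, h.zero]
      simp
    | succ X ih =>
      rw [Finset.sum_range_succ, ih, Finset.sum_range_succ (fun m => A (m + 1) *
        (((m + 1 : ℕ) : ℝ) ^ (-q) - ((m + 1 + 1 : ℕ) : ℝ) ^ (-q))) X]
      have h1 : A (X + 1 + 1) = A (X + 1) + a (X + 2) ^ 2 := by
        simp only [hA]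
        rw [Finset.sum_range_succ _ (X + 1 + 1)]
      rw [h1]
      ring
  have hbd : ∀ X : ℕ, ∑ n ∈ Finset.range X, a n ^ 2 * (n : ℝ) ^ (-q) ≤
      (C + 2 * C * (k + 1)) / (s - 1) := by
    intro X
    have hmono : ∑ n ∈ Finset.range X, a n ^ 2 * (n : ℝ) ^ (-q) ≤
        ∑ n ∈ Finset.range (X + 2), a n ^ 2 * (n : ℝ) ^ (-q) :=
      Finset.sum_le_sum_of_subset_of_nonneg (Finset.range_mono (by omega))
        fun n _ _ => by positivity
    refine hmono.trans ?_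
    rw [habel]
    have h1 : A (X + 1) * ((X + 1 : ℕ) : ℝ) ^ (-q) ≤ C := by
      have hX0 : (0:ℝ) < ((X + 1 : ℕ) : ℝ) := by positivity
      have h2 : A (X + 1) ≤ C * ((X + 1 : ℕ) : ℝ) ^ k := hC (X + 1) (by omega)
      have h3 : 0 < ((X + 1 : ℕ) : ℝ) ^ (-q) := Real.rpow_pos_of_pos hX0 _
      have h4 : ((X + 1 : ℕ) : ℝ) ^ k * ((X + 1 : ℕ) : ℝ) ^ (-q) ≤ 1 := by
        rw [← Real.rpow_natCast ((X + 1 : ℕ) : ℝ) k, ← Real.rpow_add hX0]
        refine Real.rpow_le_one_of_one_le_of_nonpos ?_ ?_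
        · push_cast
          have : (0:ℝ) ≤ X := Nat.cast_nonneg X
          linarith
        · rw [hq]
          linarith
      calc A (X + 1) * ((X + 1 : ℕ) : ℝ) ^ (-q)
          ≤ C * ((X + 1 : ℕ) : ℝ) ^ k * ((X + 1 : ℕ) : ℝ) ^ (-q) :=
            mul_le_mul_of_nonneg_right h2 h3.le
        _ = C * (((X + 1 : ℕ) : ℝ) ^ k * ((X + 1 : ℕ) : ℝ) ^ (-q)) := by ring
        _ ≤ C * 1 := mul_le_mul_of_nonneg_left h4 hC0.le
        _ = C := mul_one C
    have h2 : ∑ m ∈ Finset.range X, A (m + 1) *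
        (((m + 1 : ℕ) : ℝ) ^ (-q) - ((m + 1 + 1 : ℕ) : ℝ) ^ (-q)) ≤
        C * q * ∑ m ∈ Finset.range X, ((m + 1 : ℕ) : ℝ) ^ (-s) := by
      rw [Finset.mul_sum]
      refine Finset.sum_le_sum fun m _ => ?_
      have hm0 : (0:ℝ) < ((m + 1 : ℕ) : ℝ) := by positivity
      have h3 := MS_diff (m := m + 1) (by omega) hq0
      have h4 : A (m + 1) ≤ C * ((m + 1 : ℕ) : ℝ) ^ k := hC (m + 1) (by omega)
      have h5 : ((m + 1 : ℕ) : ℝ) ^ k * ((m + 1 : ℕ) : ℝ) ^ (-q - 1) = ((m + 1 : ℕ) : ℝ) ^ (-s) := by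
        rw [← Real.rpow_natCast ((m + 1 : ℕ) : ℝ) k, ← Real.rpow_add hm0]
        congr 1
        rw [hq]
        ring
      have h6 : 0 < ((m + 1 : ℕ) : ℝ) ^ (-q - 1) := Real.rpow_pos_of_pos hm0 _
      calc A (m + 1) * (((m + 1 : ℕ) : ℝ) ^ (-q) - ((m + 1 + 1 : ℕ) : ℝ) ^ (-q))
          ≤ A (m + 1) * (q * ((m + 1 : ℕ) : ℝ) ^ (-q - 1)) :=
            mul_le_mul_of_nonneg_left h3 (hA0 _)
        _ ≤ C * ((m + 1 : ℕ) : ℝ) ^ k * (q * ((m + 1 : ℕ) : ℝ) ^ (-q - 1)) :=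
            mul_le_mul_of_nonneg_right h4 (by positivity)
        _ = C * q * (((m + 1 : ℕ) : ℝ) ^ k * ((m + 1 : ℕ) : ℝ) ^ (-q - 1)) := by ring
        _ = C * q * ((m + 1 : ℕ) : ℝ) ^ (-s) := by rw [h5]
    have h3 := MS_zeta hs X
    have ht : 0 < s - 1 := by linarith
    rw [le_div_iff₀ ht]
    have h4 : (∑ m ∈ Finset.range X, ((m + 1 : ℕ) : ℝ) ^ (-s)) * (s - 1) ≤ s := by
      rwa [le_div_iff₀ ht] at h3
    have h5 : C * (s - 1) ≤ C := by nlinarith
    have h6 : C * q * (∑ m ∈ Finset.range X, ((m + 1 : ℕ) : ℝ) ^ (-s)) * (s - 1) ≤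
        2 * C * (k + 1) := by
      have e1 : 0 ≤ C * q := by positivity
      calc C * q * (∑ m ∈ Finset.range X, ((m + 1 : ℕ) : ℝ) ^ (-s)) * (s - 1)
          = C * q * ((∑ m ∈ Finset.range X, ((m + 1 : ℕ) : ℝ) ^ (-s)) * (s - 1)) := by ring
        _ ≤ C * q * s := mul_le_mul_of_nonneg_left h4 e1
        _ ≤ C * q * 2 := mul_le_mul_of_nonneg_left hs2 e1
        _ ≤ C * (k + 1) * 2 := by
            have := mul_le_mul_of_nonneg_left hqk hC0.le
            nlinarith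
        _ = 2 * C * (k + 1) := by ring
    have h7 := mul_le_mul_of_nonneg_right h2 ht.le
    have h8 := mul_le_mul_of_nonneg_right h1 ht.le
    nlinarith
  have hnn : ∀ n : ℕ, 0 ≤ a n ^ 2 * (n : ℝ) ^ (-q) := fun n => by positivity
  exact ⟨summable_of_sum_range_le hnn hbd, Real.tsum_le_of_sum_range_le hnn hbd⟩

end Pool.Agent.Lib.MP_058a58_ag.MT
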