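import Pool.Agent.Lib.MP_058a58_ag.MT.Stm2

set_option autoImplicit false

/-!
# Orthogonality
-/

open UpperHalfPlane MeasureTheory Filter Topology
open scoped MatrixGroups Modular ComplexConjugate

namespace Pool.Agent.Lib.MP_058a58_ag.MT

/-- Elements of `SL(2, ℤ)` preserve the measure. -/
theorem OR_mp (γ : SL(2, ℤ)) : MeasurePreserving (fun z : ℍ => γ • z) volume volume :=
  measurePreserving_smul (Matrix.SpecialLinearGroup.toGL
    (Matrix.SpecialLinearGroup.map (algebraMap ℤ ℝ) γ)) (volume : Measure ℍ)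

theorem OR_count (H : Subgroup SL(2, ℤ)) : Countable H := by
  have h1 : Countable (Matrix (Fin 2) (Fin 2) ℤ) := inferInstanceAs (Countable (Fin 2 → Fin 2 → ℤ))
  have h2 : Countable SL(2, ℤ) := Subtype.countable
  exact Subtype.countable

/-- A weighted bounded continuous function is integrable. -/
theorem OR_int (hV : S_VOL) (M : ℕ) (R : Finset SL(2, ℤ)) (w : ℍ → ℝ) (hw : PWt M R w)
    (F : ℍ → ℂ) (hF : Continuous F) (C : ℝ) (hC : ∀ z, ‖F z‖ ≤ C) :
    Integrable (fun z => (w z : ℂ) * F z) := by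
  have hmeas : AEStronglyMeasurable (fun z => (w z : ℂ) * F z) volume :=
    ((Complex.measurable_ofReal.comp hw.meas).mul hF.measurable).aestronglyMeasurable
  have hA : volume (⋃ δ ∈ R, (fun z : ℍ => δ • z) ⁻¹' (𝒟 : Set ℍ)) ≠ ⊤ := by
    refine (lt_of_le_of_lt (measure_biUnion_finset_le R _) ?_).ne
    refine ENNReal.sum_lt_top.2 ?_
    intro δ _
    have h1 : volume ((fun z : ℍ => δ • z) ⁻¹' (𝒟 : Set ℍ)) = volume (𝒟 : Set ℍ) :=
      measure_preimage_smul (μ := (volume : Measure ℍ)) (Matrix.SpecialLinearGroup.toGL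
        (Matrix.SpecialLinearGroup.map (algebraMap ℤ ℝ) δ)) (𝒟 : Set ℍ)
    rw [h1]
    exact hV.2
  have h1 : IntegrableOn (fun z => (w z : ℂ) * F z)
      (⋃ δ ∈ R, (fun z : ℍ => δ • z) ⁻¹' (𝒟 : Set ℍ)) volume := by
    refine Measure.integrableOn_of_bounded (M := C) hA hmeas (Eventually.of_forall ?_)
    intro z
    rw [norm_mul, Complex.norm_real, Real.norm_of_nonneg (hw.nn z)]
    calc w z * ‖F z‖ ≤ 1 * ‖F z‖ := mul_le_mul_of_nonneg_right (hw.le z) (norm_nonneg _)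
      _ ≤ C := by rw [one_mul]; exact hC z
  refine (integrableOn_iff_integrable_of_support_subset ?_).1 h1
  intro z hz
  have hz' : w z ≠ 0 := by
    intro h
    apply hz
    simp [h]
  obtain ⟨δ, hδ, hδz⟩ := hw.supp z hz'
  simp only [Set.mem_iUnion, Set.mem_preimage]
  exact ⟨δ, hδ, hδz⟩

theorem p_OR : S_OR := by
  intro hWN1 hWN2 hAU hV hHI hUP N N' k p hp f g a b R w hpp hN hN' hpN hf hg hw
  obtain ⟨hFc, ⟨C, hFC⟩, hFinv⟩ := hHI hUP N N' k p hp f g a b hf hg
  -- Bezout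
  have hcop : IsCoprime (p : ℤ) ((N * N' : ℕ) : ℤ) := by
    rw [Nat.isCoprime_iff_coprime]
    exact (Nat.Prime.coprime_iff_not_dvd hpp).2 hpN
  obtain ⟨v, y', hvy⟩ := hcop
  have hBez : (p : ℤ) * v - (N * N' : ℕ) * (-y') = 1 := by
    rw [← hvy]; ring
  set y : ℤ := -y' with hy
  have hW1 := hWN1 N N' k p hp y v hBez f g a b hf hg
  obtain ⟨e, he⟩ := hWN2 (N * N') p hp y v hBez
  set W : GL (Fin 2) ℝ := Wm (N * N') p y v hp hBez with hWdef
  have hFi := OR_int hV _ R w hw (Fp p hp k f g) hFc C hFC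
  have hWmp : MeasurePreserving (fun z : ℍ => W • z) volume volume :=
    measurePreserving_smul W (volume : Measure ℍ)
  have hW' : ∀ z : ℍ, (w (W • z) : ℂ) * Fp p hp k f g z =
      -((w (W • z) : ℂ) * Fp p hp k f g (W • z)) := by
    intro z
    rw [hW1 z]
    ring
  have hWi : Integrable (fun z : ℍ => (w (W • z) : ℂ) * Fp p hp k f g z) := by
    simp_rw [hW']
    exact (hWmp.integrable_comp_of_integrable hFi).neg
  have hWint : ∫ z : ℍ, (w (W • z) : ℂ) * Fp p hp k f g z =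
      -∫ z : ℍ, (w z : ℂ) * Fp p hp k f g z := by
    simp_rw [hW']
    rw [integral_neg]
    congr 1
    exact integral_smul_eq_self (μ := (volume : Measure ℍ))
      (fun z => (w z : ℂ) * Fp p hp k f g z) (g := W)
  have hsum : ∀ z : ℍ, HasSum (fun γ : CongruenceSubgroup.Gamma0 (N * N' * p) =>
      w (W • ((γ : SL(2, ℤ)) • z))) 1 := by
    intro z
    have h1 := (Equiv.hasSum_iff e).2 (hw.sum (W • z))
    have h2 : (fun γ : CongruenceSubgroup.Gamma0 (N * N' * p) => w (W • ((γ : SL(2, ℤ)) • z))) =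
        (fun γ : CongruenceSubgroup.Gamma0 (N * N' * p) => w ((γ : SL(2, ℤ)) • (W • z))) ∘ e := by
      funext γ
      change w (W • ((γ : SL(2, ℤ)) • z)) = w ((e γ : SL(2, ℤ)) • (W • z))
      rw [he γ z]
    rw [h2]
    exact h1
  have hcount : Countable (CongruenceSubgroup.Gamma0 (N * N' * p)) := OR_count _
  have hAU' := hAU (CongruenceSubgroup.Gamma0 (N * N' * p)) ℍ volume (fun γ => OR_mp γ) w hw.meas
    hw.nn hw.sum (fun z : ℍ => (w (W • z) : ℂ) * Fp p hp k f g z) hWi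
  have hinner : ∀ z : ℍ, ∑' γ : CongruenceSubgroup.Gamma0 (N * N' * p),
      (w (W • (γ • z)) : ℂ) * Fp p hp k f g (γ • z) = Fp p hp k f g z := by
    intro z
    have h1 : ∀ γ : CongruenceSubgroup.Gamma0 (N * N' * p),
        (w (W • (γ • z)) : ℂ) * Fp p hp k f g (γ • z) =
          ((w (W • ((γ : SL(2, ℤ)) • z)) : ℝ) : ℂ) * Fp p hp k f g z := by
      intro γ
      have h2 := hFinv γ γ.2 z
      change (w (W • ((γ : SL(2, ℤ)) • z)) : ℂ) * Fp p hp k f g ((γ : SL(2, ℤ)) • z) = _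
      rw [h2]
    simp_rw [h1]
    rw [tsum_mul_right]
    have h3 := (Complex.hasSum_ofReal.2 (hsum z)).tsum_eq
    rw [h3]
    simp
  have h4 := hAU'.2
  simp_rw [hinner] at h4
  rw [hWint] at h4
  have h5 : (2 : ℂ) * ∫ z : ℍ, (w z : ℂ) * Fp p hp k f g z = 0 := by
    linear_combination -h4
  simpa using h5

end Pool.Agent.Lib.MP_058a58_ag.MT
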