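import Pool.Agent.Lib.MP_058a58_ag.MT.Stm

/-! Piece `PB` of project MT (helper16): simple properties of the test function. -/

set_option autoImplicit false

open UpperHalfPlane MeasureTheory Filter Topology
open scoped MatrixGroups Modular

namespace Pool.Agent.Lib.MP_058a58_ag.MT

theorem PB_pow (l : ℕ) (v : ℂ) : (‖v‖ ^ 2) ^ ((l : ℝ) / 2) = ‖v‖ ^ l := by
  rw [← Real.rpow_natCast ‖v‖ 2, ← Real.rpow_mul (norm_nonneg v), ← Real.rpow_natCast ‖v‖ l]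
  congr 1
  push_cast
  ring

theorem PB_c (l : ℕ) (s : ℝ) (v : ℂ) (hv : v ≠ 0) :
    phi l s v = (v / ‖v‖) ^ l * (hh l s (‖v‖ ^ 2)⁻¹ : ℂ) := by
  have hn : 0 < ‖v‖ := norm_pos_iff.2 hv
  have hT : 0 < ‖v‖ ^ 2 := by positivity
  have h1 : (‖v‖ ^ 2) ^ ((l : ℝ) / 2 + 4 - s) =
      (‖v‖ ^ 2) ^ (-s) * (‖v‖ ^ 2) ^ (l + 4) / ‖v‖ ^ l := by
    rw [← PB_pow l v, ← Real.rpow_natCast (‖v‖ ^ 2) (l + 4), ← Real.rpow_add hT,
      ← Real.rpow_sub hT]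
    congr 1
    push_cast
    ring
  have h2 : hh l s (‖v‖ ^ 2)⁻¹ =
      (‖v‖ ^ 2) ^ (-s) * (‖v‖ ^ 2) ^ (l + 4) / (1 + ‖v‖ ^ 2) ^ (l + 4) := by
    have h3 : 1 + (‖v‖ ^ 2)⁻¹ = (1 + ‖v‖ ^ 2) / ‖v‖ ^ 2 := by
      field_simp
      ring
    rw [hh, Real.inv_rpow hT.le, ← Real.rpow_neg hT.le, h3, div_pow, div_div_eq_mul_div]
  have h4 : (v / ‖v‖) ^ l = v ^ l / ((‖v‖ ^ l : ℝ) : ℂ) := by
    rw [div_pow]
    push_cast
    rfl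
  have h5 : (‖v‖ ^ l : ℝ) ≠ 0 := by positivity
  have h6 : ((‖v‖ ^ l : ℝ) : ℂ) ≠ 0 := by exact_mod_cast h5
  rw [phi, h1, h2, h4]
  have h7 : (‖v‖ ^ 2) ^ (-s) * (‖v‖ ^ 2) ^ (l + 4) / ‖v‖ ^ l / (1 + ‖v‖ ^ 2) ^ (l + 4) =
      (‖v‖ ^ 2) ^ (-s) * (‖v‖ ^ 2) ^ (l + 4) / (1 + ‖v‖ ^ 2) ^ (l + 4) / ‖v‖ ^ l := by
    rw [div_right_comm]
  rw [h7, Complex.ofReal_div _ (‖v‖ ^ l)]
  field_simp

theorem PB_d (l : ℕ) (s : ℝ) (hs : s ≤ 2) (v : ℂ) :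
    ‖phi l s v‖ ≤ (1 + ‖v‖ ^ 2) ^ (-s) := by
  have hT : 0 ≤ ‖v‖ ^ 2 := by positivity
  have h1T : 0 < 1 + ‖v‖ ^ 2 := by positivity
  have hl : (0 : ℝ) ≤ l := Nat.cast_nonneg l
  have h0 : 0 ≤ (‖v‖ ^ 2) ^ ((l : ℝ) / 2 + 4 - s) / (1 + ‖v‖ ^ 2) ^ (l + 4) := by positivity
  rw [phi, norm_mul, norm_pow, Complex.norm_real, Real.norm_of_nonneg h0, ← PB_pow l v]
  have h2 : (1 + ‖v‖ ^ 2) ^ (-s) = (1 + ‖v‖ ^ 2) ^ ((l : ℝ) / 2) *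
      ((1 + ‖v‖ ^ 2) ^ ((l : ℝ) / 2 + 4 - s) / (1 + ‖v‖ ^ 2) ^ (l + 4)) := by
    rw [← Real.rpow_natCast (1 + ‖v‖ ^ 2) (l + 4), ← Real.rpow_sub h1T, ← Real.rpow_add h1T]
    congr 1
    push_cast
    ring
  rw [h2]
  apply mul_le_mul
  · exact Real.rpow_le_rpow hT (by linarith) (by positivity)
  · apply div_le_div_of_nonneg_right _ (by positivity)
    exact Real.rpow_le_rpow hT (by linarith) (by linarith)
  · exact h0
  · positivity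

theorem p_PB : S_PB := by
  intro l s hs1 hs2
  have hl : (0 : ℝ) ≤ l := Nat.cast_nonneg l
  have hB : 0 < (l : ℝ) / 2 + 4 - s := by linarith
  refine ⟨?_, ?_, PB_c l s, PB_d l s hs2, ?_, ?_, ?_⟩
  · rw [phi, norm_zero, zero_pow two_ne_zero, Real.zero_rpow hB.ne', zero_div,
      Complex.ofReal_zero, mul_zero]
  · unfold phi
    refine (continuous_id.pow l).mul (Complex.continuous_ofReal.comp ?_)
    refine Continuous.div ?_ ?_ ?_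
    · exact (Real.continuous_rpow_const hB.le).comp (continuous_norm.pow 2)
    · exact (continuous_const.add (continuous_norm.pow 2)).pow _
    · intro v
      positivity
  · intro ξ η
    refine (PB_d l s hs2 _).trans ?_
    have h1 : ‖(ξ : ℂ) + η * Complex.I‖ ^ 2 = ξ ^ 2 + η ^ 2 := by
      rw [Complex.sq_norm, Complex.normSq_add_mul_I]
    rw [h1]
    have h2 : (0 : ℝ) < (1 + ξ ^ 2) * (1 + η ^ 2) := by positivity
    have h3 : (1 + ξ ^ 2) * (1 + η ^ 2) ≤ (1 + (ξ ^ 2 + η ^ 2)) ^ 2 := by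
      nlinarith [sq_nonneg ξ, sq_nonneg η, mul_nonneg (sq_nonneg ξ) (sq_nonneg η)]
    have h4 : (1 + (ξ ^ 2 + η ^ 2)) ^ (-s) = ((1 + (ξ ^ 2 + η ^ 2)) ^ 2) ^ (-s / 2) := by
      rw [← Real.rpow_natCast (1 + (ξ ^ 2 + η ^ 2)) 2, ← Real.rpow_mul (by positivity)]
      congr 1
      push_cast
      ring
    rw [h4, ← Real.mul_rpow (by positivity) (by positivity)]
    exact Real.rpow_le_rpow_of_nonpos h2 h3 (by linarith)
  · intro u v hu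
    rw [phi, phi, norm_mul, hu, one_mul, mul_pow]
    ring
  · intro v n hn hv
    have hn0 : (0 : ℝ) < n := by exact_mod_cast hn
    have hnC : (n : ℂ) ≠ 0 := by exact_mod_cast hn0.ne'
    have hnv : 0 < ‖v‖ := norm_pos_iff.2 hv
    have hvC : ((‖v‖ : ℝ) : ℂ) ≠ 0 := by exact_mod_cast hnv.ne'
    rw [PB_c l s _ (mul_ne_zero hnC hv)]
    have h1 : ‖(n : ℂ) * v‖ = n * ‖v‖ := by
      rw [norm_mul, Complex.norm_natCast]
    rw [h1]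
    have h2 : (n : ℂ) * v / ((n * ‖v‖ : ℝ) : ℂ) = v / ‖v‖ := by
      push_cast
      field_simp
    have h3 : ((n * ‖v‖) ^ 2)⁻¹ = (‖v‖ ^ 2)⁻¹ / (n : ℝ) ^ 2 := by
      field_simp
    rw [h2, h3]

end Pool.Agent.Lib.MP_058a58_ag.MT
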