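import Pool.Agent.Lib.MP_058a58_ag.MT.Stm2

set_option autoImplicit false

/-!
# Parseval on horizontal lines
-/

open UpperHalfPlane MeasureTheory Filter Topology
open scoped MatrixGroups Modular ComplexConjugate

namespace Pool.Agent.Lib.MP_058a58_ag.MT

/-- `x + i y` -/
private noncomputable def pt (y : ℝ) (hy : 0 < y) (x : ℝ) : ℍ := ⟨(x : ℂ) + y * Complex.I, by
  simpa using hy⟩

private theorem pt_im (y : ℝ) (hy : 0 < y) (x : ℝ) : (pt y hy x).im = y := by
  simp [pt, UpperHalfPlane.im]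

private theorem pt_coe (y : ℝ) (hy : 0 < y) (x : ℝ) :
    ((pt y hy x : ℍ) : ℂ) = (x : ℂ) + y * Complex.I := rfl

private theorem pt_cont (y : ℝ) (hy : 0 < y) : Continuous (pt y hy) := by
  rw [UpperHalfPlane.isEmbedding_coe.continuous_iff]
  have : ((fun z : ℍ => (z : ℂ)) ∘ pt y hy) = fun x : ℝ => (x : ℂ) + y * Complex.I := rfl
  rw [this]
  fun_prop

/-- `exp (2 π i n x)` -/
private noncomputable def ee (n : ℕ) (x : ℝ) : ℂ := Complex.exp (2 * Real.pi * Complex.I * n * x)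

private theorem ee_cont (n : ℕ) : Continuous (ee n) := by
  unfold ee
  fun_prop

private theorem ee_norm (n : ℕ) (x : ℝ) : ‖ee n x‖ = 1 := by
  unfold ee
  rw [Complex.norm_exp]
  simp

private theorem ee_int (m n : ℕ) :
    ∫ x in (0:ℝ)..1, ee m x * (starRingEnd ℂ) (ee n x) = if m = n then 1 else 0 := by
  have h1 : ∀ x : ℝ, ee m x * (starRingEnd ℂ) (ee n x) =
      Complex.exp ((2 * Real.pi * Complex.I * ((m : ℂ) - n)) * x) := by
    intro x
    unfold ee
    rw [← Complex.exp_conj, ← Complex.exp_add]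
    congr 1
    simp only [map_mul, Complex.conj_ofReal, Complex.conj_I, map_natCast, map_ofNat]
    ring
  simp_rw [h1]
  split_ifs with h
  · subst h
    simp
  · have hne : (2 * Real.pi * Complex.I * ((m : ℂ) - n)) ≠ 0 := by
      have h2 : (m : ℂ) - n ≠ 0 := by
        rw [sub_ne_zero]
        exact_mod_cast h
      simp [Real.pi_ne_zero, h2]
    rw [integral_exp_mul_complex hne]
    have h3 : Complex.exp ((2 * Real.pi * Complex.I * ((m : ℂ) - n)) * (1 : ℝ)) = 1 := by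
      have := Complex.exp_int_mul_two_pi_mul_I ((m : ℤ) - n)
      rw [← this]
      congr 1
      push_cast
      ring
    rw [h3]
    simp

/-- the coefficient at height `y` -/
private noncomputable def cc (a : ℕ → ℝ) (y : ℝ) (n : ℕ) : ℝ :=
  a n * Real.exp (-(2 * Real.pi * n * y))

private theorem sumF {k : ℕ} {f : ℍ → ℂ} {a : ℕ → ℝ} (h : IsQ k f a) {y : ℝ} (hy : 0 < y)
    (x : ℝ) : HasSum (fun n => (cc a y n : ℂ) * ee n x) (f (pt y hy x)) := by
  have h1 := h.sum (pt y hy x)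
  have h2 : (fun n : ℕ => (a n : ℂ) * Complex.exp (2 * Real.pi * Complex.I * n * (pt y hy x : ℂ))) =
      fun n => (cc a y n : ℂ) * ee n x := by
    funext n
    unfold cc ee
    rw [pt_coe]
    push_cast
    rw [mul_assoc (a n : ℂ), ← Complex.exp_add]
    congr 2
    linear_combination (-(2 * (Real.pi : ℂ) * n * y)) * Complex.I_sq.symm
  rwa [h2] at h1

private theorem sumc {k : ℕ} {f : ℍ → ℂ} {a : ℕ → ℝ} (h : IsQ k f a) {y : ℝ} (hy : 0 < y) :
    Summable (fun n => |cc a y n|) := by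
  have h1 := (sumF h hy 0).summable.norm
  refine h1.congr fun n => ?_
  rw [norm_mul, ee_norm, mul_one, Complex.norm_real, Real.norm_eq_abs]

private theorem interch {k : ℕ} {f : ℍ → ℂ} {a : ℕ → ℝ} (h : IsQ k f a) {y : ℝ} (hy : 0 < y)
    {G : ℝ → ℂ} (hG : Continuous G) {B : ℝ} (hB : ∀ x, ‖G x‖ ≤ B) :
    HasSum (fun n => (cc a y n : ℂ) * ∫ x in (0:ℝ)..1, ee n x * G x)
      (∫ x in (0:ℝ)..1, f (pt y hy x) * G x) := by
  simp only [intervalIntegral.integral_of_le zero_le_one]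
  have hB0 : 0 ≤ B := (norm_nonneg _).trans (hB 0)
  have hint : ∀ n, Integrable (fun x => (cc a y n : ℂ) * ee n x * G x)
      (volume.restrict (Set.Ioc (0:ℝ) 1)) := fun n =>
    (Continuous.integrableOn_Icc (by
      have := ee_cont n
      fun_prop)).mono_set Set.Ioc_subset_Icc_self
  have hn : ∀ n x, ‖(cc a y n : ℂ) * ee n x * G x‖ ≤ |cc a y n| * B := fun n x => by
    rw [norm_mul, norm_mul, ee_norm, mul_one, Complex.norm_real, Real.norm_eq_abs]
    exact mul_le_mul_of_nonneg_left (hB x) (abs_nonneg _)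
  have hs : Summable fun n => ∫ x in Set.Ioc (0:ℝ) 1, ‖(cc a y n : ℂ) * ee n x * G x‖ := by
    refine Summable.of_nonneg_of_le (fun n => by positivity) (fun n => ?_)
      ((sumc h hy).mul_right B)
    have := setIntegral_mono_on (hint n).norm (integrableOn_const (C := |cc a y n| * B)
      (hs := by simp)) measurableSet_Ioc fun x _ => hn n x
    refine this.trans ?_
    simp
  have h1 := hasSum_integral_of_summable_integral_norm hint hs
  have h2 : (fun n => ∫ x in Set.Ioc (0:ℝ) 1, (cc a y n : ℂ) * ee n x * G x) =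
      fun n => (cc a y n : ℂ) * ∫ x in Set.Ioc (0:ℝ) 1, ee n x * G x := by
    funext n
    rw [← integral_const_mul]
    simp only [mul_assoc]
  have h3 : (fun x => ∑' n, (cc a y n : ℂ) * ee n x * G x) =
      fun x => f (pt y hy x) * G x := by
    funext x
    exact ((sumF h hy x).mul_right (G x)).tsum_eq
  rw [h2, h3] at h1
  exact h1

private theorem coeff {k : ℕ} {f : ℍ → ℂ} {a : ℕ → ℝ} (h : IsQ k f a) {y : ℝ} (hy : 0 < y)
    (n : ℕ) : ∫ x in (0:ℝ)..1, f (pt y hy x) * (starRingEnd ℂ) (ee n x) = cc a y n := by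
  have hc : Continuous fun x => (starRingEnd ℂ) (ee n x) :=
    Complex.continuous_conj.comp (ee_cont n)
  have h1 := interch h hy hc (B := 1) fun x => by rw [RCLike.norm_conj, ee_norm]
  refine h1.unique ?_
  have h2 : (fun m => (cc a y m : ℂ) * ∫ x in (0:ℝ)..1, ee m x * (starRingEnd ℂ) (ee n x)) =
      fun m => if m = n then (cc a y n : ℂ) else 0 := by
    funext m
    rw [ee_int]
    split_ifs with hm
    · rw [hm, mul_one]
    · rw [mul_zero]
  rw [h2]
  exact hasSum_ite_eq n _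

private theorem parseval {k k' : ℕ} {f g : ℍ → ℂ} {a b : ℕ → ℝ} (h : IsQ k f a) (h' : IsQ k' g b)
    {y : ℝ} (hy : 0 < y) : HasSum (fun n => cc a y n * cc b y n)
      (∫ x in (0:ℝ)..1, f (pt y hy x) * (starRingEnd ℂ) (g (pt y hy x))).re ∧
      ∫ x in (0:ℝ)..1, f (pt y hy x) * (starRingEnd ℂ) (g (pt y hy x)) =
        ((∑' n, cc a y n * cc b y n : ℝ) : ℂ) := by
  obtain ⟨C, hC⟩ := h'.bdd
  have hyk : 0 < y ^ ((k' : ℝ) / 2) := Real.rpow_pos_of_pos hy _
  have hc : Continuous fun x => (starRingEnd ℂ) (g (pt y hy x)) :=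
    Complex.continuous_conj.comp (h'.cont.comp (pt_cont y hy))
  have h1 := interch h hy hc (B := C / y ^ ((k' : ℝ) / 2)) fun x => by
    rw [RCLike.norm_conj, le_div_iff₀ hyk]
    have := hC (pt y hy x)
    rwa [pt_im] at this
  have h2 : (fun n => (cc a y n : ℂ) * ∫ x in (0:ℝ)..1, ee n x * (starRingEnd ℂ) (g (pt y hy x))) =
      fun n => ((cc a y n * cc b y n : ℝ) : ℂ) := by
    funext n
    have h3 : ∫ x in (0:ℝ)..1, ee n x * (starRingEnd ℂ) (g (pt y hy x)) =
        (starRingEnd ℂ) (∫ x in (0:ℝ)..1, g (pt y hy x) * (starRingEnd ℂ) (ee n x)) := by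
      simp only [intervalIntegral.integral_of_le zero_le_one]
      rw [← integral_conj]
      congr 1
      funext x
      simp [mul_comm]
    rw [h3, coeff h' hy, Complex.conj_ofReal]
    push_cast
    ring
  rw [h2] at h1
  have h4 : HasSum (fun n => cc a y n * cc b y n)
      (∫ x in (0:ℝ)..1, f (pt y hy x) * (starRingEnd ℂ) (g (pt y hy x))).re := by
    have := Complex.hasSum_re h1
    simpa using this
  refine ⟨h4, ?_⟩
  have h5 : HasSum (fun n => ((cc a y n * cc b y n : ℝ) : ℂ))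
      ((∫ x in (0:ℝ)..1, f (pt y hy x) * (starRingEnd ℂ) (g (pt y hy x))).re : ℂ) :=
    Complex.hasSum_ofReal.2 h4
  rw [h4.tsum_eq]
  exact h1.unique h5

private theorem cc_mul (a b : ℕ → ℝ) (y : ℝ) (n : ℕ) :
    cc a y n * cc b y n = a n * b n * Real.exp (-4 * Real.pi * n * y) := by
  unfold cc
  have : Real.exp (-4 * Real.pi * n * y) =
      Real.exp (-(2 * Real.pi * n * y)) * Real.exp (-(2 * Real.pi * n * y)) := by
    rw [← Real.exp_add]
    congr 1
    ring
  rw [this]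
  ring

private theorem square {k : ℕ} {f : ℍ → ℂ} {a : ℕ → ℝ} (h : IsQ k f a) : ∃ C : ℝ, 0 ≤ C ∧
    ∀ y : ℝ, 0 < y → Summable (fun n : ℕ => a n ^ 2 * Real.exp (-4 * Real.pi * n * y)) ∧
      ∑' n : ℕ, a n ^ 2 * Real.exp (-4 * Real.pi * n * y) ≤ C * y ^ (-(k : ℝ)) := by
  obtain ⟨C, hC⟩ := h.bdd
  refine ⟨C ^ 2, sq_nonneg _, ?_⟩
  intro y hy
  obtain ⟨h1, h2⟩ := parseval h h hy
  have h3 : (fun n => cc a y n * cc a y n) =
      fun n : ℕ => a n ^ 2 * Real.exp (-4 * Real.pi * n * y) := by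
    funext n
    rw [cc_mul]
    ring
  rw [h3] at h1
  refine ⟨h1.summable, ?_⟩
  rw [h1.tsum_eq]
  have hyk : 0 < y ^ ((k : ℝ) / 2) := Real.rpow_pos_of_pos hy _
  refine (Complex.re_le_norm _).trans ?_
  have h4 : ∀ x : ℝ, ‖f (pt y hy x) * (starRingEnd ℂ) (f (pt y hy x))‖ ≤ C ^ 2 * y ^ (-(k : ℝ)) := by
    intro x
    have h5 := hC (pt y hy x)
    rw [pt_im] at h5
    have h6 : (y ^ ((k : ℝ) / 2)) ^ 2 * y ^ (-(k : ℝ)) = 1 := by
      rw [← Real.rpow_natCast (y ^ ((k : ℝ) / 2)) 2, ← Real.rpow_mul hy.le, ← Real.rpow_add hy]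
      have : (k : ℝ) / 2 * ((2 : ℕ) : ℝ) + -(k : ℝ) = 0 := by
        push_cast
        ring
      rw [this, Real.rpow_zero]
    have h7 : (‖f (pt y hy x)‖ * y ^ ((k : ℝ) / 2)) ^ 2 ≤ C ^ 2 :=
      pow_le_pow_left₀ (by positivity) h5 2
    have h8 : 0 < y ^ (-(k : ℝ)) := Real.rpow_pos_of_pos hy _
    rw [norm_mul, RCLike.norm_conj]
    calc ‖f (pt y hy x)‖ * ‖f (pt y hy x)‖
        = ‖f (pt y hy x)‖ * ‖f (pt y hy x)‖ * ((y ^ ((k : ℝ) / 2)) ^ 2 * y ^ (-(k : ℝ))) := by
          rw [h6, mul_one]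
      _ = (‖f (pt y hy x)‖ * y ^ ((k : ℝ) / 2)) ^ 2 * y ^ (-(k : ℝ)) := by ring
      _ ≤ C ^ 2 * y ^ (-(k : ℝ)) := mul_le_mul_of_nonneg_right h7 h8.le
  have h5 := intervalIntegral.norm_integral_le_of_norm_le_const
    (a := (0:ℝ)) (b := 1) (C := C ^ 2 * y ^ (-(k : ℝ)))
    (f := fun x => f (pt y hy x) * (starRingEnd ℂ) (f (pt y hy x))) fun x _ => h4 x
  simpa using h5

/-- **PV** -/
theorem p_PV : S_PV := by
  intro k k' f g a b hf hg
  constructor
  · intro y hy
    obtain ⟨h1, h2⟩ := parseval hf hg hy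
    have h3 : (fun n => cc a y n * cc b y n) =
        fun n : ℕ => a n * b n * Real.exp (-4 * Real.pi * n * y) := by
      funext n
      exact cc_mul a b y n
    rw [h3] at h1
    rw [h3] at h2
    refine ⟨?_, ?_⟩
    · refine h1.summable.abs.congr fun n => ?_
      rw [abs_mul, abs_of_pos (Real.exp_pos _)]
    · rw [← h2, integral_Ico_eq_integral_Ioo, ← integral_Ioc_eq_integral_Ioo,
        intervalIntegral.integral_of_le zero_le_one]
      congr 1
      funext x
      have h4 : ofComplex ((x : ℂ) + y * Complex.I) = pt y hy x := by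
        rw [ofComplex_apply_of_im_pos (by simpa using hy)]
        rfl
      rw [h4]
  · obtain ⟨C, hC0, hC⟩ := square hf
    obtain ⟨C', hC0', hC'⟩ := square hg
    refine ⟨(C + C') / 2, by positivity, ?_⟩
    intro y hy
    obtain ⟨s1, b1⟩ := hC y hy
    obtain ⟨s2, b2⟩ := hC' y hy
    set t : ℝ := y ^ (((k : ℝ) - k') / 2) with ht
    have ht0 : 0 < t := Real.rpow_pos_of_pos hy _
    have hle : ∀ n : ℕ, |a n * b n| * Real.exp (-4 * Real.pi * n * y) ≤
        t / 2 * (a n ^ 2 * Real.exp (-4 * Real.pi * n * y)) +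
          t⁻¹ / 2 * (b n ^ 2 * Real.exp (-4 * Real.pi * n * y)) := by
      intro n
      have h1 : |a n * b n| ≤ t / 2 * a n ^ 2 + t⁻¹ / 2 * b n ^ 2 := by
        have h2 : 0 ≤ (t * |a n| - |b n|) ^ 2 := sq_nonneg _
        have h3 : (t * |a n| - |b n|) ^ 2 = t ^ 2 * a n ^ 2 - 2 * t * |a n * b n| + b n ^ 2 := by
          rw [abs_mul, sub_sq, mul_pow, sq_abs, sq_abs]
          ring
        rw [h3] at h2
        have h4 : t / 2 * a n ^ 2 + t⁻¹ / 2 * b n ^ 2 = (t ^ 2 * a n ^ 2 + b n ^ 2) / (2 * t) := by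
          field_simp
        rw [h4, le_div_iff₀ (by positivity)]
        linarith
      have h5 := Real.exp_pos (-4 * Real.pi * n * y)
      nlinarith
    have hs : Summable fun n : ℕ => t / 2 * (a n ^ 2 * Real.exp (-4 * Real.pi * n * y)) +
          t⁻¹ / 2 * (b n ^ 2 * Real.exp (-4 * Real.pi * n * y)) :=
      (s1.mul_left _).add (s2.mul_left _)
    have hs' : Summable fun n : ℕ => |a n * b n| * Real.exp (-4 * Real.pi * n * y) :=
      Summable.of_nonneg_of_le (fun n => by positivity) hle hs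
    refine (hs'.tsum_le_tsum hle hs).trans ?_
    rw [(s1.mul_left _).tsum_add (s2.mul_left _), tsum_mul_left, tsum_mul_left]
    have e1 : t * y ^ (-(k : ℝ)) = y ^ (-(((k : ℝ) + k') / 2)) := by
      rw [ht, ← Real.rpow_add hy]
      congr 1
      ring
    have e2 : t⁻¹ * y ^ (-(k' : ℝ)) = y ^ (-(((k : ℝ) + k') / 2)) := by
      rw [ht, ← Real.rpow_neg hy.le, ← Real.rpow_add hy]
      congr 1
      ring
    have i1 := mul_le_mul_of_nonneg_left b1 (by positivity : 0 ≤ t / 2)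
    have i2 := mul_le_mul_of_nonneg_left b2 (by positivity : 0 ≤ t⁻¹ / 2)
    calc _ ≤ t / 2 * (C * y ^ (-(k : ℝ))) + t⁻¹ / 2 * (C' * y ^ (-(k' : ℝ))) := add_le_add i1 i2
      _ = C / 2 * (t * y ^ (-(k : ℝ))) + C' / 2 * (t⁻¹ * y ^ (-(k' : ℝ))) := by ring
      _ = (C + C') / 2 * y ^ (-(((k : ℝ) + k') / 2)) := by
          rw [e1, e2]
          ring

end Pool.Agent.Lib.MP_058a58_ag.MT
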