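import Pool.Agent.Lib.MP_058a58_ag.MT.Stm

set_option autoImplicit false

/-!
# Twists by modular forms, piece PW: partition weights exist
-/

open UpperHalfPlane MeasureTheory Filter Topology
open scoped MatrixGroups Modular

namespace Pool.Agent.Lib.MP_058a58_ag.MT

private theorem PW_meas (δ : SL(2, ℤ)) : Measurable (fun z : ℍ => δ • z) := by
  have h : Continuous (fun z : ℍ => (δ : GL (Fin 2) ℝ) • z) := continuous_const_smul _
  exact h.measurable

private theorem PW_countable : Countable SL(2, ℤ) := by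
  have h : Function.Injective (fun (g : SL(2, ℤ)) => fun (i j : Fin 2) => g i j) := by
    intro g g' h
    ext i j
    exact congrFun (congrFun h i) j
  exact h.countable

/-- the elements that map a point of the fundamental domain into the fundamental domain -/
private theorem PW_finite_fd : {g : SL(2, ℤ) | ∃ z ∈ 𝒟, g • z ∈ 𝒟}.Finite := by
  refine Set.Finite.subset (s := {1, -1, ModularGroup.T, -ModularGroup.T, ModularGroup.T⁻¹,
    -ModularGroup.T⁻¹, ModularGroup.S, -ModularGroup.S, ModularGroup.T * ModularGroup.S,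
    -(ModularGroup.T * ModularGroup.S), ModularGroup.T⁻¹ * ModularGroup.S * ModularGroup.T⁻¹,
    -(ModularGroup.T⁻¹ * ModularGroup.S * ModularGroup.T⁻¹),
    ModularGroup.S * ModularGroup.T⁻¹, -(ModularGroup.S * ModularGroup.T⁻¹),
    ModularGroup.S * ModularGroup.T, -(ModularGroup.S * ModularGroup.T),
    ModularGroup.T * ModularGroup.S * ModularGroup.T,
    -(ModularGroup.T * ModularGroup.S * ModularGroup.T),
    ModularGroup.T⁻¹ * ModularGroup.S, -(ModularGroup.T⁻¹ * ModularGroup.S)}) (Set.toFinite _) ?_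
  rintro g ⟨z, hz, hg⟩
  have h := ModularGroup.cases_of_mem_fd_smul_mem_fd hz hg
  simp only [Set.mem_insert_iff, Set.mem_singleton_iff]
  tauto

private theorem PW_finite (z : ℍ) : {g : SL(2, ℤ) | g • z ∈ 𝒟}.Finite := by
  obtain ⟨g₀, hg₀⟩ := ModularGroup.exists_smul_mem_fd z
  refine Set.Finite.subset (PW_finite_fd.image (fun g => g * g₀)) ?_
  intro g hg
  refine ⟨g * g₀⁻¹, ⟨g₀ • z, hg₀, ?_⟩, by simp⟩
  rw [smul_smul, inv_mul_cancel_right]
  exact hg

/-- the number of the elements that map `z` into the fundamental domain -/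
private noncomputable def PW_n (z : ℍ) : ℝ :=
  ∑' g : SL(2, ℤ), (𝒟 : Set ℍ).indicator (fun _ => (1 : ℝ)) (g • z)

private theorem PW_hasSum (z : ℍ) :
    HasSum (fun g : SL(2, ℤ) => (𝒟 : Set ℍ).indicator (fun _ => (1 : ℝ)) (g • z)) (PW_n z) := by
  refine (summable_of_ne_finset_zero (s := (PW_finite z).toFinset) ?_).hasSum
  intro g hg
  refine Set.indicator_of_notMem ?_ _
  intro h
  exact hg ((PW_finite z).mem_toFinset.2 h)

private theorem PW_n_inv (g : SL(2, ℤ)) (z : ℍ) : PW_n (g • z) = PW_n z := by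
  unfold PW_n
  rw [← (Equiv.mulRight g).tsum_eq (fun h : SL(2, ℤ) =>
    (𝒟 : Set ℍ).indicator (fun _ => (1 : ℝ)) (h • z))]
  refine tsum_congr fun h => ?_
  rw [Equiv.coe_mulRight, smul_smul]

private theorem PW_n_ge (z : ℍ) : 1 ≤ PW_n z := by
  obtain ⟨g₀, hg₀⟩ := ModularGroup.exists_smul_mem_fd z
  have h := le_hasSum (PW_hasSum z) g₀ fun g _ =>
    Set.indicator_nonneg (fun _ _ => zero_le_one) _
  rwa [Set.indicator_of_mem hg₀] at h

private theorem PW_n_meas : Measurable PW_n := by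
  have := PW_countable
  unfold PW_n
  refine Measurable.tsum fun g => ?_
  exact (measurable_const.indicator ModularGroup.isClosed_fd.measurableSet).comp (PW_meas g)

/-- the weight for the full group -/
private noncomputable def PW_w (z : ℍ) : ℝ :=
  (𝒟 : Set ℍ).indicator (fun _ => (1 : ℝ)) z / PW_n z

private theorem PW_w_nonneg (z : ℍ) : 0 ≤ PW_w z :=
  div_nonneg (Set.indicator_nonneg (fun _ _ => zero_le_one) _) (by linarith [PW_n_ge z])

private theorem PW_w_sum (z : ℍ) : HasSum (fun g : SL(2, ℤ) => PW_w (g • z)) 1 := by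
  have h := (PW_hasSum z).div_const (PW_n z)
  rw [div_self (by linarith [PW_n_ge z])] at h
  have h1 : (fun g : SL(2, ℤ) => PW_w (g • z)) =
      fun g => (𝒟 : Set ℍ).indicator (fun _ => (1 : ℝ)) (g • z) / PW_n z := by
    funext g
    unfold PW_w
    rw [PW_n_inv]
  rw [h1]
  exact h

theorem p_PW : S_PW := by
  classical
  intro M hM
  have : NeZero M := ⟨by omega⟩
  obtain ⟨S, hS, -⟩ := Subgroup.exists_isComplement_left (CongruenceSubgroup.Gamma0 M) 1
  have hSf : Finite S := hS.finite_left_iff.2 inferInstance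
  have hSf' : S.Finite := Set.toFinite S
  refine ⟨hSf'.toFinset, fun z => ∑ δ ∈ hSf'.toFinset, PW_w (δ • z), ?_⟩
  have hnn : ∀ z : ℍ, 0 ≤ ∑ δ ∈ hSf'.toFinset, PW_w (δ • z) := fun z =>
    Finset.sum_nonneg fun δ _ => PW_w_nonneg _
  have hsum : ∀ z : ℍ, HasSum (fun γ : CongruenceSubgroup.Gamma0 M =>
      ∑ δ ∈ hSf'.toFinset, PW_w (δ • ((γ : SL(2, ℤ)) • z))) 1 := by
    intro z
    have h1 : HasSum (fun p : S × CongruenceSubgroup.Gamma0 M =>
        PW_w ((p.1.1 * p.2.1) • z)) 1 :=
      (Equiv.hasSum_iff (Equiv.ofBijective _ hS)).2 (PW_w_sum z)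
    have h2 : HasSum (fun p : CongruenceSubgroup.Gamma0 M × S =>
        PW_w ((p.2.1 * p.1.1) • z)) 1 :=
      (Equiv.hasSum_iff (Equiv.prodComm _ _)).2 h1
    refine h2.prod_fiberwise fun γ => ?_
    have : Fintype S := Fintype.ofFinite S
    have h3 := hasSum_fintype (fun δ : S => PW_w ((δ.1 * γ.1) • z))
    have h4 : ∑ δ : S, PW_w ((δ.1 * γ.1) • z) =
        ∑ δ ∈ hSf'.toFinset, PW_w (δ • ((γ : SL(2, ℤ)) • z)) := by
      rw [Finset.sum_subtype hSf'.toFinset (p := fun x => x ∈ S)
        (fun x => hSf'.mem_toFinset) (fun δ => PW_w (δ • ((γ : SL(2, ℤ)) • z)))]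
      refine Finset.sum_congr rfl fun δ _ => ?_
      rw [smul_smul]
    rw [h4] at h3
    exact h3
  refine ⟨?_, hnn, ?_, hsum, ?_⟩
  · refine Finset.measurable_sum _ fun δ _ => ?_
    have h1 : Measurable PW_w :=
      (measurable_const.indicator ModularGroup.isClosed_fd.measurableSet).div PW_n_meas
    exact h1.comp (PW_meas δ)
  · intro z
    have h := le_hasSum (hsum z) 1 fun γ _ => hnn _
    simpa using h
  · intro z hz
    obtain ⟨δ, hδ, hne⟩ := Finset.exists_ne_zero_of_sum_ne_zero hz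
    refine ⟨δ, hδ, ?_⟩
    by_contra hcon
    apply hne
    unfold PW_w
    rw [Set.indicator_of_notMem hcon, zero_div]

end Pool.Agent.Lib.MP_058a58_ag.MT
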