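import Pool.Agent.Lib.MP_058a58_ag.MT.Stm

set_option autoImplicit false

/-!
# Integrals over the strip
-/

open UpperHalfPlane MeasureTheory Filter Topology
open scoped MatrixGroups Modular NNReal

namespace Pool.Agent.Lib.MP_058a58_ag.MT

private noncomputable def SI_d (z : ℍ) : ℝ≥0 := (1 / NNReal.mk z.im z.im_pos.le : ℝ≥0) ^ 2

private lemma SI_meas : Measurable SI_d := by
  unfold SI_d
  apply Measurable.pow_const
  apply Measurable.div measurable_const
  apply Measurable.subtype_mk
  exact UpperHalfPlane.continuous_im.measurable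

private def SI_S : Set ℂ := {w | 0 ≤ w.re ∧ w.re < 1}

private lemma SI_S_meas : MeasurableSet SI_S := by
  unfold SI_S
  exact (measurableSet_le measurable_const Complex.measurable_re).inter
    (measurableSet_lt Complex.measurable_re measurable_const)

private lemma SI_strip : strip = UpperHalfPlane.coe ⁻¹' SI_S := by
  ext z
  simp [strip, SI_S]

private lemma SI_strip_meas : MeasurableSet strip := by
  rw [SI_strip]
  exact measurable_coe SI_S_meas

private lemma SI_restrict : (volume : Measure ℍ).restrict strip =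
    ((volume.comap UpperHalfPlane.coe).restrict strip).withDensity fun z => (SI_d z : ENNReal) := by
  rw [UpperHalfPlane.volume_def]
  rw [restrict_withDensity SI_strip_meas]
  rfl

private lemma SI_range : Set.range UpperHalfPlane.coe = {w : ℂ | 0 < w.im} := by
  ext w
  constructor
  · rintro ⟨z, rfl⟩
    exact z.im_pos
  · intro hw
    exact ⟨⟨w, hw⟩, rfl⟩

private lemma SI_map : ((volume.comap UpperHalfPlane.coe).restrict strip).map UpperHalfPlane.coe =
    (volume : Measure ℂ).restrict
      (Complex.measurableEquivRealProd ⁻¹' (Set.Ico (0 : ℝ) 1 ×ˢ Set.Ioi (0 : ℝ))) := by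
  rw [SI_strip, ← measurableEmbedding_coe.restrict_map, measurableEmbedding_coe.map_comap,
    Measure.restrict_restrict SI_S_meas]
  congr 1
  rw [SI_range]
  ext w
  simp [SI_S]

private noncomputable def SI_H (G : ℂ → ℂ) (w : ℂ) : ℂ := ((1 / w.im ^ 2 : ℝ) : ℂ) * G w

private lemma SI_smul (G : ℂ → ℂ) (z : ℍ) : SI_d z • G z = SI_H G z := by
  rw [NNReal.smul_def, Complex.real_smul]
  unfold SI_d SI_H
  congr 2
  push_cast
  simp

private lemma SI_symm (G : ℂ → ℂ) (w : ℂ) :
    SI_H G w = (fun q : ℝ × ℝ => ((1 / q.2 ^ 2 : ℝ) : ℂ) * G (q.1 + q.2 * Complex.I))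
      (Complex.measurableEquivRealProd w) := by
  simp [SI_H, Complex.re_add_im]

theorem p_SI : S_SI := by
  intro G hG
  have hprod : (volume : Measure (ℝ × ℝ)).restrict (Set.Ico (0 : ℝ) 1 ×ˢ Set.Ioi (0 : ℝ)) =
      (volume.restrict (Set.Ico (0 : ℝ) 1)).prod (volume.restrict (Set.Ioi (0 : ℝ))) := by
    rw [Measure.volume_eq_prod, Measure.prod_restrict]
  constructor
  · unfold IntegrableOn
    rw [SI_restrict, integrable_withDensity_iff_integrable_smul SI_meas]
    have h1 : (fun x : ℍ => SI_d x • G x) = SI_H G ∘ UpperHalfPlane.coe := by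
      funext z; exact SI_smul G z
    rw [h1, ← measurableEmbedding_coe.integrable_map_iff, SI_map]
    have h2 : SI_H G = (fun q : ℝ × ℝ => ((1 / q.2 ^ 2 : ℝ) : ℂ) * G (q.1 + q.2 * Complex.I)) ∘
        Complex.measurableEquivRealProd := by
      funext w; exact SI_symm G w
    rw [h2, ← hprod]
    exact Complex.volume_preserving_equiv_real_prod.integrableOn_comp_preimage
      Complex.measurableEquivRealProd.measurableEmbedding
  · intro hint
    have hint2 : Integrable (fun q : ℝ × ℝ => ((1 / q.2 ^ 2 : ℝ) : ℂ) * G (q.1 + q.2 * Complex.I))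
      ((volume.restrict (Set.Ico (0 : ℝ) 1)).prod (volume.restrict (Set.Ioi (0 : ℝ)))) := by
      unfold IntegrableOn at hint
      rw [SI_restrict, integrable_withDensity_iff_integrable_smul SI_meas] at hint
      have h1 : (fun x : ℍ => SI_d x • G x) = SI_H G ∘ UpperHalfPlane.coe := by
        funext z; exact SI_smul G z
      rw [h1, ← measurableEmbedding_coe.integrable_map_iff, SI_map] at hint
      have h2 : SI_H G = (fun q : ℝ × ℝ => ((1 / q.2 ^ 2 : ℝ) : ℂ) *
          G (q.1 + q.2 * Complex.I)) ∘ Complex.measurableEquivRealProd := by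
        funext w; exact SI_symm G w
      rw [h2] at hint
      rw [← hprod]
      exact (Complex.volume_preserving_equiv_real_prod.integrableOn_comp_preimage
        Complex.measurableEquivRealProd.measurableEmbedding).mp hint
    rw [SI_restrict, integral_withDensity_eq_integral_smul SI_meas]
    have h1 : (fun x : ℍ => SI_d x • G x) = fun x => SI_H G (UpperHalfPlane.coe x) := by
      funext z; exact SI_smul G z
    rw [h1, ← measurableEmbedding_coe.integral_map (SI_H G), SI_map]
    have h3 := Complex.volume_preserving_equiv_real_prod.setIntegral_preimage_emb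
      Complex.measurableEquivRealProd.measurableEmbedding
      (fun q : ℝ × ℝ => ((1 / q.2 ^ 2 : ℝ) : ℂ) * G (q.1 + q.2 * Complex.I))
      (Set.Ico (0 : ℝ) 1 ×ˢ Set.Ioi (0 : ℝ))
    have h2 : SI_H G = fun w => (fun q : ℝ × ℝ => ((1 / q.2 ^ 2 : ℝ) : ℂ) *
        G (q.1 + q.2 * Complex.I)) (Complex.measurableEquivRealProd w) := by
      funext w; exact SI_symm G w
    rw [h2, h3, hprod, integral_prod_symm _ hint2]
    apply integral_congr_ae
    filter_upwards with y
    rw [integral_const_mul]

end Pool.Agent.Lib.MP_058a58_ag.MT
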