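import Pool.Agent.Lib.MP_058a58_ag.MT.Stm2

set_option autoImplicit false

/-!
# The function `f(pz)`
-/

open UpperHalfPlane MeasureTheory Filter Topology
open scoped MatrixGroups Modular ComplexConjugate

namespace Pool.Agent.Lib.MP_058a58_ag.MT

private lemma UP_im (p : ℕ) (hp : 0 < p) (z : ℍ) : (dil p hp z).im = p * z.im := by
  change ((p : ℂ) * (z : ℂ)).im = _
  simp

private lemma UP_cont (p : ℕ) (hp : 0 < p) : Continuous (dil p hp) := by
  rw [UpperHalfPlane.isEmbedding_coe.continuous_iff]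
  change Continuous fun z : ℍ => (p : ℂ) * (z : ℂ)
  exact continuous_const.mul UpperHalfPlane.continuous_coe

theorem p_UP : S_UP := by
  intro k p hp f a h
  have hp' : (0 : ℝ) < p := by exact_mod_cast hp
  refine ⟨h.cont.comp (UP_cont p hp), ?_, ?_, ?_⟩
  · obtain ⟨C, hC⟩ := h.bdd
    refine ⟨C * (p : ℝ) ^ (-((k : ℝ) / 2)), fun z => ?_⟩
    have h1 := hC (dil p hp z)
    rw [UP_im, Real.mul_rpow hp'.le z.im_pos.le] at h1
    have h2 : (p : ℝ) ^ ((k : ℝ) / 2) * (p : ℝ) ^ (-((k : ℝ) / 2)) = 1 := by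
      rw [← Real.rpow_add hp']
      simp
    have h3 : 0 < (p : ℝ) ^ (-((k : ℝ) / 2)) := Real.rpow_pos_of_pos hp' _
    calc ‖f (dil p hp z)‖ * z.im ^ ((k : ℝ) / 2)
        = ‖f (dil p hp z)‖ * ((p : ℝ) ^ ((k : ℝ) / 2) * z.im ^ ((k : ℝ) / 2)) *
          (p : ℝ) ^ (-((k : ℝ) / 2)) := by
          rw [show ‖f (dil p hp z)‖ * ((p : ℝ) ^ ((k : ℝ) / 2) * z.im ^ ((k : ℝ) / 2)) *
            (p : ℝ) ^ (-((k : ℝ) / 2)) = ‖f (dil p hp z)‖ * z.im ^ ((k : ℝ) / 2) *
              ((p : ℝ) ^ ((k : ℝ) / 2) * (p : ℝ) ^ (-((k : ℝ) / 2))) by ring, h2, mul_one]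
      _ ≤ C * (p : ℝ) ^ (-((k : ℝ) / 2)) := mul_le_mul_of_nonneg_right h1 h3.le
  · unfold upc
    simp [h.zero]
  · intro z
    have h1 := h.sum (dil p hp z)
    have hinj : Function.Injective (fun n : ℕ => p * n) := by
      intro m n hmn
      exact Nat.eq_of_mul_eq_mul_left hp hmn
    have h2 : (fun n : ℕ => (a n : ℂ) *
        Complex.exp (2 * Real.pi * Complex.I * n * (dil p hp z : ℂ))) =
        (fun m : ℕ => (upc p a m : ℂ) * Complex.exp (2 * Real.pi * Complex.I * m * z)) ∘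
          (fun n : ℕ => p * n) := by
      funext n
      simp only [Function.comp_apply, upc]
      rw [if_pos (Dvd.intro n rfl), Nat.mul_div_cancel_left n hp]
      congr 2
      change 2 * (Real.pi : ℂ) * Complex.I * n * ((p : ℂ) * (z : ℂ)) = _
      push_cast
      ring
    rw [h2] at h1
    rw [hinj.hasSum_iff] at h1
    · exact h1
    · intro m hm
      have : ¬ p ∣ m := by
        rintro ⟨n, rfl⟩
        exact hm ⟨n, rfl⟩
      simp [upc, this]

end Pool.Agent.Lib.MP_058a58_ag.MT
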