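import Pool.Agent.Lib.MP_058a58_ag.MT.Stm2

set_option autoImplicit false

/-!
# Twists by modular forms, piece WN1: the involution
-/

open UpperHalfPlane MeasureTheory Filter Topology
open scoped MatrixGroups Modular ComplexConjugate

namespace Pool.Agent.Lib.MP_058a58_ag.MT

/-- an integral matrix of determinant one -/
private def WN1_m (a b c d : ℤ) (h : a * d - b * c = 1) : SL(2, ℤ) :=
  ⟨!![a, b; c, d], by rw [Matrix.det_fin_two_of]; exact h⟩

private theorem WN1_coe (a b c d : ℤ) (h : a * d - b * c = 1) (z : ℍ) :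
    ((WN1_m a b c d h • z : ℍ) : ℂ) = ((a : ℂ) * z + b) / ((c : ℂ) * z + d) := by
  rw [coe_specialLinearGroup_apply]
  simp [WN1_m]

private theorem WN1_jf (a b c d : ℤ) (h : a * d - b * c = 1) (z : ℍ) :
    jf (WN1_m a b c d h) z = (c : ℂ) * z + d := by
  simp [jf, WN1_m]

private theorem WN1_mem (a b c d : ℤ) (h : a * d - b * c = 1) (M : ℕ) (hM : (M : ℤ) ∣ c) :
    WN1_m a b c d h ∈ CongruenceSubgroup.Gamma0 M := by
  rw [CongruenceSubgroup.Gamma0_mem]
  show ((c : ℤ) : ZMod M) = 0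
  rw [ZMod.intCast_zmod_eq_zero_iff_dvd]
  exact hM

theorem p_WN1 : S_WN1 := by
  intro N N' k p hp y w h f g a b hf hg z
  have hp0 : (0 : ℝ) < p := by exact_mod_cast hp
  have hpc : (p : ℂ) ≠ 0 := by exact_mod_cast hp.ne'
  have hdet : ((p : ℝ) * ((p : ℝ) * w) - (y : ℝ) * (((N * N' : ℕ) : ℝ) * p)) = p := by
    have h1 : ((p : ℝ) * w - ((N * N' : ℕ) : ℝ) * y) = 1 := by exact_mod_cast h
    linear_combination (p : ℝ) * h1
  obtain ⟨W, hW⟩ : ∃ W, W = Wm (N * N') p y w hp h := ⟨_, rfl⟩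
  have w00 : (W : Matrix (Fin 2) (Fin 2) ℝ) 0 0 = p := by rw [hW]; rfl
  have w01 : (W : Matrix (Fin 2) (Fin 2) ℝ) 0 1 = y := by rw [hW]; rfl
  have w10 : (W : Matrix (Fin 2) (Fin 2) ℝ) 1 0 = ((N * N' : ℕ) : ℝ) * p := by rw [hW]; rfl
  have w11 : (W : Matrix (Fin 2) (Fin 2) ℝ) 1 1 = (p : ℝ) * w := by rw [hW]; rfl
  have hWd : W.det.val = p := by
    rw [Matrix.GeneralLinearGroup.val_det_apply, Matrix.det_fin_two, w00, w01, w10, w11]
    exact hdet
  have hnum : num W z = (p : ℂ) * z + y := by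
    rw [num, w00, w01]
    push_cast
    ring
  obtain ⟨J, hJ⟩ : ∃ J : ℂ, J = ((N * N' : ℕ) : ℂ) * z + w := ⟨_, rfl⟩
  have hden : denom W z = (p : ℂ) * J := by
    rw [denom, w10, w11, hJ]
    push_cast
    ring
  have hJ0 : J ≠ 0 := by
    intro h0
    apply denom_ne_zero W z
    rw [hden, h0, mul_zero]
  have hWz : ((W • z : ℍ) : ℂ) = ((p : ℂ) * z + y) / ((p : ℂ) * J) := by
    rw [coe_smul_of_det_pos (by rw [hWd]; exact hp0), hnum, hden]
  have hdil : ((dil p hp z : ℍ) : ℂ) = (p : ℂ) * z := rfl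
  have e2 : (1 : ℤ) * (p * w) - y * (N * N' : ℕ) = 1 := by linear_combination h
  have e1 : (p : ℤ) * w - y * (N * N' : ℕ) = 1 := by linear_combination h
  have h2 : W • z = WN1_m 1 y (N * N' : ℕ) (p * w) e2 • dil p hp z := by
    apply UpperHalfPlane.ext
    rw [hWz, WN1_coe, hdil, hJ]
    congr 1
    · push_cast
      ring
    · push_cast
      ring
  have h1 : dil p hp (W • z) = WN1_m p y (N * N' : ℕ) w e1 • z := by
    apply UpperHalfPlane.ext
    rw [WN1_coe]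
    show (p : ℂ) * ((W • z : ℍ) : ℂ) = _
    rw [hWz]
    have hJ' : J ≠ 0 := hJ0
    have e3 : (((p : ℕ) : ℤ) : ℂ) * (z : ℂ) + (y : ℂ) = (p : ℂ) * z + y := by push_cast; ring
    have e4 : ((((N * N' : ℕ) : ℤ)) : ℂ) * (z : ℂ) + (w : ℂ) = J := by rw [hJ]; push_cast; ring
    rw [e3, e4]
    field_simp
  have j2 : jf (WN1_m 1 y (N * N' : ℕ) (p * w) e2) (dil p hp z) = (p : ℂ) * J := by
    rw [WN1_jf, hdil, hJ]
    push_cast
    ring
  have j1 : jf (WN1_m p y (N * N' : ℕ) w e1) z = J := by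
    rw [WN1_jf, hJ]
    push_cast
    ring
  have dN : (N : ℤ) ∣ ((N * N' : ℕ) : ℤ) := ⟨N', by push_cast; ring⟩
  have dN' : (N' : ℤ) ∣ ((N * N' : ℕ) : ℤ) := ⟨N, by push_cast; ring⟩
  have f2 : f (W • z) = ((p : ℂ) * J) ^ k * f (dil p hp z) := by
    rw [h2, hf.mod _ (WN1_mem _ _ _ _ e2 N dN), j2]
  have g2 : g (W • z) = ((p : ℂ) * J) ^ k * g (dil p hp z) := by
    rw [h2, hg.mod _ (WN1_mem _ _ _ _ e2 N' dN'), j2]
  have f1 : f (dil p hp (W • z)) = J ^ k * f z := by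
    rw [h1, hf.mod _ (WN1_mem _ _ _ _ e1 N dN), j1]
  have g1 : g (dil p hp (W • z)) = J ^ k * g z := by
    rw [h1, hg.mod _ (WN1_mem _ _ _ _ e1 N' dN'), j1]
  have him : (((W • z : ℍ).im : ℝ) : ℂ) * ((p : ℂ) * (J * conj J)) = (z.im : ℂ) := by
    rw [im_smul_eq_div_normSq, hWd, hden, abs_of_pos hp0, Complex.mul_conj]
    have hn : Complex.normSq J ≠ 0 := by
      rw [Ne, Complex.normSq_eq_zero]
      exact hJ0
    rw [Complex.normSq_mul, Complex.normSq_natCast]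
    push_cast
    have hn' : (Complex.normSq J : ℂ) ≠ 0 := by exact_mod_cast hn
    field_simp
  rw [← hW]
  unfold Fp
  rw [f2, g2, f1, g1, ← him]
  simp only [map_mul, map_pow, Complex.conj_natCast]
  ring

end Pool.Agent.Lib.MP_058a58_ag.MT
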