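import Pool.Agent.Lib.MP_058a58_ag.MT.Stm2

set_option autoImplicit false

/-!
# Twists by modular forms: conjugation with the matrix `W`
-/

open UpperHalfPlane MeasureTheory Filter Topology
open scoped MatrixGroups Modular ComplexConjugate

namespace Pool.Agent.Lib.MP_058a58_ag.MT

/-- the integer matrix -/
private def WN2_W (N₀ p : ℕ) (y w : ℤ) : Matrix (Fin 2) (Fin 2) ℤ :=
  !![(p : ℤ), y; (N₀ : ℤ) * p, (p : ℤ) * w]

private theorem WN2_det (N₀ p : ℕ) (y w : ℤ) (h : (p : ℤ) * w - N₀ * y = 1) :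
    (WN2_W N₀ p y w).det = p := by
  unfold WN2_W
  rw [Matrix.det_fin_two_of]
  linear_combination (p : ℤ) * h

private theorem WN2_left (N₀ p : ℕ) (hp : 0 < p) (y w : ℤ) (h : (p : ℤ) * w - N₀ * y = 1)
    (A B : Matrix (Fin 2) (Fin 2) ℤ) (e : WN2_W N₀ p y w * A = WN2_W N₀ p y w * B) : A = B := by
  have h1 := congrArg (fun M => (WN2_W N₀ p y w).adjugate * M) e
  simp only [← Matrix.mul_assoc, Matrix.adjugate_mul, WN2_det N₀ p y w h] at h1
  rw [Matrix.smul_mul, Matrix.smul_mul, Matrix.one_mul, Matrix.one_mul] at h1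
  have hp' : (p : ℤ) ≠ 0 := by exact_mod_cast hp.ne'
  ext i j
  have h2 := congrFun (congrFun h1 i) j
  rw [Matrix.smul_apply, Matrix.smul_apply, smul_eq_mul, smul_eq_mul] at h2
  exact mul_left_cancel₀ hp' h2

private theorem WN2_right (N₀ p : ℕ) (hp : 0 < p) (y w : ℤ) (h : (p : ℤ) * w - N₀ * y = 1)
    (A B : Matrix (Fin 2) (Fin 2) ℤ) (e : A * WN2_W N₀ p y w = B * WN2_W N₀ p y w) : A = B := by
  have h1 := congrArg (fun M => M * (WN2_W N₀ p y w).adjugate) e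
  simp only [Matrix.mul_assoc, Matrix.mul_adjugate, WN2_det N₀ p y w h] at h1
  rw [Matrix.mul_smul, Matrix.mul_smul, Matrix.mul_one, Matrix.mul_one] at h1
  have hp' : (p : ℤ) ≠ 0 := by exact_mod_cast hp.ne'
  ext i j
  have h2 := congrFun (congrFun h1 i) j
  rw [Matrix.smul_apply, Matrix.smul_apply, smul_eq_mul, smul_eq_mul] at h2
  exact mul_left_cancel₀ hp' h2

/-- from a matrix with lower left entry divisible by `N` to the group -/
private theorem WN2_mk (N : ℕ) (M : Matrix (Fin 2) (Fin 2) ℤ) (hM : M.det = 1)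
    (hd : (N : ℤ) ∣ M 1 0) : ∃ γ : CongruenceSubgroup.Gamma0 N, γ.1.1 = M := by
  refine ⟨⟨⟨M, hM⟩, ?_⟩, rfl⟩
  rw [CongruenceSubgroup.Gamma0_mem]
  exact (ZMod.intCast_zmod_eq_zero_iff_dvd _ _).2 hd

private theorem WN2_form (N : ℕ) (γ : CongruenceSubgroup.Gamma0 N) :
    ∃ a b c d : ℤ, γ.1.1 = !![a, b; (N : ℤ) * c, d] := by
  have h := γ.2
  rw [CongruenceSubgroup.Gamma0_mem] at h
  obtain ⟨c, hc⟩ := (ZMod.intCast_zmod_eq_zero_iff_dvd _ _).1 h
  refine ⟨γ.1.1 0 0, γ.1.1 0 1, c, γ.1.1 1 1, ?_⟩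
  have hc' : γ.1.1 1 0 = (N : ℤ) * c := hc
  rw [← hc']
  exact Matrix.eta_fin_two γ.1.1

private theorem WN2_ext {a b c d a' b' c' d' : ℤ} (h1 : a = a') (h2 : b = b') (h3 : c = c')
    (h4 : d = d') : (!![a, b; c, d] : Matrix (Fin 2) (Fin 2) ℤ) = !![a', b'; c', d'] := by
  rw [h1, h2, h3, h4]

private theorem WN2_fwd (N₀ p : ℕ) (hp : 0 < p) (y w : ℤ) (h : (p : ℤ) * w - N₀ * y = 1)
    (γ : CongruenceSubgroup.Gamma0 (N₀ * p)) : ∃ γ' : CongruenceSubgroup.Gamma0 (N₀ * p),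
      WN2_W N₀ p y w * γ.1.1 = γ'.1.1 * WN2_W N₀ p y w := by
  obtain ⟨a, b, c, d, hγ⟩ := WN2_form _ γ
  have e : WN2_W N₀ p y w * γ.1.1 =
      !![(p : ℤ) * a * w - p * b * N₀ + N₀ * p * c * w * y - d * N₀ * y,
        -(a * y) + p * b - N₀ * c * y ^ 2 + d * y;
        ((N₀ : ℤ) * p) * (a * w - b * N₀ + p * c * w ^ 2 - d * w),
        -(N₀ * a * y) + N₀ * p * b - N₀ * p * c * w * y + p * w * d] * WN2_W N₀ p y w := by
    rw [hγ]
    unfold WN2_W
    rw [Matrix.mul_fin_two, Matrix.mul_fin_two]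
    push_cast
    refine WN2_ext ?_ ?_ ?_ ?_
    · linear_combination -((p : ℤ) * a + y * (N₀ * p * c)) * h
    · linear_combination -((p : ℤ) * b + y * d) * h
    · linear_combination -((N₀ : ℤ) * p * a + p * w * (N₀ * p * c)) * h
    · linear_combination -((N₀ : ℤ) * p * b + p * w * d) * h
  have hdet := congrArg Matrix.det e
  rw [Matrix.det_mul, Matrix.det_mul, WN2_det N₀ p y w h, γ.1.2, mul_one] at hdet
  have hp' : (p : ℤ) ≠ 0 := by exact_mod_cast hp.ne'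
  have hdet2 := mul_right_cancel₀ hp' ((one_mul (p : ℤ)).trans hdet)
  obtain ⟨γ', hγ'⟩ := WN2_mk (N₀ * p) _ hdet2.symm (by
    push_cast
    exact dvd_mul_right _ _)
  exact ⟨γ', by rw [hγ']; exact e⟩

private theorem WN2_bwd (N₀ p : ℕ) (hp : 0 < p) (y w : ℤ) (h : (p : ℤ) * w - N₀ * y = 1)
    (γ : CongruenceSubgroup.Gamma0 (N₀ * p)) : ∃ γ' : CongruenceSubgroup.Gamma0 (N₀ * p),
      WN2_W N₀ p y w * γ'.1.1 = γ.1.1 * WN2_W N₀ p y w := by
  obtain ⟨a, b, c, d, hγ⟩ := WN2_form _ γ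
  have e : WN2_W N₀ p y w *
      !![(p : ℤ) * w * a - N₀ * p * c * y + N₀ * p * w * b - N₀ * y * d,
        w * a * y - N₀ * c * y ^ 2 + p * w ^ 2 * b - y * w * d;
        ((N₀ : ℤ) * p) * (-a + p * c - N₀ * b + d),
        (-(N₀ * a) + N₀ * p * c) * y + (-(N₀ * b) + d) * p * w] = γ.1.1 * WN2_W N₀ p y w := by
    rw [hγ]
    unfold WN2_W
    rw [Matrix.mul_fin_two, Matrix.mul_fin_two]
    push_cast
    refine WN2_ext ?_ ?_ ?_ ?_
    · linear_combination ((a : ℤ) * p + b * (N₀ * p)) * h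
    · linear_combination ((a : ℤ) * y + b * (p * w)) * h
    · linear_combination ((N₀ : ℤ) * p * c * p + d * (N₀ * p)) * h
    · linear_combination ((N₀ : ℤ) * p * c * y + d * (p * w)) * h
  have hdet := congrArg Matrix.det e
  rw [Matrix.det_mul, Matrix.det_mul, WN2_det N₀ p y w h, γ.1.2, one_mul] at hdet
  have hp' : (p : ℤ) ≠ 0 := by exact_mod_cast hp.ne'
  have hdet2 := mul_left_cancel₀ hp' (hdet.trans (mul_one (p : ℤ)).symm)
  obtain ⟨γ', hγ'⟩ := WN2_mk (N₀ * p) _ hdet2 (by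
    push_cast
    exact dvd_mul_right _ _)
  exact ⟨γ', by rw [hγ']; exact e⟩

theorem p_WN2 : S_WN2 := by
  intro N₀ p hp y w h
  choose f hf using WN2_fwd N₀ p hp y w h
  choose g hg using WN2_bwd N₀ p hp y w h
  refine ⟨⟨f, g, fun γ => ?_, fun γ => ?_⟩, fun γ z => ?_⟩
  · apply Subtype.ext
    apply Subtype.ext
    exact WN2_left N₀ p hp y w h _ _ ((hg (f γ)).trans (hf γ).symm)
  · apply Subtype.ext
    apply Subtype.ext
    exact WN2_right N₀ p hp y w h _ _ ((hf (g γ)).symm.trans (hg γ))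
  · show Wm N₀ p y w hp h • ((Matrix.SpecialLinearGroup.mapGL ℝ (γ : SL(2, ℤ))) • z) =
      (Matrix.SpecialLinearGroup.mapGL ℝ ((f γ : CongruenceSubgroup.Gamma0 (N₀ * p)) : SL(2, ℤ))) •
        (Wm N₀ p y w hp h • z)
    rw [← mul_smul, ← mul_smul]
    congr 1
    apply Units.ext
    rw [Units.val_mul, Units.val_mul, Matrix.SpecialLinearGroup.mapGL_coe_matrix,
      Matrix.SpecialLinearGroup.mapGL_coe_matrix]
    have hW : (Wm N₀ p y w hp h : Matrix (Fin 2) (Fin 2) ℝ) =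
        (WN2_W N₀ p y w).map (algebraMap ℤ ℝ) := by
      unfold WN2_W
      ext i j
      fin_cases i <;> fin_cases j
      · show (p : ℝ) = ((p : ℤ) : ℝ)
        push_cast; rfl
      · rfl
      · show (N₀ : ℝ) * p = (((N₀ : ℤ) * p : ℤ) : ℝ)
        push_cast; rfl
      · show (p : ℝ) * w = (((p : ℤ) * w : ℤ) : ℝ)
        push_cast; rfl
    rw [hW]
    have h1 := congrArg (fun M : Matrix (Fin 2) (Fin 2) ℤ => M.map (algebraMap ℤ ℝ)) (hf γ)
    simp only [Matrix.map_mul] at h1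
    exact h1

end Pool.Agent.Lib.MP_058a58_ag.MT
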