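import Pool.Agent.Lib.MP_058a58_ag.MT.Stm

set_option autoImplicit false

/-!
# [MT VOL] the fundamental domain has finite volume (helper94)
-/

open UpperHalfPlane MeasureTheory Filter Topology
open scoped MatrixGroups Modular ENNReal

namespace Pool.Agent.Lib.MP_058a58_ag.MT

/-- the part of the strip above height one half -/
def VOL_S : Set ℍ := {z | |z.re| ≤ 1 / 2 ∧ 1 / 2 ≤ z.im}

theorem VOL_S_meas : MeasurableSet VOL_S := by
  have h1 : Measurable (fun z : ℍ => |z.re|) := (continuous_abs.comp continuous_re).measurable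
  have h2 : Measurable (fun z : ℍ => z.im) := continuous_im.measurable
  exact (measurableSet_le h1 measurable_const).inter (measurableSet_le measurable_const h2)

theorem VOL_fd_sub : (𝒟 : Set ℍ) ⊆ VOL_S := by
  intro z hz
  have h1 := ModularGroup.three_le_four_mul_im_sq_of_mem_fd hz
  refine ⟨hz.2, ?_⟩
  have h2 := z.im_pos
  nlinarith

/-- the integral of a function of the imaginary part over the set `VOL_S` -/
theorem VOL_lintegral (g : ℝ → ℝ≥0∞) (hg : Measurable g) :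
    ∫⁻ z in VOL_S, g z.im ≤
      ∫⁻ y in Set.Ici (1 / 2 : ℝ), ((1 / ‖y‖₊ : NNReal) ^ 2 : NNReal) * g y := by
  have hmp : MeasurePreserving UpperHalfPlane.coe (volume.comap UpperHalfPlane.coe)
      (volume.restrict (.range UpperHalfPlane.coe)) :=
    ⟨measurable_coe, by rw [measurableEmbedding_coe.map_comap]⟩
  have hρ : Measurable (fun z : ℍ => (((1 / NNReal.mk z.im z.im_pos.le : NNReal) ^ 2 : NNReal) :
      ℝ≥0∞)) := by
    have h1 : Measurable (fun z : ℍ => NNReal.mk z.im z.im_pos.le) :=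
      (continuous_im.measurable).subtype_mk
    exact ((measurable_const.div h1).pow_const 2).coe_nnreal_ennreal
  have hgm : Measurable (fun z : ℍ => g z.im) := hg.comp continuous_im.measurable
  let Fc : ℂ → ℝ≥0∞ := fun z => ((1 / ‖z.im‖₊ : NNReal) ^ 2 : NNReal) * g z.im
  have hR : MeasurableSet {z : ℂ | |z.re| ≤ 1 / 2 ∧ 1 / 2 ≤ z.im} :=
    (measurableSet_le (Complex.measurable_re.abs) measurable_const).inter
      (measurableSet_le measurable_const Complex.measurable_im)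
  have h1 : ∫⁻ z in VOL_S, g z.im =
      ∫⁻ z in VOL_S, Fc (z : ℂ) ∂(volume.comap UpperHalfPlane.coe) := by
    rw [volume_def, setLIntegral_withDensity_eq_setLIntegral_mul _ hρ hgm VOL_S_meas]
    refine lintegral_congr fun z => ?_
    simp only [Pi.mul_apply, Fc]
    congr 3
    rw [Real.nnnorm_of_nonneg (by exact z.im_pos.le : (0 : ℝ) ≤ (z : ℂ).im)]
    rfl
  have h2 : ∫⁻ z in VOL_S, Fc (z : ℂ) ∂(volume.comap UpperHalfPlane.coe) =
      ∫⁻ z in UpperHalfPlane.coe '' VOL_S, Fc z ∂(volume.restrict (.range UpperHalfPlane.coe)) :=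
    hmp.setLIntegral_comp_emb measurableEmbedding_coe Fc VOL_S
  have h3 : ∫⁻ z in UpperHalfPlane.coe '' VOL_S, Fc z
      ∂(volume.restrict (.range UpperHalfPlane.coe)) ≤
      ∫⁻ z in {z : ℂ | |z.re| ≤ 1 / 2 ∧ 1 / 2 ≤ z.im}, Fc z := by
    refine (lintegral_mono' (Measure.restrict_mono (le_refl _) Measure.restrict_le_self)
      (le_refl _)).trans ?_
    apply lintegral_mono_set
    rintro _ ⟨z, hz, rfl⟩
    exact hz
  have h4 : ∫⁻ z in {z : ℂ | |z.re| ≤ 1 / 2 ∧ 1 / 2 ≤ z.im}, Fc z =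
      ∫⁻ q in (Set.Icc (-(1 / 2) : ℝ) (1 / 2)) ×ˢ (Set.Ici (1 / 2 : ℝ)),
        ((1 / ‖q.2‖₊ : NNReal) ^ 2 : NNReal) * g q.2 ∂((volume : Measure ℝ).prod volume) := by
    have h5 := Complex.volume_preserving_equiv_real_prod.setLIntegral_comp_preimage_emb
      Complex.measurableEquivRealProd.measurableEmbedding
      (fun q : ℝ × ℝ => (((1 / ‖q.2‖₊ : NNReal) ^ 2 : NNReal) : ℝ≥0∞) * g q.2)
      ((Set.Icc (-(1 / 2) : ℝ) (1 / 2)) ×ˢ (Set.Ici (1 / 2 : ℝ)))
    have h6 : (Complex.measurableEquivRealProd ⁻¹' ((Set.Icc (-(1 / 2) : ℝ) (1 / 2)) ×ˢ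
        (Set.Ici (1 / 2 : ℝ)))) = {z : ℂ | |z.re| ≤ 1 / 2 ∧ 1 / 2 ≤ z.im} := by
      ext z
      simp only [Set.mem_preimage, Set.mem_prod, Set.mem_Icc, Set.mem_Ici, Set.mem_ofPred_eq,
        Complex.measurableEquivRealProd_apply, abs_le]
    rw [h6] at h5
    exact h5
  have h5 : ∫⁻ q in (Set.Icc (-(1 / 2) : ℝ) (1 / 2)) ×ˢ (Set.Ici (1 / 2 : ℝ)),
        ((1 / ‖q.2‖₊ : NNReal) ^ 2 : NNReal) * g q.2 ∂((volume : Measure ℝ).prod volume) =
      ∫⁻ y in Set.Ici (1 / 2 : ℝ), ((1 / ‖y‖₊ : NNReal) ^ 2 : NNReal) * g y := by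
    rw [← Measure.prod_restrict]
    have hm : Measurable (fun y : ℝ => (((1 / ‖y‖₊ : NNReal) ^ 2 : NNReal) : ℝ≥0∞) * g y) :=
      (((measurable_const.div measurable_nnnorm).pow_const 2).coe_nnreal_ennreal).mul hg
    have h7 := lintegral_prod_mul (μ := volume.restrict (Set.Icc (-(1 / 2) : ℝ) (1 / 2)))
      (ν := volume.restrict (Set.Ici (1 / 2 : ℝ))) (f := fun _ : ℝ => (1 : ℝ≥0∞))
      (g := fun y : ℝ => (((1 / ‖y‖₊ : NNReal) ^ 2 : NNReal) : ℝ≥0∞) * g y)
      measurable_const.aemeasurable hm.aemeasurable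
    simp only [one_mul] at h7
    rw [h7]
    rw [lintegral_const, Measure.restrict_apply MeasurableSet.univ, Set.univ_inter,
      Real.volume_Icc]
    norm_num
  rw [h1, h2]
  exact h3.trans (le_of_eq (h4.trans h5))

theorem VOL_fin : ∫⁻ y in Set.Ici (1 / 2 : ℝ), ((1 / ‖y‖₊ : NNReal) ^ 2 : NNReal) *
    ENNReal.ofReal (Real.sqrt y) < ⊤ := by
  have h1 : IntegrableOn (fun y : ℝ => y ^ (-(3 / 2) : ℝ)) (Set.Ici (1 / 2)) := by
    rw [integrableOn_Ici_iff_integrableOn_Ioi]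
    exact integrableOn_Ioi_rpow_of_lt (by norm_num) (by norm_num)
  have h2 : ∫⁻ y in Set.Ici (1 / 2 : ℝ), ((1 / ‖y‖₊ : NNReal) ^ 2 : NNReal) *
      ENNReal.ofReal (Real.sqrt y) = ∫⁻ y in Set.Ici (1 / 2 : ℝ), ‖y ^ (-(3 / 2) : ℝ)‖ₑ := by
    refine setLIntegral_congr_fun measurableSet_Ici fun y hy => ?_
    have hy0 : (0 : ℝ) < y := lt_of_lt_of_le (by norm_num) hy
    have h3 : (((1 / ‖y‖₊ : NNReal) ^ 2 : NNReal) : ℝ≥0∞) = ENNReal.ofReal ((1 / y) ^ 2) := by
      rw [ENNReal.ofReal]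
      congr 1
      apply NNReal.eq
      rw [Real.coe_toNNReal _ (by positivity)]
      simp [abs_of_pos hy0]
    show (((1 / ‖y‖₊ : NNReal) ^ 2 : NNReal) : ℝ≥0∞) * ENNReal.ofReal (Real.sqrt y) = _
    rw [h3, ← ENNReal.ofReal_mul (by positivity),
      Real.enorm_of_nonneg (Real.rpow_nonneg hy0.le _)]
    congr 1
    rw [Real.sqrt_eq_rpow, one_div, inv_pow, ← Real.rpow_natCast, ← Real.rpow_neg hy0.le,
      ← Real.rpow_add hy0]
    norm_num
  rw [h2]
  exact h1.2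

theorem p_VOL : S_VOL := by
  have hS : IntegrableOn (fun z : ℍ => Real.sqrt z.im) VOL_S := by
    refine ⟨(Real.continuous_sqrt.comp continuous_im).aestronglyMeasurable, ?_⟩
    have h1 := VOL_lintegral (fun y => ENNReal.ofReal (Real.sqrt y))
      (Real.continuous_sqrt.measurable.ennreal_ofReal)
    refine lt_of_le_of_lt (le_trans (le_of_eq ?_) h1) VOL_fin
    refine lintegral_congr fun z => ?_
    exact Real.enorm_of_nonneg (Real.sqrt_nonneg _)
  refine ⟨hS.mono_set VOL_fd_sub, ?_⟩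
  refine lt_of_le_of_lt (measure_mono VOL_fd_sub) ?_
  have h2 : volume VOL_S ≤ ∫⁻ z in VOL_S, 2 * ENNReal.ofReal (Real.sqrt z.im) := by
    have h3 : volume VOL_S = ∫⁻ _ in VOL_S, 1 := by
      rw [setLIntegral_one]
    rw [h3]
    refine setLIntegral_mono' VOL_S_meas fun z hz => ?_
    have h4 : (1 / 2 : ℝ) ≤ Real.sqrt z.im := by
      apply Real.le_sqrt_of_sq_le
      have := hz.2
      norm_num
      linarith
    have h5 : (1 : ℝ≥0∞) = 2 * ENNReal.ofReal (1 / 2) := by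
      rw [show (2 : ℝ≥0∞) = ENNReal.ofReal 2 by norm_num, ← ENNReal.ofReal_mul (by norm_num)]
      norm_num
    calc (1 : ℝ≥0∞) = 2 * ENNReal.ofReal (1 / 2) := h5
      _ ≤ 2 * ENNReal.ofReal (Real.sqrt z.im) := by
          exact mul_le_mul_right (ENNReal.ofReal_le_ofReal h4) 2
  refine lt_of_le_of_lt h2 ?_
  have hm : Measurable (fun z : ℍ => ENNReal.ofReal (Real.sqrt z.im)) :=
    (Real.continuous_sqrt.comp continuous_im).measurable.ennreal_ofReal
  rw [lintegral_const_mul _ hm]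
  apply ENNReal.mul_lt_top (by norm_num)
  exact lt_of_le_of_lt (VOL_lintegral (fun y => ENNReal.ofReal (Real.sqrt y))
      (Real.continuous_sqrt.measurable.ennreal_ofReal)) VOL_fin

end Pool.Agent.Lib.MP_058a58_ag.MT
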