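import Pool.Agent.Lib.MP_058a58_ag.MT.Stm4
import Pool.Agent.Lib.MP_058a58_ag.FieldFamily

set_option autoImplicit false

/-!
# Twists by modular forms, piece BS2: the one-sided Bessel inequality, with the mean square
-/

open Polynomial Filter Topology UpperHalfPlane Set
open scoped MatrixGroups
open TatePole (RR BddPrimes)

namespace Pool.Agent.Lib.MP_058a58_ag.MT

private lemma BS2_mono {g h : ℕ → ℝ} (bg : BddPrimes g) (bh : BddPrimes h)
    (hle : ∀ p : ℕ, p.Prime → g p ≤ h p) {x : ℝ} (hx : 1 < x) : RR g x ≤ RR h x := by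
  obtain ⟨A, hA⟩ := bg
  obtain ⟨B, hB⟩ := bh
  unfold RR
  refine (TatePole.summable_RR hA hx).tsum_le_tsum (fun p => ?_) (TatePole.summable_RR hB hx)
  exact mul_le_mul_of_nonneg_right (hle p p.2) (Real.rpow_nonneg (Nat.cast_nonneg _) _)

private lemma BS2_sum {J : Type} [Fintype J] {g : J → ℕ → ℝ} (bg : ∀ i, BddPrimes (g i)) {x : ℝ}
    (hx : 1 < x) : RR (fun p => ∑ i, g i p) x = ∑ i, RR (g i) x := by
  choose C hC using bg
  exact TatePole.RR_finset_sum Finset.univ g C (fun i _ => hC i) hx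

private lemma BS2_bsum {J : Type} [Fintype J] {g : J → ℕ → ℝ} (bg : ∀ i, BddPrimes (g i)) :
    BddPrimes (fun p => ∑ i, g i p) := by
  choose C hC using bg
  refine ⟨∑ i, C i, fun p hp => ?_⟩
  exact (Finset.abs_sum_le_sum_abs _ _).trans (Finset.sum_le_sum fun i _ => hC i p hp)

private lemma BS2_badd {g h : ℕ → ℝ} (bg : BddPrimes g) (bh : BddPrimes h) :
    BddPrimes (fun p => g p + h p) := by
  obtain ⟨A, hA⟩ := bg
  obtain ⟨B, hB⟩ := bh
  exact ⟨A + B, fun p hp => (abs_add_le _ _).trans (add_le_add (hA p hp) (hB p hp))⟩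

private lemma BS2_add {g h : ℕ → ℝ} (bg : BddPrimes g) (bh : BddPrimes h) {x : ℝ} (hx : 1 < x) :
    RR (fun p => g p + h p) x = RR g x + RR h x := by
  obtain ⟨A, hA⟩ := bg
  obtain ⟨B, hB⟩ := bh
  exact TatePole.RR_add hA hB hx

theorem p_BS2 : S_BS2 := by
  intro J _ _ A D θ Y hD hA hθ hG hY ε hε
  obtain ⟨K1, hK1⟩ := TatePole.hasMean_one
  choose G hG using hG
  choose c0 hc0 using hY
  have bA : BddPrimes A := ⟨D, hA⟩
  have bθ : ∀ i, BddPrimes (θ i) := fun i => ⟨2, hθ i⟩
  set CG : ℝ := ∑ i, ∑ j, |G i j| with hCG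
  have hCG0 : 0 ≤ CG := Finset.sum_nonneg fun i _ => Finset.sum_nonneg fun j _ => abs_nonneg _
  set CY : ℝ := ∑ i, |c0 i| with hCY
  have hCY0 : 0 ≤ CY := Finset.sum_nonneg fun i _ => abs_nonneg _
  have hYall : ∀ᶠ x in 𝓝[>] (1 : ℝ), ∀ i, |Y i x - RR (fun p => A p * θ i p) x| ≤ CY := by
    rw [Filter.eventually_all]
    intro i
    filter_upwards [hc0 i] with x hx
    refine hx.trans ((le_abs_self _).trans ?_)
    exact Finset.single_le_sum (f := fun i => |c0 i|) (fun _ _ => abs_nonneg _) (Finset.mem_univ i)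
  set K : ℝ := |K1| + CG with hK
  have hK0 : 0 ≤ K := add_nonneg (abs_nonneg _) hCG0
  set n0 : ℝ := ((Fintype.card J : ℕ) : ℝ) with hn0
  have hn00 : 0 ≤ n0 := Nat.cast_nonneg _
  set cc : ℝ := CY * n0 with hcc
  have hcc0 : 0 ≤ cc := mul_nonneg hCY0 hn00
  have hmean : ∀ x : ℝ, 1 < x → |RR (fun _ => (1 : ℝ)) x - 1 * Real.log (1 / (x - 1))| ≤ K1 →
      RR (fun p => A p ^ 2) x ≤ D ^ 2 * (Real.log (1 / (x - 1)) + K) := by
    intro x hx h1
    have h5 : RR (fun p => A p ^ 2) x ≤ RR (fun p => D ^ 2 * (fun _ => (1 : ℝ)) p) x := by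
      refine BS2_mono ⟨D ^ 2, fun p hp => ?_⟩ (TatePole.bdd_one.const_mul _) (fun p hp => ?_) hx
      · rw [abs_pow]
        exact pow_le_pow_left₀ (abs_nonneg _) (hA p hp) 2
      · rw [mul_one, ← sq_abs]
        exact pow_le_pow_left₀ (abs_nonneg _) (hA p hp) 2
    rw [TatePole.RR_const_mul] at h5
    refine h5.trans (mul_le_mul_of_nonneg_left ?_ (sq_nonneg _))
    have h6 := (abs_le.mp h1).2
    have h7 := le_abs_self K1
    linarith
  constructor
  swap
  · have hlog : ∀ᶠ x in 𝓝[>] (1 : ℝ), D ^ 2 * K / ε ≤ Real.log (1 / (x - 1)) :=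
      TatePole.AT.tendsto_log.eventually_ge_atTop _
    filter_upwards [hK1, self_mem_nhdsWithin, hlog] with x h1 h3 h4
    have h5 := hmean x h3 h1
    rw [div_le_iff₀ hε] at h4
    linarith
  have hlog1 : ∀ᶠ x in 𝓝[>] (1 : ℝ), 1 ≤ Real.log (1 / (x - 1)) :=
    TatePole.AT.tendsto_log.eventually_ge_atTop _
  have hlogK : ∀ᶠ x in 𝓝[>] (1 : ℝ), K ≤ Real.log (1 / (x - 1)) :=
    TatePole.AT.tendsto_log.eventually_ge_atTop _
  have hlog : ∀ᶠ x in 𝓝[>] (1 : ℝ), (2 * (K * D ^ 2 + 2 * cc * D) + 4 * cc ^ 2) / ε ≤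
      Real.log (1 / (x - 1)) := TatePole.AT.tendsto_log.eventually_ge_atTop _
  filter_upwards [hK1, hYall, Ioo_mem_nhdsGT (show (1 : ℝ) < 2 by norm_num), hlog, hlog1, hlogK]
    with x h1 h2 h3 h4 hL1 hLK
  have hx : 1 < x := h3.1
  set L := Real.log (1 / (x - 1)) with hL
  have hL0 : 0 ≤ L := zero_le_one.trans hL1
  set c : J → ℝ := fun i => max 0 (Y i x) with hc
  have hc0' : ∀ i, 0 ≤ c i := fun i => le_max_left _ _
  set n2 : ℝ := ∑ i, (c i) ^ 2 with hn2
  have hn20 : 0 ≤ n2 := Finset.sum_nonneg fun i _ => sq_nonneg _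
  set n : ℝ := Real.sqrt n2 with hn
  have hnn : n ^ 2 = n2 := Real.sq_sqrt hn20
  have hn0' : 0 ≤ n := Real.sqrt_nonneg _
  have hcn : ∀ i, c i ≤ n := by
    intro i
    apply Real.le_sqrt_of_sq_le
    exact Finset.single_le_sum (f := fun i => (c i) ^ 2) (fun _ _ => sq_nonneg _)
      (Finset.mem_univ i)
  set q : ℝ := RR (fun p => A p ^ 2) x with hq
  show n2 ≤ (q + ε * L) * L
  -- the main estimate
  set F : ℕ → ℝ := fun p => ∑ i, c i * θ i p with hF
  have bF : BddPrimes F := BS2_bsum (fun i => (bθ i).const_mul (c i))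
  have e1 : n2 = ∑ i, c i * Y i x := by
    refine Finset.sum_congr rfl fun i _ => ?_
    show (max 0 (Y i x)) ^ 2 = max 0 (Y i x) * Y i x
    rcases le_total 0 (Y i x) with h | h
    · rw [max_eq_right h]; ring
    · rw [max_eq_left h]; ring
  have e2 : RR (fun p => A p * F p) x = ∑ i, c i * RR (fun p => A p * θ i p) x := by
    have e3 : RR (fun p => A p * F p) x = RR (fun p => ∑ i, c i * (A p * θ i p)) x := by
      refine TatePole.RR_congr (fun p _ => ?_) x
      rw [hF]
      show A p * ∑ i, c i * θ i p = _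
      rw [Finset.mul_sum]
      exact Finset.sum_congr rfl fun i _ => by ring
    rw [e3, BS2_sum (fun i => (bA.mul (bθ i)).const_mul (c i)) hx]
    exact Finset.sum_congr rfl fun i _ => TatePole.RR_const_mul _ _ _
  have e4 : n2 ≤ RR (fun p => A p * F p) x + CY * (n0 * n) := by
    rw [e1, e2]
    have h5 : ∀ i, c i * Y i x ≤ c i * RR (fun p => A p * θ i p) x + CY * n := by
      intro i
      have h6 := (abs_le.mp (h2 i)).2
      have h7 : c i * (Y i x - RR (fun p => A p * θ i p) x) ≤ c i * CY :=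
        mul_le_mul_of_nonneg_left h6 (hc0' i)
      have h8 : c i * CY ≤ n * CY := mul_le_mul_of_nonneg_right (hcn i) hCY0
      linarith
    refine (Finset.sum_le_sum fun i _ => h5 i).trans ?_
    rw [Finset.sum_add_distrib, Finset.sum_const, nsmul_eq_mul, Finset.card_univ]
    apply le_of_eq
    rw [hn0]
    ring
  -- the squares
  have e5 : q ≤ D ^ 2 * (L + K) := hmean x hx h1
  have e6 : RR (fun p => F p ^ 2) x ≤ n2 * (L + K) := by
    have h5 : RR (fun p => F p ^ 2) x = ∑ i, ∑ j, (c i * c j) * RR (fun p => θ i p * θ j p) x := by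
      have h6 : RR (fun p => F p ^ 2) x =
          RR (fun p => ∑ i, ∑ j, (c i * c j) * (θ i p * θ j p)) x := by
        refine TatePole.RR_congr (fun p _ => ?_) x
        show (∑ i, c i * θ i p) ^ 2 = _
        rw [sq, Finset.sum_mul_sum]
        exact Finset.sum_congr rfl fun i _ => Finset.sum_congr rfl fun j _ => by ring
      rw [h6, BS2_sum (fun i => BS2_bsum fun j => ((bθ i).mul (bθ j)).const_mul _) hx]
      refine Finset.sum_congr rfl fun i _ => ?_
      rw [BS2_sum (fun j => ((bθ i).mul (bθ j)).const_mul _) hx]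
      exact Finset.sum_congr rfl fun j _ => TatePole.RR_const_mul _ _ _
    rw [h5]
    have h6 : ∀ i j, (c i * c j) * RR (fun p => θ i p * θ j p) x ≤
        (if i = j then (c i) ^ 2 * L else 0) + n2 * |G i j| := by
      intro i j
      have h7 := hG i j x hx h3.2.le
      have h8 : 0 ≤ c i * c j := mul_nonneg (hc0' i) (hc0' j)
      have h9 : c i * c j ≤ n2 := by
        rw [← hnn, sq]
        exact mul_le_mul (hcn i) (hcn j) (hc0' j) hn0'
      have h10 : (c i * c j) * G i j ≤ n2 * |G i j| :=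
        (mul_le_mul_of_nonneg_left (le_abs_self _) h8).trans
          (mul_le_mul_of_nonneg_right h9 (abs_nonneg _))
      have h11 := mul_le_mul_of_nonneg_left h7 h8
      by_cases hij : i = j
      · subst hij
        rw [if_pos rfl] at h11 ⊢
        rw [mul_add] at h11
        have : c i * c i * L = (c i) ^ 2 * L := by ring
        linarith
      · rw [if_neg hij] at h11 ⊢
        rw [mul_add, mul_zero] at h11
        linarith
    refine (Finset.sum_le_sum fun i _ => Finset.sum_le_sum fun j _ => h6 i j).trans ?_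
    have h7 : ∑ i, ∑ j, ((if i = j then (c i) ^ 2 * L else 0) + n2 * |G i j|) =
        n2 * L + n2 * CG := by
      rw [hCG, hn2, Finset.sum_mul, Finset.mul_sum, ← Finset.sum_add_distrib]
      refine Finset.sum_congr rfl fun i _ => ?_
      rw [Finset.sum_add_distrib, Finset.sum_ite_eq, if_pos (Finset.mem_univ i), Finset.mul_sum]
    rw [h7]
    have h8 : n2 * CG ≤ n2 * K := mul_le_mul_of_nonneg_left (by
      rw [hK]; linarith [abs_nonneg K1]) hn20
    linarith
  -- Cauchy-Schwarz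
  set u : ℝ := L + K with hu
  have hupos : 0 < u := by linarith
  have e7 : RR (fun p => A p * F p) x ≤ u / 2 * q + n2 / 2 := by
    have h5 : RR (fun p => A p * F p) x ≤
        RR (fun p => (u / 2) * A p ^ 2 + (1 / (2 * u)) * F p ^ 2) x := by
      refine BS2_mono (bA.mul bF) (BS2_badd ?_ ?_) (fun p _ => ?_) hx
      · have := (bA.mul bA).const_mul (u / 2)
        simpa only [sq] using this
      · have := (bF.mul bF).const_mul (1 / (2 * u))
        simpa only [sq] using this
      · have h6 : (u / 2) * A p ^ 2 + (1 / (2 * u)) * F p ^ 2 - A p * F p =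
            (u * A p - F p) ^ 2 / (2 * u) := by
          field_simp
          ring
        have h7 : 0 ≤ (u * A p - F p) ^ 2 / (2 * u) := by positivity
        linarith
    rw [BS2_add (by simpa only [sq] using (bA.mul bA).const_mul (u / 2))
      (by simpa only [sq] using (bF.mul bF).const_mul (1 / (2 * u))) hx,
      TatePole.RR_const_mul, TatePole.RR_const_mul] at h5
    have h7 : (1 / (2 * u)) * RR (fun p => F p ^ 2) x ≤ (1 / (2 * u)) * (n2 * u) :=
      mul_le_mul_of_nonneg_left e6 (by positivity)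
    have h8 : (1 / (2 * u)) * (n2 * u) = n2 / 2 := by
      field_simp
    linarith
  have e8 : n ^ 2 ≤ u * q + 2 * cc * n := by
    have h5 : CY * (n0 * n) = cc * n := by rw [hcc]; ring
    rw [hnn]
    linarith
  have e9 : n ≤ D * u + 2 * cc := by
    have h5 : u * q ≤ (D * u) ^ 2 := by
      have := mul_le_mul_of_nonneg_left e5 hupos.le
      calc u * q ≤ u * (D ^ 2 * u) := this
        _ = (D * u) ^ 2 := by ring
    have h6 : (n - cc) ^ 2 ≤ (D * u + cc) ^ 2 := by
      have h7 : 0 ≤ D * u * cc := by positivity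
      nlinarith
    have h8 : n - cc ≤ D * u + cc := by
      apply abs_le_of_sq_le_sq' h6 (by positivity) |>.2
    linarith
  have e10 : n ^ 2 ≤ u * q + 2 * cc * (D * u + 2 * cc) := by
    have := mul_le_mul_of_nonneg_left e9 (show 0 ≤ 2 * cc by positivity)
    linarith
  have e11 : u * q ≤ L * q + K * (D ^ 2 * u) := by
    have := mul_le_mul_of_nonneg_left e5 hK0
    have h5 : u * q = L * q + K * q := by rw [hu]; ring
    linarith
  have e12 : u ≤ 2 * L := by rw [hu]; linarith
  have hA0 : 0 ≤ K * D ^ 2 + 2 * cc * D := by positivity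
  have e13 : (K * D ^ 2 + 2 * cc * D) * u + 4 * cc ^ 2 ≤
      (2 * (K * D ^ 2 + 2 * cc * D) + 4 * cc ^ 2) * L := by
    have h5 := mul_le_mul_of_nonneg_left e12 hA0
    have h6 : 4 * cc ^ 2 * 1 ≤ 4 * cc ^ 2 * L := mul_le_mul_of_nonneg_left hL1 (by positivity)
    linarith
  have e14 : (2 * (K * D ^ 2 + 2 * cc * D) + 4 * cc ^ 2) * L ≤ ε * L * L := by
    rw [div_le_iff₀ hε] at h4
    have := mul_le_mul_of_nonneg_right h4 hL0
    linarith
  rw [← hnn]
  have e15 : u * q + 2 * cc * (D * u + 2 * cc) ≤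
      L * q + ((K * D ^ 2 + 2 * cc * D) * u + 4 * cc ^ 2) := by linarith
  linarith

end Pool.Agent.Lib.MP_058a58_ag.MT
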