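import Pool.Agent.Lib.MP_058a58_ag.MT.Stm3

set_option autoImplicit false

namespace Pool.Agent.Lib.MP_058a58_ag.MT

theorem E1_inv (x : ℝ) (r : ℕ) : U x (r + 1) ^ 2 - x * U x (r + 1) * U x r + U x r ^ 2 = 1 := by
  induction r with
  | zero => simp only [U]; ring
  | succ r ih =>
    have h : U x (r + 1 + 1) = x * U x (r + 1) - U x r := rfl
    rw [h, ← ih]; ring

theorem E1_bd (x : ℝ) (hx : |x| ≤ 2) (r : ℕ) : |U x r| ≤ r + 1 := by
  induction r with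
  | zero => simp [U]
  | succ r ih =>
    have h := E1_inv x r
    have h1 : x * U x (r + 1) * U x r ≤ 2 * (|U x (r + 1)| * |U x r|) := by
      calc x * U x (r + 1) * U x r ≤ |x * U x (r + 1) * U x r| := le_abs_self _
        _ = |x| * (|U x (r + 1)| * |U x r|) := by rw [abs_mul, abs_mul, mul_assoc]
        _ ≤ 2 * (|U x (r + 1)| * |U x r|) := mul_le_mul_of_nonneg_right hx (by positivity)
    have h2 : (|U x (r + 1)| - |U x r|) ^ 2 ≤ 1 := by
      have e1 := sq_abs (U x (r + 1))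
      have e2 := sq_abs (U x r)
      nlinarith
    have h3 : |U x (r + 1)| - |U x r| ≤ 1 := (abs_le_of_sq_le_sq' (by linarith) (by norm_num)).2
    push_cast
    linarith

theorem E1_sumb (v : ℝ) (h0 : 0 ≤ v) (h1 : v < 1) :
    Summable (fun r : ℕ => ((r : ℝ) + 1) ^ 2 * v ^ r) := by
  have hv : ‖v‖ < 1 := by rwa [Real.norm_of_nonneg h0]
  have s2 := summable_pow_mul_geometric_of_norm_lt_one 2 hv
  have s1 := summable_pow_mul_geometric_of_norm_lt_one 1 hv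
  have s0 := summable_geometric_of_norm_lt_one hv
  refine ((s2.add (s1.mul_left 2)).add s0).congr fun r => ?_
  ring

theorem E1_summ (x y u : ℝ) (hx : |x| ≤ 2) (hy : |y| ≤ 2) (h0 : 0 ≤ u) (h1 : u < 1) :
    Summable (fun r : ℕ => |U x r * U y r * u ^ r|) := by
  refine Summable.of_nonneg_of_le (fun r => abs_nonneg _) (fun r => ?_) (E1_sumb u h0 h1)
  rw [abs_mul, abs_mul, abs_of_nonneg (pow_nonneg h0 r)]
  refine mul_le_mul_of_nonneg_right ?_ (pow_nonneg h0 r)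
  rw [sq]
  exact mul_le_mul (E1_bd x hx r) (E1_bd y hy r) (abs_nonneg _) (by positivity)

theorem E1_rec (x y : ℝ) (r : ℕ) : U x (r + 4) * U y (r + 4) =
    x * y * (U x (r + 3) * U y (r + 3)) - (x ^ 2 + y ^ 2 - 2) * (U x (r + 2) * U y (r + 2)) +
      x * y * (U x (r + 1) * U y (r + 1)) - U x r * U y r := by
  have h2 : ∀ z, U z (r + 2) = z * U z (r + 1) - U z r := fun z => rfl
  have h3 : ∀ z, U z (r + 3) = z * U z (r + 2) - U z (r + 1) := fun z => rfl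
  have h4 : ∀ z, U z (r + 4) = z * U z (r + 3) - U z (r + 2) := fun z => rfl
  rw [h4, h4, h3, h3, h2, h2]
  ring

theorem E1_gen (x y u : ℝ) (hx : |x| ≤ 2) (hy : |y| ≤ 2) (h0 : 0 ≤ u) (h1 : u < 1) :
    (∑' r : ℕ, U x r * U y r * u ^ r) *
      (1 - x * y * u + (x ^ 2 + y ^ 2 - 2) * u ^ 2 - x * y * u ^ 3 + u ^ 4) = 1 - u ^ 2 := by
  have hs : Summable (fun r : ℕ => U x r * U y r * u ^ r) := (E1_summ x y u hx hy h0 h1).of_abs
  have hk : ∀ k : ℕ, Summable (fun r : ℕ => U x (r + k) * U y (r + k) * u ^ (r + k)) :=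
    fun k => (summable_nat_add_iff k).2 hs
  obtain ⟨D, hD⟩ : ∃ D, D = ∑' r : ℕ, U x r * U y r * u ^ r := ⟨_, rfl⟩
  have hsum : ∀ k : ℕ, ∑' r : ℕ, U x (r + k) * U y (r + k) * u ^ (r + k) =
      D - ∑ i ∈ Finset.range k, U x i * U y i * u ^ i := by
    intro k
    rw [hD, ← hs.sum_add_tsum_nat_add k]
    ring
  have key : ∑' r : ℕ, U x (r + 4) * U y (r + 4) * u ^ (r + 4) =
      x * y * u * (∑' r : ℕ, U x (r + 3) * U y (r + 3) * u ^ (r + 3)) -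
      (x ^ 2 + y ^ 2 - 2) * u ^ 2 * (∑' r : ℕ, U x (r + 2) * U y (r + 2) * u ^ (r + 2)) +
      x * y * u ^ 3 * (∑' r : ℕ, U x (r + 1) * U y (r + 1) * u ^ (r + 1)) -
      u ^ 4 * ∑' r : ℕ, U x r * U y r * u ^ r := by
    rw [← tsum_mul_left, ← tsum_mul_left, ← tsum_mul_left, ← tsum_mul_left,
      ← ((hk 3).mul_left _).tsum_sub ((hk 2).mul_left _),
      ← (((hk 3).mul_left _).sub ((hk 2).mul_left _)).tsum_add ((hk 1).mul_left _),
      ← ((((hk 3).mul_left _).sub ((hk 2).mul_left _)).add ((hk 1).mul_left _)).tsum_sub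
        (hs.mul_left _)]
    refine tsum_congr fun r => ?_
    rw [E1_rec]
    ring
  rw [hsum, hsum, hsum, hsum, ← hD] at key
  rw [← hD]
  simp only [Finset.sum_range_succ, Finset.sum_range_zero] at key
  have u0 : ∀ z, U z 0 = 1 := fun z => rfl
  have u1 : ∀ z, U z 1 = z := fun z => rfl
  have u2 : ∀ z, U z 2 = z * z - 1 := fun z => rfl
  have u3 : ∀ z, U z 3 = z * (z * z - 1) - z := fun z => rfl
  rw [u0, u0, u1, u1, u2, u2, u3, u3] at key
  linear_combination key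

theorem E1_pos (x y u : ℝ) (hx : |x| ≤ 2) (hy : |y| ≤ 2) (h0 : 0 ≤ u) (h1 : u < 1) :
    0 < 1 - x * y * u + (x ^ 2 + y ^ 2 - 2) * u ^ 2 - x * y * u ^ 3 + u ^ 4 ∧
    1 - x * y * u + (x ^ 2 + y ^ 2 - 2) * u ^ 2 - x * y * u ^ 3 + u ^ 4 ≤ (1 + u) ^ 4 := by
  obtain ⟨a, rfl⟩ : ∃ a, x = 2 * a := ⟨x / 2, by ring⟩
  obtain ⟨b, rfl⟩ : ∃ b, y = 2 * b := ⟨y / 2, by ring⟩
  have ha : 0 ≤ 1 - a ^ 2 := by
    have := sq_le_sq' (abs_le.1 hx).1 (abs_le.1 hx).2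
    nlinarith
  have hb : 0 ≤ 1 - b ^ 2 := by
    have := sq_le_sq' (abs_le.1 hy).1 (abs_le.1 hy).2
    nlinarith
  obtain ⟨c, hc0, hc⟩ : ∃ c : ℝ, 0 ≤ c ∧ c ^ 2 = 1 - a ^ 2 :=
    ⟨Real.sqrt (1 - a ^ 2), Real.sqrt_nonneg _, Real.sq_sqrt ha⟩
  obtain ⟨d, hd0, hd⟩ : ∃ d : ℝ, 0 ≤ d ∧ d ^ 2 = 1 - b ^ 2 :=
    ⟨Real.sqrt (1 - b ^ 2), Real.sqrt_nonneg _, Real.sq_sqrt hb⟩
  have hQ : 1 - 2 * a * (2 * b) * u + ((2 * a) ^ 2 + (2 * b) ^ 2 - 2) * u ^ 2 -
      2 * a * (2 * b) * u ^ 3 + u ^ 4 =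
      (1 + u ^ 2 - 2 * (a * b - c * d) * u) * (1 + u ^ 2 - 2 * (a * b + c * d) * u) := by
    have : (c * d) ^ 2 = (1 - a ^ 2) * (1 - b ^ 2) := by rw [mul_pow, hc, hd]
    linear_combination (4 * u ^ 2) * this
  have e1 : a * b + c * d ≤ 1 := by nlinarith [sq_nonneg (a - b), sq_nonneg (c - d)]
  have e2 : -1 ≤ a * b + c * d := by nlinarith [sq_nonneg (a + b), sq_nonneg (c + d)]
  have e3 : a * b - c * d ≤ 1 := by nlinarith [sq_nonneg (a - b), sq_nonneg (c + d)]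
  have e4 : -1 ≤ a * b - c * d := by nlinarith [sq_nonneg (a + b), sq_nonneg (c - d)]
  have f : 0 < (1 - u) ^ 2 := by
    have : 0 < 1 - u := by linarith
    positivity
  have g1 : 0 < 1 + u ^ 2 - 2 * (a * b - c * d) * u := by nlinarith
  have g2 : 0 < 1 + u ^ 2 - 2 * (a * b + c * d) * u := by nlinarith
  have g3 : 1 + u ^ 2 - 2 * (a * b - c * d) * u ≤ (1 + u) ^ 2 := by nlinarith
  have g4 : 1 + u ^ 2 - 2 * (a * b + c * d) * u ≤ (1 + u) ^ 2 := by nlinarith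
  rw [hQ]
  refine ⟨mul_pos g1 g2, ?_⟩
  calc _ ≤ (1 + u) ^ 2 * (1 + u) ^ 2 := mul_le_mul g3 g4 g2.le (by positivity)
    _ = _ := by ring

theorem E1_tail (n : ℕ) : ∑ r ∈ Finset.range n, ((r : ℝ) + 3) ^ 2 * (1 / 2) ^ r =
    36 - (2 * (n : ℝ) ^ 2 + 16 * n + 36) * (1 / 2) ^ n := by
  induction n with
  | zero => simp
  | succ n ih =>
    rw [Finset.sum_range_succ, ih, pow_succ]
    push_cast
    ring

theorem E1_small (x y u : ℝ) (hx : |x| ≤ 2) (hy : |y| ≤ 2) (h0 : 0 ≤ u) (h2 : u ≤ 1 / 2) :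
    |(∑' r : ℕ, U x r * U y r * u ^ r) - (1 + x * y * u)| ≤ 60 * u ^ 2 := by
  have h1 : u < 1 := by linarith
  have hs : Summable (fun r : ℕ => U x r * U y r * u ^ r) := (E1_summ x y u hx hy h0 h1).of_abs
  have e : (∑' r : ℕ, U x r * U y r * u ^ r) - (1 + x * y * u) =
      ∑' r : ℕ, U x (r + 2) * U y (r + 2) * u ^ (r + 2) := by
    rw [← hs.sum_add_tsum_nat_add 2]
    simp only [Finset.sum_range_succ, Finset.sum_range_zero]
    have u0 : ∀ z, U z 0 = 1 := fun z => rfl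
    have u1 : ∀ z, U z 1 = z := fun z => rfl
    rw [u0, u0, u1, u1]
    ring
  have hb : Summable (fun r : ℕ => ((r : ℝ) + 3) ^ 2 * (1 / 2) ^ r) := by
    refine summable_of_sum_range_le (c := 36) (fun r => by positivity) (fun n => ?_)
    rw [E1_tail]
    have : 0 ≤ (2 * (n : ℝ) ^ 2 + 16 * n + 36) * (1 / 2) ^ n := by positivity
    linarith
  have hle : ∑' r : ℕ, ((r : ℝ) + 3) ^ 2 * (1 / 2) ^ r ≤ 36 := by
    refine Real.tsum_le_of_sum_range_le (fun r => by positivity) (fun n => ?_)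
    rw [E1_tail]
    have : 0 ≤ (2 * (n : ℝ) ^ 2 + 16 * n + 36) * (1 / 2) ^ n := by positivity
    linarith
  rw [e]
  calc _ ≤ ∑' r : ℕ, u ^ 2 * (((r : ℝ) + 3) ^ 2 * (1 / 2) ^ r) := by
        rw [← Real.norm_eq_abs]
        refine tsum_of_norm_bounded (hb.mul_left _).hasSum fun r => ?_
        rw [Real.norm_eq_abs, abs_mul, abs_mul, abs_of_nonneg (pow_nonneg h0 (r + 2)), pow_add]
        have b1 := E1_bd x hx (r + 2)
        have b2 := E1_bd y hy (r + 2)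
        push_cast at b1 b2
        have b3 : |U x (r + 2)| * |U y (r + 2)| ≤ ((r : ℝ) + 3) ^ 2 := by
          rw [sq]
          exact mul_le_mul (by linarith) (by linarith) (abs_nonneg _) (by positivity)
        have b4 : u ^ r ≤ (1 / 2) ^ r := pow_le_pow_left₀ h0 h2 r
        calc _ ≤ ((r : ℝ) + 3) ^ 2 * ((1 / 2) ^ r * u ^ 2) := by
              refine mul_le_mul b3 (mul_le_mul_of_nonneg_right b4 (by positivity))
                (by positivity) (by positivity)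
          _ = _ := by ring
    _ = u ^ 2 * ∑' r : ℕ, ((r : ℝ) + 3) ^ 2 * (1 / 2) ^ r := tsum_mul_left
    _ ≤ u ^ 2 * 36 := mul_le_mul_of_nonneg_left hle (by positivity)
    _ ≤ 60 * u ^ 2 := by nlinarith [sq_nonneg u]

theorem p_E1 : S_E1 := by
  intro x y u hx hy h0 h1
  refine ⟨E1_bd x hx, E1_summ x y u hx hy h0 h1, ?_, E1_small x y u hx hy h0⟩
  obtain ⟨hp, hle⟩ := E1_pos x y u hx hy h0 h1
  have hg := E1_gen x y u hx hy h0 h1
  have hD : (∑' r : ℕ, U x r * U y r * u ^ r) = (1 - u ^ 2) /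
      (1 - x * y * u + (x ^ 2 + y ^ 2 - 2) * u ^ 2 - x * y * u ^ 3 + u ^ 4) := by
    rw [eq_div_iff hp.ne', hg]
  rw [hD]
  have hn : 0 ≤ 1 - u ^ 2 := by nlinarith
  exact div_le_div_of_nonneg_left hn hp hle

end Pool.Agent.Lib.MP_058a58_ag.MT
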