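import Pool.Agent.Lib.MP_058a58_ag.MT.Stm3

set_option autoImplicit false

namespace Pool.Agent.Lib.MP_058a58_ag.MT

theorem E2_inv (x : ℝ) (r : ℕ) : U x (r + 1) ^ 2 - x * U x (r + 1) * U x r + U x r ^ 2 = 1 := by
  induction r with
  | zero => simp only [U]; ring
  | succ r ih =>
    have h : U x (r + 1 + 1) = x * U x (r + 1) - U x r := rfl
    rw [h, ← ih]; ring

theorem E2_bd (x : ℝ) (hx : |x| ≤ 2) (r : ℕ) : |U x r| ≤ r + 1 := by
  induction r with
  | zero => simp [U]
  | succ r ih =>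
    have h := E2_inv x r
    have h1 : x * U x (r + 1) * U x r ≤ 2 * (|U x (r + 1)| * |U x r|) := by
      calc x * U x (r + 1) * U x r ≤ |x * U x (r + 1) * U x r| := le_abs_self _
        _ = |x| * (|U x (r + 1)| * |U x r|) := by rw [abs_mul, abs_mul, mul_assoc]
        _ ≤ 2 * (|U x (r + 1)| * |U x r|) := mul_le_mul_of_nonneg_right hx (by positivity)
    have h2 : (|U x (r + 1)| - |U x r|) ^ 2 ≤ 1 := by
      have e1 := sq_abs (U x (r + 1))
      have e2 := sq_abs (U x r)
      nlinarith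
    have h3 : |U x (r + 1)| - |U x r| ≤ 1 := (abs_le_of_sq_le_sq' (by linarith) (by norm_num)).2
    push_cast
    linarith

theorem E2_summ (y v : ℝ) (hv : |v| < 1) (hy : |y| ≤ 2) :
    Summable (fun r : ℕ => |U y r * v ^ r|) := by
  have hv' : ‖|v|‖ < 1 := by rwa [Real.norm_eq_abs, abs_abs]
  have s1 := summable_pow_mul_geometric_of_norm_lt_one 1 hv'
  have s0 := summable_geometric_of_norm_lt_one hv'
  refine Summable.of_nonneg_of_le (fun r => abs_nonneg _) (fun r => ?_) (s1.add s0)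
  rw [abs_mul, abs_pow]
  calc |U y r| * |v| ^ r ≤ ((r : ℝ) + 1) * |v| ^ r :=
        mul_le_mul_of_nonneg_right (E2_bd y hy r) (by positivity)
    _ = _ := by ring

theorem E2_gen (y v : ℝ) (hv : |v| < 1) (hy : |y| ≤ 2) :
    (∑' r : ℕ, U y r * v ^ r) * (1 - y * v + v ^ 2) = 1 := by
  have hs : Summable (fun r : ℕ => U y r * v ^ r) := (E2_summ y v hv hy).of_abs
  have hk : ∀ k : ℕ, Summable (fun r : ℕ => U y (r + k) * v ^ (r + k)) :=
    fun k => (summable_nat_add_iff k).2 hs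
  obtain ⟨D, hD⟩ : ∃ D, D = ∑' r : ℕ, U y r * v ^ r := ⟨_, rfl⟩
  have hsum : ∀ k : ℕ, ∑' r : ℕ, U y (r + k) * v ^ (r + k) =
      D - ∑ i ∈ Finset.range k, U y i * v ^ i := by
    intro k
    rw [hD, ← hs.sum_add_tsum_nat_add k]
    ring
  have key : ∑' r : ℕ, U y (r + 2) * v ^ (r + 2) =
      y * v * (∑' r : ℕ, U y (r + 1) * v ^ (r + 1)) - v ^ 2 * ∑' r : ℕ, U y r * v ^ r := by
    rw [← tsum_mul_left, ← tsum_mul_left, ← ((hk 1).mul_left _).tsum_sub (hs.mul_left _)]
    refine tsum_congr fun r => ?_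
    have h2 : U y (r + 2) = y * U y (r + 1) - U y r := rfl
    rw [h2]
    ring
  rw [hsum, hsum, ← hD] at key
  rw [← hD]
  simp only [Finset.sum_range_succ, Finset.sum_range_zero] at key
  have u0 : U y 0 = 1 := rfl
  have u1 : U y 1 = y := rfl
  rw [u0, u1] at key
  linear_combination key

theorem p_E2 : S_E2 := by
  refine ⟨?_, ?_⟩
  · intro t y u htu hy
    have e : (fun r : ℕ => t ^ r * U y r * u ^ r) = fun r : ℕ => U y r * (t * u) ^ r := by
      funext r
      rw [mul_pow]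
      ring
    have e' : ∀ r : ℕ, t ^ r * U y r * u ^ r = U y r * (t * u) ^ r := fun r => congrFun e r
    simp only [e']
    refine ⟨E2_summ y (t * u) htu hy, ?_⟩
    obtain ⟨v, hv⟩ : ∃ v, v = t * u := ⟨_, rfl⟩
    rw [← hv] at htu ⊢
    have hg := E2_gen y v htu hy
    have hle : |1 - y * v + v ^ 2| ≤ 4 := by
      have a1 := (abs_lt.1 htu)
      have a2 : |y * v| ≤ 2 := by
        rw [abs_mul]
        calc |y| * |v| ≤ 2 * 1 := mul_le_mul hy htu.le (abs_nonneg _) (by norm_num)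
          _ = 2 := by norm_num
      have a3 := abs_le.1 a2
      rw [abs_le]
      constructor <;> nlinarith
    have hm : |∑' r : ℕ, U y r * v ^ r| * |1 - y * v + v ^ 2| = 1 := by
      rw [← abs_mul, hg, abs_one]
    nlinarith [abs_nonneg (∑' r : ℕ, U y r * v ^ r)]
  · intro t t' u h
    have e' : ∀ r : ℕ, t ^ r * t' ^ r * u ^ r = (t * t' * u) ^ r := fun r => by
      rw [mul_pow, mul_pow]
    simp only [e']
    obtain ⟨v, hv⟩ : ∃ v, v = t * t' * u := ⟨_, rfl⟩
    rw [← hv] at h ⊢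
    have hn : ‖v‖ < 1 := h
    refine ⟨?_, ?_⟩
    · simp only [abs_pow]
      exact summable_geometric_of_norm_lt_one (by rwa [Real.norm_eq_abs, abs_abs])
    · rw [tsum_geometric_of_norm_lt_one hn, abs_inv]
      have h1 := abs_lt.1 h
      have h2 : |1 - v| ≤ 2 := by
        rw [abs_le]
        constructor <;> linarith
      have h3 : 0 < |1 - v| := abs_pos.2 (by linarith)
      rw [div_le_iff₀ (by norm_num : (0 : ℝ) < 4)]
      rw [inv_mul_eq_div, le_div_iff₀ h3]
      linarith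

end Pool.Agent.Lib.MP_058a58_ag.MT
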