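import Pool.Agent.Lib.MP_058a58_ag.MT.Stm3

set_option autoImplicit false

/-!
# Twists by modular forms, piece E3: normalised coefficients at prime powers
-/

namespace Pool.Agent.Lib.MP_058a58_ag.MT

private lemma E3_pow (p : ℕ) (e : ℝ) (r : ℕ) : ((p ^ r : ℕ) : ℝ) ^ e = ((p : ℝ) ^ e) ^ r := by
  rw [Nat.cast_pow, ← Real.rpow_natCast, ← Real.rpow_natCast, ← Real.rpow_mul (Nat.cast_nonneg p),
    ← Real.rpow_mul (Nat.cast_nonneg p), mul_comm]

private lemma E3_lam (k : ℕ) (a : ℕ → ℝ) (p r : ℕ) :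
    lam k a (p ^ r) = a (p ^ r) / ((p : ℝ) ^ (((k : ℝ) - 1) / 2)) ^ r := by
  rw [lam, E3_pow]

private lemma E3_good {N k : ℕ} {a : ℕ → ℝ} (hk : 2 ≤ k) (h : HeckeSeq N k a) {p : ℕ}
    (hp : p.Prime) (hN : ¬ p ∣ N) :
    ∀ r, lam k a (p ^ r) = U (lam k a p) r ∧ lam k a (p ^ (r + 1)) = U (lam k a p) (r + 1) := by
  have hp0 : (0 : ℝ) < p := by exact_mod_cast hp.pos
  set P : ℝ := (p : ℝ) ^ (((k : ℝ) - 1) / 2) with hP
  have hP0 : 0 < P := Real.rpow_pos_of_pos hp0 _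
  have hP2 : P ^ 2 = (p : ℝ) ^ (k - 1) := by
    rw [hP, ← Real.rpow_natCast, ← Real.rpow_mul hp0.le, ← Real.rpow_natCast]
    congr 1
    rw [Nat.cast_sub (by omega)]
    push_cast
    ring
  intro r
  induction r with
  | zero =>
    constructor
    · rw [pow_zero]
      simp [lam, U, h.one]
    · rw [zero_add, pow_one]
      rfl
  | succ r ih =>
    refine ⟨ih.2, ?_⟩
    show lam k a (p ^ (r + 2)) = lam k a p * U (lam k a p) (r + 1) - U (lam k a p) r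
    rw [← ih.1, ← ih.2, E3_lam, E3_lam, E3_lam, lam, ← hP, h.good p hp hN r, ← hP2]
    field_simp
    ring

private lemma E3_bad {N k : ℕ} {a : ℕ → ℝ} (h : HeckeSeq N k a) {p : ℕ}
    (hp : p.Prime) (hN : p ∣ N) : ∀ r, a (p ^ r) = a p ^ r := by
  intro r
  induction r with
  | zero => rw [pow_zero, pow_zero, h.one]
  | succ r ih => rw [h.bad p hp hN r, ih, pow_succ']

theorem p_E3 : S_E3 := by
  intro N k a hk h hC
  obtain ⟨C, hC⟩ := hC
  refine ⟨⟨?_, ?_, ?_⟩, ?_⟩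
  · rw [lam, h.zero, zero_div]
  · rw [lam, h.one, Nat.cast_one, Real.one_rpow, div_one]
  · intro m n hmn
    rw [lam, lam, lam, h.mul m n hmn, Nat.cast_mul,
      Real.mul_rpow (Nat.cast_nonneg m) (Nat.cast_nonneg n), mul_div_mul_comm]
  intro p hp
  have hp0 : (0 : ℝ) < p := by exact_mod_cast hp.pos
  have hP0 : 0 < (p : ℝ) ^ (((k : ℝ) - 1) / 2) := Real.rpow_pos_of_pos hp0 _
  refine ⟨fun hN => ⟨?_, fun r => (E3_good hk h hp hN r).1⟩, fun hN => ⟨?_, fun r => ?_⟩⟩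
  · rw [lam, abs_div, abs_of_pos hP0, div_le_iff₀ hP0]
    exact h.ram p hp hN
  · have hQ0 : 0 < (p : ℝ) ^ ((k : ℝ) / 2) := Real.rpow_pos_of_pos hp0 _
    have h1 : |a p| / (p : ℝ) ^ ((k : ℝ) / 2) ≤ 1 := by
      by_contra hc
      push Not at hc
      obtain ⟨r, hr⟩ := pow_unbounded_of_one_lt C hc
      have h2 := hC (p ^ r) (Nat.one_le_pow _ _ hp.pos)
      rw [E3_bad h hp hN r, E3_pow, abs_pow] at h2
      rw [div_pow, lt_div_iff₀ (pow_pos hQ0 r)] at hr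
      exact absurd hr (not_lt.2 h2)
    rw [div_le_one hQ0] at h1
    rw [lam, abs_div, abs_of_pos hP0, div_le_iff₀ hP0, ← Real.rpow_add hp0]
    refine h1.trans (le_of_eq ?_)
    congr 1
    ring
  · rw [E3_lam, E3_bad h hp hN r, lam, div_pow]

end Pool.Agent.Lib.MP_058a58_ag.MT
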