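import Pool.Agent.Lib.MP_058a58_ag.MT.Stm5

set_option autoImplicit false

/-!
# Twists by modular forms, piece F3: normalised coefficients at prime powers
-/

namespace Pool.Agent.Lib.MP_058a58_ag.MT

private lemma F3_pow (p : ℕ) (e : ℝ) (r : ℕ) : ((p ^ r : ℕ) : ℝ) ^ e = ((p : ℝ) ^ e) ^ r := by
  rw [Nat.cast_pow, ← Real.rpow_natCast, ← Real.rpow_natCast, ← Real.rpow_mul (Nat.cast_nonneg p),
    ← Real.rpow_mul (Nat.cast_nonneg p), mul_comm]

private lemma F3_lam (k : ℕ) (a : ℕ → ℝ) (p r : ℕ) :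
    lam k a (p ^ r) = a (p ^ r) / ((p : ℝ) ^ (((k : ℝ) - 1) / 2)) ^ r := by
  rw [lam, F3_pow]

private lemma F3_good {N k : ℕ} {a : ℕ → ℝ} (hk : 2 ≤ k) (h : HeckeSeq N k a) {p : ℕ}
    (hp : p.Prime) (hN : ¬ p ∣ N) :
    ∀ r, lam k a (p ^ r) = U (lam k a p) r ∧ lam k a (p ^ (r + 1)) = U (lam k a p) (r + 1) := by
  have hp0 : (0 : ℝ) < p := by exact_mod_cast hp.pos
  set P : ℝ := (p : ℝ) ^ (((k : ℝ) - 1) / 2) with hP
  have hP0 : 0 < P := Real.rpow_pos_of_pos hp0 _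
  have hP2 : P ^ 2 = (p : ℝ) ^ (k - 1) := by
    rw [hP, ← Real.rpow_natCast, ← Real.rpow_mul hp0.le, ← Real.rpow_natCast]
    congr 1
    rw [Nat.cast_sub (by omega)]
    push_cast
    ring
  intro r
  induction r with
  | zero =>
    constructor
    · rw [pow_zero]
      simp [lam, U, h.one]
    · rw [zero_add, pow_one]
      rfl
  | succ r ih =>
    refine ⟨ih.2, ?_⟩
    show lam k a (p ^ (r + 2)) = lam k a p * U (lam k a p) (r + 1) - U (lam k a p) r
    rw [← ih.1, ← ih.2, F3_lam, F3_lam, F3_lam, lam, ← hP, h.good p hp hN r, ← hP2]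
    field_simp
    ring

private lemma F3_bad {N k : ℕ} {a : ℕ → ℝ} (h : HeckeSeq N k a) {p : ℕ}
    (hp : p.Prime) (hN : p ∣ N) : ∀ r, a (p ^ r) = a p ^ r := by
  intro r
  induction r with
  | zero => rw [pow_zero, pow_zero, h.one]
  | succ r ih => rw [h.bad p hp hN r, ih, pow_succ']

private lemma F3_bound {k : ℕ} {a : ℕ → ℝ} {C : ℝ} {p : ℕ} (hp : p.Prime)
    (hC : ∀ n : ℕ, 1 ≤ n → |a n| ≤ C * (n : ℝ) ^ ((k : ℝ) / 2)) (r : ℕ) :
    |lam k a (p ^ r)| ≤ C * Real.sqrt p ^ r := by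
  have hp0 : (0 : ℝ) < p := by exact_mod_cast hp.pos
  have hP0 : 0 < (p : ℝ) ^ (((k : ℝ) - 1) / 2) := Real.rpow_pos_of_pos hp0 _
  have h1 := hC (p ^ r) (Nat.one_le_pow _ _ hp.pos)
  rw [F3_lam, abs_div, abs_of_pos (pow_pos hP0 r), div_le_iff₀ (pow_pos hP0 r)]
  refine h1.trans (le_of_eq ?_)
  rw [F3_pow, Real.sqrt_eq_rpow, mul_assoc, ← mul_pow, ← Real.rpow_add hp0]
  congr 3
  ring

/-- exponential growth -/
private lemma F3_growth {b B C : ℝ} (hB : 0 < B) (h : ∀ r : ℕ, b ^ r ≤ C * B ^ r) : b ≤ B := by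
  by_contra hc
  push Not at hc
  have h1 : 1 < b / B := by rwa [one_lt_div hB]
  obtain ⟨r, hr⟩ := pow_unbounded_of_one_lt C h1
  rw [div_pow, lt_div_iff₀ (pow_pos hB r)] at hr
  exact absurd hr (not_lt.2 (h r))

private lemma F3_neg (y : ℝ) : ∀ r : ℕ, U (-y) r = (-1) ^ r * U y r ∧
    U (-y) (r + 1) = (-1) ^ (r + 1) * U y (r + 1) := by
  intro r
  induction r with
  | zero => constructor <;> simp [U]
  | succ r ih =>
    refine ⟨ih.2, ?_⟩
    show -y * U (-y) (r + 1) - U (-y) r = (-1) ^ (r + 2) * (y * U y (r + 1) - U y r)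
    rw [ih.1, ih.2]
    ring

private lemma F3_abs (x : ℝ) (r : ℕ) : |U |x| r| = |U x r| := by
  rcases abs_choice x with h | h
  · rw [h]
  · rw [h, (F3_neg x r).1, abs_mul, abs_pow, abs_neg, abs_one, one_pow, one_mul]

private lemma F3_low {y β : ℝ} (hβ : 1 < β) (hy : y = β + β⁻¹) (r : ℕ) : β ^ r ≤ U y r := by
  have hβ0 : 0 < β := by linarith
  have h1 : ∀ r : ℕ, U y (r + 1) - β * U y r = β⁻¹ ^ (r + 1) := by
    intro r
    induction r with
    | zero =>
      show y - β * 1 = β⁻¹ ^ (0 + 1)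
      rw [hy]
      ring
    | succ r ih =>
      show y * U y (r + 1) - U y r - β * U y (r + 1) = β⁻¹ ^ (r + 1 + 1)
      rw [pow_succ, ← ih, hy]
      field_simp
      ring
  induction r with
  | zero => simp [U]
  | succ r ih =>
    have h2 := h1 r
    have h3 : 0 < β⁻¹ ^ (r + 1) := by positivity
    have h4 : β * β ^ r ≤ β * U y r := mul_le_mul_of_nonneg_left ih hβ0.le
    rw [pow_succ']
    linarith

private lemma F3_sat {x B C : ℝ} (hB : 1 ≤ B) (h : ∀ r : ℕ, |U x r| ≤ C * B ^ r) :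
    ∃ α : ℂ, Sat x B α := by
  by_cases hx : |x| ≤ 2
  · have hx2 : x ^ 2 ≤ 4 := by
      have := sq_le_sq' (by linarith [abs_nonneg x]) hx
      rw [sq_abs] at this
      linarith
    have h1 : (0 : ℝ) ≤ 1 - x ^ 2 / 4 := by linarith
    have hn : Complex.normSq ⟨x / 2, Real.sqrt (1 - x ^ 2 / 4)⟩ = 1 := by
      rw [Complex.normSq_mk, Real.mul_self_sqrt h1]
      ring
    have hn' : ‖(⟨x / 2, Real.sqrt (1 - x ^ 2 / 4)⟩ : ℂ)‖ = 1 := by
      rw [Complex.norm_def, hn, Real.sqrt_one]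
    refine ⟨⟨x / 2, Real.sqrt (1 - x ^ 2 / 4)⟩, ?_, hn'.ge, by rw [hn']; exact hB, Or.inl hn'⟩
    rw [Complex.inv_def, hn, inv_one, Complex.ofReal_one, mul_one, Complex.add_conj]
    push_cast
    ring
  · push Not at hx
    have h1 : 0 < x ^ 2 - 4 := by
      have : (2 : ℝ) ^ 2 < |x| ^ 2 := by
        exact pow_lt_pow_left₀ hx (by norm_num) (by norm_num)
      rw [sq_abs] at this
      linarith
    set s : ℝ := Real.sqrt (x ^ 2 - 4) with hs
    have hs0 : 0 < s := Real.sqrt_pos.mpr h1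
    have hs2 : s ^ 2 = x ^ 2 - 4 := Real.sq_sqrt h1.le
    set β : ℝ := (|x| + s) / 2 with hβ
    have hβ1 : 1 < β := by linarith
    have hβ0 : β ≠ 0 := by linarith
    have hinv : β⁻¹ = (|x| - s) / 2 := by
      refine inv_eq_of_mul_eq_one_right ?_
      have : |x| ^ 2 = x ^ 2 := sq_abs x
      rw [hβ]
      nlinarith
    have hsum : |x| = β + β⁻¹ := by
      rw [hinv, hβ]
      ring
    have hle : β ≤ B := by
      refine F3_growth (C := C) (by linarith) fun r => ?_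
      have h2 := F3_low hβ1 hsum r
      have h3 := h r
      rw [← F3_abs] at h3
      exact (h2.trans (le_abs_self _)).trans h3
    rcases abs_choice x with hc | hc
    · rw [hc] at hsum
      refine ⟨(β : ℂ), ?_, ?_, ?_, Or.inr (Complex.ofReal_im β)⟩
      · rw [← Complex.ofReal_inv, ← Complex.ofReal_add, ← hsum]
      · rw [Complex.norm_real, Real.norm_eq_abs, abs_of_pos (by linarith)]
        exact hβ1.le
      · rw [Complex.norm_real, Real.norm_eq_abs, abs_of_pos (by linarith)]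
        exact hle
    · have hx' : x = -β + (-β)⁻¹ := by
        rw [inv_neg, ← neg_add, ← hsum, hc, neg_neg]
      refine ⟨((-β : ℝ) : ℂ), ?_, ?_, ?_, Or.inr (Complex.ofReal_im _)⟩
      · rw [← Complex.ofReal_inv, ← Complex.ofReal_add, ← hx']
      · rw [Complex.norm_real, Real.norm_eq_abs, abs_neg, abs_of_pos (by linarith)]
        exact hβ1.le
      · rw [Complex.norm_real, Real.norm_eq_abs, abs_neg, abs_of_pos (by linarith)]
        exact hle

theorem p_F3 : S_F3 := by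
  intro N k a hk h hC
  obtain ⟨C, hC⟩ := hC
  refine ⟨⟨?_, ?_, ?_⟩, ?_⟩
  · rw [lam, h.zero, zero_div]
  · rw [lam, h.one, Nat.cast_one, Real.one_rpow, div_one]
  · intro m n hmn
    rw [lam, lam, lam, h.mul m n hmn, Nat.cast_mul,
      Real.mul_rpow (Nat.cast_nonneg m) (Nat.cast_nonneg n), mul_div_mul_comm]
  intro p hp
  have hp0 : (0 : ℝ) < p := by exact_mod_cast hp.pos
  have hB : 1 ≤ Real.sqrt p := by
    rw [Real.one_le_sqrt]
    exact_mod_cast hp.one_le
  refine ⟨fun hN => ⟨?_, fun r => (F3_good hk h hp hN r).1⟩, fun hN => ?_⟩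
  · refine F3_sat (C := C) hB fun r => ?_
    rw [← (F3_good hk h hp hN r).1]
    exact F3_bound hp hC r
  · have h1 : ∀ r, lam k a (p ^ r) = lam k a p ^ r := fun r => by
      rw [F3_lam, F3_bad h hp hN r, lam, div_pow]
    refine ⟨?_, h1⟩
    refine F3_growth (C := C) (by linarith) fun r => ?_
    rw [← abs_pow, ← h1 r]
    exact F3_bound hp hC r

end Pool.Agent.Lib.MP_058a58_ag.MT
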