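import Pool.Agent.Lib.MP_058a58_ag.MT.Stm2

set_option autoImplicit false

/-!
# The integrals for `ht`
-/

open MeasureTheory Filter Topology Set

namespace Pool.Agent.Lib.MP_058a58_ag.MT

/-- Euler's integral. -/
private theorem G1_euler (q r : ℝ) (hq : 0 < q) (hr : 0 < r) :
    IntegrableOn (fun y : ℝ => Real.exp (-r * y) * y ^ (q - 1)) (Ioi 0) ∧
    ∫ y in Ioi (0 : ℝ), Real.exp (-r * y) * y ^ (q - 1) = r ^ (-q) * Real.Gamma q := by
  constructor
  · have h := integrableOn_rpow_mul_exp_neg_mul_rpow (p := 1) (s := q - 1) (b := r) (by linarith)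
      one_pos hr
    refine h.congr_fun ?_ measurableSet_Ioi
    intro y _
    simp only [Real.rpow_one]
    ring
  · have h := Real.integral_rpow_mul_exp_neg_mul_Ioi hq hr
    rw [Real.rpow_neg hr.le, ← Real.inv_rpow hr.le, ← one_div, ← h]
    refine setIntegral_congr_fun measurableSet_Ioi ?_
    intro y _
    simp only [neg_mul]
    ring

/-- Bernoulli. -/
private theorem G1_bern (l : ℕ) (s t : ℝ) (ht : 0 < t) :
    |hh l s t - t ^ s| ≤ ((l : ℝ) + 4) * t ^ (s + 1) := by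
  have h0 : 0 < t ^ s := Real.rpow_pos_of_pos ht s
  have h1 : (0 : ℝ) < 1 + t := by linarith
  have h2 : 1 + ((l + 4 : ℕ) : ℝ) * ((1 + t)⁻¹ - 1) ≤ (1 + ((1 + t)⁻¹ - 1)) ^ (l + 4) :=
    one_add_mul_le_pow (by
      have : 0 < (1 + t)⁻¹ := inv_pos.2 h1
      linarith) _
  have h3 : 1 + ((1 + t)⁻¹ - 1) = (1 + t)⁻¹ := by ring
  rw [h3] at h2
  have h4 : (1 + t)⁻¹ - 1 ≥ -t := by
    have : (1 + t)⁻¹ - 1 = -(t / (1 + t)) := by field_simp; ring
    rw [this]
    have : t / (1 + t) ≤ t := div_le_self ht.le (by linarith)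
    linarith
  have h5 : 1 - ((1 + t)⁻¹) ^ (l + 4) ≤ ((l : ℝ) + 4) * t := by
    have h6 : (0 : ℝ) ≤ ((l + 4 : ℕ) : ℝ) := Nat.cast_nonneg _
    have h7 : ((l + 4 : ℕ) : ℝ) * ((1 + t)⁻¹ - 1) ≥ ((l + 4 : ℕ) : ℝ) * (-t) :=
      mul_le_mul_of_nonneg_left h4 h6
    push_cast at h2 h7 ⊢
    linarith
  have h6 : ((1 + t)⁻¹) ^ (l + 4) ≤ 1 := by
    apply pow_le_one₀ (inv_nonneg.2 h1.le)
    exact inv_le_one_of_one_le₀ (by linarith)
  have h7 : hh l s t = t ^ s * ((1 + t)⁻¹) ^ (l + 4) := by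
    unfold hh
    rw [inv_pow, div_eq_mul_inv]
  rw [h7, abs_sub_comm, abs_of_nonneg (by nlinarith), Real.rpow_add ht, Real.rpow_one]
  nlinarith

private theorem G1_sq (n : ℕ) (y s : ℝ) (hn : 1 ≤ n) (hy : 0 < y) :
    (y / (n : ℝ) ^ 2) ^ s = y ^ s * ((n : ℝ) ^ 2) ^ (-s) := by
  have h1 : (0 : ℝ) < (n : ℝ) ^ 2 := by positivity
  rw [Real.div_rpow hy.le h1.le, Real.rpow_neg h1.le, div_eq_mul_inv]

/-- The main term of `ht`. -/
private noncomputable def G1_Z (M : ℕ) (s : ℝ) : ℝ :=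
  ∑' n : ℕ, if 1 ≤ n ∧ n.Coprime M then ((n : ℝ) ^ 2) ^ (-s) else 0

private theorem G1_le (n : ℕ) (s : ℝ) (hn : 1 ≤ n) (hs : 1 ≤ s) :
    ((n : ℝ) ^ 2) ^ (-s) ≤ 1 / (n : ℝ) ^ 2 := by
  have h1 : (1 : ℝ) ≤ (n : ℝ) ^ 2 := by
    have : (1 : ℝ) ≤ n := by exact_mod_cast hn
    nlinarith
  calc ((n : ℝ) ^ 2) ^ (-s) ≤ ((n : ℝ) ^ 2) ^ (-1 : ℝ) :=
        Real.rpow_le_rpow_of_exponent_le h1 (by linarith)
    _ = 1 / (n : ℝ) ^ 2 := by rw [Real.rpow_neg_one, one_div]

private theorem G1_sum2 : Summable (fun n : ℕ => 1 / (n : ℝ) ^ 2) :=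
  Real.summable_one_div_nat_pow.2 (by norm_num)

private theorem G1_Zsum (M : ℕ) (s : ℝ) (hs : 1 ≤ s) :
    Summable (fun n : ℕ => if 1 ≤ n ∧ n.Coprime M then ((n : ℝ) ^ 2) ^ (-s) else 0) := by
  refine Summable.of_nonneg_of_le ?_ ?_ G1_sum2
  · intro n
    split_ifs <;> positivity
  · intro n
    split_ifs with h
    · exact G1_le n s h.1 hs
    · positivity

private theorem G1_Z_ge (M : ℕ) (s : ℝ) (hs : 1 ≤ s) : 1 ≤ G1_Z M s := by
  have h := (G1_Zsum M s hs).le_tsum 1 (by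
    intro n _
    split_ifs <;> positivity)
  simpa [G1_Z] using h

private theorem G1_pt (hHT : R_HT) (M l : ℕ) (s : ℝ) (hM : 1 ≤ M) (hs : 1 < s) (hs2 : s ≤ 2)
    (y : ℝ) (hy : 0 < y) :
    |ht M l s y - G1_Z M s * y ^ s| ≤
      (((l : ℝ) + 4) * ∑' n : ℕ, 1 / (n : ℝ) ^ 2) * y ^ (s + 1) := by
  have h1 := ((hHT M l s hM hs hs2).2.1 y hy).2
  have h2 := (G1_Zsum M s hs.le).mul_right (y ^ s)
  have h3 : ht M l s y - G1_Z M s * y ^ s = ∑' n : ℕ,
      ((if 1 ≤ n ∧ n.Coprime M then hh l s (y / (n : ℝ) ^ 2) else 0) -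
        (if 1 ≤ n ∧ n.Coprime M then ((n : ℝ) ^ 2) ^ (-s) else 0) * y ^ s) := by
    rw [h1.tsum_sub h2, tsum_mul_right]
    rfl
  rw [h3, ← Real.norm_eq_abs]
  have h4 : HasSum (fun n : ℕ => (((l : ℝ) + 4) * (1 / (n : ℝ) ^ 2)) * y ^ (s + 1))
      ((((l : ℝ) + 4) * ∑' n : ℕ, 1 / (n : ℝ) ^ 2) * y ^ (s + 1)) :=
    (G1_sum2.hasSum.mul_left _).mul_right _
  refine tsum_of_norm_bounded h4 ?_
  intro n
  have hyp : 0 < y ^ (s + 1) := Real.rpow_pos_of_pos hy _
  split_ifs with h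
  · have hn : (0 : ℝ) < (n : ℝ) ^ 2 := by
      have : (1 : ℝ) ≤ n := by exact_mod_cast h.1
      positivity
    have h5 := G1_bern l s (y / (n : ℝ) ^ 2) (div_pos hy hn)
    rw [G1_sq n y s h.1 hy, G1_sq n y (s + 1) h.1 hy] at h5
    rw [Real.norm_eq_abs, mul_comm _ (y ^ s)]
    refine h5.trans ?_
    have h6 := G1_le n (s + 1) h.1 (by linarith)
    have h7 : (0 : ℝ) ≤ (l : ℝ) + 4 := by positivity
    calc ((l : ℝ) + 4) * (y ^ (s + 1) * ((n : ℝ) ^ 2) ^ (-(s + 1)))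
        ≤ ((l : ℝ) + 4) * (y ^ (s + 1) * (1 / (n : ℝ) ^ 2)) :=
          mul_le_mul_of_nonneg_left (mul_le_mul_of_nonneg_left h6 hyp.le) h7
      _ = _ := by ring
  · simp only [zero_mul, sub_zero, norm_zero]
    positivity

theorem p_G1 : S_G1 := by
  intro hHT M l K hM hK
  -- the function `Γ(q) (4π)^(-q)`
  have hcont : ∀ a b : ℝ, 0 < a → ContinuousOn
      (fun q : ℝ => (4 * Real.pi) ^ (-q) * Real.Gamma q) (Icc a b) := by
    intro a b ha
    refine ContinuousOn.mul ?_ ?_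
    · refine ContinuousOn.rpow continuousOn_const continuousOn_id.neg ?_
      intro x _
      left
      positivity
    · intro x hx
      refine (Real.differentiableAt_Gamma ?_).continuousAt.continuousWithinAt
      intro m hm
      have h1 : 0 < x := lt_of_lt_of_le ha hx.1
      have h2 : (0 : ℝ) ≤ m := Nat.cast_nonneg m
      linarith
  obtain ⟨q₀, hq₀, hmin⟩ := isCompact_Icc.exists_isMinOn (nonempty_Icc.2 (by linarith : K ≤ K + 1))
    (hcont K (K + 1) (by linarith))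
  obtain ⟨C₂, hC₂⟩ := isCompact_Icc.exists_bound_of_continuousOn
    (hcont (K + 1) (K + 2) (by linarith))
  have hc0 : 0 < (4 * Real.pi) ^ (-q₀) * Real.Gamma q₀ := by
    have h1 : 0 < q₀ := by linarith [hq₀.1]
    have := Real.Gamma_pos_of_pos h1
    positivity
  set Z' : ℝ := ∑' n : ℕ, 1 / (n : ℝ) ^ 2 with hZ'
  have hZ'0 : 0 ≤ Z' := tsum_nonneg (fun n => by positivity)
  refine ⟨(((l : ℝ) + 4) * Z') * C₂, (4 * Real.pi) ^ (-q₀) * Real.Gamma q₀, hc0, ?_⟩
  intro s hs hs2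
  refine ⟨G1_Z M s * ((4 * Real.pi) ^ (-(s + K - 1)) * Real.Gamma (s + K - 1)), ?_, ?_⟩
  · have h1 : (4 * Real.pi) ^ (-q₀) * Real.Gamma q₀ ≤
        (4 * Real.pi) ^ (-(s + K - 1)) * Real.Gamma (s + K - 1) :=
      hmin (show s + K - 1 ∈ Icc K (K + 1) from ⟨by linarith, by linarith⟩)
    have h2 := G1_Z_ge M s hs.le
    nlinarith
  · intro n hn
    have hn0 : (0 : ℝ) < n := by exact_mod_cast hn
    have hr : (0 : ℝ) < 4 * Real.pi * n := by positivity
    obtain ⟨hI1, hJ1⟩ := G1_euler (s + K - 1) (4 * Real.pi * n) (by linarith) hr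
    obtain ⟨hI2, hJ2⟩ := G1_euler (s + K) (4 * Real.pi * n) (by linarith) hr
    have hf1 : ∀ y ∈ Ioi (0 : ℝ), Real.exp (-(4 * Real.pi * n) * y) * y ^ (s + K - 1 - 1) =
        Real.exp (-4 * Real.pi * n * y) * y ^ (K - 2) * y ^ s := by
      intro y hy
      have e1 : -(4 * Real.pi * n) * y = -4 * Real.pi * n * y := by ring
      rw [e1, mul_assoc (Real.exp (-4 * Real.pi * n * y)), ← Real.rpow_add hy]
      congr 2
      ring
    have hf2 : ∀ y ∈ Ioi (0 : ℝ), Real.exp (-(4 * Real.pi * n) * y) * y ^ (s + K - 1) =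
        Real.exp (-4 * Real.pi * n * y) * y ^ (K - 2) * y ^ (s + 1) := by
      intro y hy
      have e1 : -(4 * Real.pi * n) * y = -4 * Real.pi * n * y := by ring
      rw [e1, mul_assoc (Real.exp (-4 * Real.pi * n * y)), ← Real.rpow_add hy]
      congr 2
      ring
    rw [integrableOn_congr_fun hf1 measurableSet_Ioi] at hI1
    rw [integrableOn_congr_fun hf2 measurableSet_Ioi] at hI2
    rw [setIntegral_congr_fun measurableSet_Ioi hf1] at hJ1
    rw [setIntegral_congr_fun measurableSet_Ioi hf2] at hJ2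
    have hmeas : Measurable (ht M l s) := (hHT M l s hM hs hs2).1
    -- the bound for the difference
    have hpt : ∀ y ∈ Ioi (0 : ℝ), ‖Real.exp (-4 * Real.pi * n * y) * y ^ (K - 2) *
        (ht M l s y - G1_Z M s * y ^ s)‖ ≤ (((l : ℝ) + 4) * Z') *
          (Real.exp (-4 * Real.pi * n * y) * y ^ (K - 2) * y ^ (s + 1)) := by
      intro y hy
      have h1 := G1_pt hHT M l s hM hs hs2 y hy
      have h2 : 0 ≤ Real.exp (-4 * Real.pi * n * y) * y ^ (K - 2) :=
        mul_nonneg (Real.exp_pos _).le (Real.rpow_nonneg (le_of_lt hy) _)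
      rw [norm_mul, Real.norm_of_nonneg h2, Real.norm_eq_abs]
      calc Real.exp (-4 * Real.pi * n * y) * y ^ (K - 2) * |ht M l s y - G1_Z M s * y ^ s|
          ≤ Real.exp (-4 * Real.pi * n * y) * y ^ (K - 2) *
            ((((l : ℝ) + 4) * Z') * y ^ (s + 1)) := mul_le_mul_of_nonneg_left h1 h2
        _ = _ := by ring
    have hID : IntegrableOn (fun y : ℝ => Real.exp (-4 * Real.pi * n * y) * y ^ (K - 2) *
        (ht M l s y - G1_Z M s * y ^ s)) (Ioi 0) := by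
      refine Integrable.mono' (hI2.const_mul (((l : ℝ) + 4) * Z')) ?_ ?_
      · refine Measurable.aestronglyMeasurable ?_
        refine Measurable.mul ?_ ?_
        · exact (Real.measurable_exp.comp (measurable_const.mul measurable_id)).mul
            (measurable_id.pow_const _)
        · exact hmeas.sub ((measurable_id.pow_const _).const_mul _)
      · exact (ae_restrict_iff' measurableSet_Ioi).2 (Eventually.of_forall hpt)
    have hIG : IG K (ht M l s) n -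
        G1_Z M s * ((4 * Real.pi) ^ (-(s + K - 1)) * Real.Gamma (s + K - 1)) *
          (n : ℝ) ^ (-(s + K - 1)) =
        ∫ y in Ioi (0 : ℝ), Real.exp (-4 * Real.pi * n * y) * y ^ (K - 2) *
          (ht M l s y - G1_Z M s * y ^ s) := by
      have h1 : G1_Z M s * ((4 * Real.pi) ^ (-(s + K - 1)) * Real.Gamma (s + K - 1)) *
          (n : ℝ) ^ (-(s + K - 1)) = ∫ y in Ioi (0 : ℝ), G1_Z M s *
            (Real.exp (-4 * Real.pi * n * y) * y ^ (K - 2) * y ^ s) := by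
        rw [integral_const_mul, hJ1, Real.mul_rpow (by positivity) hn0.le]
        ring
      have h2 : IG K (ht M l s) n = ∫ y in Ioi (0 : ℝ),
          (Real.exp (-4 * Real.pi * n * y) * y ^ (K - 2) * (ht M l s y - G1_Z M s * y ^ s) +
            G1_Z M s * (Real.exp (-4 * Real.pi * n * y) * y ^ (K - 2) * y ^ s)) := by
        unfold IG
        refine setIntegral_congr_fun measurableSet_Ioi ?_
        intro y _
        ring
      rw [h2, h1, integral_add hID (hI1.const_mul _)]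
      ring
    rw [hIG, ← Real.norm_eq_abs]
    have h3 : ‖∫ y in Ioi (0 : ℝ), Real.exp (-4 * Real.pi * n * y) * y ^ (K - 2) *
          (ht M l s y - G1_Z M s * y ^ s)‖ ≤ ∫ y in Ioi (0 : ℝ), (((l : ℝ) + 4) * Z') *
          (Real.exp (-4 * Real.pi * n * y) * y ^ (K - 2) * y ^ (s + 1)) :=
      norm_integral_le_of_norm_le (hI2.const_mul _)
        ((ae_restrict_iff' measurableSet_Ioi).2 (Eventually.of_forall hpt))
    refine h3.trans ?_
    rw [integral_const_mul, hJ2, Real.mul_rpow (by positivity) hn0.le]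
    have h4 := hC₂ (s + K) ⟨by linarith, by linarith⟩
    rw [Real.norm_eq_abs] at h4
    have h5 := (le_abs_self _).trans h4
    have h6 : 0 ≤ (n : ℝ) ^ (-(s + K)) := Real.rpow_nonneg hn0.le _
    have h7 : (0 : ℝ) ≤ ((l : ℝ) + 4) * Z' := by positivity
    calc ((l : ℝ) + 4) * Z' * ((4 * Real.pi) ^ (-(s + K)) * (n : ℝ) ^ (-(s + K)) *
          Real.Gamma (s + K)) = (((l : ℝ) + 4) * Z' * ((4 * Real.pi) ^ (-(s + K)) *
            Real.Gamma (s + K))) * (n : ℝ) ^ (-(s + K)) := by ring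
      _ ≤ (((l : ℝ) + 4) * Z' * C₂) * (n : ℝ) ^ (-(s + K)) :=
        mul_le_mul_of_nonneg_right (mul_le_mul_of_nonneg_left h5 h7) h6

end Pool.Agent.Lib.MP_058a58_ag.MT
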