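import Pool.Agent.Lib.MP_058a58_ag.MT.Stm3

set_option autoImplicit false

/-!
# Twists by modular forms, piece GR: the Gram matrix
-/

open Polynomial Filter Topology UpperHalfPlane Set
open scoped MatrixGroups
open TatePole (RR)

namespace Pool.Agent.Lib.MP_058a58_ag.MT

private lemma GR_comm (k k' : ℕ) (a b : ℕ → ℝ) (s : ℝ) : DD k k' a b s = DD k' k b a s := by
  unfold DD
  exact tsum_congr fun n => by ring

private lemma GR_swap {N N' k k' : ℕ} {f g : ℍ → ℂ} {a b : ℕ → ℝ} (h : Pair N N' k k' f g a b) :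
    Pair N' N k' k g f b a :=
  ⟨h.hN', h.hN, h.hk', h.hk, h.hg, h.hf, h.hb, h.ha⟩

private lemma GR_diag {N N' k k' : ℕ} {f g : ℍ → ℂ} {a b : ℕ → ℝ} (h : Pair N N' k k' f g a b) :
    Pair N N k k f f a a :=
  ⟨h.hN, h.hN, h.hk, h.hk, h.hf, h.hf, h.ha, h.ha⟩

theorem p_GR : S_GR := by
  intro hDBE hDBL hDG hHB hEP N N' k k' f g a b hp
  have hHa := hHB k f a hp.hf.toIsQ
  have hHb := hHB k' g b hp.hg.toIsQ
  constructor
  · obtain ⟨C1, hC1⟩ := hEP N N k k a a hp.hN hp.hN hp.hk hp.hk hp.ha hp.ha hHa hHa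
      (hDG N N k k f f a a (GR_diag hp)).2
    obtain ⟨C0, hC0⟩ := (hDG N N' k k' f g a b hp).1
    have hpos : 0 < C0 := by
      have h1 := (hC1 2 (by norm_num) le_rfl).1
      have h2 := hC0 2 (by norm_num) le_rfl
      have h3 : 0 < |DD k k a a 2| := abs_pos.2 h1
      have h4 : C0 / (2 - 1) = C0 := by norm_num
      linarith
    refine ⟨Real.log C0 + C1, fun s hs hs' => ?_⟩
    obtain ⟨h1, h2⟩ := hC1 s hs hs'
    have h3 := hC0 s hs hs'
    have h4 : Real.log |DD k k a a s| ≤ Real.log (C0 / (s - 1)) :=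
      Real.log_le_log (abs_pos.2 h1) h3
    have h5 : Real.log (C0 / (s - 1)) = Real.log C0 + Real.log (1 / (s - 1)) := by
      rw [← Real.log_mul hpos.ne' (by
        have : 0 < 1 / (s - 1) := by
          apply one_div_pos.2
          linarith
        exact this.ne')]
      congr 1
      ring
    linarith
  · intro hd
    obtain ⟨C1, hC1⟩ := hEP N N' k k' a b hp.hN hp.hN' hp.hk hp.hk' hp.ha hp.hb hHa hHb
      (hDG N N' k k' f g a b hp).2
    have key : (∃ C : ℝ, ∀ s : ℝ, 1 < s → s ≤ 2 → |DD k k' a b s| ≤ C) →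
        ∃ C : ℝ, ∀ s : ℝ, 1 < s → s ≤ 2 → RR (fun p => th N k a p * th N' k' b p) s ≤ C := by
      rintro ⟨C0, hC0⟩
      refine ⟨Real.log C0 + C1, fun s hs hs' => ?_⟩
      obtain ⟨h1, h2⟩ := hC1 s hs hs'
      have h4 : Real.log |DD k k' a b s| ≤ Real.log C0 :=
        Real.log_le_log (abs_pos.2 h1) (hC0 s hs hs')
      linarith
    apply key
    rcases lt_trichotomy k k' with hk | hk | hk
    · obtain ⟨l, rfl⟩ := Nat.exists_eq_add_of_lt hk
      obtain ⟨C, hC⟩ := hDBL N' N k (l + 1) g f b a (GR_swap hp) (by omega)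
      refine ⟨C, fun s hs hs' => ?_⟩
      rw [GR_comm]
      exact hC s hs hs'
    · subst hk
      rcases hd with hd | hd
      · exact absurd rfl hd
      · exact hDBE N N' k f g a b hp hd
    · obtain ⟨l, rfl⟩ := Nat.exists_eq_add_of_lt hk
      exact hDBL N N' k' (l + 1) f g a b hp (by omega)

end Pool.Agent.Lib.MP_058a58_ag.MT
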