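import Pool.Agent.Lib.MP_058a58_ag.MT.Stm

set_option autoImplicit false

/-! # LSP: lattice sums on the translates of the fundamental domain -/

open UpperHalfPlane MeasureTheory Filter Topology
open scoped MatrixGroups Modular

namespace Pool.Agent.Lib.MP_058a58_ag.MT

/-- The residues prime to `M`. -/
private def LSP_S (M : ℕ) : Finset ℕ := (Finset.range M).filter (fun u => u.Coprime M)

open Classical in
private lemma LSP_point (M : ℕ) (hM : 1 ≤ M) (f : ℤ × ℤ → ℂ) (v : ℤ × ℤ) :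
    (if (M : ℤ) ∣ v.1 ∧ IsCoprime v.2 (M : ℤ) then f v else 0) =
      ∑ u ∈ LSP_S M, if (M : ℤ) ∣ v.1 ∧ (M : ℤ) ∣ v.2 - (u : ℤ) then f v else 0 := by
  have hM0 : (0 : ℤ) < (M : ℤ) := by exact_mod_cast hM
  by_cases h1 : (M : ℤ) ∣ v.1
  · simp only [h1, true_and]
    obtain ⟨u0, hu0⟩ : ∃ u0 : ℕ, (u0 : ℤ) = v.2 % (M : ℤ) :=
      ⟨(v.2 % (M : ℤ)).toNat, Int.toNat_of_nonneg (Int.emod_nonneg _ hM0.ne')⟩
    have hu0M : u0 < M := by
      have := Int.emod_lt_of_pos v.2 hM0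
      rw [← hu0] at this
      exact_mod_cast this
    have hd : (M : ℤ) ∣ v.2 - (u0 : ℤ) := by
      rw [hu0]
      exact Int.dvd_self_sub_emod
    have hiff : ∀ u ∈ LSP_S M, ((M : ℤ) ∣ v.2 - (u : ℤ)) ↔ u0 = u := by
      intro u hu
      have huM : u < M := by
        have := (Finset.mem_filter.1 hu).1
        exact Finset.mem_range.1 this
      constructor
      · intro h
        have h3 : (M : ℤ) ∣ (u0 : ℤ) - (u : ℤ) := by
          have := dvd_sub h hd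
          have e : v.2 - (u : ℤ) - (v.2 - (u0 : ℤ)) = (u0 : ℤ) - (u : ℤ) := by ring
          rwa [e] at this
        have h4 : |(u0 : ℤ) - (u : ℤ)| < (M : ℤ) := by
          rw [abs_lt]
          constructor <;> omega
        have h5 := Int.eq_zero_of_abs_lt_dvd h3 h4
        omega
      · intro h
        rw [← h]
        exact hd
    have hcop : IsCoprime v.2 (M : ℤ) ↔ u0 ∈ LSP_S M := by
      obtain ⟨k, hk⟩ := hd
      have e : v.2 = (u0 : ℤ) + (M : ℤ) * k := by linarith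
      rw [e, IsCoprime.add_mul_left_left_iff, Nat.isCoprime_iff_coprime]
      unfold LSP_S
      rw [Finset.mem_filter, Finset.mem_range]
      exact ⟨fun h => ⟨hu0M, h⟩, fun h => h.2⟩
    have hsum : (∑ u ∈ LSP_S M, if (M : ℤ) ∣ v.2 - (u : ℤ) then f v else 0) =
        ∑ u ∈ LSP_S M, if u0 = u then f v else 0 := by
      refine Finset.sum_congr rfl ?_
      intro u hu
      by_cases h : u0 = u
      · rw [if_pos h, if_pos ((hiff u hu).2 h)]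
      · rw [if_neg h, if_neg (fun h' => h ((hiff u hu).1 h'))]
    rw [hsum, Finset.sum_ite_eq]
    by_cases h : u0 ∈ LSP_S M
    · rw [if_pos h, if_pos (hcop.2 h)]
    · rw [if_neg h, if_neg (fun h' => h (hcop.1 h'))]
  · simp [h1]

open Classical in
private lemma LSP_class (M : ℕ) (hM : 1 ≤ M) (f : ℤ × ℤ → ℂ) (u : ℤ) :
    ∑' v : ℤ × ℤ, (if (M : ℤ) ∣ v.1 ∧ (M : ℤ) ∣ v.2 - u then f v else 0) =
      ∑' t : ℤ × ℤ, f ((M : ℤ) * t.1, u + (M : ℤ) * t.2) := by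
  have hM0 : (M : ℤ) ≠ 0 := by
    have : M ≠ 0 := by omega
    exact_mod_cast this
  have hinj : Function.Injective
      (fun t : ℤ × ℤ => (((M : ℤ) * t.1, u + (M : ℤ) * t.2) : ℤ × ℤ)) := by
    intro t t' h
    simp only [Prod.mk.injEq] at h
    have h1 := mul_left_cancel₀ hM0 h.1
    have h2 := mul_left_cancel₀ hM0 (add_left_cancel h.2)
    exact Prod.ext h1 h2
  have hsupp : Function.support
      (fun v : ℤ × ℤ => if (M : ℤ) ∣ v.1 ∧ (M : ℤ) ∣ v.2 - u then f v else 0) ⊆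
      Set.range (fun t : ℤ × ℤ => (((M : ℤ) * t.1, u + (M : ℤ) * t.2) : ℤ × ℤ)) := by
    intro v hv
    rw [Function.mem_support] at hv
    by_cases h : (M : ℤ) ∣ v.1 ∧ (M : ℤ) ∣ v.2 - u
    · obtain ⟨⟨a, ha⟩, ⟨b, hb⟩⟩ := h
      refine ⟨(a, b), ?_⟩
      refine Prod.ext ha.symm ?_
      show u + (M : ℤ) * b = v.2
      linarith
    · exact absurd (if_neg h) hv
  rw [← hinj.tsum_eq hsupp]
  refine tsum_congr ?_
  intro t
  rw [if_pos]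
  constructor
  · exact dvd_mul_right _ _
  · show (M : ℤ) ∣ u + (M : ℤ) * t.2 - u
    have e : u + (M : ℤ) * t.2 - u = (M : ℤ) * t.2 := by ring
    rw [e]
    exact dvd_mul_right _ _

open Classical in
private lemma LSP_split (M : ℕ) (hM : 1 ≤ M) (f : ℤ × ℤ → ℂ) (hf : Summable (fun v => ‖f v‖)) :
    ∑' v : ℤ × ℤ, (if (M : ℤ) ∣ v.1 ∧ IsCoprime v.2 (M : ℤ) then f v else 0) =
      ∑ u ∈ LSP_S M, ∑' t : ℤ × ℤ, f ((M : ℤ) * t.1, (u : ℤ) + (M : ℤ) * t.2) := by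
  calc ∑' v : ℤ × ℤ, (if (M : ℤ) ∣ v.1 ∧ IsCoprime v.2 (M : ℤ) then f v else 0)
      = ∑' v : ℤ × ℤ, ∑ u ∈ LSP_S M,
          (if (M : ℤ) ∣ v.1 ∧ (M : ℤ) ∣ v.2 - (u : ℤ) then f v else 0) :=
        tsum_congr (LSP_point M hM f)
    _ = ∑ u ∈ LSP_S M, ∑' v : ℤ × ℤ,
          (if (M : ℤ) ∣ v.1 ∧ (M : ℤ) ∣ v.2 - (u : ℤ) then f v else 0) := by
        refine Summable.tsum_finsetSum ?_
        intro u _
        refine Summable.of_norm_bounded hf ?_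
        intro v
        by_cases h : (M : ℤ) ∣ v.1 ∧ (M : ℤ) ∣ v.2 - (u : ℤ)
        · rw [if_pos h]
        · rw [if_neg h, norm_zero]
          exact norm_nonneg _
    _ = _ := Finset.sum_congr rfl (fun u _ => LSP_class M hM f (u : ℤ))

/-- `t ↦ t δ` on row vectors. -/
private def LSP_e (δ : SL(2, ℤ)) : ℤ × ℤ ≃ ℤ × ℤ where
  toFun t := (t.1 * δ 0 0 + t.2 * δ 1 0, t.1 * δ 0 1 + t.2 * δ 1 1)
  invFun t := (t.1 * δ 1 1 - t.2 * δ 1 0, - t.1 * δ 0 1 + t.2 * δ 0 0)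
  left_inv t := by
    have h : δ 0 0 * δ 1 1 - δ 0 1 * δ 1 0 = 1 := by
      have := δ.det_coe
      rwa [Matrix.det_fin_two] at this
    refine Prod.ext ?_ ?_
    · show (t.1 * δ 0 0 + t.2 * δ 1 0) * δ 1 1 - (t.1 * δ 0 1 + t.2 * δ 1 1) * δ 1 0 = t.1
      linear_combination t.1 * h
    · show - (t.1 * δ 0 0 + t.2 * δ 1 0) * δ 0 1 + (t.1 * δ 0 1 + t.2 * δ 1 1) * δ 0 0 = t.2
      linear_combination t.2 * h
  right_inv t := by
    have h : δ 0 0 * δ 1 1 - δ 0 1 * δ 1 0 = 1 := by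
      have := δ.det_coe
      rwa [Matrix.det_fin_two] at this
    refine Prod.ext ?_ ?_
    · show (t.1 * δ 1 1 - t.2 * δ 1 0) * δ 0 0 + (- t.1 * δ 0 1 + t.2 * δ 0 0) * δ 1 0 = t.1
      linear_combination t.1 * h
    · show (t.1 * δ 1 1 - t.2 * δ 1 0) * δ 0 1 + (- t.1 * δ 0 1 + t.2 * δ 0 0) * δ 1 1 = t.2
      linear_combination t.2 * h

private lemma LSP_j_ne (δ : SL(2, ℤ)) (z : ℍ) : jf δ z ≠ 0 := by
  have h := UpperHalfPlane.denom_ne_zero (δ : GL (Fin 2) ℝ) z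
  rw [ModularGroup.denom_apply] at h
  exact h

private lemma LSP_coe (δ : SL(2, ℤ)) (z : ℍ) :
    ((δ • z : ℍ) : ℂ) * jf δ z = (δ 0 0 : ℂ) * z + (δ 0 1 : ℂ) := by
  have h := UpperHalfPlane.coe_specialLinearGroup_apply δ z
  have hj := LSP_j_ne δ z
  rw [h]
  simp only [algebraMap_int_eq, eq_intCast, Complex.ofReal_intCast]
  unfold jf at hj ⊢
  rw [div_mul_cancel₀ _ hj]

private lemma LSP_sqrt (δ : SL(2, ℤ)) (z : ℍ) :
    Real.sqrt (δ • z : ℍ).im = Real.sqrt z.im / ‖jf δ z‖ := by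
  have h := ModularGroup.im_smul_eq_div_normSq δ z
  rw [ModularGroup.denom_apply] at h
  have h2 : (δ • z : ℍ).im = z.im / ‖jf δ z‖ ^ 2 := by
    rw [h, Complex.normSq_eq_norm_sq]
    rfl
  rw [h2, Real.sqrt_div z.im_pos.le, Real.sqrt_sq (norm_nonneg _)]

private lemma LSP_vz (δ : SL(2, ℤ)) (z : ℍ) (p q : ℤ) :
    vz z (p * δ 0 0 + q * δ 1 0) (p * δ 0 1 + q * δ 1 1) =
      (jf δ z / ‖jf δ z‖) * vz (δ • z) p q := by
  have hj := LSP_j_ne δ z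
  have hn : (‖jf δ z‖ : ℂ) ≠ 0 := by
    exact_mod_cast (norm_ne_zero_iff.2 hj)
  have hs : (Real.sqrt z.im : ℂ) ≠ 0 := by
    exact_mod_cast (Real.sqrt_pos.2 z.im_pos).ne'
  unfold vz
  rw [LSP_sqrt]
  push_cast
  have hc := LSP_coe δ z
  have key : ((p : ℂ) * (δ 0 0 : ℂ) + (q : ℂ) * (δ 1 0 : ℂ)) * (z : ℂ) +
      ((p : ℂ) * (δ 0 1 : ℂ) + (q : ℂ) * (δ 1 1 : ℂ)) =
      jf δ z * ((p : ℂ) * ((δ • z : ℍ) : ℂ) + (q : ℂ)) := by
    have e : jf δ z * ((p : ℂ) * ((δ • z : ℍ) : ℂ) + (q : ℂ)) =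
        (p : ℂ) * (((δ • z : ℍ) : ℂ) * jf δ z) + (q : ℂ) * jf δ z := by ring
    rw [e, hc]
    unfold jf
    ring
  rw [key]
  field_simp

private lemma LSP_u (δ : SL(2, ℤ)) (z : ℍ) : ‖jf δ z / (‖jf δ z‖ : ℂ)‖ = 1 := by
  have hj := LSP_j_ne δ z
  rw [norm_div, Complex.norm_real, norm_norm]
  exact div_self (norm_ne_zero_iff.2 hj)

/-- **LSP.** -/
theorem p_LSP : S_LSP := by
  intro hLS hPB hSM M l hM
  obtain ⟨C0, hC0, h0⟩ := hLS M l hM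
  refine ⟨(LSP_S M).card * C0, by positivity, ?_⟩
  intro s hs1 hs2
  obtain ⟨I, hI0, hI⟩ := h0 s hs1 hs2
  refine ⟨(LSP_S M).card * I, ?_, ?_⟩
  · intro hl
    rw [hI0 hl, mul_zero]
  intro δ z hz
  obtain ⟨-, -, -, -, -, hrot, -⟩ := hPB l s hs1 hs2
  set w : ℂ := jf δ z / ‖jf δ z‖ with hw
  have hw1 : ‖w‖ = 1 := LSP_u δ z
  have hwI : w ^ l * I = I := by
    by_cases hl : l = 0
    · rw [hl, pow_zero, one_mul]
    · rw [hI0 hl, mul_zero]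
  have hdet : δ 0 0 * δ 1 1 - δ 0 1 * δ 1 0 = 1 := by
    have := δ.det_coe
    rwa [Matrix.det_fin_two] at this
  have hcls : ∀ u : ℕ, ∑' t : ℤ × ℤ, phi l s (vz z ((M : ℤ) * t.1) ((u : ℤ) + (M : ℤ) * t.2)) =
      w ^ l * ∑' t : ℤ × ℤ, phi l s (vz (δ • z) (-((u : ℤ) * δ 1 0) + (M : ℤ) * t.1)
        ((u : ℤ) * δ 0 0 + (M : ℤ) * t.2)) := by
    intro u
    rw [← (LSP_e δ).tsum_eq, ← tsum_mul_left]
    refine tsum_congr ?_
    intro t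
    rw [← hrot w _ hw1, hw, ← LSP_vz]
    have e1 : (-((u : ℤ) * δ 1 0) + (M : ℤ) * t.1) * δ 0 0 +
        ((u : ℤ) * δ 0 0 + (M : ℤ) * t.2) * δ 1 0 = (M : ℤ) * ((LSP_e δ) t).1 := by
      show _ = (M : ℤ) * (t.1 * δ 0 0 + t.2 * δ 1 0)
      ring
    have e2 : (-((u : ℤ) * δ 1 0) + (M : ℤ) * t.1) * δ 0 1 +
        ((u : ℤ) * δ 0 0 + (M : ℤ) * t.2) * δ 1 1 = (u : ℤ) + (M : ℤ) * ((LSP_e δ) t).2 := by
      show _ = (u : ℤ) + (M : ℤ) * (t.1 * δ 0 1 + t.2 * δ 1 1)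
      linear_combination (u : ℤ) * hdet
    rw [e1, e2]
  have hZ : Zs M l s z = ∑ u ∈ LSP_S M, w ^ l * ∑' t : ℤ × ℤ, phi l s (vz (δ • z)
      (-((u : ℤ) * δ 1 0) + (M : ℤ) * t.1) ((u : ℤ) * δ 0 0 + (M : ℤ) * t.2)) := by
    unfold Zs
    rw [LSP_split M hM (fun v => phi l s (vz z v.1 v.2)) (hSM l s hs1 hs2 z)]
    exact Finset.sum_congr rfl (fun u _ => hcls u)
  have hκ : ((LSP_S M).card : ℂ) * I = ∑ u ∈ LSP_S M, w ^ l * I := by
    rw [Finset.sum_const, hwI, nsmul_eq_mul]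
  rw [hZ, hκ, ← Finset.sum_sub_distrib]
  calc ‖∑ u ∈ LSP_S M, (w ^ l * (∑' t : ℤ × ℤ, phi l s (vz (δ • z)
      (-((u : ℤ) * δ 1 0) + (M : ℤ) * t.1) ((u : ℤ) * δ 0 0 + (M : ℤ) * t.2))) - w ^ l * I)‖
      ≤ ∑ u ∈ LSP_S M, ‖w ^ l * (∑' t : ℤ × ℤ, phi l s (vz (δ • z)
      (-((u : ℤ) * δ 1 0) + (M : ℤ) * t.1) ((u : ℤ) * δ 0 0 + (M : ℤ) * t.2))) - w ^ l * I‖ :=
        norm_sum_le _ _
    _ ≤ ∑ u ∈ LSP_S M, C0 * Real.sqrt (δ • z).im := by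
        refine Finset.sum_le_sum ?_
        intro u _
        rw [← mul_sub, norm_mul, norm_pow, hw1, one_pow, one_mul]
        have := hI (-((u : ℤ) * δ 1 0), (u : ℤ) * δ 0 0) (δ • z) hz
        exact this
    _ = (LSP_S M).card * C0 * Real.sqrt (δ • z).im := by
        rw [Finset.sum_const, nsmul_eq_mul, mul_assoc]

end Pool.Agent.Lib.MP_058a58_ag.MT
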