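import Pool.Agent.Lib.MP_058a58_ag.MT.Defs

/-!
# Lattice sums: Euler-Maclaurin of order one in two variables, and the test function `phi`
-/

open MeasureTheory Set

namespace Pool.Agent.Lib.MP_058a58_ag.MT

theorem em_core (g g' : ℝ → ℂ) (hd : ∀ x, HasDerivAt g (g' x) x) (hg : Integrable g)
    (hg' : Integrable g') (M : ℝ) (hM : 0 < M) (r : ℝ) :
    Summable (fun n : ℤ => g (r + M * n)) ∧
      ‖(M : ℂ) * ∑' n : ℤ, g (r + M * n) - ∫ x, g x‖ ≤ M * ∫ x, ‖g' x‖ := by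
  set J : ℤ → Set ℝ := fun n => Ioc (r + n • M) (r + (n + 1) • M) with hJ
  have hU : (⋃ n : ℤ, J n) = univ := iUnion_Ioc_add_zsmul hM r
  have hdis : Pairwise (Function.onFun Disjoint J) := pairwise_disjoint_Ioc_add_zsmul r M
  have hmeas : ∀ n, MeasurableSet (J n) := fun n => measurableSet_Ioc
  have h1 : HasSum (fun n => ∫ x in J n, g x) (∫ x, g x) := by
    have := hasSum_integral_iUnion hmeas hdis (f := g) (μ := volume) (by rw [hU]; exact hg.integrableOn)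
    rwa [hU, setIntegral_univ] at this
  have h2 : HasSum (fun n => ∫ x in J n, ‖g' x‖) (∫ x, ‖g' x‖) := by
    have := hasSum_integral_iUnion hmeas hdis (f := fun x => ‖g' x‖) (μ := volume)
      (by rw [hU]; exact hg'.norm.integrableOn)
    rwa [hU, setIntegral_univ] at this
  -- the local estimate
  have h3 : ∀ n : ℤ, ‖(M : ℂ) * g (r + M * n) - ∫ x in J n, g x‖ ≤ M * ∫ x in J n, ‖g' x‖ := by
    intro n
    have hle : r + n • M ≤ r + (n + 1) • M := by
      simp only [zsmul_eq_mul]; push_cast; nlinarith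
    have e1 : (M : ℂ) * g (r + M * n) = ∫ x in J n, g (r + M * n) := by
      rw [setIntegral_const, measureReal_def, Real.volume_Ioc, ENNReal.toReal_ofReal]
      · have : r + (n + 1) • M - (r + n • M) = M := by simp only [zsmul_eq_mul]; push_cast; ring
        rw [this]; simp
      · linarith
    have hfin : volume (J n) < ⊤ := by rw [hJ]; simp [Real.volume_Ioc]
    have hi1 : Integrable (fun _ : ℝ => g (r + M * n)) (volume.restrict (J n)) :=
      (integrableOn_const_iff).2 (Or.inr hfin)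
    rw [e1, ← integral_sub hi1 hg.integrableOn]
    have h4 : ∀ x ∈ J n, ‖g (r + M * n) - g x‖ ≤ ∫ x in J n, ‖g' x‖ := by
      intro x hx
      have hx1 : r + n • M ≤ x := hx.1.le
      have hx2 : x ≤ r + (n + 1) • M := hx.2
      have e2 : r + M * n = r + n • M := by simp only [zsmul_eq_mul]; ring
      rw [e2, norm_sub_rev, ← intervalIntegral.integral_eq_sub_of_hasDerivAt (fun y _ => hd y)
        hg'.intervalIntegrable]
      refine (intervalIntegral.norm_integral_le_integral_norm hx1).trans ?_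
      rw [intervalIntegral.integral_of_le hx1]
      refine setIntegral_mono_set hg'.norm.integrableOn
        (Filter.Eventually.of_forall fun y => norm_nonneg _) ?_
      exact (Ioc_subset_Ioc_right hx2).eventuallyLE
    have h5 := norm_setIntegral_le_of_norm_le_const (μ := volume) (s := J n)
      (f := fun x => g (r + M * n) - g x) hfin h4
    refine h5.trans (le_of_eq ?_)
    have : volume.real (J n) = M := by
      rw [measureReal_def, Real.volume_Ioc, ENNReal.toReal_ofReal]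
      · simp only [zsmul_eq_mul]; push_cast; ring
      · linarith
    rw [this]; ring
  have h4 : Summable (fun n : ℤ => (M : ℂ) * g (r + M * n) - ∫ x in J n, g x) :=
    Summable.of_norm_bounded (g := fun n => M * ∫ x in J n, ‖g' x‖) (h2.summable.mul_left M) h3
  have h5 : Summable (fun n : ℤ => (M : ℂ) * g (r + M * n)) := by
    have := h4.add h1.summable
    simpa using this
  have hMC : (M : ℂ) ≠ 0 := by exact_mod_cast hM.ne'
  have h6 : Summable (fun n : ℤ => g (r + M * n)) := by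
    have := h5.mul_left (M : ℂ)⁻¹
    simpa [← mul_assoc, inv_mul_cancel₀ hMC] using this
  refine ⟨h6, ?_⟩
  rw [← tsum_mul_left, ← h1.tsum_eq, ← Summable.tsum_sub h5 h1.summable]
  refine (tsum_of_norm_bounded (h2.mul_left M) h3)

/-- The majorant `(1 + t ^ 2) ^ (-s / 2)`. -/
noncomputable def sg (s t : ℝ) : ℝ := (1 + t ^ 2) ^ (-s / 2)

theorem sg_pos (s t : ℝ) : 0 < sg s t := by unfold sg; positivity

theorem sg_le_one {s : ℝ} (hs : 0 ≤ s) (t : ℝ) : sg s t ≤ 1 := by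
  unfold sg
  exact Real.rpow_le_one_of_one_le_of_nonpos (by nlinarith [sq_nonneg t]) (by linarith)

theorem sg_integrable {s : ℝ} (hs : 1 < s) : Integrable (sg s) := by
  have := integrable_rpow_neg_one_add_norm_sq (E := ℝ) (μ := volume) (r := s)
    (by simpa using hs)
  refine this.congr (Filter.Eventually.of_forall fun t => ?_)
  simp [sg]

theorem sg_continuous (s : ℝ) : Continuous (sg s) := by
  unfold sg
  refine Continuous.rpow_const (by fun_prop) fun t => Or.inl (by positivity)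

/-- The derivative of the majorant. -/
noncomputable def sg' (s t : ℝ) : ℝ := (2 * t) * (-s / 2) * (1 + t ^ 2) ^ (-s / 2 - 1)

theorem sg_hasDerivAt (s t : ℝ) : HasDerivAt (sg s) (sg' s t) t := by
  have h1 : HasDerivAt (fun t : ℝ => 1 + t ^ 2) (2 * t) t := by
    simpa using (hasDerivAt_pow 2 t).const_add 1
  have := h1.rpow_const (p := -s / 2) (Or.inl (by positivity))
  exact this

theorem sg'_le {s : ℝ} (hs : 0 ≤ s) (t : ℝ) : |sg' s t| ≤ s * sg s t := by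
  unfold sg' sg
  have h0 : 0 < 1 + t ^ 2 := by positivity
  have h1 : (1 + t ^ 2) ^ (-s / 2 - 1) = (1 + t ^ 2) ^ (-s / 2) / (1 + t ^ 2) := by
    rw [Real.rpow_sub h0, Real.rpow_one]
  have h4 : |(1 + t ^ 2) ^ (-s / 2) / (1 + t ^ 2)| = (1 + t ^ 2) ^ (-s / 2) / (1 + t ^ 2) :=
    abs_of_nonneg (div_nonneg (Real.rpow_nonneg h0.le _) h0.le)
  rw [h1, abs_mul, abs_mul, h4]
  have h2 : |2 * t| ≤ 1 + t ^ 2 := by
    rw [abs_le]; constructor <;> nlinarith [sq_nonneg (t - 1), sq_nonneg (t + 1)]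
  have h3 : |(-s / 2)| ≤ s := by rw [abs_le]; constructor <;> linarith
  set P := (1 + t ^ 2) ^ (-s / 2) with hP
  have hP0 : 0 ≤ P := Real.rpow_nonneg h0.le _
  calc |2 * t| * |(-s / 2)| * (P / (1 + t ^ 2))
      ≤ (1 + t ^ 2) * s * (P / (1 + t ^ 2)) := by gcongr
    _ = s * P := by field_simp

theorem sg'_integrable {s : ℝ} (hs : 1 < s) : Integrable (sg' s) := by
  refine Integrable.mono' ((sg_integrable hs).const_mul s) ?_
    (Filter.Eventually.of_forall fun t => ?_)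
  · have : sg' s = deriv (sg s) := by ext t; exact (sg_hasDerivAt s t).deriv.symm
    rw [this]; exact (measurable_deriv _).aestronglyMeasurable
  · simpa using sg'_le (by linarith) t

/-- Sums of the majorant over progressions, uniform in the shift. -/
theorem sg_sum {s : ℝ} (hs : 1 < s) (q M : ℝ) (hq : 0 < q) (hM : 0 < M) (r : ℝ) :
    Summable (fun n : ℤ => sg s ((r + M * n) * q)) ∧
      M * ∑' n : ℤ, sg s ((r + M * n) * q) ≤ (∫ t, sg s t) / q + M * (s * ∫ t, sg s t) := by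
  have hI := sg_integrable hs
  have hd : ∀ x, HasDerivAt (fun x : ℝ => ((sg s (x * q) : ℝ) : ℂ)) ((sg' s (x * q) * q : ℝ) : ℂ) x := by
    intro x
    have h1 : HasDerivAt (fun x : ℝ => x * q) q x := by simpa using (hasDerivAt_id x).mul_const q
    exact ((sg_hasDerivAt s (x * q)).comp x h1).ofReal_comp
  have hg : Integrable (fun x : ℝ => ((sg s (x * q) : ℝ) : ℂ)) :=
    (hI.comp_mul_right' hq.ne').ofReal
  have hg' : Integrable (fun x : ℝ => ((sg' s (x * q) * q : ℝ) : ℂ)) :=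
    (((sg'_integrable hs).comp_mul_right' hq.ne').mul_const q).ofReal
  obtain ⟨hS, hE⟩ := em_core _ _ hd hg hg' M hM r
  have hS' : Summable (fun n : ℤ => sg s ((r + M * n) * q)) := by exact_mod_cast hS
  refine ⟨hS', ?_⟩
  have e1 : ∫ x : ℝ, ((sg s (x * q) : ℝ) : ℂ) = (((∫ t, sg s t) / q : ℝ) : ℂ) := by
    have e0 : ∫ x : ℝ, ((sg s (x * q) : ℝ) : ℂ) = ((∫ x : ℝ, sg s (x * q) : ℝ) : ℂ) :=
      integral_ofReal
    rw [e0, Measure.integral_comp_mul_right (sg s) q, abs_of_pos (inv_pos.2 hq)]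
    congr 1
    simp [div_eq_inv_mul]
  have e2 : ∫ x : ℝ, ‖((sg' s (x * q) * q : ℝ) : ℂ)‖ ≤ s * ∫ t, sg s t := by
    have : ∀ x : ℝ, ‖((sg' s (x * q) * q : ℝ) : ℂ)‖ ≤ s * (sg s (x * q) * q) := by
      intro x
      rw [Complex.norm_real, norm_mul, Real.norm_eq_abs, Real.norm_eq_abs, abs_of_pos hq]
      have := sg'_le (s := s) (by linarith) (x * q)
      nlinarith
    refine (integral_mono hg'.norm (((hI.comp_mul_right' hq.ne').mul_const q).const_mul s)
      this).trans (le_of_eq ?_)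
    rw [integral_const_mul, integral_mul_const, Measure.integral_comp_mul_right (sg s) q,
      abs_of_pos (inv_pos.2 hq)]
    simp only [smul_eq_mul]
    field_simp
  rw [e1] at hE
  have e3 : (M : ℂ) * ∑' n : ℤ, ((sg s ((r + M * n) * q) : ℝ) : ℂ) =
      ((M * ∑' n : ℤ, sg s ((r + M * n) * q) : ℝ) : ℂ) := by push_cast; rfl
  rw [e3, ← Complex.ofReal_sub, Complex.norm_real] at hE
  have := (le_abs_self _).trans hE
  have h4 := mul_le_mul_of_nonneg_left e2 hM.le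
  linarith

/-- Hypotheses on the function of two real variables. -/
structure TwoVar (s A B : ℝ) (f f1 f2 : ℝ → ℝ → ℂ) : Prop where
  d1 : ∀ u e, HasDerivAt (fun u => f u e) (f1 u e) u
  d2 : ∀ u e, HasDerivAt (fun e => f u e) (f2 u e) e
  m1 : ∀ e, Continuous fun u => f1 u e
  m2 : ∀ e, Continuous fun u => f2 u e
  b0 : ∀ u e, ‖f u e‖ ≤ B * (sg s u * sg s e)
  b1 : ∀ u e, ‖f1 u e‖ ≤ A * (sg (3 / 2) u * sg (3 / 2) e)
  b2 : ∀ u e, ‖f2 u e‖ ≤ A * (sg (3 / 2) u * sg (3 / 2) e)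

section
variable {s A B : ℝ} {f f1 f2 : ℝ → ℝ → ℂ}

theorem TwoVar.cont (h : TwoVar s A B f f1 f2) (e : ℝ) : Continuous fun u => f u e :=
  continuous_iff_continuousAt.2 fun u => (h.d1 u e).continuousAt

theorem TwoVar.int0 (h : TwoVar s A B f f1 f2) (hs : 1 < s) (e : ℝ) :
    Integrable fun u => f u e := by
  refine Integrable.mono' (((sg_integrable hs).mul_const (sg s e)).const_mul B)
    (h.cont e).aestronglyMeasurable (Filter.Eventually.of_forall fun u => h.b0 u e)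

theorem TwoVar.int1 (h : TwoVar s A B f f1 f2) (e : ℝ) :
    Integrable fun u => f1 u e := by
  refine Integrable.mono' (((sg_integrable (s := 3 / 2) (by norm_num)).mul_const
    (sg (3 / 2) e)).const_mul A)
    (h.m1 e).aestronglyMeasurable (Filter.Eventually.of_forall fun u => h.b1 u e)

theorem TwoVar.int2 (h : TwoVar s A B f f1 f2) (e : ℝ) :
    Integrable fun u => f2 u e := by
  refine Integrable.mono' (((sg_integrable (s := 3 / 2) (by norm_num)).mul_const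
    (sg (3 / 2) e)).const_mul A)
    (h.m2 e).aestronglyMeasurable (Filter.Eventually.of_forall fun u => h.b2 u e)

theorem TwoVar.nn1 (h : TwoVar s A B f f1 f2) (e : ℝ) :
    ∫ u, ‖f1 u e‖ ≤ A * (∫ t, sg (3 / 2) t) * sg (3 / 2) e := by
  refine (integral_mono (h.int1 e).norm (((sg_integrable (s := 3 / 2) (by norm_num)).mul_const
    (sg (3 / 2) e)).const_mul A) fun u => h.b1 u e).trans (le_of_eq ?_)
  rw [integral_const_mul, integral_mul_const]; ring

theorem TwoVar.nn2 (h : TwoVar s A B f f1 f2) (e : ℝ) :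
    ‖∫ u, f2 u e‖ ≤ A * (∫ t, sg (3 / 2) t) * sg (3 / 2) e := by
  refine (norm_integral_le_integral_norm _).trans ?_
  refine (integral_mono (h.int2 e).norm (((sg_integrable (s := 3 / 2) (by norm_num)).mul_const
    (sg (3 / 2) e)).const_mul A) fun u => h.b2 u e).trans (le_of_eq ?_)
  rw [integral_const_mul, integral_mul_const]; ring

theorem TwoVar.nn0 (h : TwoVar s A B f f1 f2) (hs : 1 < s) (e : ℝ) :
    ‖∫ u, f u e‖ ≤ B * (∫ t, sg s t) * sg s e := by
  refine (norm_integral_le_integral_norm _).trans ?_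
  refine (integral_mono (h.int0 hs e).norm (((sg_integrable hs).mul_const
    (sg s e)).const_mul B) fun u => h.b0 u e).trans (le_of_eq ?_)
  rw [integral_const_mul, integral_mul_const]; ring

/-- One row. -/
theorem TwoVar.row (h : TwoVar s A B f f1 f2) (hs : 1 < s) (q M : ℝ) (hq : 0 < q) (hM : 0 < M)
    (k r e : ℝ) :
    Summable (fun n : ℤ => f ((k + (r + M * n)) / q) e) ∧
      ‖(M : ℂ) * ∑' n : ℤ, f ((k + (r + M * n)) / q) e - (q : ℂ) * ∫ u, f u e‖ ≤
        M * (A * (∫ t, sg (3 / 2) t) * sg (3 / 2) e) := by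
  have hd : ∀ x, HasDerivAt (fun x : ℝ => f ((k + x) / q) e) (((1 / q : ℝ) : ℂ) * f1 ((k + x) / q) e) x := by
    intro x
    have h1 : HasDerivAt (fun x : ℝ => (k + x) / q) (1 / q) x := by
      simpa using ((hasDerivAt_id x).const_add k).div_const q
    have := (h.d1 ((k + x) / q) e).scomp x h1
    simpa [Function.comp_def] using this
  have hg : Integrable (fun x : ℝ => f ((k + x) / q) e) :=
    ((h.int0 hs e).comp_div hq.ne').comp_add_left k
  have hg1 : Integrable (fun x : ℝ => f1 ((k + x) / q) e) :=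
    ((h.int1 e).comp_div hq.ne').comp_add_left k
  have hg' : Integrable (fun x : ℝ => ((1 / q : ℝ) : ℂ) * f1 ((k + x) / q) e) :=
    hg1.const_mul _
  obtain ⟨hS, hE⟩ := em_core _ _ hd hg hg' M hM r
  refine ⟨hS, ?_⟩
  have e1 : ∫ x : ℝ, f ((k + x) / q) e = (q : ℂ) * ∫ u, f u e := by
    rw [integral_add_left_eq_self (fun x => f (x / q) e) k,
      Measure.integral_comp_div (fun u => f u e) q, abs_of_pos hq]
    simp
  have e2 : ∫ x : ℝ, ‖((1 / q : ℝ) : ℂ) * f1 ((k + x) / q) e‖ = ∫ u, ‖f1 u e‖ := by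
    simp only [norm_mul]
    rw [integral_const_mul, integral_add_left_eq_self (fun x => ‖f1 (x / q) e‖) k,
      Measure.integral_comp_div (fun u => ‖f1 u e‖) q, abs_of_pos hq, Complex.norm_real,
      Real.norm_eq_abs, abs_of_pos (by positivity), smul_eq_mul, ← mul_assoc, one_div,
      inv_mul_cancel₀ hq.ne', one_mul]
  rw [e1, e2] at hE
  exact hE.trans (mul_le_mul_of_nonneg_left (h.nn1 e) hM.le)

theorem TwoVar.dPsi (h : TwoVar s A B f f1 f2) (hs : 1 < s) (e : ℝ) :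
    HasDerivAt (fun e => ∫ u, f u e) (∫ u, f2 u e) e := by
  refine (hasDerivAt_integral_of_dominated_loc_of_deriv_le (μ := volume)
    (F := fun e u => f u e) (F' := fun e u => f2 u e) (x₀ := e) (s := univ)
    (bound := fun u => |A| * sg (3 / 2) u) Filter.univ_mem
    (Filter.Eventually.of_forall fun e => (h.cont e).aestronglyMeasurable)
    (h.int0 hs e) (h.m2 e).aestronglyMeasurable ?_ ?_ ?_).2
  · refine Filter.Eventually.of_forall fun u x _ => (h.b2 u x).trans ?_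
    have h1 := sg_le_one (s := 3 / 2) (by norm_num) x
    have h2 := sg_pos (3 / 2) x
    have h3 := sg_pos (3 / 2) u
    have h4 := le_abs_self A
    have h5 : 0 ≤ |A| := abs_nonneg A
    calc A * (sg (3 / 2) u * sg (3 / 2) x) ≤ |A| * (sg (3 / 2) u * sg (3 / 2) x) :=
          mul_le_mul_of_nonneg_right h4 (by positivity)
      _ ≤ |A| * (sg (3 / 2) u * 1) := by gcongr
      _ = |A| * sg (3 / 2) u := by ring
  · exact (sg_integrable (by norm_num)).const_mul _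
  · exact Filter.Eventually.of_forall fun u x _ => h.d2 u x

theorem TwoVar.intPsi (h : TwoVar s A B f f1 f2) (hs : 1 < s) :
    Integrable (fun e => ∫ u, f u e) := by
  have hc : Continuous (fun e => ∫ u, f u e) :=
    continuous_iff_continuousAt.2 fun e => (h.dPsi hs e).continuousAt
  refine Integrable.mono' ((sg_integrable hs).const_mul (B * ∫ t, sg s t))
    hc.aestronglyMeasurable (Filter.Eventually.of_forall fun u => h.nn0 hs u)

theorem TwoVar.intPsi' (h : TwoVar s A B f f1 f2) (hs : 1 < s) :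
    Integrable (fun e => ∫ u, f2 u e) := by
  have hc : (fun e => ∫ u, f2 u e) = deriv (fun e => ∫ u, f u e) := by
    ext e; exact (h.dPsi hs e).deriv.symm
  refine Integrable.mono' ((sg_integrable (s := 3 / 2) (by norm_num)).const_mul
    (A * ∫ t, sg (3 / 2) t)) ?_ (Filter.Eventually.of_forall fun u => h.nn2 u)
  rw [hc]
  exact (measurable_deriv _).aestronglyMeasurable

/-- The column of row integrals. -/
theorem TwoVar.col (h : TwoVar s A B f f1 f2) (hs : 1 < s) (q M : ℝ) (hq : 0 < q) (hM : 0 < M)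
    (r : ℝ) :
    Summable (fun m : ℤ => (q : ℂ) * ∫ u, f u ((r + M * m) * q)) ∧
      ‖(M : ℂ) * (∑' m : ℤ, (q : ℂ) * ∫ u, f u ((r + M * m) * q)) - ∫ e, ∫ u, f u e‖ ≤
        M * (q * (A * (∫ t, sg (3 / 2) t) ^ 2)) := by
  have hd : ∀ x, HasDerivAt (fun x : ℝ => (q : ℂ) * ∫ u, f u (x * q))
      ((q : ℂ) * ((q : ℂ) * ∫ u, f2 u (x * q))) x := by
    intro x
    have h1 : HasDerivAt (fun x : ℝ => x * q) q x := by simpa using (hasDerivAt_id x).mul_const q
    have h2 := (h.dPsi hs (x * q)).scomp x h1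
    have h3 : HasDerivAt (fun x : ℝ => ∫ u, f u (x * q)) ((q : ℂ) * ∫ u, f2 u (x * q)) x := by
      simpa [Function.comp_def] using h2
    exact h3.const_mul (q : ℂ)
  have hg : Integrable (fun x : ℝ => (q : ℂ) * ∫ u, f u (x * q)) :=
    ((h.intPsi hs).comp_mul_right' hq.ne').const_mul _
  have hg1 : Integrable (fun x : ℝ => (q : ℂ) * ∫ u, f2 u (x * q)) :=
    ((h.intPsi' hs).comp_mul_right' hq.ne').const_mul _
  have hg' : Integrable (fun x : ℝ => (q : ℂ) * ((q : ℂ) * ∫ u, f2 u (x * q))) :=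
    hg1.const_mul _
  obtain ⟨hS, hE⟩ := em_core _ _ hd hg hg' M hM r
  refine ⟨hS, ?_⟩
  have e1 : ∫ x : ℝ, (q : ℂ) * ∫ u, f u (x * q) = ∫ e, ∫ u, f u e := by
    rw [integral_const_mul, Measure.integral_comp_mul_right (fun e => ∫ u, f u e) q,
      abs_of_pos (inv_pos.2 hq), Complex.real_smul, ← mul_assoc]
    have : (q : ℂ) ≠ 0 := by exact_mod_cast hq.ne'
    push_cast
    rw [mul_inv_cancel₀ this, one_mul]
  have e2 : ∫ x : ℝ, ‖(q : ℂ) * ((q : ℂ) * ∫ u, f2 u (x * q))‖ = q * ∫ e, ‖∫ u, f2 u e‖ := by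
    simp only [norm_mul, Complex.norm_real, Real.norm_eq_abs, abs_of_pos hq]
    rw [integral_const_mul, integral_const_mul,
      Measure.integral_comp_mul_right (fun e => ‖∫ u, f2 u e‖) q, abs_of_pos (inv_pos.2 hq),
      smul_eq_mul, ← mul_assoc q q⁻¹, mul_inv_cancel₀ hq.ne', one_mul]
  rw [e1, e2] at hE
  refine hE.trans (mul_le_mul_of_nonneg_left (mul_le_mul_of_nonneg_left ?_ hq.le) hM.le)
  refine (integral_mono (h.intPsi' hs).norm ((sg_integrable (s := 3 / 2) (by norm_num)).const_mul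
    (A * ∫ t, sg (3 / 2) t)) fun e => h.nn2 e).trans (le_of_eq ?_)
  rw [integral_const_mul]; ring

/-- A number depending only on nothing. -/
noncomputable def RR : ℝ := ∫ t, sg (3 / 2) t

theorem RR_nonneg : 0 ≤ RR := integral_nonneg fun _ => (sg_pos _ _).le

/-- The points of the coset, coordinates. -/
noncomputable def lx (M r1 r2 x q : ℝ) (v : ℤ × ℤ) : ℝ :=
  ((r1 + M * v.1) * x + (r2 + M * v.2)) / q

theorem TwoVar.summ (h : TwoVar s A B f f1 f2) (hs : 1 < s) (q M : ℝ) (hq : 0 < q) (hM : 0 < M)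
    (x r1 r2 : ℝ) :
    Summable (fun v : ℤ × ℤ => f (lx M r1 r2 x q v) ((r1 + M * v.1) * q)) := by
  have hB : 0 ≤ B := by
    have h1 := (norm_nonneg _).trans (h.b0 0 0)
    have h2 : 0 < sg s 0 * sg s 0 := mul_pos (sg_pos _ _) (sg_pos _ _)
    exact nonneg_of_mul_nonneg_left h1 h2
  set L : ℝ := ((∫ t, sg s t) / q⁻¹ + M * (s * ∫ t, sg s t)) / M with hL
  have hrow : ∀ m : ℤ, Summable (fun n : ℤ => sg s (lx M r1 r2 x q (m, n))) ∧
      ∑' n : ℤ, sg s (lx M r1 r2 x q (m, n)) ≤ L := by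
    intro m
    obtain ⟨a1, a2⟩ := sg_sum hs q⁻¹ M (inv_pos.2 hq) hM ((r1 + M * m) * x + r2)
    have e : ∀ n : ℤ, ((r1 + M * m) * x + r2 + M * n) * q⁻¹ = lx M r1 r2 x q (m, n) := by
      intro n; unfold lx; simp only []; rw [div_eq_mul_inv]; ring
    simp only [e] at a1 a2
    refine ⟨a1, ?_⟩
    rw [hL, le_div_iff₀ hM]; linarith
  have hcol := (sg_sum hs q M hq hM r1).1
  have hmaj : Summable (fun v : ℤ × ℤ => sg s (lx M r1 r2 x q v) * sg s ((r1 + M * v.1) * q)) := by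
    have hnn : (0 : ℤ × ℤ → ℝ) ≤
        fun v : ℤ × ℤ => sg s (lx M r1 r2 x q v) * sg s ((r1 + M * v.1) * q) := by
      intro v
      exact (mul_pos (sg_pos _ _) (sg_pos _ _)).le
    refine (summable_prod_of_nonneg hnn).2 ⟨?_, ?_⟩
    · intro m
      exact (hrow m).1.mul_right (sg s ((r1 + M * m) * q))
    · refine Summable.of_nonneg_of_le ?_ ?_ (hcol.mul_left L)
      · intro m
        exact tsum_nonneg fun n => (mul_pos (sg_pos _ _) (sg_pos _ _)).le
      · intro m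
        have e1 : ∑' n : ℤ, sg s (lx M r1 r2 x q (m, n)) * sg s ((r1 + M * m) * q) =
            (∑' n : ℤ, sg s (lx M r1 r2 x q (m, n))) * sg s ((r1 + M * m) * q) := tsum_mul_right
        refine (le_of_eq e1).trans ?_
        exact mul_le_mul_of_nonneg_right (hrow m).2 (sg_pos _ _).le
  refine Summable.of_norm_bounded (hmaj.mul_left B) fun v => ?_
  exact h.b0 _ _

/-- The lattice lemma. -/
theorem TwoVar.lattice (h : TwoVar s A B f f1 f2) (hs : 1 < s) (q M : ℝ) (hq : 1 / 2 ≤ q)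
    (hM : 1 ≤ M) (x r1 r2 : ℝ) :
    Summable (fun v : ℤ × ℤ => f (lx M r1 r2 x q v) ((r1 + M * v.1) * q)) ∧
    ‖(M : ℂ) ^ 2 * (∑' v : ℤ × ℤ, f (lx M r1 r2 x q v) ((r1 + M * v.1) * q)) -
      ∫ e, ∫ u, f u e‖ ≤ 8 * RR ^ 2 * A * M ^ 2 * q := by
  have hq0 : 0 < q := by linarith
  have hM0 : 0 < M := by linarith
  have hA : 0 ≤ A := by
    have h1 := (norm_nonneg _).trans (h.b1 0 0)
    have h2 : 0 < sg (3 / 2) 0 * sg (3 / 2) 0 := mul_pos (sg_pos _ _) (sg_pos _ _)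
    exact nonneg_of_mul_nonneg_left h1 h2
  have hR := RR_nonneg
  have hS := h.summ hs q M hq0 hM0 x r1 r2
  refine ⟨hS, ?_⟩
  set T : ℤ → ℂ := fun m => ∑' n : ℤ, f (lx M r1 r2 x q (m, n)) ((r1 + M * m) * q) with hT
  set P : ℤ → ℂ := fun m => (q : ℂ) * ∫ u, f u ((r1 + M * m) * q) with hP
  have hTs : Summable T := hS.prod
  have e1 : ∑' v : ℤ × ℤ, f (lx M r1 r2 x q v) ((r1 + M * v.1) * q) = ∑' m, T m :=
    hS.tsum_prod
  obtain ⟨c1, c2⟩ := h.col hs q M hq0 hM0 r1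
  have hrow : ∀ m : ℤ, ‖(M : ℂ) * T m - P m‖ ≤ M * A * RR * sg (3 / 2) ((r1 + M * m) * q) := by
    intro m
    have h1 := (h.row hs q M hq0 hM0 ((r1 + M * m) * x) r2 ((r1 + M * m) * q)).2
    refine le_trans (le_of_eq ?_) (h1.trans (le_of_eq ?_))
    · rfl
    · unfold RR; ring
  obtain ⟨g1, g2⟩ := sg_sum (s := 3 / 2) (by norm_num) q M hq0 hM0 r1
  have hsum : ‖∑' m, ((M : ℂ) * T m - P m)‖ ≤
      M * A * RR * ∑' m : ℤ, sg (3 / 2) ((r1 + M * m) * q) :=
    tsum_of_norm_bounded (g1.hasSum.mul_left _) hrow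
  have hMT : Summable fun m => (M : ℂ) * T m := hTs.mul_left _
  have hPs : Summable P := c1
  have e2 : (M : ℂ) ^ 2 * (∑' m, T m) - ∫ e, ∫ u, f u e =
      (M : ℂ) * (∑' m, ((M : ℂ) * T m - P m)) + ((M : ℂ) * (∑' m, P m) - ∫ e, ∫ u, f u e) := by
    rw [hMT.tsum_sub hPs, tsum_mul_left]; ring
  rw [e1, e2]
  refine (norm_add_le _ _).trans ?_
  have h3 : ‖(M : ℂ) * (∑' m, ((M : ℂ) * T m - P m))‖ ≤
      A * RR * (M * (M * ∑' m : ℤ, sg (3 / 2) ((r1 + M * m) * q))) := by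
    rw [norm_mul, Complex.norm_real, Real.norm_eq_abs, abs_of_pos hM0]
    refine (mul_le_mul_of_nonneg_left hsum hM0.le).trans (le_of_eq (by ring))
  have h4 : M * (M * ∑' m : ℤ, sg (3 / 2) ((r1 + M * m) * q)) ≤ M * (RR / q + M * (3 / 2 * RR)) :=
    mul_le_mul_of_nonneg_left g2 hM0.le
  have h5 : RR / q ≤ 2 * RR := by
    rw [div_le_iff₀ hq0]; nlinarith
  have h6 : M * (RR / q + M * (3 / 2 * RR)) ≤ M ^ 2 * (7 * q * RR) := by
    have : RR / q + M * (3 / 2 * RR) ≤ M * (7 * q * RR) := by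
      nlinarith [mul_nonneg (sub_nonneg.2 hM) hR, mul_nonneg (mul_nonneg hM0.le (sub_nonneg.2 hq)) hR]
    calc M * (RR / q + M * (3 / 2 * RR)) ≤ M * (M * (7 * q * RR)) :=
          mul_le_mul_of_nonneg_left this hM0.le
      _ = _ := by ring
  have h7 : A * RR * (M * (M * ∑' m : ℤ, sg (3 / 2) ((r1 + M * m) * q))) ≤
      A * RR * (M ^ 2 * (7 * q * RR)) :=
    mul_le_mul_of_nonneg_left (h4.trans h6) (mul_nonneg hA hR)
  have h8 : M * (q * (A * RR ^ 2)) ≤ M ^ 2 * (q * (A * RR ^ 2)) := by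
    have h10 : M ≤ M ^ 2 := by nlinarith
    exact mul_le_mul_of_nonneg_right h10 (by positivity)
  have h9 := c2
  change ‖(M : ℂ) * (∑' m, P m) - ∫ e, ∫ u, f u e‖ ≤ M * (q * (A * RR ^ 2)) at h9
  calc _ ≤ A * RR * (M ^ 2 * (7 * q * RR)) + M ^ 2 * (q * (A * RR ^ 2)) :=
        add_le_add (h3.trans h7) (h9.trans h8)
    _ = 8 * RR ^ 2 * A * M ^ 2 * q := by ring

end

/-! ### The test function -/

/-- The radial part. -/
noncomputable def Rf (l : ℕ) (s r : ℝ) : ℝ := r ^ ((l : ℝ) / 2 + 4 - s) / (1 + r) ^ (l + 4)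

/-- Its derivative. -/
noncomputable def Rf' (l : ℕ) (s r : ℝ) : ℝ :=
  ((l : ℝ) / 2 + 4 - s) * r ^ ((l : ℝ) / 2 + 4 - s - 1) / (1 + r) ^ (l + 4) -
    (l + 4) * r ^ ((l : ℝ) / 2 + 4 - s) / (1 + r) ^ (l + 5)

theorem Rf_hasDerivAt (l : ℕ) (s r : ℝ) (hs : s ≤ 2) (hr : 0 ≤ r) :
    HasDerivAt (Rf l s) (Rf' l s r) r := by
  have hl : (0 : ℝ) ≤ l := Nat.cast_nonneg l
  have h1 : HasDerivAt (fun r : ℝ => r ^ ((l : ℝ) / 2 + 4 - s))
      (((l : ℝ) / 2 + 4 - s) * r ^ ((l : ℝ) / 2 + 4 - s - 1)) r :=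
    Real.hasDerivAt_rpow_const (Or.inr (by linarith))
  have h2 : HasDerivAt (fun r : ℝ => (1 + r) ^ (l + 4)) (((l + 4 : ℕ) : ℝ) * (1 + r) ^ (l + 3)) r := by
    have h := ((hasDerivAt_id r).const_add 1).fun_pow (l + 4)
    simpa using h
  have h3 : (1 + r) ^ (l + 4) ≠ 0 := by positivity
  have h4 := h1.div h2 h3
  refine h4.congr_deriv ?_
  unfold Rf'
  have h5 : 1 + r ≠ 0 := by positivity
  push_cast
  generalize r ^ ((l : ℝ) / 2 + 4 - s - 1) = X
  generalize r ^ ((l : ℝ) / 2 + 4 - s) = Y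
  generalize 1 + r = Z at *
  have e3 : Z ^ (l + 3) = Z ^ l * Z ^ 3 := pow_add _ _ _
  have e4 : Z ^ (l + 4) = Z ^ l * Z ^ 4 := pow_add _ _ _
  have e5 : Z ^ (l + 5) = Z ^ l * Z ^ 5 := pow_add _ _ _
  rw [e3, e4, e5]
  have h6 : Z ^ l ≠ 0 := pow_ne_zero _ h5
  field_simp

theorem one_add_le (r p : ℝ) (hr : 0 ≤ r) (hp : 0 ≤ p) (m : ℕ) :
    r ^ p / (1 + r) ^ m ≤ (1 + r) ^ (p - m) := by
  have h1 : 0 < 1 + r := by linarith
  rw [Real.rpow_sub h1, Real.rpow_natCast]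
  gcongr
  linarith

theorem prod_sg (s u e : ℝ) (hs : 0 ≤ s) : (1 + (u ^ 2 + e ^ 2)) ^ (-s) ≤ sg s u * sg s e := by
  unfold sg
  rw [← Real.mul_rpow (by positivity) (by positivity)]
  have h1 : (1 + (u ^ 2 + e ^ 2)) ^ (-s) = ((1 + (u ^ 2 + e ^ 2)) ^ 2) ^ (-s / 2) := by
    rw [← Real.rpow_natCast (1 + (u ^ 2 + e ^ 2)) 2, ← Real.rpow_mul (by positivity)]
    congr 1; push_cast; ring
  rw [h1]
  refine Real.rpow_le_rpow_of_nonpos (by positivity) ?_ (by linarith)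
  nlinarith [sq_nonneg u, sq_nonneg e, mul_nonneg (sq_nonneg u) (sq_nonneg e), sq_nonneg (u ^ 2),
    sq_nonneg (e ^ 2)]

/-- The squared norm. -/
noncomputable def nq (u e : ℝ) : ℝ := u ^ 2 + e ^ 2

theorem nq_nonneg (u e : ℝ) : 0 ≤ nq u e := by unfold nq; positivity

theorem norm_sq_eq (u e : ℝ) : ‖(u : ℂ) + e * Complex.I‖ ^ 2 = nq u e := by
  rw [← Complex.normSq_eq_norm_sq, Complex.normSq_add_mul_I]; rfl

theorem norm_pow_eq (u e : ℝ) (l : ℕ) : ‖((u : ℂ) + e * Complex.I) ^ l‖ = nq u e ^ ((l : ℝ) / 2) := by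
  rw [norm_pow, ← norm_sq_eq, ← Real.rpow_natCast ‖_‖ 2, ← Real.rpow_mul (norm_nonneg _),
    ← Real.rpow_natCast]
  congr 1; push_cast; ring

/-- The function `phi` in coordinates. -/
noncomputable def pf (l : ℕ) (s u e : ℝ) : ℂ := ((u : ℂ) + e * Complex.I) ^ l * ((Rf l s (nq u e) : ℝ) : ℂ)

noncomputable def pf1 (l : ℕ) (s u e : ℝ) : ℂ :=
  (l : ℂ) * ((u : ℂ) + e * Complex.I) ^ (l - 1) * ((Rf l s (nq u e) : ℝ) : ℂ) +
    ((u : ℂ) + e * Complex.I) ^ l * ((Rf' l s (nq u e) * (2 * u) : ℝ) : ℂ)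

noncomputable def pf2 (l : ℕ) (s u e : ℝ) : ℂ :=
  (l : ℂ) * ((u : ℂ) + e * Complex.I) ^ (l - 1) * Complex.I * ((Rf l s (nq u e) : ℝ) : ℂ) +
    ((u : ℂ) + e * Complex.I) ^ l * ((Rf' l s (nq u e) * (2 * e) : ℝ) : ℂ)

theorem pf_d1 (l : ℕ) (s : ℝ) (hs : s ≤ 2) (u e : ℝ) :
    HasDerivAt (fun u => pf l s u e) (pf1 l s u e) u := by
  have h1 : HasDerivAt (fun u : ℝ => (u : ℂ) + e * Complex.I) 1 u :=
    (Complex.ofRealCLM.hasDerivAt).add_const _
  have h2 := h1.pow l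
  have h3 : HasDerivAt (fun u : ℝ => nq u e) (2 * u) u := by
    unfold nq
    simpa using (hasDerivAt_pow 2 u).add_const (e ^ 2)
  have h4 := ((Rf_hasDerivAt l s (nq u e) hs (nq_nonneg u e)).comp u h3).ofReal_comp
  have h5 := h2.mul h4
  refine h5.congr_deriv ?_
  unfold pf1
  simp only [mul_one, Function.comp_apply, Pi.pow_apply]

theorem pf_d2 (l : ℕ) (s : ℝ) (hs : s ≤ 2) (u e : ℝ) :
    HasDerivAt (fun e => pf l s u e) (pf2 l s u e) e := by
  have h1 : HasDerivAt (fun e : ℝ => (u : ℂ) + e * Complex.I) Complex.I e := by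
    have := ((Complex.ofRealCLM.hasDerivAt (x := e)).mul_const Complex.I).const_add (u : ℂ)
    simpa using this
  have h2 := h1.pow l
  have h3 : HasDerivAt (fun e : ℝ => nq u e) (2 * e) e := by
    unfold nq
    simpa using (hasDerivAt_pow 2 e).const_add (u ^ 2)
  have h4 := ((Rf_hasDerivAt l s (nq u e) hs (nq_nonneg u e)).comp e h3).ofReal_comp
  have h5 := h2.mul h4
  refine h5.congr_deriv ?_
  unfold pf2
  simp only [Function.comp_apply, Pi.pow_apply]

theorem Rf_cont (l : ℕ) (s : ℝ) (hs : s ≤ 2) (g : ℝ → ℝ) (hg : Continuous g) (h0 : ∀ x, 0 ≤ g x) :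
    Continuous fun x => Rf l s (g x) := by
  have hl : (0 : ℝ) ≤ l := Nat.cast_nonneg l
  unfold Rf
  refine Continuous.div (hg.rpow_const fun x => Or.inr (by linarith)) (by fun_prop) fun x => ?_
  have := h0 x
  positivity

theorem Rf'_cont (l : ℕ) (s : ℝ) (hs : s ≤ 2) (g : ℝ → ℝ) (hg : Continuous g) (h0 : ∀ x, 0 ≤ g x) :
    Continuous fun x => Rf' l s (g x) := by
  have hl : (0 : ℝ) ≤ l := Nat.cast_nonneg l
  unfold Rf'
  refine Continuous.sub ?_ ?_
  · refine Continuous.div (continuous_const.mul (hg.rpow_const fun x => Or.inr (by linarith)))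
      (by fun_prop) fun x => ?_
    have := h0 x
    positivity
  · refine Continuous.div (continuous_const.mul (hg.rpow_const fun x => Or.inr (by linarith)))
      (by fun_prop) fun x => ?_
    have := h0 x
    positivity

theorem Rf_nonneg (l : ℕ) (s r : ℝ) (hr : 0 ≤ r) : 0 ≤ Rf l s r := by unfold Rf; positivity

theorem pf_b0 (l : ℕ) (s : ℝ) (hs0 : 0 ≤ s) (hs : s ≤ 2) (u e : ℝ) :
    ‖pf l s u e‖ ≤ 1 * (sg s u * sg s e) := by
  have hl : (0 : ℝ) ≤ l := Nat.cast_nonneg l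
  have hr := nq_nonneg u e
  unfold pf
  rw [norm_mul, norm_pow_eq, Complex.norm_real, Real.norm_eq_abs, abs_of_nonneg (Rf_nonneg l s _ hr),
    one_mul]
  unfold Rf
  refine le_trans ?_ (prod_sg s u e hs0)
  rw [← mul_div_assoc, ← Real.rpow_add_of_nonneg hr (by positivity) (by linarith)]
  refine (one_add_le _ _ hr (by linarith) _).trans (le_of_eq ?_)
  unfold nq
  congr 1; push_cast; ring

theorem main_bound (l : ℕ) (s r : ℝ) (hs1 : 1 ≤ s) (hs : s ≤ 2) (hr : 0 ≤ r) :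
    (l : ℝ) * (r ^ (((l - 1 : ℕ) : ℝ) / 2) * Rf l s r) + r ^ ((l : ℝ) / 2) * (|Rf' l s r| * (2 * r ^ (1 / 2 : ℝ)))
      ≤ (4 * l + 14) * (1 + r) ^ (-(3 / 2) : ℝ) := by
  have hl : (0 : ℝ) ≤ l := Nat.cast_nonneg l
  have h1r : 0 < 1 + r := by linarith
  have hK : (1 + r) ^ (-(1 / 2) - s) ≤ (1 + r) ^ (-(3 / 2) : ℝ) :=
    Real.rpow_le_rpow_of_exponent_le (by linarith) (by linarith)
  have hK0 : 0 ≤ (1 + r) ^ (-(3 / 2) : ℝ) := by positivity
  -- first term
  have t1 : (l : ℝ) * (r ^ (((l - 1 : ℕ) : ℝ) / 2) * Rf l s r) ≤ l * (1 + r) ^ (-(3 / 2) : ℝ) := by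
    rcases Nat.eq_zero_or_pos l with h0 | h0
    · subst h0; simp
    · refine mul_le_mul_of_nonneg_left ?_ hl
      have hc : ((l - 1 : ℕ) : ℝ) = l - 1 := by push_cast [h0]; ring
      have hl1 : (1 : ℝ) ≤ l := by exact_mod_cast h0
      unfold Rf
      rw [hc, ← mul_div_assoc, ← Real.rpow_add_of_nonneg hr (by linarith) (by linarith)]
      refine (one_add_le _ _ hr (by linarith) _).trans (le_trans (le_of_eq ?_) hK)
      congr 1; push_cast; ring
  -- second term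
  have t2 : r ^ ((l : ℝ) / 2) * (|Rf' l s r| * (2 * r ^ (1 / 2 : ℝ))) ≤
      (3 * l + 14) * (1 + r) ^ (-(3 / 2) : ℝ) := by
    have a1 : |Rf' l s r| ≤ ((l : ℝ) / 2 + 3) * (r ^ ((l : ℝ) / 2 + 4 - s - 1) / (1 + r) ^ (l + 4)) +
        (l + 4) * (r ^ ((l : ℝ) / 2 + 4 - s) / (1 + r) ^ (l + 5)) := by
      unfold Rf'
      refine (abs_sub _ _).trans ?_
      have b1 : 0 ≤ r ^ ((l : ℝ) / 2 + 4 - s - 1) / (1 + r) ^ (l + 4) := by positivity
      have b2 : 0 ≤ r ^ ((l : ℝ) / 2 + 4 - s) / (1 + r) ^ (l + 5) := by positivity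
      rw [mul_div_assoc, mul_div_assoc, abs_mul, abs_mul, abs_of_nonneg b1, abs_of_nonneg b2,
        abs_of_nonneg (by linarith : (0 : ℝ) ≤ (l : ℝ) / 2 + 4 - s),
        abs_of_nonneg (by linarith : (0 : ℝ) ≤ (l : ℝ) + 4)]
      gcongr
      linarith
    have a2 : r ^ ((l : ℝ) / 2) * (r ^ ((l : ℝ) / 2 + 4 - s - 1) / (1 + r) ^ (l + 4) * r ^ (1 / 2 : ℝ))
        ≤ (1 + r) ^ (-(3 / 2) : ℝ) := by
      have : r ^ ((l : ℝ) / 2) * (r ^ ((l : ℝ) / 2 + 4 - s - 1) / (1 + r) ^ (l + 4) * r ^ (1 / 2 : ℝ)) =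
          r ^ ((l : ℝ) / 2 + ((l : ℝ) / 2 + 4 - s - 1) + 1 / 2) / (1 + r) ^ (l + 4) := by
        rw [Real.rpow_add_of_nonneg hr (by linarith) (by norm_num),
          Real.rpow_add_of_nonneg hr (by linarith) (by linarith)]
        ring
      rw [this]
      refine (one_add_le _ _ hr (by linarith) _).trans (le_trans (le_of_eq ?_) hK)
      congr 1; push_cast; ring
    have a3 : r ^ ((l : ℝ) / 2) * (r ^ ((l : ℝ) / 2 + 4 - s) / (1 + r) ^ (l + 5) * r ^ (1 / 2 : ℝ))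
        ≤ (1 + r) ^ (-(3 / 2) : ℝ) := by
      have : r ^ ((l : ℝ) / 2) * (r ^ ((l : ℝ) / 2 + 4 - s) / (1 + r) ^ (l + 5) * r ^ (1 / 2 : ℝ)) =
          r ^ ((l : ℝ) / 2 + ((l : ℝ) / 2 + 4 - s) + 1 / 2) / (1 + r) ^ (l + 5) := by
        rw [Real.rpow_add_of_nonneg hr (by linarith) (by norm_num),
          Real.rpow_add_of_nonneg hr (by linarith) (by linarith)]
        ring
      rw [this]
      refine (one_add_le _ _ hr (by linarith) _).trans (le_trans (le_of_eq ?_) hK)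
      congr 1; push_cast; ring
    have b0 : 0 ≤ r ^ ((l : ℝ) / 2) := by positivity
    have b1 : 0 ≤ r ^ (1 / 2 : ℝ) := by positivity
    calc r ^ ((l : ℝ) / 2) * (|Rf' l s r| * (2 * r ^ (1 / 2 : ℝ)))
        ≤ r ^ ((l : ℝ) / 2) * ((((l : ℝ) / 2 + 3) * (r ^ ((l : ℝ) / 2 + 4 - s - 1) / (1 + r) ^ (l + 4)) +
        (l + 4) * (r ^ ((l : ℝ) / 2 + 4 - s) / (1 + r) ^ (l + 5))) * (2 * r ^ (1 / 2 : ℝ))) := by
          gcongr
      _ = (l + 6) * (r ^ ((l : ℝ) / 2) * (r ^ ((l : ℝ) / 2 + 4 - s - 1) / (1 + r) ^ (l + 4) * r ^ (1 / 2 : ℝ)))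
        + (2 * l + 8) * (r ^ ((l : ℝ) / 2) * (r ^ ((l : ℝ) / 2 + 4 - s) / (1 + r) ^ (l + 5) * r ^ (1 / 2 : ℝ))) := by
          ring
      _ ≤ (l + 6) * (1 + r) ^ (-(3 / 2) : ℝ) + (2 * l + 8) * (1 + r) ^ (-(3 / 2) : ℝ) := by gcongr
      _ = (3 * l + 14) * (1 + r) ^ (-(3 / 2) : ℝ) := by ring
  calc _ ≤ l * (1 + r) ^ (-(3 / 2) : ℝ) + (3 * l + 14) * (1 + r) ^ (-(3 / 2) : ℝ) := add_le_add t1 t2
    _ = _ := by ring

theorem abs_le_half (u e : ℝ) : |u| ≤ nq u e ^ (1 / 2 : ℝ) := by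
  rw [← Real.sqrt_eq_rpow, ← Real.sqrt_sq_eq_abs]
  exact Real.sqrt_le_sqrt (by unfold nq; nlinarith [sq_nonneg e])

theorem abs_le_half' (u e : ℝ) : |e| ≤ nq u e ^ (1 / 2 : ℝ) := by
  rw [← Real.sqrt_eq_rpow, ← Real.sqrt_sq_eq_abs]
  exact Real.sqrt_le_sqrt (by unfold nq; nlinarith [sq_nonneg u])

theorem pf_b1 (l : ℕ) (s : ℝ) (hs1 : 1 ≤ s) (hs : s ≤ 2) (u e : ℝ) :
    ‖pf1 l s u e‖ ≤ (4 * l + 14) * (sg (3 / 2) u * sg (3 / 2) e) := by
  have hl : (0 : ℝ) ≤ l := Nat.cast_nonneg l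
  have hr := nq_nonneg u e
  have hfin := main_bound l s (nq u e) hs1 hs hr
  have hp := prod_sg (3 / 2) u e (by norm_num)
  unfold pf1
  refine (norm_add_le _ _).trans ?_
  rw [norm_mul, norm_mul, norm_mul, norm_pow_eq, norm_pow_eq, Complex.norm_real, Complex.norm_real,
    Real.norm_eq_abs, Real.norm_eq_abs, abs_of_nonneg (Rf_nonneg l s _ hr), abs_mul, Complex.norm_natCast]
  have h1 : |2 * u| ≤ 2 * nq u e ^ (1 / 2 : ℝ) := by
    rw [abs_mul, abs_two]; linarith [abs_le_half u e]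
  calc _ ≤ (l : ℝ) * (nq u e ^ (((l - 1 : ℕ) : ℝ) / 2) * Rf l s (nq u e)) +
        nq u e ^ ((l : ℝ) / 2) * (|Rf' l s (nq u e)| * (2 * nq u e ^ (1 / 2 : ℝ))) := by
        rw [mul_assoc]; gcongr
    _ ≤ (4 * l + 14) * (1 + nq u e) ^ (-(3 / 2) : ℝ) := hfin
    _ ≤ _ := mul_le_mul_of_nonneg_left hp (by linarith)

theorem pf_b2 (l : ℕ) (s : ℝ) (hs1 : 1 ≤ s) (hs : s ≤ 2) (u e : ℝ) :
    ‖pf2 l s u e‖ ≤ (4 * l + 14) * (sg (3 / 2) u * sg (3 / 2) e) := by
  have hl : (0 : ℝ) ≤ l := Nat.cast_nonneg l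
  have hr := nq_nonneg u e
  have hfin := main_bound l s (nq u e) hs1 hs hr
  have hp := prod_sg (3 / 2) u e (by norm_num)
  unfold pf2
  refine (norm_add_le _ _).trans ?_
  rw [norm_mul, norm_mul, norm_mul, norm_mul, norm_pow_eq, norm_pow_eq, Complex.norm_real, Complex.norm_real,
    Real.norm_eq_abs, Real.norm_eq_abs, abs_of_nonneg (Rf_nonneg l s _ hr), abs_mul, Complex.norm_natCast,
    Complex.norm_I, mul_one]
  have h1 : |2 * e| ≤ 2 * nq u e ^ (1 / 2 : ℝ) := by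
    rw [abs_mul, abs_two]; linarith [abs_le_half' u e]
  calc _ ≤ (l : ℝ) * (nq u e ^ (((l - 1 : ℕ) : ℝ) / 2) * Rf l s (nq u e)) +
        nq u e ^ ((l : ℝ) / 2) * (|Rf' l s (nq u e)| * (2 * nq u e ^ (1 / 2 : ℝ))) := by
        rw [mul_assoc]; gcongr
    _ ≤ (4 * l + 14) * (1 + nq u e) ^ (-(3 / 2) : ℝ) := hfin
    _ ≤ _ := mul_le_mul_of_nonneg_left hp (by linarith)

theorem pf_twoVar (l : ℕ) (s : ℝ) (hs1 : 1 ≤ s) (hs : s ≤ 2) :
    TwoVar s (4 * l + 14) 1 (pf l s) (pf1 l s) (pf2 l s) where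
  d1 := pf_d1 l s hs
  d2 := pf_d2 l s hs
  m1 := by
    intro e
    have hq : Continuous fun u => nq u e := by unfold nq; fun_prop
    have h1 := Rf_cont l s hs _ hq fun u => nq_nonneg u e
    have h2 := Rf'_cont l s hs _ hq fun u => nq_nonneg u e
    unfold pf1
    fun_prop
  m2 := by
    intro e
    have hq : Continuous fun u => nq u e := by unfold nq; fun_prop
    have h1 := Rf_cont l s hs _ hq fun u => nq_nonneg u e
    have h2 := Rf'_cont l s hs _ hq fun u => nq_nonneg u e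
    unfold pf2
    fun_prop
  b0 := pf_b0 l s (by linarith) hs
  b1 := pf_b1 l s hs1 hs
  b2 := pf_b2 l s hs1 hs

end Pool.Agent.Lib.MP_058a58_ag.MT
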