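import Pool.Agent.Lib.MP_058a58_ag.MT.Stm

/-!
# ROT: the integral of `phi` over the plane vanishes
-/

set_option autoImplicit false

open UpperHalfPlane MeasureTheory Filter Topology
open scoped MatrixGroups Modular

namespace Pool.Agent.Lib.MP_058a58_ag.MT

private theorem ROT_int1 {s : ℝ} (hs : 1 < s) :
    Integrable (fun x : ℝ => (1 + x ^ 2) ^ (-s / 2)) := by
  have h := integrable_rpow_neg_one_add_norm_sq (E := ℝ) (μ := volume) (r := s)
    (by rw [Module.finrank_self]; exact_mod_cast hs)
  refine h.congr (Filter.Eventually.of_forall fun x => ?_)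
  simp only [Real.norm_eq_abs, sq_abs]

/-- **ROT** -/
theorem p_ROT : S_ROT := by
  intro hPB l s hl hs1 hs2
  obtain ⟨_, hcont, _, _, hb, hrot, _⟩ := hPB l s hs1 hs2
  have hint : Integrable (fun p : ℝ × ℝ => phi l s (p.1 + p.2 * Complex.I))
      (volume.prod volume) := by
    refine Integrable.mono' ((ROT_int1 hs1).mul_prod (ROT_int1 hs1)) ?_ ?_
    · exact (hcont.comp (by fun_prop)).aestronglyMeasurable
    · exact Filter.Eventually.of_forall fun p => hb p.1 p.2
  have h1 : ∫ η, Psi l s η = ∫ p : ℝ × ℝ, phi l s (p.1 + p.2 * Complex.I) := by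
    rw [Measure.volume_eq_prod, integral_prod_symm _ hint]
    rfl
  have h2 : ∫ p : ℝ × ℝ, phi l s (p.1 + p.2 * Complex.I) = ∫ v : ℂ, phi l s v := by
    rw [← Complex.volume_preserving_equiv_real_prod.integral_comp
      Complex.measurableEquivRealProd.measurableEmbedding]
    refine integral_congr_ae (Filter.Eventually.of_forall fun v => ?_)
    show phi l s ((v.re : ℂ) + v.im * Complex.I) = phi l s v
    rw [Complex.re_add_im]
  have hl0 : (l : ℂ) ≠ 0 := by exact_mod_cast hl
  set u : ℂ := Complex.exp ((Real.pi / l : ℝ) * Complex.I) with hu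
  have hnu : ‖u‖ = 1 := Complex.norm_exp_ofReal_mul_I _
  have hul : u ^ l = -1 := by
    rw [hu, ← Complex.exp_nat_mul]
    have : (l : ℂ) * (((Real.pi / l : ℝ) : ℂ) * Complex.I) = Real.pi * Complex.I := by
      push_cast
      field_simp
    rw [this, Complex.exp_pi_mul_I]
  let c : Circle := ⟨u, by simp [Submonoid.unitSphere, hnu]⟩
  have h3 : ∫ v : ℂ, phi l s (u * v) = ∫ v : ℂ, phi l s v := by
    have h4 := (rotation c).measurePreserving.integral_comp
      (rotation c).toHomeomorph.measurableEmbedding (fun v : ℂ => phi l s v)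
    simpa only [rotation_apply] using h4
  have h5 : ∫ v : ℂ, phi l s (u * v) = - ∫ v : ℂ, phi l s v := by
    rw [← integral_neg]
    refine integral_congr_ae (Filter.Eventually.of_forall fun v => ?_)
    show phi l s (u * v) = - phi l s v
    rw [hrot u v hnu, hul]
    ring
  have h6 : ∫ v : ℂ, phi l s v = 0 := by
    have h7 : ∫ v : ℂ, phi l s v = - ∫ v : ℂ, phi l s v := h3.symm.trans h5
    exact self_eq_neg.mp h7
  rw [h1, h2, h6]

end Pool.Agent.Lib.MP_058a58_ag.MT
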