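import Pool.Agent.Lib.MP_058a58_ag.MT.Stm

set_option autoImplicit false

/-!
# Twists by modular forms: absolute convergence of the lattice sums (piece SM)
-/

open UpperHalfPlane MeasureTheory Filter Topology
open scoped MatrixGroups Modular

namespace Pool.Agent.Lib.MP_058a58_ag.MT

theorem p_SM : S_SM := by
  intro hPB l s h1 h2 z
  obtain ⟨p0, _, _, pb, _, _, _⟩ := hPB l s h1 h2
  have hy : 0 < z.im := z.im_pos
  have hsq : 0 < Real.sqrt z.im := Real.sqrt_pos.2 hy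
  have hS : Summable fun x : Fin 2 → ℤ => ‖x‖ ^ (-(2 * s)) :=
    EisensteinSeries.summable_one_div_norm_rpow (by linarith)
  have hS2 : Summable fun v : ℤ × ℤ =>
      (z.im ^ s * EisensteinSeries.r z ^ (-(2 * s))) *
        ‖(finTwoArrowEquiv ℤ).symm v‖ ^ (-(2 * s)) := by
    refine Summable.mul_left _ ?_
    exact (finTwoArrowEquiv ℤ).symm.summable_iff.2 hS
  refine Summable.of_nonneg_of_le (fun _ => norm_nonneg _) (fun v => ?_) hS2
  have hr := EisensteinSeries.r_pos z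
  have hnn : 0 ≤ (z.im ^ s * EisensteinSeries.r z ^ (-(2 * s))) *
      ‖(finTwoArrowEquiv ℤ).symm v‖ ^ (-(2 * s)) :=
    mul_nonneg (mul_nonneg (Real.rpow_nonneg hy.le _) (Real.rpow_nonneg hr.le _))
      (Real.rpow_nonneg (norm_nonneg _) _)
  by_cases hv : (finTwoArrowEquiv ℤ).symm v = 0
  · have h3 : v = 0 := by
      have h4 : v = finTwoArrowEquiv ℤ 0 := by rw [← hv, Equiv.apply_symm_apply]
      rw [h4]; rfl
    have h5 : vz z v.1 v.2 = 0 := by
      rw [h3]
      unfold vz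
      simp
    rw [h5, p0, norm_zero]
    exact hnn
  · have h3 := EisensteinSeries.r_mul_max_le z hv
    have h4 := EisensteinSeries.summand_bound z (k := 2 * s) (by linarith)
      ((finTwoArrowEquiv ℤ).symm v)
    have h5 : (((finTwoArrowEquiv ℤ).symm v 0 : ℤ) : ℂ) * (z : ℂ) +
        (((finTwoArrowEquiv ℤ).symm v 1 : ℤ) : ℂ) = (v.1 : ℂ) * z + v.2 := rfl
    rw [h5] at h3 h4
    have hN : 0 < ‖(v.1 : ℂ) * z + v.2‖ :=
      lt_of_lt_of_le (mul_pos hr (norm_pos_iff.2 hv)) h3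
    have h6 : ‖vz z v.1 v.2‖ = ‖(v.1 : ℂ) * z + v.2‖ / Real.sqrt z.im := by
      unfold vz
      rw [norm_div, Complex.norm_real, Real.norm_of_nonneg hsq.le]
    have h7 : 0 < ‖vz z v.1 v.2‖ ^ 2 := by rw [h6]; positivity
    calc ‖phi l s (vz z v.1 v.2)‖ ≤ (1 + ‖vz z v.1 v.2‖ ^ 2) ^ (-s) := pb _
      _ ≤ (‖vz z v.1 v.2‖ ^ 2) ^ (-s) :=
          Real.rpow_le_rpow_of_nonpos h7 (by linarith) (by linarith)
      _ = z.im ^ s * ‖(v.1 : ℂ) * z + v.2‖ ^ (-(2 * s)) := by
          rw [h6, div_pow, Real.sq_sqrt hy.le, Real.div_rpow (by positivity) hy.le,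
            ← Real.rpow_natCast, ← Real.rpow_mul hN.le, Real.rpow_neg hy.le, div_inv_eq_mul,
            mul_comm]
          congr 2
          push_cast
          ring
      _ ≤ z.im ^ s * (EisensteinSeries.r z ^ (-(2 * s)) *
            ‖(finTwoArrowEquiv ℤ).symm v‖ ^ (-(2 * s))) :=
          mul_le_mul_of_nonneg_left h4 (Real.rpow_nonneg hy.le _)
      _ = _ := by rw [mul_assoc]

end Pool.Agent.Lib.MP_058a58_ag.MT
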